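import Pool.Agent.P.MP_a60a76_nt.SP.Res

namespace Pool.Agent.P.MP_a60a76_nt.SP

open Polynomial UpperHalfPlane PeriodPair
open scoped MatrixGroups UpperHalfPlane Matrix Modular Topology Classical

noncomputable section

/-- Apply a map to all coefficients. -/
def absLin {A B : Type*} [CommRing A] [CommRing B] (f : A → B) (p : A[X]) : B[X] :=
  ∑ i ∈ p.support, monomial i (f (p.coeff i))

theorem absLin_coeff {A B : Type*} [CommRing A] [CommRing B] (f : A → B) (hf : f 0 = 0)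
    (p : A[X]) (i : ℕ) : (absLin f p).coeff i = f (p.coeff i) := by
  unfold absLin
  rw [finsetSum_coeff]
  simp only [coeff_monomial]
  rw [Finset.sum_ite_eq' p.support i (fun j => f (p.coeff j))]
  split_ifs with h
  · rfl
  · rw [notMem_support_iff.1 h, hf]

theorem absLin_zero {A B : Type*} [CommRing A] [CommRing B] (f : A → B) :
    absLin f (0 : A[X]) = 0 := by
  simp [absLin]

theorem absLin_natDegree {A B : Type*} [CommRing A] [CommRing B] (f : A → B) (hf : f 0 = 0)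
    (p : A[X]) : (absLin f p).natDegree ≤ p.natDegree := by
  rw [natDegree_le_iff_coeff_eq_zero]
  intro i hi
  rw [absLin_coeff f hf, coeff_eq_zero_of_natDegree_lt hi, hf]

theorem absLin_eval (φ : ℂ →ₗ[ℚ] ℚ) (p : ℂ[X]) (x : ℚ) :
    (absLin φ p).eval x = φ (p.eval (x : ℂ)) := by
  rw [eval_eq_sum_range' (Nat.lt_succ_of_le (absLin_natDegree φ (map_zero φ) p)),
    eval_eq_sum_range, map_sum]
  refine Finset.sum_congr rfl fun i _ => ?_
  rw [absLin_coeff φ (map_zero φ)]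
  have h : p.coeff i * (x : ℂ) ^ i = (x ^ i) • p.coeff i := by
    rw [Rat.smul_def]
    push_cast
    ring
  rw [h, map_smul, smul_eq_mul, mul_comm]

theorem abs_evalEval_eq {K : Type*} [CommRing K] (P : K[X][X]) (n : ℕ) (hn : P.natDegree < n)
    (x y : K) : P.evalEval x y = ∑ i ∈ Finset.range n, (P.coeff i).eval x * y ^ i := by
  unfold evalEval
  rw [eval_eq_sum_range' hn, eval_finsetSum]
  refine Finset.sum_congr rfl fun i _ => ?_
  rw [eval_mul, eval_pow, eval_C]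

theorem absLin_evalEval (φ : ℂ →ₗ[ℚ] ℚ) (P : ℂ[X][X]) (x y : ℚ) :
    (absLin (absLin φ) P).evalEval x y = φ (P.evalEval (x : ℂ) (y : ℂ)) := by
  rw [abs_evalEval_eq _ _ (Nat.lt_succ_of_le (absLin_natDegree (absLin φ) (absLin_zero φ) P)),
    abs_evalEval_eq P _ (Nat.lt_succ_self _), map_sum]
  refine Finset.sum_congr rfl fun i _ => ?_
  rw [absLin_coeff _ (absLin_zero φ), absLin_eval]
  have h : (P.coeff i).eval (x : ℂ) * (y : ℂ) ^ i = (y ^ i) • (P.coeff i).eval (x : ℂ) := by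
    rw [Rat.smul_def]
    push_cast
    ring
  rw [h, map_smul, smul_eq_mul, mul_comm]

theorem abs_map_inj : Function.Injective (mapRingHom (algebraMap ℚ ℂ)) :=
  map_injective _ (algebraMap ℚ ℂ).injective

theorem abs_isUnit_of_map {A : ℚ[X][X]} (h : IsUnit (A.map (mapRingHom (algebraMap ℚ ℂ)))) :
    IsUnit A := by
  have h0 : A.natDegree = 0 := by
    rw [← natDegree_map_eq_of_injective abs_map_inj]
    exact natDegree_eq_zero_of_isUnit h
  rw [eq_C_of_natDegree_eq_zero h0] at h ⊢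
  rw [map_C, isUnit_C, coe_mapRingHom, isUnit_map] at h
  exact isUnit_C.2 h

theorem abs_irreducible_of_map {A : ℚ[X][X]}
    (h : Irreducible (A.map (mapRingHom (algebraMap ℚ ℂ)))) : Irreducible A := by
  refine ⟨fun hu => h.not_isUnit (hu.map (mapRingHom (mapRingHom (algebraMap ℚ ℂ)))), ?_⟩
  rintro a b rfl
  exact (h.isUnit_or_isUnit (Polynomial.map_mul _)).imp abs_isUnit_of_map abs_isUnit_of_map

theorem abs_evalEval_map (G : ℚ[X][X]) (x y : ℚ) :
    (G.map (mapRingHom (algebraMap ℚ ℂ))).evalEval (x : ℂ) (y : ℂ) = ((G.evalEval x y : ℚ) : ℂ) :=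
  map_mapRingHom_evalEval (algebraMap ℚ ℂ) G x y

theorem abs_key (D : ℕ) (P : ℂ[X][X]) (hP : Irreducible P) (hD : BDeg D P) :
    ∃ (t : Finset ℚ[X][X]) (S : Finset (ℚ × ℚ)), t.card ≤ 1 ∧ S.card ≤ 2 * D ^ 3 ∧
      (∀ Q ∈ t, Irreducible Q ∧ Irreducible (Q.map (mapRingHom (algebraMap ℚ ℂ))) ∧ BDeg D Q) ∧
      ∀ x y : ℚ, P.evalEval (x : ℂ) (y : ℂ) = 0 → (x, y) ∈ S ∨ ∃ Q ∈ t, Q.evalEval x y = 0 := by
  have hP0 : P ≠ 0 := hP.ne_zero
  have hc : P.leadingCoeff.leadingCoeff ≠ 0 :=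
    leadingCoeff_ne_zero.2 (leadingCoeff_ne_zero.2 hP0)
  obtain ⟨φ, hφ⟩ := Module.Projective.exists_dual_ne_zero ℚ hc
  set Q : ℚ[X][X] := absLin (absLin φ) P with hQ
  have hQc : ∀ i, Q.coeff i = absLin φ (P.coeff i) := fun i =>
    absLin_coeff _ (absLin_zero φ) P i
  have hQd : Q.natDegree ≤ P.natDegree := absLin_natDegree _ (absLin_zero φ) P
  have hQi : ∀ i, (Q.coeff i).natDegree ≤ (P.coeff i).natDegree := fun i => by
    rw [hQc]
    exact absLin_natDegree φ (map_zero φ) _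
  have hQD : BDeg D Q := ⟨hQd.trans hD.1, fun i => (hQi i).trans (hD.2 i)⟩
  have hQn : Q.coeff P.natDegree ≠ 0 := by
    intro h0
    have h1 : (Q.coeff P.natDegree).coeff P.leadingCoeff.natDegree = 0 := by
      rw [h0, coeff_zero]
    rw [hQc, absLin_coeff φ (map_zero φ)] at h1
    exact hφ h1
  have hQ0 : Q ≠ 0 := by
    intro h0
    rw [h0, coeff_zero] at hQn
    exact hQn rfl
  have hzero : ∀ x y : ℚ, P.evalEval (x : ℂ) (y : ℂ) = 0 → Q.evalEval x y = 0 := by
    intro x y h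
    rw [hQ, absLin_evalEval, h, map_zero]
  by_cases hdvd : P ∣ Q.map (mapRingHom (algebraMap ℚ ℂ))
  · obtain ⟨U, hU⟩ := hdvd
    have hQm : Q.map (mapRingHom (algebraMap ℚ ℂ)) ≠ 0 :=
      (Polynomial.map_ne_zero_iff abs_map_inj).2 hQ0
    have hU0 : U ≠ 0 := by
      rintro rfl
      rw [mul_zero] at hU
      exact hQm hU
    have hUd : U.natDegree = 0 := by
      have h1 := congrArg natDegree hU
      rw [natDegree_map_eq_of_injective abs_map_inj, natDegree_mul hP0 hU0] at h1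
      omega
    obtain ⟨u, rfl⟩ : ∃ u, U = C u := ⟨_, eq_C_of_natDegree_eq_zero hUd⟩
    have hu0 : u ≠ 0 := by
      rintro rfl
      exact hU0 C_0
    have hud : u.natDegree = 0 := by
      have h1 := congrArg (fun R : ℂ[X][X] => (R.coeff P.natDegree).natDegree) hU
      simp only [coeff_map, coeff_mul_C, coe_mapRingHom] at h1
      rw [natDegree_map, natDegree_mul (by
        rw [coeff_natDegree]
        exact leadingCoeff_ne_zero.2 hP0) hu0] at h1
      have h2 := hQi P.natDegree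
      omega
    have huu : IsUnit (C u : ℂ[X][X]) := by
      rw [isUnit_C, eq_C_of_natDegree_eq_zero hud, isUnit_C]
      refine IsUnit.mk0 _ fun h => hu0 ?_
      rw [eq_C_of_natDegree_eq_zero hud, h, C_0]
    have hirr : Irreducible (Q.map (mapRingHom (algebraMap ℚ ℂ))) := by
      rw [hU]
      exact (irreducible_mul_isUnit huu).2 hP
    refine ⟨{Q}, ∅, by simp, by simp, ?_, ?_⟩
    · intro R hR
      rw [Finset.mem_singleton.1 hR]
      exact ⟨abs_irreducible_of_map hirr, hirr, hQD⟩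
    · intro x y h
      exact Or.inr ⟨Q, Finset.mem_singleton_self _, hzero x y h⟩
  · obtain ⟨hfin, hcard⟩ := bezout hP hdvd hD (hQD.map (algebraMap ℚ ℂ))
    let ι : ℚ × ℚ → ℂ × ℂ := fun a => ((a.1 : ℂ), (a.2 : ℂ))
    have hι : Function.Injective ι := by
      rintro ⟨a, b⟩ ⟨c, d⟩ h
      have h1 : (a : ℂ) = c := congrArg Prod.fst h
      have h2 : (b : ℂ) = d := congrArg Prod.snd h
      rw [Rat.cast_inj.1 h1, Rat.cast_inj.1 h2]
    have hfin' := hfin.preimage (f := ι) hι.injOn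
    refine ⟨∅, hfin'.toFinset, by simp, ?_, by simp, ?_⟩
    · rw [← Set.ncard_eq_toFinset_card _ hfin']
      exact (Set.ncard_le_ncard_of_injOn ι (fun a ha => ha) hι.injOn hfin).trans hcard
    · intro x y h
      left
      rw [Set.Finite.mem_toFinset]
      refine ⟨h, ?_⟩
      change (Q.map (mapRingHom (algebraMap ℚ ℂ))).evalEval (x : ℂ) (y : ℂ) = 0
      rw [abs_evalEval_map, hzero x y h, Rat.cast_zero]

/-- Reduction to absolutely irreducible curves. -/
theorem abs_irred (D : ℕ) : ∃ C : ℕ, ∀ G : ℚ[X][X], G ≠ 0 → BDeg D G →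
    ∃ (s : Finset ℚ[X][X]) (S : Finset (ℚ × ℚ)), s.card ≤ C ∧ S.card ≤ C ∧
      (∀ P ∈ s, Irreducible P ∧ Irreducible (P.map (mapRingHom (algebraMap ℚ ℂ))) ∧ BDeg D P) ∧
      ∀ x y : ℚ, G.evalEval x y = 0 → (x, y) ∈ S ∨ ∃ P ∈ s, P.evalEval x y = 0 := by
  refine ⟨2 * D * (2 * D ^ 3 + 1), fun G hG hD => ?_⟩
  have hGm : G.map (mapRingHom (algebraMap ℚ ℂ)) ≠ 0 :=
    (Polynomial.map_ne_zero_iff abs_map_inj).2 hG
  have hDm := hD.map (algebraMap ℚ ℂ)
  obtain ⟨s, hs, hirr, hcov⟩ := exists_factors hGm hDm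
  have key : ∀ P : s, ∃ (t : Finset ℚ[X][X]) (S : Finset (ℚ × ℚ)), t.card ≤ 1 ∧
      S.card ≤ 2 * D ^ 3 ∧
      (∀ Q ∈ t, Irreducible Q ∧ Irreducible (Q.map (mapRingHom (algebraMap ℚ ℂ))) ∧ BDeg D Q) ∧
      ∀ x y : ℚ, (P : ℂ[X][X]).evalEval (x : ℂ) (y : ℂ) = 0 →
        (x, y) ∈ S ∨ ∃ Q ∈ t, Q.evalEval x y = 0 := fun P =>
    abs_key D P (hirr P P.2).1 (hDm.of_dvd hGm (hirr P P.2).2)
  choose t S ht hS hgood hz using key
  have hcard : (Finset.univ : Finset s).card ≤ 2 * D := by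
    rw [Finset.card_univ, Fintype.card_coe]
    exact hs
  refine ⟨Finset.univ.biUnion t, Finset.univ.biUnion S, ?_, ?_, ?_, ?_⟩
  · refine (Finset.card_biUnion_le_card_mul _ _ 1 fun P _ => ht P).trans ?_
    exact Nat.mul_le_mul hcard (Nat.le_add_left _ _)
  · refine (Finset.card_biUnion_le_card_mul _ _ _ fun P _ => hS P).trans ?_
    exact Nat.mul_le_mul hcard (Nat.le_add_right _ _)
  · intro Q hQ
    obtain ⟨P, -, hP⟩ := Finset.mem_biUnion.1 hQ
    exact hgood P Q hP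
  · intro x y h
    obtain ⟨P, hP, h0⟩ := hcov (x : ℂ) (y : ℂ) (by rw [abs_evalEval_map, h, Rat.cast_zero])
    rcases hz ⟨P, hP⟩ x y h0 with h1 | ⟨Q, hQ, h1⟩
    · exact Or.inl (Finset.mem_biUnion.2 ⟨⟨P, hP⟩, Finset.mem_univ _, h1⟩)
    · exact Or.inr ⟨Q, Finset.mem_biUnion.2 ⟨⟨P, hP⟩, Finset.mem_univ _, hQ⟩, h1⟩

theorem abs_swap_eval {A L : Type*} [CommRing A] [CommRing L] (g : A →+* L) (y w : L)
    (F : A[X][X]) :
    ((Bivariate.swap F).map (eval₂RingHom g w)).eval y = (F.map (eval₂RingHom g y)).eval w := by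
  induction F using Polynomial.induction_on' with
  | add p q hp hq => rw [map_add, Polynomial.map_add, Polynomial.map_add, eval_add, eval_add, hp, hq]
  | monomial n a =>
    have hcomp : (eval₂RingHom g w).comp C = g := by
      ext r
      simp
    rw [Bivariate.swap_monomial, Polynomial.map_mul, map_map, hcomp, map_C, eval_mul, eval_C,
      map_monomial, eval_monomial, eval_map, coe_eval₂RingHom, coe_eval₂RingHom, eval₂_X_pow]

theorem abs_aeval_eq (x y : ℂ) :
    (aevalAeval x y : ℚ[X][X] →ₐ[ℚ] ℂ).toRingHom =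
      eval₂RingHom (aeval x : ℚ[X] →ₐ[ℚ] ℂ).toRingHom y := by
  refine Polynomial.ringHom_ext (fun a => ?_) ?_
  · rw [coe_eval₂RingHom, eval₂_C]
    exact aevalAeval_C x y a
  · rw [coe_eval₂RingHom, eval₂_X]
    exact aevalAeval_Y x y

theorem abs_exists_bdeg (F : ℚ[X][X][X]) :
    ∃ D, F.natDegree ≤ D ∧ ∀ i, BDeg D (F.coeff i) := by
  choose d hd using fun i => exists_bdeg (F.coeff i)
  refine ⟨F.natDegree + ∑ i ∈ Finset.range (F.natDegree + 1), d i, Nat.le_add_right _ _,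
    fun i => ?_⟩
  by_cases hi : i ≤ F.natDegree
  · refine (hd i).mono (le_trans ?_ (Nat.le_add_left _ _))
    exact Finset.single_le_sum (f := d) (fun _ _ => Nat.zero_le _)
      (Finset.mem_range.2 (Nat.lt_succ_of_le hi))
  · rw [coeff_eq_zero_of_natDegree_lt (not_le.1 hi)]
    exact ⟨by simp, by simp⟩

/-- Elimination of the second variable. -/
theorem elim (F : ℚ[X][X][X]) (hF : F.Monic) (m : ℕ) : ∃ D : ℕ, ∀ G : ℚ[X][X],
    1 ≤ G.natDegree → BDeg m G → ∃ R : ℚ[X][X], R ≠ 0 ∧ BDeg D R ∧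
      (∀ x y w : ℚ, G.evalEval x y = 0 → (F.map (evalEvalRingHom x y)).eval w = 0 →
        R.evalEval x w = 0) ∧
      ∃ S : Finset ℂ, ∀ x : ℂ, x ∉ S → ∀ ω : ℂ, aevalAeval x ω R = 0 →
        ∃ y : ℂ, aevalAeval x y G = 0 ∧
          (F.map (aevalAeval x y : ℚ[X][X] →ₐ[ℚ] ℂ).toRingHom).eval ω = 0 := by
  set F' : ℚ[X][X][X] := Bivariate.swap (R := ℚ[X]) F with hF'
  obtain ⟨D₀, hD₀, hD₀'⟩ := abs_exists_bdeg F'
  refine ⟨2 * (m + D₀) ^ 2, fun G hG1 hGm => ?_⟩
  set G' : ℚ[X][X][X] := G.map (C : ℚ[X] →+* ℚ[X][X]) with hG'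
  have hG'd : G'.natDegree = G.natDegree := natDegree_map_eq_of_injective C_injective G
  have hG0 : G ≠ 0 := by
    rintro rfl
    simp at hG1
  have hlc : (G.leadingCoeff.map (algebraMap ℚ ℂ)) ≠ 0 :=
    (Polynomial.map_ne_zero_iff (algebraMap ℚ ℂ).injective).2 (leadingCoeff_ne_zero.2 hG0)
  have hmain : ∀ x : ℂ, x ∉ (G.leadingCoeff.map (algebraMap ℚ ℂ)).roots.toFinset →
      G.map (aeval x : ℚ[X] →ₐ[ℚ] ℂ).toRingHom ≠ 0 ∧
      ∀ ω : ℂ, aevalAeval x ω (resultant G' F') = 0 →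
        ∃ y ∈ (G.map (aeval x : ℚ[X] →ₐ[ℚ] ℂ).toRingHom).roots,
          (F.map (aevalAeval x y : ℚ[X][X] →ₐ[ℚ] ℂ).toRingHom).eval ω = 0 := by
    intro x hx
    set g : ℚ[X] →+* ℂ := (aeval x : ℚ[X] →ₐ[ℚ] ℂ).toRingHom with hg
    have hx' : g G.leadingCoeff ≠ 0 := by
      intro h
      apply hx
      rw [Multiset.mem_toFinset, mem_roots hlc, IsRoot.def, eval_map, ← aeval_def]
      exact h
    have hdeg : (G.map g).natDegree = G.natDegree := natDegree_map_of_leadingCoeff_ne_zero g hx'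
    have hne : G.map g ≠ 0 := by
      intro h
      rw [h, natDegree_zero] at hdeg
      omega
    refine ⟨hne, fun ω hω => ?_⟩
    have hcomp : (eval₂RingHom g ω).comp C = g := by
      refine RingHom.ext fun r => ?_
      rw [RingHom.comp_apply, coe_eval₂RingHom, eval₂_C]
    have h1 : (eval₂RingHom g ω) (resultant G' F') = 0 := by
      rw [hg, ← abs_aeval_eq]
      exact hω
    rw [← resultant_map_map, hG'd, hG', map_map, hcomp, ← hdeg,
      resultant_eq_prod_eval _ _ _ natDegree_map_le (IsAlgClosed.splits _)] at h1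
    rcases mul_eq_zero.1 h1 with h2 | h2
    · exact absurd (eq_zero_of_pow_eq_zero h2) (leadingCoeff_ne_zero.2 hne)
    · rw [Multiset.prod_eq_zero_iff, Multiset.mem_map] at h2
      obtain ⟨y, hy, h3⟩ := h2
      refine ⟨y, hy, ?_⟩
      rw [abs_aeval_eq, ← abs_swap_eval]
      exact h3
  refine ⟨resultant G' F', ?_, ?_, ?_, ?_⟩
  · intro h0
    obtain ⟨x, hx⟩ := Infinite.exists_notMem_finset
      (G.leadingCoeff.map (algebraMap ℚ ℂ)).roots.toFinset
    obtain ⟨-, h⟩ := hmain x hx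
    obtain ⟨ω, hω⟩ := Infinite.exists_notMem_finset
      ((G.map (aeval x : ℚ[X] →ₐ[ℚ] ℂ).toRingHom).roots.toFinset.biUnion fun y =>
        (F.map (aevalAeval x y : ℚ[X][X] →ₐ[ℚ] ℂ).toRingHom).roots.toFinset)
    obtain ⟨y, hy, h1⟩ := h ω (by rw [h0, map_zero])
    apply hω
    refine Finset.mem_biUnion.2 ⟨y, Multiset.mem_toFinset.2 hy, ?_⟩
    rw [Multiset.mem_toFinset, mem_roots (hF.map _).ne_zero]
    exact h1
  · refine bdeg_resultant (by rw [hG'd]; exact hGm.1.trans (Nat.le_add_right _ _)) (fun i => ?_)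
      (hD₀.trans (Nat.le_add_left _ _)) fun i => (hD₀' i).mono (Nat.le_add_left _ _)
    rw [hG', coeff_map]
    refine ⟨by simp, fun j => ?_⟩
    rw [coeff_C]
    split_ifs
    · exact (hGm.2 i).trans (Nat.le_add_right _ _)
    · simp
  · intro x y w h1 h2
    refine map_resultant_eq_zero (evalEvalRingHom x w) (u := y) (by rw [hG'd]; exact hG1) ?_ ?_
    · have hcomp : (evalEvalRingHom x w).comp C = evalRingHom x := by
        refine RingHom.ext fun r => ?_
        exact evalEval_C x w r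
      rw [hG', map_map, hcomp, map_evalRingHom_eval]
      exact h1
    · rw [evalEvalRingHom_eq] at h2 ⊢
      rw [hF', abs_swap_eval]
      exact h2
  · refine ⟨(G.leadingCoeff.map (algebraMap ℚ ℂ)).roots.toFinset, fun x hx ω hω => ?_⟩
    obtain ⟨hne, h⟩ := hmain x hx
    obtain ⟨y, hy, h1⟩ := h ω hω
    refine ⟨y, ?_, h1⟩
    rw [mem_roots hne, IsRoot.def, eval_map] at hy
    have h2 := abs_aeval_eq x y
    have h3 : (aevalAeval x y : ℚ[X][X] →ₐ[ℚ] ℂ).toRingHom G = 0 := by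
      rw [h2]
      exact hy
    exact h3

theorem abs_num_eq (q : ℚ) : ((q.num.natAbs : ℕ) : ℚ) = |q| * q.den := by
  rw [Nat.cast_natAbs, Int.cast_abs, ← Rat.mul_den_eq_num, abs_mul, Nat.abs_cast]

theorem abs_ht_den {q : ℚ} {M : ℕ} (h : ht q ≤ M) : q.den ≤ M := (le_max_right _ _).trans h

theorem abs_ht_num {q : ℚ} {M : ℕ} (h : ht q ≤ M) : |q| * q.den ≤ M := by
  rw [← abs_num_eq]
  exact_mod_cast (le_max_left _ _).trans h

theorem abs_ht_abs {q : ℚ} {M : ℕ} (h : ht q ≤ M) : |q| ≤ M := by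
  have h1 : (1 : ℚ) ≤ q.den := by exact_mod_cast q.pos
  have h2 := abs_ht_num h
  nlinarith [abs_nonneg q]

theorem abs_ht_le {q : ℚ} {d M : ℕ} (h1 : q.den ≤ d) (h2 : d ≤ M) (h3 : |q| * d ≤ M) :
    ht q ≤ M := by
  refine max_le ?_ (h1.trans h2)
  have h4 : ((q.num.natAbs : ℕ) : ℚ) ≤ M := by
    rw [abs_num_eq]
    refine le_trans (mul_le_mul_of_nonneg_left ?_ (abs_nonneg q)) h3
    exact_mod_cast h1
  exact_mod_cast h4

theorem abs_ht_add {p q : ℚ} {A B : ℕ} (hp : ht p ≤ A) (hq : ht q ≤ B) :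
    ht (p + q) ≤ 2 * (A * B) := by
  refine abs_ht_le (Nat.le_of_dvd (Nat.mul_pos p.pos q.pos) (Rat.add_den_dvd p q)) ?_ ?_
  · have := Nat.mul_le_mul (abs_ht_den hp) (abs_ht_den hq)
    omega
  · have h1 := abs_ht_num hp
    have h2 := abs_ht_num hq
    have h3 : (p.den : ℚ) ≤ A := by exact_mod_cast abs_ht_den hp
    have h4 : (q.den : ℚ) ≤ B := by exact_mod_cast abs_ht_den hq
    have h5 : (|p| * p.den) * q.den ≤ A * B :=
      mul_le_mul h1 h4 (Nat.cast_nonneg _) (Nat.cast_nonneg _)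
    have h6 : p.den * (|q| * q.den) ≤ A * B :=
      mul_le_mul h3 h2 (by positivity) (Nat.cast_nonneg _)
    have h7 : |p + q| * (p.den * q.den) ≤ (|p| + |q|) * (p.den * q.den) :=
      mul_le_mul_of_nonneg_right (abs_add_le p q) (by positivity)
    push_cast
    nlinarith

theorem abs_ht_mul {p q : ℚ} {A B : ℕ} (hp : ht p ≤ A) (hq : ht q ≤ B) :
    ht (p * q) ≤ A * B := by
  refine abs_ht_le (Nat.le_of_dvd (Nat.mul_pos p.pos q.pos) (Rat.mul_den_dvd p q))
    (Nat.mul_le_mul (abs_ht_den hp) (abs_ht_den hq)) ?_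
  have h5 : (|p| * p.den) * (|q| * q.den) ≤ A * B :=
    mul_le_mul (abs_ht_num hp) (abs_ht_num hq) (by positivity) (Nat.cast_nonneg _)
  rw [abs_mul]
  push_cast
  nlinarith

/-- Values have polynomially bounded height. -/
def absGood (a : ℚ[X][X]) : Prop :=
  ∃ k : ℕ, ∀ N : ℕ, 2 ≤ N → ∀ x y : ℚ, ht x ≤ N → ht y ≤ N → ht (a.evalEval x y) ≤ N ^ k

theorem absGood_add {a b : ℚ[X][X]} (ha : absGood a) (hb : absGood b) : absGood (a + b) := by
  obtain ⟨k, hk⟩ := ha
  obtain ⟨l, hl⟩ := hb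
  refine ⟨k + l + 1, fun N hN x y hx hy => ?_⟩
  rw [evalEval_add, pow_succ', pow_add]
  exact (abs_ht_add (hk N hN x y hx hy) (hl N hN x y hx hy)).trans (Nat.mul_le_mul_right _ hN)

theorem absGood_mul {a b : ℚ[X][X]} (ha : absGood a) (hb : absGood b) : absGood (a * b) := by
  obtain ⟨k, hk⟩ := ha
  obtain ⟨l, hl⟩ := hb
  refine ⟨k + l, fun N hN x y hx hy => ?_⟩
  rw [evalEval_mul, pow_add]
  exact abs_ht_mul (hk N hN x y hx hy) (hl N hN x y hx hy)

theorem absGood_all (a : ℚ[X][X]) : absGood a := by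
  have hX : absGood (X : ℚ[X][X]) := ⟨1, fun N _ x y _ hy => by
    rw [evalEval_X, pow_one]
    exact hy⟩
  have hCX : absGood (C X : ℚ[X][X]) := ⟨1, fun N _ x y hx _ => by
    rw [evalEval_C, eval_X, pow_one]
    exact hx⟩
  have hC : ∀ p : ℚ[X], absGood (C p) := by
    intro p
    induction p using Polynomial.induction_on with
    | C r =>
      refine ⟨ht r, fun N hN x y _ _ => ?_⟩
      rw [evalEval_C, eval_C]
      exact (Nat.lt_pow_self (by omega)).le
    | add p q hp hq =>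
      rw [C_add]
      exact absGood_add hp hq
    | monomial n r h =>
      rw [pow_succ, ← mul_assoc, C_mul]
      exact absGood_mul h hCX
  induction a using Polynomial.induction_on with
  | C p => exact hC p
  | add p q hp hq => exact absGood_add hp hq
  | monomial n r h =>
    rw [pow_succ, ← mul_assoc]
    exact absGood_mul h hX

theorem abs_root (f : ℚ[X]) (hf : f.Monic) (M : ℕ) (hM : ∀ i, ht (f.coeff i) ≤ M) (w : ℚ)
    (hw : f.eval w = 0) : ht w ≤ (M + 1) * M ^ (f.natDegree + 1) := by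
  set q : ℕ := ∏ i ∈ Finset.range (f.natDegree + 1), (f.coeff i).den with hq
  have hqpos : 0 < q := Finset.prod_pos fun i _ => (f.coeff i).pos
  have hqM : q ≤ M ^ (f.natDegree + 1) := by
    have := Finset.prod_le_pow_card (Finset.range (f.natDegree + 1)) (fun i => (f.coeff i).den) M
      fun i _ => abs_ht_den (hM i)
    rwa [Finset.card_range] at this
  have hlift : C (q : ℚ) * f ∈ lifts (algebraMap ℤ ℚ) := by
    rw [lifts_iff_coeff_lifts]
    intro i
    rw [coeff_C_mul]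
    by_cases hi : i ≤ f.natDegree
    · obtain ⟨c, hc⟩ : (f.coeff i).den ∣ q :=
        Finset.dvd_prod_of_mem (fun i => (f.coeff i).den)
          (Finset.mem_range.2 (Nat.lt_succ_of_le hi))
      refine ⟨(f.coeff i).num * c, ?_⟩
      rw [hc, eq_intCast]
      push_cast
      rw [← Rat.mul_den_eq_num]
      ring
    · rw [coeff_eq_zero_of_natDegree_lt (not_le.1 hi), mul_zero]
      exact ⟨0, map_zero _⟩
  obtain ⟨g, hg⟩ := (lifts_iff_set_range _).1 hlift
  have hroot : aeval w g = 0 := by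
    rw [aeval_def, ← eval_map, hg, eval_mul, hw, mul_zero]
  have hlc : g.leadingCoeff = (q : ℤ) := by
    have h1 := leadingCoeff_map_of_injective (f := algebraMap ℤ ℚ)
      (RingHom.injective_int _) g
    rw [hg, leadingCoeff_mul, leadingCoeff_C, hf.leadingCoeff, mul_one, eq_intCast] at h1
    exact_mod_cast h1.symm
  have hden : w.den ∣ q := by
    have h1 := den_dvd_of_is_root hroot
    rw [hlc] at h1
    have h2 := Int.natAbs_dvd_natAbs.2 h1
    rwa [Rat.isFractionRingDen, Int.natAbs_natCast] at h2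
  have habs : |w| ≤ M + 1 := by
    have h1 := IsRoot.norm_lt_cauchyBound hf.ne_zero (a := w) hw
    have h2 : cauchyBound f ≤ (M : NNReal) + 1 := by
      unfold cauchyBound
      rw [hf.leadingCoeff, nnnorm_one, div_one]
      refine add_le_add_left (Finset.sup_le fun i _ => ?_) _
      rw [← NNReal.coe_le_coe, coe_nnnorm, ← Rat.norm_cast_real, Real.norm_eq_abs]
      have h3 : ((|f.coeff i| : ℚ) : ℝ) ≤ ((M : ℚ) : ℝ) := Rat.cast_le.2 (abs_ht_abs (hM i))
      rw [Rat.cast_abs, Rat.cast_natCast] at h3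
      exact h3
    have h3 := (h1.trans_le h2).le
    rw [← NNReal.coe_le_coe, coe_nnnorm, ← Rat.norm_cast_real, Real.norm_eq_abs] at h3
    push_cast at h3
    exact_mod_cast h3
  refine abs_ht_le (Nat.le_of_dvd hqpos hden) (hqM.trans (Nat.le_mul_of_pos_left _
    (Nat.succ_pos M))) ?_
  have h4 : (q : ℚ) ≤ (M : ℚ) ^ (f.natDegree + 1) := by exact_mod_cast hqM
  push_cast
  exact mul_le_mul habs h4 (Nat.cast_nonneg _) (by positivity)

/-- Height of a rational root of a monic polynomial. -/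
theorem ht_root (F : ℚ[X][X][X]) (hF : F.Monic) : ∃ A : ℕ, ∀ N : ℕ, 2 ≤ N → ∀ x y w : ℚ,
    ht x ≤ N → ht y ≤ N → (F.map (evalEvalRingHom x y)).eval w = 0 → ht w ≤ N ^ A := by
  choose k hk using fun i => absGood_all (F.coeff i)
  set K : ℕ := ∑ i ∈ Finset.range (F.natDegree + 1), k i with hK
  refine ⟨K + 1 + K * (F.natDegree + 1), fun N hN x y w hx hy hw => ?_⟩
  have hN1 : 1 ≤ N := by omega
  have hM : ∀ i, ht ((F.map (evalEvalRingHom x y)).coeff i) ≤ N ^ K := by
    intro i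
    rw [coeff_map]
    by_cases hi : i ≤ F.natDegree
    · refine (hk i N hN x y hx hy).trans (Nat.pow_le_pow_right hN1 ?_)
      exact Finset.single_le_sum (f := k) (fun _ _ => Nat.zero_le _)
        (Finset.mem_range.2 (Nat.lt_succ_of_le hi))
    · rw [coeff_eq_zero_of_natDegree_lt (not_le.1 hi), map_zero]
      have h1 : ht 0 = 1 := by simp [ht]
      rw [h1]
      exact Nat.one_le_pow _ _ hN1
  have h := abs_root _ (hF.map _) _ hM w hw
  rw [hF.natDegree_map] at h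
  refine h.trans ?_
  rw [pow_add N (K + 1), pow_mul]
  refine Nat.mul_le_mul_right _ ?_
  have h1 : 1 ≤ N ^ K := Nat.one_le_pow _ _ hN1
  have h2 : N ^ K * 2 ≤ N ^ K * N := Nat.mul_le_mul_left _ hN
  rw [pow_succ]
  omega

theorem finite_ht (N : ℕ) : {x : ℚ | ht x ≤ N}.Finite := by
  refine Set.Finite.of_finite_image (f := fun x : ℚ => (x.num, x.den))
    (((Set.finite_Icc (-(N : ℤ)) N).prod (Set.finite_Iic N)).subset ?_) ?_
  · rintro _ ⟨x, hx, rfl⟩
    have h1 : x.num.natAbs ≤ N := (le_max_left _ _).trans hx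
    exact ⟨⟨by simp only; omega, by simp only; omega⟩, abs_ht_den hx⟩
  · intro x _ y _ h
    exact Rat.ext (congrArg Prod.fst h) (congrArg Prod.snd h)

end

end Pool.Agent.P.MP_a60a76_nt.SP
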