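import Pool.Agent.P.MP_a60a76_nt.SP.Defs

/-! Auxiliary lemmas for the uniform Bombieri-Pila bound. -/

namespace Pool.Agent.P.MP_a60a76_nt.SP

open Polynomial
open scoped Matrix Classical

noncomputable section

namespace BPA

attribute [local instance] Matrix.seminormedAddCommGroup

/-- A small integral vector orthogonal to a family of small integral vectors. -/
theorem small_kernel {ι : Type} [Fintype ι] (S : Set (ι → ℤ)) (B : ℕ) (hB1 : 1 ≤ B)
    (hB : ∀ v ∈ S, ∀ i, (v i).natAbs ≤ B) (c : ι → ℚ) (hc : c ≠ 0)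
    (ho : ∀ v ∈ S, ∑ i, c i * v i = 0) :
    ∃ t : ι → ℤ, t ≠ 0 ∧ (∀ i, (t i).natAbs ≤ (Fintype.card ι * B) ^ Fintype.card ι) ∧
      ∀ v ∈ S, ∑ i, t i * v i = 0 := by
  have hne : Nonempty ι := by
    by_contra h
    rw [not_nonempty_iff] at h
    exact hc (Subsingleton.elim _ _)
  have hcard : 1 ≤ Fintype.card ι := Fintype.card_pos
  set cast : (ι → ℤ) → (ι → ℚ) := fun v i => (v i : ℚ) with hcast
  obtain ⟨b, hbS, hspan, hli⟩ := exists_linearIndependent ℚ (cast '' S)
  let φ : (ι → ℚ) →ₗ[ℚ] ℚ :=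
    { toFun := fun v => ∑ i, c i * v i
      map_add' := by intro x y; simp [mul_add, Finset.sum_add_distrib]
      map_smul' := by
        intro a x
        simp only [Pi.smul_apply, smul_eq_mul, RingHom.id_apply, Finset.mul_sum]
        exact Finset.sum_congr rfl fun i _ => by ring }
  have hbfin : b.Finite := hli.setFinite
  have : Fintype b := hbfin.fintype
  have hlt : Fintype.card b < Fintype.card ι := by
    have h1 : Submodule.span ℚ b ≤ LinearMap.ker φ := by
      rw [Submodule.span_le]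
      intro v hv
      obtain ⟨w, hw, rfl⟩ := hbS hv
      exact ho w hw
    have h2 : LinearMap.ker φ ≠ ⊤ := by
      intro h
      apply hc
      funext i
      have : φ (Pi.single i 1) = 0 := by
        have : Pi.single i (1 : ℚ) ∈ LinearMap.ker φ := by rw [h]; trivial
        exact this
      simpa [φ, Pi.single_apply] using this
    have h3 := Submodule.finrank_lt h2
    have h4 := Submodule.finrank_mono h1
    have h5 : Module.finrank ℚ (Submodule.span ℚ b) = Fintype.card b := by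
      have := finrank_span_eq_card hli
      rwa [Subtype.range_coe] at this
    rw [Module.finrank_pi] at h3
    omega
  have key : ∀ t : ι → ℤ, (∀ v ∈ b, ∑ i, (t i : ℚ) * v i = 0) → ∀ v ∈ S, ∑ i, t i * v i = 0 := by
    intro t ht v hv
    have hm : cast v ∈ Submodule.span ℚ b := by
      rw [hspan]; exact Submodule.subset_span ⟨v, hv, rfl⟩
    have : ∑ i, (t i : ℚ) * cast v i = 0 := by
      refine Submodule.span_induction (p := fun w _ => ∑ i, (t i : ℚ) * w i = 0) ht ?_ ?_ ?_ hm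
      · simp
      · intro x y _ _ hx hy
        simp only [Pi.add_apply, mul_add, Finset.sum_add_distrib, hx, hy, add_zero]
      · intro a x _ hx
        have : ∑ i, (t i : ℚ) * (a • x) i = a * ∑ i, (t i : ℚ) * x i := by
          rw [Finset.mul_sum]
          exact Finset.sum_congr rfl fun i _ => by simp only [Pi.smul_apply, smul_eq_mul]; ring
        rw [this, hx, mul_zero]
    simp only [hcast] at this
    exact_mod_cast this
  have hpos : 1 ≤ (Fintype.card ι * B) ^ Fintype.card ι :=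
    Nat.one_le_pow _ _ (Nat.mul_pos hcard hB1)
  rcases Nat.eq_zero_or_pos (Fintype.card b) with h0 | h0
  · obtain ⟨i0⟩ := hne
    refine ⟨Pi.single i0 1, ?_, ?_, key _ ?_⟩
    · intro h
      have := congrFun h i0
      simp at this
    · intro i
      by_cases hi : i = i0
      · subst hi; simpa using hpos
      · simp [hi]
    · intro v hv
      have : IsEmpty b := Fintype.card_eq_zero_iff.mp h0
      exact (this.false ⟨v, hv⟩).elim
  · have hw : ∀ v : b, ∃ w ∈ S, cast w = v := fun v => hbS v.2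
    choose w hwS hwv using hw
    let M : Matrix b ι ℤ := fun v i => w v i
    obtain ⟨t, ht0, htM, htn⟩ := Int.Matrix.exists_ne_zero_int_vec_norm_le M hlt h0
    refine ⟨t, ht0, ?_, key t ?_⟩
    · intro i
      have hM : ‖M‖ ≤ B := by
        rw [Matrix.norm_le_iff (by positivity)]
        intro v j
        have := hB _ (hwS v) j
        rw [Int.norm_eq_abs, ← Int.cast_abs, ← Nat.cast_natAbs]
        exact_mod_cast this
      have hB' : (1 : ℝ) ≤ B := by exact_mod_cast hB1
      have hc' : (1 : ℝ) ≤ Fintype.card ι := by exact_mod_cast hcard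
      have h1 : (Fintype.card ι : ℝ) * max 1 ‖M‖ ≤ Fintype.card ι * B :=
        mul_le_mul_of_nonneg_left (max_le hB' hM) (by positivity)
      have h2 : (1 : ℝ) ≤ Fintype.card ι * max 1 ‖M‖ :=
        one_le_mul_of_one_le_of_one_le hc' (le_max_left _ _)
      have h3 : (Fintype.card b : ℝ) / (Fintype.card ι - Fintype.card b) ≤ Fintype.card ι := by
        have : (Fintype.card b : ℝ) + 1 ≤ Fintype.card ι := by exact_mod_cast hlt
        rw [div_le_iff₀ (by linarith)]
        nlinarith [Nat.cast_nonneg (α := ℝ) (Fintype.card b)]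
      have h4 : ‖t‖ ≤ ((Fintype.card ι : ℝ) * B) ^ (Fintype.card ι : ℝ) :=
        htn.trans ((Real.rpow_le_rpow_of_exponent_le h2 h3).trans
          (Real.rpow_le_rpow (by positivity) h1 (by positivity)))
      have h5 : ‖t i‖ ≤ ‖t‖ := norm_le_pi_norm t i
      rw [Real.rpow_natCast] at h4
      rw [Int.norm_eq_abs, ← Int.cast_abs, ← Nat.cast_natAbs] at h5
      exact_mod_cast h5.trans h4
    · intro v hv
      have h1 := congrFun htM ⟨v, hv⟩
      have h2 := hwv ⟨v, hv⟩
      simp only [Matrix.mulVec, dotProduct, M, Pi.zero_apply] at h1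
      have h3 : ∑ i, (t i : ℚ) * v i = ((∑ i, w ⟨v, hv⟩ i * t i : ℤ) : ℚ) := by
        push_cast
        refine Finset.sum_congr rfl fun i _ => ?_
        have := congrFun h2 i
        simp only [hcast] at this
        rw [this]; ring
      rw [h3, h1]; simp

/-- The bivariate polynomial with a given table of coefficients. -/
def mk {K : Type*} [CommRing K] {a b : ℕ} (c : Fin a × Fin b → K) : K[X][X] :=
  ∑ p, monomial p.2 (monomial p.1 (c p))

theorem mk_coeff {K : Type*} [CommRing K] {a b : ℕ} (c : Fin a × Fin b → K) (i j : ℕ) :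
    ((mk c).coeff i).coeff j = if h : j < a ∧ i < b then c (⟨j, h.1⟩, ⟨i, h.2⟩) else 0 := by
  simp only [mk, finsetSum_coeff, coeff_monomial]
  split_ifs with h
  · rw [Finset.sum_eq_single (⟨j, h.1⟩, ⟨i, h.2⟩)]
    · simp
    · rintro ⟨p, q⟩ _ hne
      by_cases hq : (q : ℕ) = i
      · simp only [hq, if_true, coeff_monomial]
        rw [if_neg]
        intro hp
        apply hne
        ext <;> simp [hp, hq]
      · simp [hq]
    · simp
  · refine Finset.sum_eq_zero ?_
    rintro ⟨p, q⟩ _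
    by_cases hq : (q : ℕ) = i
    · simp only [hq, if_true, coeff_monomial]
      rw [if_neg]
      intro hp
      exact h ⟨hp ▸ p.2, hq ▸ q.2⟩
    · simp [hq]

theorem mk_ne_zero {K : Type*} [CommRing K] {a b : ℕ} {c : Fin a × Fin b → K} (hc : c ≠ 0) :
    mk c ≠ 0 := by
  intro h
  apply hc
  funext p
  have := mk_coeff c p.2 p.1
  rw [h, dif_pos ⟨p.1.2, p.2.2⟩] at this
  simpa using this.symm

theorem mk_natDegree {K : Type*} [CommRing K] {a b : ℕ} (c : Fin a × Fin (b + 1) → K) :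
    (mk c).natDegree ≤ b := by
  rw [natDegree_le_iff_coeff_eq_zero]
  intro i hi
  ext j
  rw [mk_coeff, dif_neg (by omega)]
  simp

theorem mk_coeff_natDegree {K : Type*} [CommRing K] {a b : ℕ} (c : Fin (a + 1) × Fin b → K)
    (i : ℕ) : ((mk c).coeff i).natDegree ≤ a := by
  rw [natDegree_le_iff_coeff_eq_zero]
  intro j hj
  rw [mk_coeff, dif_neg (by omega)]

theorem mk_evalEval {K : Type*} [CommRing K] {a b : ℕ} (c : Fin a × Fin b → K) (x u : K) :
    (mk c).evalEval x u = ∑ p, c p * (x ^ (p.1 : ℕ) * u ^ (p.2 : ℕ)) := by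
  simp only [mk, evalEval_finsetSum]
  refine Finset.sum_congr rfl fun p _ => ?_
  simp [evalEval, eval_monomial, mul_assoc]

theorem eq_mk {K : Type*} [CommRing K] {a b : ℕ} (G : K[X][X]) (hb : G.natDegree ≤ b)
    (ha : ∀ i, (G.coeff i).natDegree ≤ a) :
    G = mk (fun p : Fin (a + 1) × Fin (b + 1) => (G.coeff p.2).coeff p.1) := by
  ext i j
  rw [mk_coeff]
  split_ifs with h
  · rfl
  · by_cases hi : i < b + 1
    · exact coeff_eq_zero_of_natDegree_lt (by have := ha i; omega)
    · rw [coeff_eq_zero_of_natDegree_lt (by omega : G.natDegree < i)]; simp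

/-- Evaluation of an integral bivariate polynomial in any ring. -/
def ev {K : Type*} [CommRing K] (G : ℤ[X][X]) (x u : K) : K :=
  (G.map (eval₂RingHom (Int.castRingHom K) x)).eval u

theorem ev_eq {K : Type*} [CommRing K] (G : ℤ[X][X]) (x u : K) :
    ev G x u = (G.map (mapRingHom (Int.castRingHom K))).evalEval x u := by
  rw [ev, eval_map, eval₂_eval₂RingHom_apply]

theorem map_ev {K L : Type*} [CommRing K] [CommRing L] (φ : K →+* L) (G : ℤ[X][X]) (x u : K) :
    φ (ev G x u) = ev G (φ x) (φ u) := by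
  rw [ev, ev, eval_map, eval_map, hom_eval₂]
  congr 1
  ext <;> simp

theorem ev_sum {K : Type*} [CommRing K] {D : ℕ} {G : ℤ[X][X]} (hG : BDeg D G) (x u : K) :
    ev G x u = ∑ p : Fin (D + 1) × Fin (D + 1),
      (((G.coeff p.2).coeff p.1 : ℤ) : K) * (x ^ (p.1 : ℕ) * u ^ (p.2 : ℕ)) := by
  rw [ev_eq]
  have h1 : (G.map (mapRingHom (Int.castRingHom K))).natDegree ≤ D := natDegree_map_le.trans hG.1
  have h2 : ∀ i, ((G.map (mapRingHom (Int.castRingHom K))).coeff i).natDegree ≤ D := by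
    intro i
    rw [coeff_map]
    exact natDegree_map_le.trans (hG.2 i)
  rw [eq_mk _ h1 h2, mk_evalEval]
  simp

/-- The cleared monomial. -/
def mon (a b : ℕ) (x u : ℚ) (j i : ℕ) : ℤ :=
  x.num ^ j * (x.den : ℤ) ^ (a - j) * (u.num ^ i * (u.den : ℤ) ^ (b - i))

theorem mon_cast {K : Type*} [CommRing K] {a b : ℕ} {x u : ℚ} {x' u' : K}
    (hx : (x.den : K) * x' = x.num) (hu : (u.den : K) * u' = u.num) {j i : ℕ} (hj : j ≤ a)
    (hi : i ≤ b) :
    (mon a b x u j i : K) = (x.den : K) ^ a * (u.den : K) ^ b * (x' ^ j * u' ^ i) := by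
  obtain ⟨a', rfl⟩ := Nat.exists_eq_add_of_le hj
  obtain ⟨b', rfl⟩ := Nat.exists_eq_add_of_le hi
  simp only [mon, Nat.add_sub_cancel_left]
  push_cast
  rw [← hx, ← hu]
  ring

theorem num_le {x : ℚ} {N : ℕ} (h : ht x ≤ N) : x.num.natAbs ≤ N := (le_max_left _ _).trans h

theorem den_le {x : ℚ} {N : ℕ} (h : ht x ≤ N) : x.den ≤ N := (le_max_right _ _).trans h

theorem mon_le {a b : ℕ} {x u : ℚ} {N M : ℕ} (hx : ht x ≤ N) (hu : ht u ≤ M) {j i : ℕ}
    (hj : j ≤ a) (hi : i ≤ b) : (mon a b x u j i).natAbs ≤ N ^ a * M ^ b := by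
  obtain ⟨a', rfl⟩ := Nat.exists_eq_add_of_le hj
  obtain ⟨b', rfl⟩ := Nat.exists_eq_add_of_le hi
  simp only [mon, Nat.add_sub_cancel_left, Int.natAbs_mul, Int.natAbs_pow, Int.natAbs_natCast,
    pow_add]
  have := num_le hx
  have := den_le hx
  have := num_le hu
  have := den_le hu
  gcongr

/-- The cleared value of `G` at a rational point. -/
def hom (D : ℕ) (G : ℤ[X][X]) (x u : ℚ) : ℤ :=
  ∑ p : Fin (D + 1) × Fin (D + 1), (G.coeff p.2).coeff p.1 * mon D D x u p.1 p.2

theorem hom_cast {K : Type*} [CommRing K] {D : ℕ} {G : ℤ[X][X]} (hG : BDeg D G) {x u : ℚ}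
    {x' u' : K} (hx : (x.den : K) * x' = x.num) (hu : (u.den : K) * u' = u.num) :
    (hom D G x u : K) = (x.den : K) ^ D * (u.den : K) ^ D * ev G x' u' := by
  rw [ev_sum hG, hom, Finset.mul_sum]
  push_cast
  refine Finset.sum_congr rfl fun p _ => ?_
  rw [mon_cast hx hu (Nat.lt_succ_iff.mp p.1.2) (Nat.lt_succ_iff.mp p.2.2)]
  ring

theorem hom_le {D H N M : ℕ} {G : ℤ[X][X]} (hG : ∀ i j, ((G.coeff i).coeff j).natAbs ≤ H)
    {x u : ℚ} (hx : ht x ≤ N) (hu : ht u ≤ M) :
    (hom D G x u).natAbs ≤ (D + 1) ^ 2 * (H * (N ^ D * M ^ D)) := by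
  refine (Int.natAbs_sum_le _ _).trans ?_
  refine (Finset.sum_le_card_nsmul _ _ (H * (N ^ D * M ^ D)) ?_).trans ?_
  · intro p _
    rw [Int.natAbs_mul]
    exact Nat.mul_le_mul (hG _ _)
      (mon_le hx hu (Nat.lt_succ_iff.mp p.1.2) (Nat.lt_succ_iff.mp p.2.2))
  · simp [sq]

theorem den_mul (x : ℚ) : (x.den : ℚ) * x = x.num := by
  rw [mul_comm]; exact Rat.mul_den_eq_num x

/-- Reduction of a rational number. -/
def rho (n : ℕ) (x : ℚ) : ZMod n := (x.num : ZMod n) * (x.den : ZMod n)⁻¹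

theorem den_mul_rho {n : ℕ} {x : ℚ} (h : Nat.Coprime x.den n) :
    (x.den : ZMod n) * rho n x = x.num := by
  rw [rho, mul_left_comm, ZMod.coe_mul_inv_eq_one _ h, mul_one]

theorem cast_rho {n l : ℕ} (hd : l ∣ n) {x : ℚ} (h : Nat.Coprime x.den n) :
    ZMod.castHom hd (ZMod l) (rho n x) = rho l x := by
  have h' : Nat.Coprime x.den l := Nat.Coprime.coprime_dvd_right hd h
  have h1 := congrArg (ZMod.castHom hd (ZMod l)) (den_mul_rho h)
  rw [map_mul, map_natCast, map_intCast, ← den_mul_rho h'] at h1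
  exact ((ZMod.isUnit_iff_coprime _ _).mpr h').mul_left_cancel h1

theorem ker_pow (l e : ℕ) [NeZero l] (he : e ≠ 0) :
    (RingHom.ker (ZMod.castHom (dvd_pow_self l he) (ZMod l))) ^ e = ⊥ := by
  have : NeZero (l ^ e) := ⟨pow_ne_zero _ (NeZero.ne l)⟩
  have h1 : RingHom.ker (ZMod.castHom (dvd_pow_self l he) (ZMod l)) ≤
      Ideal.span {(l : ZMod (l ^ e))} := by
    intro y hy
    rw [RingHom.mem_ker, ← ZMod.natCast_zmod_val y, map_natCast, ZMod.natCast_eq_zero_iff] at hy
    obtain ⟨c, hc⟩ := hy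
    rw [Ideal.mem_span_singleton]
    refine ⟨c, ?_⟩
    rw [← ZMod.natCast_zmod_val y, hc]
    push_cast
    rfl
  refine le_bot_iff.mp ((Ideal.pow_right_mono h1 e).trans ?_)
  rw [Ideal.span_singleton_pow, ← Nat.cast_pow, ZMod.natCast_self]
  simp

/-- The choice of the degree of the auxiliary curves. -/
theorem exists_r (m A : ℕ) (hm : 1 ≤ m) : ∃ r : ℕ, 1 ≤ r ∧ ∀ N l : ℕ, 2 ≤ N → N ^ 3 ≤ l ^ m →
    (2 * m * r).factorial * (N ^ (2 * r - 1) * (N ^ A) ^ (m - 1)) ^ (2 * m * r) <
      l ^ (m * r * (2 * m * r - 1)) := by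
  set K := 2 * m * (A * m + 2) + 4 * m with hK
  set q := K + K with hq
  have hK1 : 1 ≤ K := by omega
  refine ⟨q + A * m + 2, by omega, ?_⟩
  intro N l hN hl
  set r := q + A * m + 2 with hr
  have hs : 2 * m * r < 2 ^ q := by
    have h1 : K < 2 ^ K := Nat.lt_two_pow_self
    have h2 : 2 ^ q = 2 ^ K * 2 ^ K := by rw [hq, pow_add]
    have h3 : (K + 1) * (K + 1) ≤ 2 ^ K * 2 ^ K := Nat.mul_le_mul h1 h1
    have h4 : K * K = K * (2 * m * (A * m + 2)) + 4 * m * K := by rw [hK]; ring
    have h5 : 2 * m * (A * m + 2) ≤ K * (2 * m * (A * m + 2)) := Nat.le_mul_of_pos_left _ hK1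
    have h6 : 2 * m * r = 4 * m * K + 2 * m * (A * m + 2) := by rw [hr, hq]; ring
    nlinarith
  set s := 2 * m * r with hs'
  have hs0 : 1 ≤ s := by
    have : 1 ≤ r := by omega
    nlinarith
  have hf : s.factorial < N ^ (q * s) := by
    calc s.factorial ≤ s ^ s := Nat.factorial_le_pow s
      _ < (2 ^ q) ^ s := Nat.pow_lt_pow_left hs (by omega)
      _ ≤ (N ^ q) ^ s := by gcongr
      _ = N ^ (q * s) := by rw [← pow_mul]
  have hl' : N ^ (3 * (r * (s - 1))) ≤ l ^ (m * r * (s - 1)) := by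
    rw [pow_mul, mul_assoc m, pow_mul l]
    gcongr
  refine lt_of_lt_of_le ?_ hl'
  calc s.factorial * (N ^ (2 * r - 1) * (N ^ A) ^ (m - 1)) ^ s
      < N ^ (q * s) * (N ^ (2 * r - 1) * (N ^ A) ^ (m - 1)) ^ s := by
        apply Nat.mul_lt_mul_of_pos_right hf
        positivity
    _ = N ^ (q * s + (2 * r - 1 + A * (m - 1)) * s) := by
        rw [← pow_mul N A, ← pow_add, ← pow_mul, ← pow_add]
    _ ≤ N ^ (3 * (r * (s - 1))) := by
        apply Nat.pow_le_pow_right (by omega)
        obtain ⟨m', rfl⟩ : ∃ m', m = m' + 1 := ⟨m - 1, by omega⟩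
        obtain ⟨s', hs''⟩ : ∃ s', s = s' + 1 := ⟨s - 1, by omega⟩
        have h1 : 2 * r - 1 ≤ 2 * r := Nat.sub_le _ _
        have h2 : q + 2 * r + A * (m' + 1) + 2 = 3 * r := by omega
        have h3 : 3 * r ≤ 2 * s := by rw [hs']; nlinarith
        simp only [Nat.add_sub_cancel]
        have h4 : s - 1 = s' := by omega
        rw [h4]
        have h5 : q * s + (2 * r - 1 + A * m') * s ≤ (q + 2 * r + A * (m' + 1)) * s := by
          have : q + (2 * r - 1 + A * m') ≤ q + 2 * r + A * (m' + 1) := by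
            have : A * m' ≤ A * (m' + 1) := Nat.mul_le_mul_left _ (Nat.le_succ _)
            omega
          calc _ = (q + (2 * r - 1 + A * m')) * s := by ring
            _ ≤ _ := Nat.mul_le_mul_right _ this
        have h6 : (q + 2 * r + A * (m' + 1)) * s + 2 * s = 3 * r * s := by rw [← h2]; ring
        have h7 : 3 * r * s = 3 * (r * s') + 3 * r := by rw [hs'']; ring
        omega

end BPA

end

end Pool.Agent.P.MP_a60a76_nt.SP
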