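import Pool.Agent.P.MP_a60a76_nt.SP.Defs

namespace Pool.Agent.P.MP_a60a76_nt.SP

open Polynomial UpperHalfPlane PeriodPair
open scoped MatrixGroups UpperHalfPlane Matrix Modular Topology Classical

noncomputable section

/-- Vanishing of interpolation determinants. -/
theorem det_mem_pow {R σ ι : Type*} [CommRing R] [Fintype ι] [DecidableEq ι] (I : Ideal R)
    (W : ι → MvPolynomial σ R) (z : ι → σ → R) (hz : ∀ j k, z j k ∈ I) (e : ℕ)
    (he : ∀ α : ι → σ →₀ ℕ, Function.Injective α → e ≤ ∑ i, (α i).degree) :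
    (Matrix.of fun i j => MvPolynomial.eval (z j) (W i)).det ∈ I ^ e := by
  have hrow : (Matrix.of fun i j => MvPolynomial.eval (z j) (W i)) =
      fun i => ∑ m ∈ (W i).support,
        MvPolynomial.coeff m (W i) • fun j => ∏ k ∈ m.support, z j k ^ m k := by
    funext i j
    rw [Matrix.of_apply, MvPolynomial.eval_eq, Finset.sum_apply]
    rfl
  have hmono : ∀ (m : σ →₀ ℕ) (j : ι), ∏ k ∈ m.support, z j k ^ m k ∈ I ^ m.degree := by
    intro m j
    rw [Finsupp.degree_apply, ← Finset.prod_pow_eq_pow_sum]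
    exact Ideal.prod_mem_prod fun k _ => Ideal.pow_mem_pow (hz j k) _
  rw [hrow]
  change (Matrix.detRowAlternating : (ι → R) [⋀^ι]→ₗ[R] R).toMultilinearMap _ ∈ _
  rw [MultilinearMap.map_sum_finset]
  refine Ideal.sum_mem _ fun α _ => ?_
  rw [MultilinearMap.map_smul_univ, smul_eq_mul]
  refine Ideal.mul_mem_left _ _ ?_
  by_cases hα : Function.Injective α
  · change Matrix.det (Matrix.of fun i j => ∏ k ∈ (α i).support, z j k ^ α i k) ∈ _
    rw [Matrix.det_apply]
    refine Ideal.sum_mem _ fun π _ => ?_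
    rw [Units.smul_def, zsmul_eq_mul]
    refine Ideal.mul_mem_left _ _ (Ideal.pow_le_pow_right (he α hα) ?_)
    rw [← Equiv.sum_comp π, ← Finset.prod_pow_eq_pow_sum]
    exact Ideal.prod_mem_prod fun i _ => hmono _ _
  · obtain ⟨i, i', h1, h2⟩ := Function.not_injective_iff.1 hα
    have h0 := (Matrix.detRowAlternating : (ι → R) [⋀^ι]→ₗ[R] R).map_eq_zero_of_eq
      (fun i j => ∏ k ∈ (α i).support, z j k ^ α i k) (i := i) (j := i') (by rw [h1]) h2
    change (Matrix.detRowAlternating : (ι → R) [⋀^ι]→ₗ[R] R) _ ∈ _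
    rw [h0]
    exact Ideal.zero_mem _

/-- Newton iteration: a simple root is a polynomial function of the parameters. -/
theorem newton {R σ κ : Type*} [CommRing R] (I : Ideal R) (E : ℕ) (hI : I ^ E = ⊥)
    (f : (MvPolynomial σ R)[X]) (z : κ → σ → R) (ω : κ → R) (ω₀ u : R)
    (hz : ∀ j k, z j k ∈ I) (hω : ∀ j, ω j - ω₀ ∈ I)
    (hf : ∀ j, (f.map (MvPolynomial.eval (z j))).eval (ω j) = 0)
    (hu : u * (f.derivative.map (MvPolynomial.eval 0)).eval ω₀ - 1 ∈ I) :
    ∃ W : MvPolynomial σ R, ∀ j, MvPolynomial.eval (z j) W = ω j := by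
  have hd : ∀ j, 1 - u * (f.map (MvPolynomial.eval (z j))).derivative.eval (ω j) ∈ I := by
    intro j
    have h1 : (Ideal.Quotient.mk I).comp (MvPolynomial.eval (z j)) =
        (Ideal.Quotient.mk I).comp (MvPolynomial.eval (0 : σ → R)) := by
      refine MvPolynomial.ringHom_ext (fun r => by simp) fun k => ?_
      simp [Ideal.Quotient.eq_zero_iff_mem.2 (hz j k)]
    have h2 : Ideal.Quotient.mk I ((f.map (MvPolynomial.eval (z j))).derivative.eval (ω j)) =
        Ideal.Quotient.mk I ((f.derivative.map (MvPolynomial.eval 0)).eval ω₀) := by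
      rw [Polynomial.derivative_map, ← Polynomial.eval₂_at_apply, ← Polynomial.eval₂_at_apply,
        Polynomial.eval₂_map, Polynomial.eval₂_map, h1, Ideal.Quotient.eq.2 (hω j)]
    have h3 := Ideal.Quotient.eq.1 h2
    have h4 := I.neg_mem (I.add_mem hu (I.mul_mem_left u h3))
    rwa [show ∀ a b : R, -(u * a - 1 + u * (b - a)) = 1 - u * b from fun a b => by ring] at h4
  have key : ∀ k : ℕ, ∃ W : MvPolynomial σ R,
      ∀ j, MvPolynomial.eval (z j) W - ω j ∈ I ^ (k + 1) := by
    intro k
    induction k with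
    | zero =>
      refine ⟨MvPolynomial.C ω₀, fun j => ?_⟩
      rw [MvPolynomial.eval_C, zero_add, pow_one, ← neg_sub]
      exact I.neg_mem (hω j)
    | succ k ih =>
      obtain ⟨W, hW⟩ := ih
      refine ⟨W - MvPolynomial.C u * f.eval W, fun j => ?_⟩
      obtain ⟨c, hc⟩ := binomExpansion (f.map (MvPolynomial.eval (z j))) (ω j)
        (MvPolynomial.eval (z j) W - ω j)
      rw [add_sub_cancel, hf j, zero_add, Polynomial.eval_map, Polynomial.eval₂_at_apply] at hc
      rw [map_sub, map_mul, MvPolynomial.eval_C, hc]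
      have h1 : MvPolynomial.eval (z j) W - ω j ∈ I :=
        Ideal.pow_le_self (Nat.succ_ne_zero k) (hW j)
      have h2 := Ideal.mul_mem_mul (hW j) (I.sub_mem (hd j) (I.mul_mem_left (u * c) h1))
      rw [← pow_succ] at h2
      rwa [show ∀ w o d : R, (w - o) * (1 - u * d - u * c * (w - o)) =
        w - u * (d * (w - o) + c * (w - o) ^ 2) - o from fun w o d => by ring] at h2
  obtain ⟨W, hW⟩ := key E
  refine ⟨W, fun j => sub_eq_zero.1 ?_⟩
  have h := Ideal.pow_le_pow_right (Nat.le_succ E) (hW j)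
  rwa [hI, Ideal.mem_bot] at h

theorem sum_degree_one {ι : Type*} [Fintype ι] (α : ι → Fin 1 →₀ ℕ) (h : Function.Injective α) :
    Fintype.card ι * (Fintype.card ι - 1) / 2 ≤ ∑ i, (α i).degree := by
  have h1 : ∀ s : Finset ℕ, s.card * (s.card - 1) ≤ 2 * ∑ a ∈ s, a := by
    intro s
    induction s using Finset.induction_on_max with
    | empty => simp
    | insert a s ha ih =>
      have h2 : a ∉ s := fun h => lt_irrefl _ (ha a h)
      have h3 : s.card ≤ a := by
        simpa using Finset.card_le_card (s := s) (t := Finset.range a)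
          fun x hx => Finset.mem_range.2 (ha x hx)
      rw [Finset.card_insert_of_notMem h2, Finset.sum_insert h2, Nat.add_sub_cancel]
      rcases Nat.eq_zero_or_pos s.card with h4 | h4
      · simp [h4]
      · obtain ⟨c, hc⟩ := Nat.exists_eq_add_of_le' h4
        rw [hc] at ih h3 ⊢
        rw [Nat.add_sub_cancel] at ih
        nlinarith
  have h2 : Function.Injective fun i => α i 0 := fun i j e =>
    h (Finsupp.ext fun k => by rw [Subsingleton.elim k 0]; exact e)
  have h3 := h1 (Finset.univ.image fun i => α i 0)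
  rw [Finset.card_image_of_injective _ h2, Finset.sum_image fun a _ b _ e => h2 e,
    Finset.card_univ] at h3
  simp only [Finsupp.degree_eq_sum, Fin.sum_univ_one]
  omega

theorem sum_degree_two {ι : Type*} [Fintype ι] (t : ℕ) (hι : Fintype.card ι = 2 * t ^ 2)
    (α : ι → Fin 2 →₀ ℕ) (h : Function.Injective α) : t ^ 3 ≤ ∑ i, (α i).degree := by
  have h1 : (Finset.univ.filter fun i => (α i).degree < t).card ≤ t ^ 2 := by
    have h2 := Finset.card_le_card_of_injOn (s := Finset.univ.filter fun i => (α i).degree < t)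
      (t := Finset.range t ×ˢ Finset.range t) (fun i => (α i 0, α i 1)) (fun i hi => by
        have h3 := (Finset.mem_filter.1 hi).2
        rw [Finsupp.degree_eq_sum, Fin.sum_univ_two] at h3
        exact Finset.mem_product.2 ⟨Finset.mem_range.2 (by dsimp only; omega),
          Finset.mem_range.2 (by dsimp only; omega)⟩) (fun i _ j _ e => h (Finsupp.ext fun k => by
        obtain ⟨e1, e2⟩ := Prod.mk.inj e
        fin_cases k
        · exact e1
        · exact e2))
    rwa [Finset.card_product, Finset.card_range, ← sq] at h2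
  have h2 := Finset.card_filter_add_card_filter_not (s := Finset.univ)
    fun i => (α i).degree < t
  rw [Finset.card_univ, hι] at h2
  calc t ^ 3 = t ^ 2 * t := by ring
    _ ≤ (Finset.univ.filter fun i => ¬ (α i).degree < t).card * t :=
        Nat.mul_le_mul_right _ (by omega)
    _ ≤ ∑ i ∈ Finset.univ.filter fun i => ¬ (α i).degree < t, (α i).degree :=
        Finset.card_nsmul_le_sum _ _ _ fun i hi => not_lt.1 (Finset.mem_filter.1 hi).2
    _ ≤ _ := Finset.sum_le_sum_of_subset (Finset.filter_subset _ _)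

/-- `k` primes in `[L, 2^k L]`; a nonzero integer smaller than `L^k` is prime to one of them. -/
theorem exists_primes (k L : ℕ) (hL : 1 ≤ L) : ∃ s : Finset ℕ, s.card = k ∧
    (∀ l ∈ s, l.Prime ∧ L ≤ l ∧ l ≤ 2 ^ k * L) ∧
    ∀ a : ℤ, a ≠ 0 → a.natAbs < L ^ k → ∃ l ∈ s, ¬ (l : ℤ) ∣ a := by
  have h1 : ∃ s : Finset ℕ, s.card = k ∧ ∀ l ∈ s, l.Prime ∧ L ≤ l ∧ l ≤ 2 ^ k * L := by
    induction k with
    | zero => exact ⟨∅, rfl, by simp⟩
    | succ k ih =>
      obtain ⟨s, h1, h2⟩ := ih
      have h3 : L ≤ 2 ^ k * L := Nat.le_mul_of_pos_left _ (by positivity)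
      obtain ⟨p, p1, p2, p3⟩ := Nat.exists_prime_lt_and_le_two_mul (2 ^ k * L) (by omega)
      have h4 : p ∉ s := fun h => by
        have := (h2 p h).2.2
        omega
      have h5 : 2 ^ (k + 1) * L = 2 * (2 ^ k * L) := by ring
      refine ⟨insert p s, by rw [Finset.card_insert_of_notMem h4, h1], fun l hl => ?_⟩
      rcases Finset.mem_insert.1 hl with rfl | hl
      · exact ⟨p1, by omega, by omega⟩
      · obtain ⟨a, b, c⟩ := h2 l hl
        exact ⟨a, b, by omega⟩
  obtain ⟨s, h1, h2⟩ := h1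
  refine ⟨s, h1, h2, fun a ha hlt => ?_⟩
  by_contra hn
  have h3 : ∀ l ∈ s, l ∣ a.natAbs := fun l hl => by
    by_contra h4
    exact hn ⟨l, hl, fun h5 => h4 (Int.natCast_dvd.1 h5)⟩
  have h4 := Nat.le_of_dvd (Int.natAbs_pos.2 ha)
    (Finset.prod_primes_dvd _ (fun l hl => (h2 l hl).1.prime) h3)
  have h5 := Finset.pow_card_le_prod s (fun l => l) L fun l hl => (h2 l hl).2.1
  rw [h1] at h5
  omega

/-- If all maximal minors vanish, some nonzero vector is orthogonal to the whole family. -/
theorem exists_orth {K ι κ : Type*} [Field K] [Fintype ι] [DecidableEq ι] [Nonempty ι]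
    (a : ι → κ → K) (h : ∀ j : ι → κ, (Matrix.of fun i i' => a i (j i')).det = 0) :
    ∃ c : ι → K, c ≠ 0 ∧ ∀ k, ∑ i, c i * a i k = 0 := by
  have hlt : Submodule.span K (Set.range fun k i => a i k) < ⊤ := by
    refine lt_top_iff_ne_top.2 fun ht => ?_
    obtain ⟨κ', b, -, h2, h3⟩ := exists_linearIndependent' K (fun k i => a i k)
    rw [ht] at h2
    let B := Module.Basis.mk h3 h2.ge
    let e := B.indexEquiv (Pi.basisFun K ι)
    have h4 := h3.comp e.symm e.symm.injective
    have h5 := (Matrix.linearIndependent_cols_iff_isUnit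
      (A := Matrix.of fun i i' => a i (b (e.symm i')))).1 h4
    exact ((Matrix.isUnit_iff_isUnit_det _).1 h5).ne_zero (h fun i => b (e.symm i))
  obtain ⟨f, f0, hf⟩ := Submodule.exists_le_ker_of_lt_top _ hlt
  refine ⟨fun i => f (Pi.single i 1), fun h0 => f0 ?_, fun k => ?_⟩
  · refine (Pi.basisFun K ι).ext fun i => ?_
    rw [Pi.basisFun_apply]
    exact congrFun h0 i
  · have h1 : f (fun i => a i k) = 0 := hf (Submodule.subset_span ⟨k, rfl⟩)
    rw [← h1, LinearMap.pi_apply_eq_sum_univ]
    refine Finset.sum_congr rfl fun i _ => ?_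
    rw [smul_eq_mul, mul_comm (a i k)]
    refine congrArg (· * a i k) (congrArg f ?_)
    funext j
    rw [Pi.single_apply]
    simp only [eq_comm]

end

end Pool.Agent.P.MP_a60a76_nt.SP
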