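import Pool.Agent.P.MP_a60a76_nt.SP.Res
import Pool.Agent.P.MP_a60a76_nt.SP.Det
import Pool.Agent.P.MP_a60a76_nt.SP.Abs
import Pool.Agent.P.MP_a60a76_nt.SP.BPAux

namespace Pool.Agent.P.MP_a60a76_nt.SP

open Polynomial UpperHalfPlane PeriodPair
open scoped MatrixGroups UpperHalfPlane Matrix Modular Topology Classical

noncomputable section

namespace BPA

/-- The interpolation determinant of a residue class is divisible by a large power of `l`. -/
theorem det_dvd {D m r l : ℕ} [Fact l.Prime] (hm : 1 ≤ m) (hr : 1 ≤ r) {G : ℤ[X][X]}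
    (hG : BDeg D G) (a b : ZMod l) (hab : ev G.derivative a b ≠ 0)
    (pt : Fin (2 * r) × Fin m → ℚ × ℚ)
    (h1 : ∀ j, Nat.Coprime (pt j).1.den l) (h2 : ∀ j, Nat.Coprime (pt j).2.den l)
    (h3 : ∀ j, rho l (pt j).1 = a) (h4 : ∀ j, rho l (pt j).2 = b)
    (h5 : ∀ j, ev G (pt j).1 (pt j).2 = 0) :
    ((l ^ (m * r * (2 * m * r - 1)) : ℕ) : ℤ) ∣
      (Matrix.of fun (i j : Fin (2 * r) × Fin m) =>
        mon (2 * r - 1) (m - 1) (pt j).1 (pt j).2 i.1 i.2).det := by
  have hl : l.Prime := Fact.out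
  have : NeZero l := ⟨hl.ne_zero⟩
  set e := m * r * (2 * m * r - 1) with he
  have hmr : 1 ≤ m * r := Nat.mul_pos hm hr
  have he0 : e ≠ 0 := by
    have : 2 * m * r = 2 * (m * r) := by ring
    exact Nat.mul_ne_zero (by omega) (by omega)
  have : NeZero (l ^ e) := ⟨pow_ne_zero _ hl.ne_zero⟩
  let π : ZMod (l ^ e) →+* ZMod l := ZMod.castHom (dvd_pow_self l he0) (ZMod l)
  have hπ : Function.Surjective π := ZMod.castHom_surjective _
  have hI : RingHom.ker π ^ e = ⊥ := ker_pow l e he0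
  obtain ⟨x0, hx0⟩ := hπ a
  obtain ⟨u0, hu0⟩ := hπ b
  obtain ⟨v, hv⟩ := hπ (ev G.derivative a b)⁻¹
  have c1 : ∀ j, Nat.Coprime (pt j).1.den (l ^ e) := fun j => (h1 j).pow_right _
  have c2 : ∀ j, Nat.Coprime (pt j).2.den (l ^ e) := fun j => (h2 j).pow_right _
  let z : Fin (2 * r) × Fin m → Fin 1 → ZMod (l ^ e) := fun j _ => rho (l ^ e) (pt j).1 - x0
  let ω : Fin (2 * r) × Fin m → ZMod (l ^ e) := fun j => rho (l ^ e) (pt j).2
  let ψ : ℤ[X] →+* MvPolynomial (Fin 1) (ZMod (l ^ e)) :=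
    eval₂RingHom (Int.castRingHom _) (MvPolynomial.C x0 + MvPolynomial.X 0)
  have hψ : ∀ y : Fin 1 → ZMod (l ^ e), (MvPolynomial.eval y).comp ψ =
      eval₂RingHom (Int.castRingHom _) (x0 + y 0) := by
    intro y
    ext <;> simp [ψ]
  have hz : ∀ j k, z j k ∈ RingHom.ker π := by
    intro j k
    rw [RingHom.mem_ker, map_sub, hx0, cast_rho _ (c1 j), h3, sub_self]
  obtain ⟨W, hW⟩ := newton (RingHom.ker π) e hI (G.map ψ) z ω u0 v hz
    (fun j => by rw [RingHom.mem_ker, map_sub, hu0, cast_rho _ (c2 j), h4, sub_self])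
    (fun j => by
      rw [Polynomial.map_map, hψ]
      have e1 : x0 + z j 0 = rho (l ^ e) (pt j).1 := by simp [z]
      rw [e1]
      change ev G _ _ = 0
      have e2 := hom_cast hG (den_mul (pt j).1) (den_mul (pt j).2)
      rw [h5, mul_zero, Int.cast_eq_zero] at e2
      have e3 := hom_cast hG (den_mul_rho (c1 j)) (den_mul_rho (c2 j))
      rw [e2, Int.cast_zero] at e3
      have u1 : IsUnit ((((pt j).1.den : ZMod (l ^ e))) ^ D * ((pt j).2.den : ZMod (l ^ e)) ^ D) :=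
        (((ZMod.isUnit_iff_coprime _ _).mpr (c1 j)).pow _).mul
          (((ZMod.isUnit_iff_coprime _ _).mpr (c2 j)).pow _)
      exact (u1.mul_right_eq_zero).mp e3.symm)
    (by
      rw [derivative_map, Polynomial.map_map, hψ]
      simp only [Pi.zero_apply, add_zero]
      change v * ev G.derivative x0 u0 - 1 ∈ _
      rw [RingHom.mem_ker, map_sub, map_mul, map_ev, hx0, hu0, hv, map_one,
        inv_mul_cancel₀ hab, sub_self])
  have hdet := det_mem_pow (RingHom.ker π)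
    (fun i : Fin (2 * r) × Fin m =>
      (MvPolynomial.C x0 + MvPolynomial.X 0) ^ (i.1 : ℕ) * W ^ (i.2 : ℕ)) z hz e (by
      intro α hα
      refine le_trans (le_of_eq ?_) (sum_degree_one α hα)
      have e1 : Fintype.card (Fin (2 * r) × Fin m) = 2 * m * r := by simp; ring
      rw [e1, he]
      have e2 : 2 * m * r * (2 * m * r - 1) = 2 * (m * r * (2 * m * r - 1)) := by ring
      rw [e2, Nat.mul_div_cancel_left _ (by norm_num)])
  rw [hI, Ideal.mem_bot] at hdet
  rw [← ZMod.intCast_zmod_eq_zero_iff_dvd]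
  have e4 := (Int.castRingHom (ZMod (l ^ e))).map_det
    (Matrix.of fun (i j : Fin (2 * r) × Fin m) =>
        mon (2 * r - 1) (m - 1) (pt j).1 (pt j).2 i.1 i.2)
  rw [eq_intCast] at e4
  rw [e4]
  have e5 : (Int.castRingHom (ZMod (l ^ e))).mapMatrix (Matrix.of
      fun (i j : Fin (2 * r) × Fin m) => mon (2 * r - 1) (m - 1) (pt j).1 (pt j).2 i.1 i.2) =
      Matrix.of fun i j => (((pt j).1.den : ZMod (l ^ e)) ^ (2 * r - 1) *
        ((pt j).2.den : ZMod (l ^ e)) ^ (m - 1)) *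
        (Matrix.of fun (i j : Fin (2 * r) × Fin m) => MvPolynomial.eval (z j)
          ((MvPolynomial.C x0 + MvPolynomial.X 0) ^ (i.1 : ℕ) * W ^ (i.2 : ℕ))) i j := by
    ext i j
    have i1 := i.1.2
    have i2 := i.2.2
    simp only [RingHom.mapMatrix_apply, Matrix.map_apply, Matrix.of_apply, eq_intCast]
    rw [mon_cast (den_mul_rho (c1 j)) (den_mul_rho (c2 j)) (by omega) (by omega)]
    simp [hW, z, ω]
  rw [e5, Matrix.det_mul_row, hdet, mul_zero]

/-- A residue class lies on an auxiliary curve of small degree. -/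
theorem class_le {D m r l N M : ℕ} [Fact l.Prime] (hm : 1 ≤ m) (hr : 1 ≤ r)
    (hbig : (2 * m * r).factorial * (N ^ (2 * r - 1) * M ^ (m - 1)) ^ (2 * m * r) <
      l ^ (m * r * (2 * m * r - 1)))
    {P : ℚ[X][X]} (hP : Irreducible P) (hmP : m ≤ P.natDegree) (hPD : BDeg D P)
    {G : ℤ[X][X]} (hG : BDeg D G) (a b : ZMod l) (hab : ev G.derivative a b ≠ 0)
    (S : Finset (ℚ × ℚ))
    (hS : ∀ p ∈ S, ht p.1 ≤ N ∧ ht p.2 ≤ M ∧ P.evalEval p.1 p.2 = 0 ∧ ev G p.1 p.2 = 0 ∧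
      Nat.Coprime p.1.den l ∧ Nat.Coprime p.2.den l ∧ rho l p.1 = a ∧ rho l p.2 = b) :
    S.card ≤ 2 * (D + 2 * r) ^ 3 := by
  obtain ⟨m', rfl⟩ : ∃ m', m = m' + 1 := ⟨m - 1, by omega⟩
  obtain ⟨T, hT⟩ : ∃ T, 2 * r = T + 1 := ⟨2 * r - 1, by omega⟩
  have : Nonempty (Fin (2 * r) × Fin (m' + 1)) := ⟨(⟨0, by omega⟩, 0)⟩
  obtain ⟨c, hc0, hc⟩ := exists_orth (K := ℚ) (ι := Fin (2 * r) × Fin (m' + 1)) (κ := S)
    (fun i k => k.1.1 ^ (i.1 : ℕ) * k.1.2 ^ (i.2 : ℕ)) (by
      intro j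
      have hd := det_dvd hm hr hG a b hab (fun i => (j i).1)
        (fun i => (hS _ (j i).2).2.2.2.2.1) (fun i => (hS _ (j i).2).2.2.2.2.2.1)
        (fun i => (hS _ (j i).2).2.2.2.2.2.2.1) (fun i => (hS _ (j i).2).2.2.2.2.2.2.2)
        (fun i => (hS _ (j i).2).2.2.2.1)
      set Z := (Matrix.of fun (i i' : Fin (2 * r) × Fin (m' + 1)) =>
        mon (2 * r - 1) (m' + 1 - 1) (j i').1.1 (j i').1.2 i.1 i.2) with hZ
      have hle := Matrix.det_le (A := Z) (abv := AbsoluteValue.abs)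
        (x := ((N ^ (2 * r - 1) * M ^ (m' + 1 - 1) : ℕ) : ℤ)) (by
          intro i i'
          have i1 := i.1.2
          have i2 := i.2.2
          have := mon_le (a := 2 * r - 1) (b := m' + 1 - 1) (hS _ (j i').2).1 (hS _ (j i').2).2.1
            (j := i.1) (i := i.2) (by omega) (by omega)
          rw [AbsoluteValue.abs_apply, hZ, Matrix.of_apply, Int.abs_eq_natAbs]
          exact_mod_cast this)
      have e1 : Fintype.card (Fin (2 * r) × Fin (m' + 1)) = 2 * (m' + 1) * r := by simp; ring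
      rw [e1, AbsoluteValue.abs_apply, nsmul_eq_mul] at hle
      have hZ0 : Z.det = 0 := by
        refine Int.eq_zero_of_abs_lt_dvd hd (hle.trans_lt ?_)
        exact_mod_cast hbig
      have e4 := (Int.castRingHom ℚ).map_det Z
      rw [hZ0, map_zero] at e4
      have e5 : (Int.castRingHom ℚ).mapMatrix Z = Matrix.of fun i i' =>
          (((j i').1.1.den : ℚ) ^ (2 * r - 1) * ((j i').1.2.den : ℚ) ^ (m' + 1 - 1)) *
          (Matrix.of fun (i i' : Fin (2 * r) × Fin (m' + 1)) =>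
            (j i').1.1 ^ (i.1 : ℕ) * (j i').1.2 ^ (i.2 : ℕ)) i i' := by
        ext i i'
        have i1 := i.1.2
        have i2 := i.2.2
        simp only [hZ, RingHom.mapMatrix_apply, Matrix.map_apply, Matrix.of_apply, eq_intCast]
        rw [mon_cast (den_mul _) (den_mul _) (by omega) (by omega)]
      rw [e5, Matrix.det_mul_row] at e4
      refine (mul_eq_zero.mp e4.symm).resolve_left (Finset.prod_ne_zero_iff.mpr fun i _ => ?_)
      have d1 := (j i).1.1.den_pos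
      have d2 := (j i).1.2.den_pos
      positivity)
  have hQ0 : mk c ≠ 0 := mk_ne_zero hc0
  have hQd : (mk c).natDegree ≤ m' := mk_natDegree c
  have hnd : ¬ P ∣ mk c := fun h => by
    have := natDegree_le_of_dvd h hQ0
    omega
  have hQD : BDeg (D + 2 * r) (mk c) := by
    refine ⟨by have := hPD.1; omega, fun i => ?_⟩
    rw [natDegree_le_iff_coeff_eq_zero]
    intro j hj
    rw [mk_coeff, dif_neg (by omega)]
  obtain ⟨hf, hb⟩ := bezout hP hnd (hPD.mono (Nat.le_add_right _ _)) hQD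
  refine le_trans ?_ hb
  rw [← Set.ncard_coe_finset]
  refine Set.ncard_le_ncard (fun p hp => ⟨(hS p hp).2.2.1, ?_⟩) hf
  rw [mk_evalEval]
  exact hc ⟨p, hp⟩

/-- Points that are smooth modulo `l`. -/
theorem prime_le {D m r l N M : ℕ} [Fact l.Prime] (hm : 1 ≤ m) (hr : 1 ≤ r)
    (hbig : (2 * m * r).factorial * (N ^ (2 * r - 1) * M ^ (m - 1)) ^ (2 * m * r) <
      l ^ (m * r * (2 * m * r - 1)))
    {P : ℚ[X][X]} (hP : Irreducible P) (hmP : m ≤ P.natDegree) (hPD : BDeg D P)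
    {G : ℤ[X][X]} (hG : BDeg D G) (hG' : BDeg D G.derivative) (S : Finset (ℚ × ℚ))
    (hS : ∀ p ∈ S, ht p.1 ≤ N ∧ ht p.2 ≤ M ∧ P.evalEval p.1 p.2 = 0 ∧ ev G p.1 p.2 = 0 ∧
      ¬ (l : ℤ) ∣ p.1.den * p.2.den * hom D G.derivative p.1 p.2) :
    S.card ≤ 2 * (D + 2 * r) ^ 3 * (l * D) := by
  have hl : l.Prime := Fact.out
  have : NeZero l := ⟨hl.ne_zero⟩
  have c1 : ∀ p ∈ S, Nat.Coprime p.1.den l := by
    intro p hp
    rw [Nat.coprime_comm, hl.coprime_iff_not_dvd]
    intro h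
    exact (hS p hp).2.2.2.2 (((Int.natCast_dvd_natCast.mpr h).mul_right _).mul_right _)
  have c2 : ∀ p ∈ S, Nat.Coprime p.2.den l := by
    intro p hp
    rw [Nat.coprime_comm, hl.coprime_iff_not_dvd]
    intro h
    exact (hS p hp).2.2.2.2 (((Int.natCast_dvd_natCast.mpr h).mul_left _).mul_right _)
  let Y : Finset (ZMod l × ZMod l) :=
    Finset.univ.filter fun y => ev G y.1 y.2 = 0 ∧ ev G.derivative y.1 y.2 ≠ 0
  have hY : Y.card ≤ l * D := by
    have h := Finset.card_le_mul_card_image_of_maps_to (f := Prod.fst) (s := Y) (t := Finset.univ)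
      (fun _ _ => Finset.mem_univ _) D (by
        intro a _
        set g := G.map (eval₂RingHom (Int.castRingHom (ZMod l)) a) with hg
        by_cases hg0 : g = 0
        · have : Y.filter (fun y => y.1 = a) = ∅ := by
            rw [Finset.filter_eq_empty_iff]
            intro y hy hya
            apply (Finset.mem_filter.mp hy).2.2
            rw [ev, hya, ← derivative_map, ← hg, hg0]
            simp
          rw [this]; simp
        · calc (Y.filter (fun y => y.1 = a)).card ≤ g.roots.toFinset.card := by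
                refine Finset.card_le_card_of_injOn Prod.snd ?_ ?_
                · intro y hy
                  obtain ⟨hy1, hy2⟩ := Finset.mem_filter.mp hy
                  have := (Finset.mem_filter.mp hy1).2.1
                  rw [ev, hy2] at this
                  simpa [hg0] using this
                · intro y hy y' hy' h
                  exact Prod.ext ((Finset.mem_filter.mp hy).2.trans
                    (Finset.mem_filter.mp hy').2.symm) h
            _ ≤ g.roots.card := Multiset.toFinset_card_le _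
            _ ≤ g.natDegree := card_roots' _
            _ ≤ D := natDegree_map_le.trans hG.1)
    rwa [Finset.card_univ, ZMod.card, mul_comm] at h
  have h := Finset.card_le_mul_card_image_of_maps_to
    (f := fun p : ℚ × ℚ => (rho l p.1, rho l p.2)) (s := S) (t := Y) (by
      intro p hp
      have u1 : ((p.1.den : ZMod l) ^ D * (p.2.den : ZMod l) ^ D) ≠ 0 :=
        ((((ZMod.isUnit_iff_coprime _ _).mpr (c1 p hp)).pow _).mul
          (((ZMod.isUnit_iff_coprime _ _).mpr (c2 p hp)).pow _)).ne_zero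
      refine Finset.mem_filter.mpr ⟨Finset.mem_univ _, ?_, ?_⟩
      · have e2 := hom_cast hG (den_mul p.1) (den_mul p.2)
        rw [(hS p hp).2.2.2.1, mul_zero, Int.cast_eq_zero] at e2
        have e3 := hom_cast hG (den_mul_rho (c1 p hp)) (den_mul_rho (c2 p hp))
        rw [e2, Int.cast_zero] at e3
        exact (mul_eq_zero.mp e3.symm).resolve_left u1
      · intro h0
        have e3 := hom_cast hG' (den_mul_rho (c1 p hp)) (den_mul_rho (c2 p hp))
        dsimp only at h0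
        rw [h0, mul_zero, ZMod.intCast_zmod_eq_zero_iff_dvd] at e3
        exact (hS p hp).2.2.2.2 (e3.mul_left _)) (2 * (D + 2 * r) ^ 3) (by
      intro y hy
      refine class_le hm hr hbig hP hmP hPD hG y.1 y.2 (Finset.mem_filter.mp hy).2.2 _ ?_
      intro p hp
      obtain ⟨hp1, hp2⟩ := Finset.mem_filter.mp hp
      obtain ⟨q1, q2, q3, q4, -⟩ := hS p hp1
      exact ⟨q1, q2, q3, q4, c1 p hp1, c2 p hp1, congrArg Prod.fst hp2, congrArg Prod.snd hp2⟩)
  exact h.trans (Nat.mul_le_mul_left _ hY)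

/-- A curve with many points of small height has an equation of small height. -/
theorem exists_model {D N M : ℕ} (hN : 1 ≤ N) (hM : 1 ≤ M) {P : ℚ[X][X]} (hP0 : P ≠ 0)
    (hPD : BDeg D P) (S : Finset (ℚ × ℚ))
    (hS : ∀ p ∈ S, ht p.1 ≤ N ∧ ht p.2 ≤ M ∧ P.evalEval p.1 p.2 = 0) :
    ∃ G : ℤ[X][X], G ≠ 0 ∧ G.natDegree ≤ P.natDegree ∧ BDeg D G ∧
      (∀ i j, ((G.coeff i).coeff j).natAbs ≤ ((D + 1) ^ 2 * (N ^ D * M ^ D)) ^ ((D + 1) ^ 2)) ∧
      ∀ p ∈ S, ev G p.1 p.2 = 0 := by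
  set n := P.natDegree with hn
  have hnD : n ≤ D := hPD.1
  let row : ℚ × ℚ → Fin (D + 1) × Fin (n + 1) → ℤ := fun p i => mon D D p.1 p.2 i.1 i.2
  have hrow : ∀ p i, (row p i : ℚ) =
      (p.1.den : ℚ) ^ D * (p.2.den : ℚ) ^ D * (p.1 ^ (i.1 : ℕ) * p.2 ^ (i.2 : ℕ)) := by
    intro p i
    have i1 := i.1.2
    have i2 := i.2.2
    exact mon_cast (den_mul _) (den_mul _) (by omega) (by omega)
  have hB : 1 ≤ N ^ D * M ^ D := Nat.mul_pos (Nat.pow_pos hN) (Nat.pow_pos hM)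
  obtain ⟨t, ht0, htb, hto⟩ := small_kernel (row '' S) (N ^ D * M ^ D) hB
    (by
      rintro _ ⟨p, hp, rfl⟩ i
      have i1 := i.1.2
      have i2 := i.2.2
      exact mon_le (hS p hp).1 (hS p hp).2.1 (by omega) (by omega))
    (fun i => (P.coeff i.2).coeff i.1)
    (by
      intro h
      apply hP0
      rw [eq_mk P le_rfl hPD.2]
      change mk (fun i : Fin (D + 1) × Fin (n + 1) => (P.coeff i.2).coeff i.1) = 0
      rw [h]
      simp [mk])
    (by
      rintro _ ⟨p, hp, rfl⟩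
      have h := (hS p hp).2.2
      rw [eq_mk P le_rfl hPD.2, mk_evalEval] at h
      simp only [hrow]
      have : ∀ i : Fin (D + 1) × Fin (n + 1), (P.coeff i.2).coeff i.1 * ((p.1.den : ℚ) ^ D *
          (p.2.den : ℚ) ^ D * (p.1 ^ (i.1 : ℕ) * p.2 ^ (i.2 : ℕ))) = (p.1.den : ℚ) ^ D *
          (p.2.den : ℚ) ^ D * ((P.coeff i.2).coeff i.1 * (p.1 ^ (i.1 : ℕ) * p.2 ^ (i.2 : ℕ))) :=
        fun i => by ring
      simp only [this]
      rw [← Finset.mul_sum, h, mul_zero])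
  refine ⟨mk t, mk_ne_zero ht0, mk_natDegree t, ⟨(mk_natDegree t).trans hnD, mk_coeff_natDegree t⟩,
    ?_, ?_⟩
  · intro i j
    rw [mk_coeff]
    split_ifs with h
    · refine (htb _).trans ?_
      have e1 : Fintype.card (Fin (D + 1) × Fin (n + 1)) ≤ (D + 1) ^ 2 := by
        simp only [Fintype.card_prod, Fintype.card_fin, sq]
        gcongr
      calc _ ≤ ((D + 1) ^ 2 * (N ^ D * M ^ D)) ^ Fintype.card (Fin (D + 1) × Fin (n + 1)) := by
            gcongr
        _ ≤ _ := Nat.pow_le_pow_right (Nat.mul_pos (by positivity) hB) e1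
    · simp
  · intro p hp
    have h := hto _ ⟨p, hp, rfl⟩
    have h' : ((∑ i, t i * row p i : ℤ) : ℚ) = 0 := by rw [h]; simp
    push_cast at h'
    simp only [hrow] at h'
    have e1 : (mk t).map (mapRingHom (Int.castRingHom ℚ)) = mk (fun i => (t i : ℚ)) := by
      simp [mk, Polynomial.map_sum]
    rw [ev_eq, e1, mk_evalEval]
    have : ∀ i : Fin (D + 1) × Fin (n + 1), (t i : ℚ) * ((p.1.den : ℚ) ^ D *
          (p.2.den : ℚ) ^ D * (p.1 ^ (i.1 : ℕ) * p.2 ^ (i.2 : ℕ))) = (p.1.den : ℚ) ^ D *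
          (p.2.den : ℚ) ^ D * ((t i : ℚ) * (p.1 ^ (i.1 : ℕ) * p.2 ^ (i.2 : ℕ))) :=
        fun i => by ring
    simp only [this] at h'
    rw [← Finset.mul_sum] at h'
    refine (mul_eq_zero.mp h').resolve_left ?_
    have d1 := p.1.den_pos
    have d2 := p.2.den_pos
    positivity

theorem bdeg_derivative {D : ℕ} {G : ℤ[X][X]} (hG : BDeg D G) : BDeg D G.derivative := by
  refine ⟨(natDegree_derivative_le G).trans ((Nat.sub_le _ _).trans hG.1), fun i => ?_⟩
  rw [coeff_derivative]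
  have : ((i : ℤ[X]) + 1) = C ((i : ℤ) + 1) := by simp
  rw [this]
  exact (natDegree_mul_C_le _ _).trans (hG.2 _)

theorem derivative_le {D H : ℕ} {G : ℤ[X][X]} (hG : BDeg D G)
    (hH : ∀ i j, ((G.coeff i).coeff j).natAbs ≤ H) (i j : ℕ) :
    ((G.derivative.coeff i).coeff j).natAbs ≤ H * D := by
  rw [coeff_derivative]
  have : ((i : ℤ[X]) + 1) = C ((i : ℤ) + 1) := by simp
  rw [this, coeff_mul_C, Int.natAbs_mul]
  by_cases h : i + 1 ≤ D
  · exact Nat.mul_le_mul (hH _ _) (by omega)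
  · rw [coeff_eq_zero_of_natDegree_lt (by have := hG.1; omega : G.natDegree < i + 1)]
    simp

/-- The count in terms of an integer `L` with `N ^ 3 ≤ L ^ m`. -/
theorem count_le (m D A : ℕ) (hm : 1 ≤ m) : ∃ C : ℕ, ∀ P : ℚ[X][X], Irreducible P →
    m ≤ P.natDegree → BDeg D P → ∀ N : ℕ, 2 ≤ N → ∀ L : ℕ, 1 ≤ L → N ^ 3 ≤ L ^ m →
    ∀ S : Finset (ℚ × ℚ), (∀ p ∈ S, ht p.1 ≤ N ∧ ht p.2 ≤ N ^ A ∧ P.evalEval p.1 p.2 = 0) →
      S.card ≤ C * L := by
  obtain ⟨r, hr, hbig⟩ := exists_r m A hm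
  set a := (D + 1) ^ 2 with ha
  set E := 1 + A + (a + ((a + (D + A * D)) * a + D + (D + A * D))) with hE
  set k := m * E with hk
  refine ⟨2 * D ^ 3 + k * (2 * (D + 2 * r) ^ 3 * (2 ^ k * D)), ?_⟩
  intro P hP hmP hPD N hN L hL hNL S hS
  have hA : 1 ≤ N ^ A := Nat.pow_pos (by omega)
  by_cases hsm : S.card ≤ 2 * D ^ 3
  · calc S.card ≤ 2 * D ^ 3 * L := hsm.trans (Nat.le_mul_of_pos_right _ hL)
      _ ≤ _ := Nat.mul_le_mul_right _ (Nat.le_add_right _ _)
  obtain ⟨G, hG0, hGn, hG, hGH, hGS⟩ := exists_model (by omega) hA hP.ne_zero hPD S hS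
  have hinj : Function.Injective (mapRingHom (Int.castRingHom ℚ)) :=
    map_injective _ Int.cast_injective
  set G' := G.map (mapRingHom (Int.castRingHom ℚ)) with hG'
  have hG'0 : G' ≠ 0 := (Polynomial.map_ne_zero_iff hinj).mpr hG0
  have hG'n : G'.natDegree ≤ P.natDegree := natDegree_map_le.trans hGn
  have hdvd : P ∣ G' := by
    by_contra h
    obtain ⟨hf, hb⟩ := bezout hP h hPD (hG.map _)
    apply hsm
    refine le_trans ?_ hb
    rw [← Set.ncard_coe_finset]
    exact Set.ncard_le_ncard (fun p hp => ⟨(hS p hp).2.2, by rw [← ev_eq]; exact hGS p hp⟩) hf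
  have hdeg : P.natDegree ≤ G'.natDegree := natDegree_le_of_dvd hdvd hG'0
  have hder0 : G'.derivative ≠ 0 := by
    intro h
    have := Polynomial.derivative_eq_zero.mp h
    omega
  have hnd : ¬ P ∣ G'.derivative := fun h => by
    have h1 := natDegree_le_of_dvd h hder0
    have h2 := natDegree_derivative_le G'
    omega
  have hGd := bdeg_derivative hG
  have hder : G'.derivative = G.derivative.map (mapRingHom (Int.castRingHom ℚ)) := by
    rw [hG', derivative_map]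
  obtain ⟨hf, hb⟩ := bezout hP hnd hPD (hder ▸ hGd.map _)
  obtain ⟨s, hsc, hsp, hsa⟩ := exists_primes k L hL
  let val : ℚ × ℚ → ℤ := fun p => p.1.den * p.2.den * hom D G.derivative p.1 p.2
  have hcover : S ⊆ hf.toFinset ∪ s.biUnion fun l => S.filter fun p => ¬ (l : ℤ) ∣ val p := by
    intro p hp
    by_cases h0 : ev G.derivative p.1 p.2 = 0
    · refine Finset.mem_union_left _ (hf.mem_toFinset.mpr ⟨(hS p hp).2.2, ?_⟩)
      rw [hder, ← ev_eq]; exact h0
    refine Finset.mem_union_right _ ?_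
    have d1 := p.1.den_pos
    have d2 := p.2.den_pos
    have hv0 : val p ≠ 0 := by
      refine mul_ne_zero (by positivity) fun h => ?_
      have e2 := hom_cast hGd (den_mul p.1) (den_mul p.2)
      rw [h, Int.cast_zero] at e2
      exact h0 ((mul_eq_zero.mp e2.symm).resolve_left (by positivity))
    have hvl : (val p).natAbs < L ^ k := by
      have b1 := hom_le (D := D) (derivative_le hG hGH) (hS p hp).1 (hS p hp).2.1
      have b2 := den_le (hS p hp).1
      have b3 := den_le (hS p hp).2.1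
      have pw : ∀ c : ℕ, c ≤ N ^ c := fun c =>
        (Nat.lt_two_pow_self).le.trans (Nat.pow_le_pow_left hN c)
      have b4 := pw a
      have b5 := pw D
      have b6 : (val p).natAbs ≤ N ^ E := by
        simp only [val, Int.natAbs_mul, Int.natAbs_natCast]
        calc _ ≤ N * N ^ A * (a * ((a * (N ^ D * (N ^ A) ^ D)) ^ a * D *
              (N ^ D * (N ^ A) ^ D))) := by gcongr
          _ ≤ N * N ^ A * (N ^ a * ((N ^ a * (N ^ D * (N ^ A) ^ D)) ^ a * N ^ D *
              (N ^ D * (N ^ A) ^ D))) := by gcongr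
          _ = N ^ E := by
              rw [hE]
              simp only [pow_add, pow_mul, pow_one]
      have hE1 : 1 ≤ E := by omega
      calc _ ≤ N ^ E := b6
        _ < (N ^ 3) ^ E := Nat.pow_lt_pow_left (by
            calc N = N ^ 1 := (pow_one N).symm
              _ < N ^ 3 := Nat.pow_lt_pow_right (by omega) (by norm_num)) (by omega)
        _ ≤ (L ^ m) ^ E := by gcongr
        _ = L ^ k := by rw [hk, pow_mul]
    obtain ⟨l, hl, hnl⟩ := hsa _ hv0 hvl
    exact Finset.mem_biUnion.mpr ⟨l, hl, Finset.mem_filter.mpr ⟨hp, hnl⟩⟩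
  have h1 : hf.toFinset.card ≤ 2 * D ^ 3 := by rwa [← Set.ncard_eq_toFinset_card _ hf]
  have h2 : (s.biUnion fun l => S.filter fun p => ¬ (l : ℤ) ∣ val p).card ≤
      k * (2 * (D + 2 * r) ^ 3 * (2 ^ k * L * D)) := by
    rw [← hsc]
    refine Finset.card_biUnion_le_card_mul _ _ _ fun l hl => ?_
    obtain ⟨hl1, hl2, hl3⟩ := hsp l hl
    have : Fact l.Prime := ⟨hl1⟩
    refine (prime_le (N := N) (M := N ^ A) hm hr
      (hbig N l hN (hNL.trans (Nat.pow_le_pow_left hl2 m))) hP hmP hPD hG hGd _ ?_).trans ?_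
    · intro p hp
      obtain ⟨hp1, hp2⟩ := Finset.mem_filter.mp hp
      exact ⟨(hS p hp1).1, (hS p hp1).2.1, (hS p hp1).2.2, hGS p hp1, hp2⟩
    · rw [hsc]; gcongr
  calc S.card ≤ _ := Finset.card_le_card hcover
    _ ≤ _ := Finset.card_union_le _ _
    _ ≤ 2 * D ^ 3 * L + k * (2 * (D + 2 * r) ^ 3 * (2 ^ k * L * D)) :=
        add_le_add (h1.trans (Nat.le_mul_of_pos_right _ hL)) h2
    _ = _ := by ring

end BPA

/-- Uniform Bombieri-Pila bound for an irreducible curve. -/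
theorem bp (m D A : ℕ) (hm : 1 ≤ m) : ∃ C : ℝ, ∀ P : ℚ[X][X], Irreducible P → m ≤ P.natDegree →
    BDeg D P → ∀ N : ℕ, 2 ≤ N →
      ({x : ℚ | ht x ≤ N ∧ ∃ u : ℚ, ht u ≤ N ^ A ∧ P.evalEval x u = 0}.ncard : ℝ) ≤
        C * (N : ℝ) ^ ((3 : ℝ) / m) := by
  obtain ⟨C, hC⟩ := BPA.count_le m D A hm
  refine ⟨C * 2, fun P hP hmP hPD N hN => ?_⟩
  have hN1 : (1 : ℝ) ≤ N := by exact_mod_cast (by omega : 1 ≤ N)
  have hm0 : (m : ℝ) ≠ 0 := by exact_mod_cast (by omega : m ≠ 0)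
  set y : ℝ := (N : ℝ) ^ ((3 : ℝ) / m) with hy
  have hy1 : 1 ≤ y := Real.one_le_rpow hN1 (by positivity)
  have hym : y ^ m = (N : ℝ) ^ 3 := by
    rw [hy, ← Real.rpow_natCast, ← Real.rpow_mul (by positivity), div_mul_cancel₀ _ hm0]
    exact_mod_cast Real.rpow_natCast (N : ℝ) 3
  have hL1 : 1 ≤ ⌈y⌉₊ := Nat.ceil_pos.mpr (by linarith)
  have hL2 : N ^ 3 ≤ ⌈y⌉₊ ^ m := by
    have : y ^ m ≤ (⌈y⌉₊ : ℝ) ^ m := pow_le_pow_left₀ (by linarith) (Nat.le_ceil y) m
    rw [hym] at this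
    exact_mod_cast this
  have hL3 : (⌈y⌉₊ : ℝ) ≤ 2 * y := by
    have := Nat.ceil_lt_add_one (show 0 ≤ y by linarith)
    linarith
  have hfin : {p : ℚ × ℚ | ht p.1 ≤ N ∧ ht p.2 ≤ N ^ A ∧ P.evalEval p.1 p.2 = 0}.Finite :=
    ((finite_ht N).prod (finite_ht (N ^ A))).subset fun p hp => ⟨hp.1, hp.2.1⟩
  have h1 := hC P hP hmP hPD N hN _ hL1 hL2 hfin.toFinset (fun p hp => hfin.mem_toFinset.mp hp)
  rw [← Set.ncard_eq_toFinset_card _ hfin] at h1
  have h2 : {x : ℚ | ht x ≤ N ∧ ∃ u : ℚ, ht u ≤ N ^ A ∧ P.evalEval x u = 0} =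
      Prod.fst '' {p : ℚ × ℚ | ht p.1 ≤ N ∧ ht p.2 ≤ N ^ A ∧ P.evalEval p.1 p.2 = 0} := by
    ext x
    simp
  rw [h2]
  calc _ ≤ ((C * ⌈y⌉₊ : ℕ) : ℝ) := by exact_mod_cast (Set.ncard_image_le hfin).trans h1
    _ ≤ C * (2 * y) := by push_cast; gcongr
    _ = _ := by ring

/-- The same for a curve all of whose components of positive degree have large degree. -/
theorem bp2 (m D A : ℕ) (hm : 1 ≤ m) : ∃ C : ℝ, ∀ R : ℚ[X][X], R ≠ 0 → BDeg D R →
    (∀ P : ℚ[X][X], P ∣ R → 1 ≤ P.natDegree → m ≤ P.natDegree) → ∀ N : ℕ, 2 ≤ N →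
      ({x : ℚ | ht x ≤ N ∧ ∃ u : ℚ, ht u ≤ N ^ A ∧ R.evalEval x u = 0}.ncard : ℝ) ≤
        C * (N : ℝ) ^ ((3 : ℝ) / m) := by
  obtain ⟨C, hC⟩ := bp m D A hm
  refine ⟨2 * D * (|C| + D), fun R hR hD hdeg N hN => ?_⟩
  have hN1 : (1 : ℝ) ≤ N := by exact_mod_cast (by omega : 1 ≤ N)
  set y : ℝ := (N : ℝ) ^ ((3 : ℝ) / m) with hy
  have hy1 : 1 ≤ y := Real.one_le_rpow hN1 (by positivity)
  obtain ⟨s, hs, hsP, hcov⟩ := exists_factors hR hD
  let T : ℚ[X][X] → Finset ℚ := fun P =>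
    (finite_ht N).toFinset.filter fun x => ∃ u : ℚ, ht u ≤ N ^ A ∧ P.evalEval x u = 0
  have hT : ∀ P : ℚ[X][X],
      {x : ℚ | ht x ≤ N ∧ ∃ u : ℚ, ht u ≤ N ^ A ∧ P.evalEval x u = 0} = T P := by
    intro P
    ext x
    simp [T]
  have h1 : ∀ P ∈ s, ((T P).card : ℝ) ≤ (|C| + D) * y := by
    intro P hP
    obtain ⟨hirr, hdvd⟩ := hsP P hP
    have hPD := hD.of_dvd hR hdvd
    rcases Nat.eq_zero_or_pos P.natDegree with h0 | h0
    · have hPc := eq_C_of_natDegree_eq_zero h0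
      have hc0 : P.coeff 0 ≠ 0 := fun h => hirr.ne_zero (by rw [hPc, h, map_zero])
      have : (T P).card ≤ D := by
        calc (T P).card ≤ (P.coeff 0).roots.toFinset.card := by
              refine Finset.card_le_card fun x hx => ?_
              obtain ⟨u, -, hu⟩ := (Finset.mem_filter.mp hx).2
              rw [hPc, evalEval_C] at hu
              simpa [hc0] using hu
          _ ≤ (P.coeff 0).roots.card := Multiset.toFinset_card_le _
          _ ≤ (P.coeff 0).natDegree := card_roots' _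
          _ ≤ D := hPD.2 0
      have h2 : ((T P).card : ℝ) ≤ D := by exact_mod_cast this
      have h3 := abs_nonneg C
      nlinarith [Nat.cast_nonneg (α := ℝ) D]
    · have := hC P hirr (hdeg P hdvd h0) hPD N hN
      rw [hT, Set.ncard_coe_finset] at this
      have h3 := le_abs_self C
      nlinarith [Nat.cast_nonneg (α := ℝ) D]
  have h2 : T R ⊆ s.biUnion T := by
    intro x hx
    obtain ⟨hx1, u, hu1, hu2⟩ := Finset.mem_filter.mp hx
    obtain ⟨P, hP, hPu⟩ := hcov x u hu2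
    exact Finset.mem_biUnion.mpr ⟨P, hP, Finset.mem_filter.mpr ⟨hx1, u, hu1, hPu⟩⟩
  rw [hT, Set.ncard_coe_finset]
  have hs' : (s.card : ℝ) ≤ 2 * D := by exact_mod_cast hs
  calc ((T R).card : ℝ) ≤ ((∑ P ∈ s, (T P).card : ℕ) : ℝ) := by
        exact_mod_cast (Finset.card_le_card h2).trans Finset.card_biUnion_le
    _ = ∑ P ∈ s, ((T P).card : ℝ) := by push_cast; rfl
    _ ≤ s.card • ((|C| + D) * y) := Finset.sum_le_card_nsmul _ _ _ h1
    _ = s.card * ((|C| + D) * y) := nsmul_eq_mul _ _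
    _ ≤ 2 * D * ((|C| + D) * y) := by gcongr
    _ = _ := by ring

end

end Pool.Agent.P.MP_a60a76_nt.SP
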