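import Pool.Agent.P.MP_a60a76_nt.SP.Defs

/-! Auxiliary lemmas for the two dimensional determinant method. -/

namespace Pool.Agent.P.MP_a60a76_nt.SP.DM2

open Polynomial
open scoped Classical

noncomputable section

/-- Evaluation of an integral polynomial in two variables. -/
def hom2 {A : Type*} [CommRing A] (x y : A) : ℤ[X][X] →+* A :=
  eval₂RingHom (eval₂RingHom (Int.castRingHom A) x) y

theorem comp_hom2 {A B : Type*} [CommRing A] [CommRing B] (φ : A →+* B) (x y : A) :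
    φ.comp (hom2 x y) = hom2 (φ x) (φ y) := by
  refine Polynomial.ringHom_ext' (Polynomial.ringHom_ext' (RingHom.ext_int _ _) ?_) ?_
  · simp [hom2]
  · simp [hom2]

/-- Evaluation of an integral polynomial in three variables. -/
def ev {A : Type*} [CommRing A] (x y w : A) : ℤ[X][X][X] →+* A :=
  eval₂RingHom (hom2 x y) w

theorem ev_eq {A : Type*} [CommRing A] (x y w : A) (g : ℤ[X][X][X]) :
    ev x y w g = (g.map (hom2 x y)).eval w := by
  simp [ev, eval_map]

theorem map_ev {A B : Type*} [CommRing A] [CommRing B] (φ : A →+* B) (x y w : A)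
    (g : ℤ[X][X][X]) : φ (ev x y w g) = ev (φ x) (φ y) (φ w) g := by
  simp only [ev, coe_eval₂RingHom]
  rw [hom_eval₂, comp_hom2]

theorem ind1 {A : Type*} [CommRing A] (P : A[X] → Prop) (hadd : ∀ a b, P a → P b → P (a + b))
    (hmul : ∀ a b, P a → P b → P (a * b)) (hC : ∀ a, P (C a)) (hX : P X) (g : A[X]) : P g := by
  induction g using Polynomial.induction_on with
  | C a => exact hC a
  | add p q hp hq => exact hadd _ _ hp hq
  | monomial n a h => rw [pow_succ, ← mul_assoc]; exact hmul _ _ h hX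

theorem ind3 {A : Type*} [CommRing A] (P : A[X][X][X] → Prop)
    (hadd : ∀ a b, P a → P b → P (a + b)) (hmul : ∀ a b, P a → P b → P (a * b))
    (hC : ∀ a, P (C (C (C a)))) (hx : P (C (C X))) (hy : P (C X)) (hw : P X) (g : A[X][X][X]) :
    P g := by
  refine ind1 P hadd hmul (fun b => ?_) hw g
  refine ind1 (fun b => P (C b)) (fun a b ha hb => ?_) (fun a b ha hb => ?_) (fun c => ?_) hy b
  · rw [map_add]; exact hadd _ _ ha hb
  · rw [map_mul]; exact hmul _ _ ha hb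
  · refine ind1 (fun c => P (C (C c))) (fun a b ha hb => ?_) (fun a b ha hb => ?_) hC hx c
    · rw [map_add, map_add]; exact hadd _ _ ha hb
    · rw [map_mul, map_mul]; exact hmul _ _ ha hb

/-- Base change from the integers to the rationals. -/
def cast2 : ℤ[X][X] →+* ℚ[X][X] := mapRingHom (mapRingHom (Int.castRingHom ℚ))

theorem hom2_rat (x y : ℚ) : hom2 x y = (evalEvalRingHom x y).comp cast2 := by
  refine Polynomial.ringHom_ext' (Polynomial.ringHom_ext' (RingHom.ext_int _ _) ?_) ?_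
  · simp [hom2, cast2]
  · simp [hom2, cast2]

theorem clear_den (F : ℚ[X][X][X]) : ∃ (d : ℤ) (f : ℤ[X][X][X]), d ≠ 0 ∧
    f.map cast2 = C (C (C (d : ℚ))) * F := by
  have hc : ∀ d : ℤ, (C (C (C d)) : ℤ[X][X][X]).map cast2 = C (C (C (d : ℚ))) := fun d => by
    rw [map_C, cast2, coe_mapRingHom, map_C, coe_mapRingHom, map_C, eq_intCast]
  refine ind3 (fun F : ℚ[X][X][X] => ∃ (d : ℤ) (f : ℤ[X][X][X]), d ≠ 0 ∧
    f.map cast2 = C (C (C (d : ℚ))) * F) ?_ ?_ ?_ ?_ ?_ ?_ F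
  · rintro a b ⟨d, f, hd, hf⟩ ⟨d', f', hd', hf'⟩
    refine ⟨d * d', C (C (C d')) * f + C (C (C d)) * f', mul_ne_zero hd hd', ?_⟩
    rw [Polynomial.map_add, Polynomial.map_mul, Polynomial.map_mul, hc, hc, hf, hf', Int.cast_mul,
      map_mul, map_mul, map_mul]
    ring
  · rintro a b ⟨d, f, hd, hf⟩ ⟨d', f', hd', hf'⟩
    refine ⟨d * d', f * f', mul_ne_zero hd hd', ?_⟩
    rw [Polynomial.map_mul, hf, hf', Int.cast_mul, map_mul, map_mul, map_mul]
    ring
  · intro a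
    refine ⟨a.den, C (C (C a.num)), by exact_mod_cast a.den_nz, ?_⟩
    have h : ((a.den : ℤ) : ℚ) * a = a.num := by
      push_cast
      rw [mul_comm]; exact Rat.mul_den_eq_num a
    rw [hc, ← h, map_mul, map_mul, map_mul]
  · exact ⟨1, C (C X), one_ne_zero, by simp [cast2]⟩
  · exact ⟨1, C X, one_ne_zero, by simp [cast2]⟩
  · exact ⟨1, X, one_ne_zero, by simp [cast2]⟩

theorem ev_rat {F : ℚ[X][X][X]} {d : ℤ} {f : ℤ[X][X][X]}
    (h : f.map cast2 = C (C (C (d : ℚ))) * F) (x y w : ℚ) :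
    ev x y w f = d * (F.map (evalEvalRingHom x y)).eval w := by
  rw [ev_eq, hom2_rat, ← Polynomial.map_map, h, Polynomial.map_mul, map_C, eval_mul, eval_C,
    coe_evalEvalRingHom, evalEval_CC]

theorem deriv_clear {F : ℚ[X][X][X]} {d : ℤ} {f : ℤ[X][X][X]}
    (h : f.map cast2 = C (C (C (d : ℚ))) * F) :
    f.derivative.map cast2 = C (C (C (d : ℚ))) * F.derivative := by
  rw [← derivative_map, h, derivative_C_mul]

theorem ht_le_of_eq {q : ℚ} {n : ℤ} {d B : ℕ} (hd : d ≠ 0) (h : q * d = n) (hn : n.natAbs ≤ B)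
    (hB : d ≤ B) : ht q ≤ B := by
  have hd' : (d : ℤ) ≠ 0 := by exact_mod_cast hd
  have hq : q = Rat.divInt n d := by
    rw [Rat.divInt_eq_div, ← h]
    push_cast
    field_simp
  refine max_le ?_ ?_
  · by_cases h0 : n = 0
    · simp [hq, h0]
    · have := Rat.num_dvd n hd'
      rw [← hq] at this
      exact (Nat.le_of_dvd (Int.natAbs_pos.2 h0) (Int.natAbs_dvd_natAbs.2 this)).trans hn
  · have := Rat.den_dvd n d
    rw [← hq] at this
    exact (Nat.le_of_dvd (Nat.pos_of_ne_zero hd) (by exact_mod_cast this)).trans hB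

theorem num_le_ht (q : ℚ) : q.num.natAbs ≤ ht q := le_max_left _ _

theorem den_le_ht (q : ℚ) : q.den ≤ ht q := le_max_right _ _

theorem ht_mul (a b : ℚ) : ht (a * b) ≤ ht a * ht b := by
  refine ht_le_of_eq (n := a.num * b.num) (d := a.den * b.den) (mul_ne_zero a.den_nz b.den_nz)
    ?_ ?_ ?_
  · push_cast
    rw [← Rat.mul_den_eq_num a, ← Rat.mul_den_eq_num b]
    ring
  · rw [Int.natAbs_mul]; exact Nat.mul_le_mul (num_le_ht a) (num_le_ht b)
  · exact Nat.mul_le_mul (den_le_ht a) (den_le_ht b)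

theorem ht_add (a b : ℚ) : ht (a + b) ≤ 2 * (ht a * ht b) := by
  refine ht_le_of_eq (n := a.num * b.den + b.num * a.den) (d := a.den * b.den)
    (mul_ne_zero a.den_nz b.den_nz) ?_ ?_ ?_
  · push_cast
    rw [← Rat.mul_den_eq_num a, ← Rat.mul_den_eq_num b]
    ring
  · refine (Int.natAbs_add_le _ _).trans ?_
    rw [Int.natAbs_mul, Int.natAbs_mul, Int.natAbs_natCast, Int.natAbs_natCast, two_mul]
    refine Nat.add_le_add (Nat.mul_le_mul (num_le_ht a) (den_le_ht b)) ?_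
    rw [mul_comm (ht a)]
    exact Nat.mul_le_mul (num_le_ht b) (den_le_ht a)
  · have := Nat.mul_le_mul (den_le_ht a) (den_le_ht b)
    omega

theorem ht_ev (A : ℕ) (g : ℤ[X][X][X]) : ∃ K : ℕ, ∀ N : ℕ, 2 ≤ N → ∀ x y w : ℚ, ht x ≤ N →
    ht y ≤ N → ht w ≤ N ^ A → ht (ev x y w g) ≤ N ^ K := by
  refine ind3 (fun g : ℤ[X][X][X] => ∃ K : ℕ, ∀ N : ℕ, 2 ≤ N → ∀ x y w : ℚ, ht x ≤ N →
    ht y ≤ N → ht w ≤ N ^ A → ht (ev x y w g) ≤ N ^ K) ?_ ?_ ?_ ?_ ?_ ?_ g
  · rintro a b ⟨K, hK⟩ ⟨K', hK'⟩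
    refine ⟨K + K' + 1, fun N hN x y w hx hy hw => ?_⟩
    rw [map_add, pow_succ, pow_add, mul_comm]
    exact (ht_add _ _).trans (Nat.mul_le_mul hN
      (Nat.mul_le_mul (hK N hN x y w hx hy hw) (hK' N hN x y w hx hy hw)))
  · rintro a b ⟨K, hK⟩ ⟨K', hK'⟩
    refine ⟨K + K', fun N hN x y w hx hy hw => ?_⟩
    rw [map_mul, pow_add]
    exact (ht_mul _ _).trans (Nat.mul_le_mul (hK N hN x y w hx hy hw) (hK' N hN x y w hx hy hw))
  · intro a
    refine ⟨ht a, fun N hN x y w _ _ _ => ?_⟩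
    have : ev x y w (C (C (C a))) = (a : ℚ) := by simp [ev, hom2]
    rw [this]
    exact (Nat.lt_two_pow_self.le).trans (Nat.pow_le_pow_left hN _)
  · exact ⟨1, fun N hN x y w hx _ _ => by simpa [ev, hom2] using hx⟩
  · exact ⟨1, fun N hN x y w _ hy _ => by simpa [ev, hom2] using hy⟩
  · exact ⟨A, fun N hN x y w _ _ hw => by simpa [ev, hom2] using hw⟩

/-- Reduction of `l`-integral rationals modulo a power of `l`. -/
theorem exists_red (l e : ℕ) (hl : l.Prime) : ∃ (S : Subring ℚ) (_ : S →+* ZMod (l ^ e)),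
    ∀ r : ℚ, ¬ l ∣ r.den → r ∈ S := by
  let M : Submonoid ℤ :=
    { carrier := {n | ¬ (l : ℤ) ∣ n}
      mul_mem' := fun {a b} ha hb h =>
        ((Nat.prime_iff_prime_int.1 hl).dvd_or_dvd h).elim ha hb
      one_mem' := fun h => hl.one_lt.ne' (by exact_mod_cast Int.eq_one_of_dvd_one (by positivity) h) }
  have hM : M ≤ nonZeroDivisors ℤ := fun n hn =>
    mem_nonZeroDivisors_of_ne_zero (fun h => hn (by simp [h]))
  let S := Localization.subalgebra.ofField ℚ M hM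
  have hu : ∀ n : M, IsUnit (Int.castRingHom (ZMod (l ^ e)) n) := by
    rintro ⟨n, hn⟩
    have h1 : IsCoprime (l : ℤ) n := (Nat.prime_iff_prime_int.1 hl).coprime_iff_not_dvd.2 hn
    obtain ⟨a, b, hab⟩ := (h1.pow_left (m := e))
    have h2 := congrArg (Int.cast : ℤ → ZMod (l ^ e)) hab
    have h3 : ((l : ZMod (l ^ e))) ^ e = 0 := by
      rw [← Nat.cast_pow]; exact ZMod.natCast_self _
    push_cast at h2
    rw [h3, mul_zero, zero_add] at h2
    exact IsUnit.of_mul_eq_one_right b (by simpa using h2)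
  refine ⟨S.toSubring, IsLocalization.lift (M := M) (S := S) hu, fun r hr => ?_⟩
  refine ⟨r.num, r.den, fun h => hr (by exact_mod_cast h), ?_⟩
  simp [← div_eq_mul_inv, Rat.num_div_den]

theorem cube_lt (r : ℕ) (hr : 10 ≤ r) : r ^ 3 < 2 ^ r := by
  induction r, hr using Nat.le_induction with
  | base => norm_num
  | succ n hn ih =>
    have : (n + 1) ^ 3 ≤ 2 * n ^ 3 := by nlinarith [Nat.mul_le_mul hn hn, Nat.mul_le_mul hn (Nat.mul_le_mul hn hn)]
    rw [pow_succ 2 n]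
    omega

theorem exists_sq_lt (c b : ℕ) : ∃ r : ℕ, 1 ≤ r ∧ c * (b + r) ^ 2 < 2 ^ r := by
  refine ⟨10 + b + 4 * c, by omega, lt_of_le_of_lt ?_ (cube_lt _ (by omega))⟩
  set r := 10 + b + 4 * c with hr
  have h1 : (b + r) ^ 2 ≤ (2 * r) ^ 2 := Nat.pow_le_pow_left (by omega) 2
  have h2 : 4 * c ≤ r := by omega
  calc c * (b + r) ^ 2 ≤ c * (2 * r) ^ 2 := Nat.mul_le_mul_left _ h1
    _ = 4 * c * r ^ 2 := by ring
    _ ≤ r * r ^ 2 := Nat.mul_le_mul_right _ h2
    _ = r ^ 3 := by ring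

end

end Pool.Agent.P.MP_a60a76_nt.SP.DM2
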