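import Pool.Agent.P.MP_a60a76_nt.SP.Res
import Pool.Agent.P.MP_a60a76_nt.SP.Det
import Pool.Agent.P.MP_a60a76_nt.SP.Abs
import Pool.Agent.P.MP_a60a76_nt.SP.DM2Aux

namespace Pool.Agent.P.MP_a60a76_nt.SP

open Polynomial UpperHalfPlane PeriodPair
open scoped MatrixGroups UpperHalfPlane Matrix Modular Topology Classical

noncomputable section

namespace DM2

theorem det_zero {ι : Type*} [Fintype ι] [DecidableEq ι] {q : ℕ} (S : Subring ℚ)
    (ψ : S →+* ZMod q) (M : Matrix ι ι S) (u : ι → ℕ) (hu : ∀ j, u j ≠ 0) (M' : Matrix ι ι ℤ)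
    (h : ∀ i j, (M' i j : S) = u j * M i j) (hd : (ψ.mapMatrix M).det = 0) (B : ℕ)
    (hB : ∀ i j, (M' i j).natAbs ≤ B)
    (hq : (Fintype.card ι).factorial * B ^ Fintype.card ι < q) : M.det = 0 := by
  have h1 : (M'.det : S) = (∏ j, (u j : S)) * M.det := by
    rw [← Matrix.det_mul_row, Int.cast_det]
    congr 1
    ext i j
    simp [h]
  have h2 : (M'.det : ZMod q) = 0 := by
    have := congrArg ψ h1
    rw [map_intCast, map_mul, RingHom.map_det, hd, mul_zero] at this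
    exact this
  have h3 : |M'.det| ≤ (Fintype.card ι).factorial • (B : ℤ) ^ Fintype.card ι :=
    Matrix.det_le (abv := AbsoluteValue.abs) (A := M') (x := (B : ℤ)) fun i j => by
      have := hB i j
      simp only [AbsoluteValue.abs_apply]
      rw [Int.abs_eq_natAbs]
      exact_mod_cast this
  have h4 : M'.det = 0 := by
    refine Int.eq_zero_of_abs_lt_dvd ((ZMod.intCast_zmod_eq_zero_iff_dvd _ _).1 h2) (h3.trans_lt ?_)
    rw [nsmul_eq_mul]
    exact_mod_cast hq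
  rw [h4, Int.cast_zero] at h1
  refine (mul_eq_zero.1 h1.symm).resolve_left (Finset.prod_ne_zero_iff.2 fun j _ => ?_)
  exact_mod_cast hu j

theorem ker_pow (l e : ℕ) (π : ZMod (l ^ e) →+* ZMod l) [NeZero (l ^ e)] :
    RingHom.ker π ^ e = ⊥ := by
  have h1 : RingHom.ker π ≤ Ideal.span {(l : ZMod (l ^ e))} := fun z hz => by
    obtain ⟨n, rfl⟩ := ZMod.natCast_zmod_surjective z
    rw [RingHom.mem_ker, map_natCast, ZMod.natCast_eq_zero_iff] at hz
    obtain ⟨k, rfl⟩ := hz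
    rw [Nat.cast_mul]
    exact Ideal.mul_mem_right _ _ (Ideal.mem_span_singleton_self _)
  refine le_bot_iff.1 ((Ideal.pow_right_mono h1 e).trans ?_)
  rw [Ideal.span_singleton_pow, ← Nat.cast_pow, ZMod.natCast_self]
  simp

/-- Interpolation determinants at points of one residue class vanish in the residue ring. -/
theorem det_local {R k : Type*} [CommRing R] [Field k] (π : R →+* k)
    (hπ : Function.Surjective π) (m T : ℕ) (hI : RingHom.ker π ^ ((m * T) ^ 3) = ⊥)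
    (f : ℤ[X][X][X]) (a b c : k) (hc : ev a b c f.derivative ≠ 0)
    (x y w : Fin T × Fin T × Fin (2 * m ^ 2) → R) (hx : ∀ j, π (x j) = a)
    (hy : ∀ j, π (y j) = b) (hw : ∀ j, π (w j) = c) (hf : ∀ j, ev (x j) (y j) (w j) f = 0) :
    (Matrix.of fun i j : Fin T × Fin T × Fin (2 * m ^ 2) =>
      x j ^ (i.1 : ℕ) * y j ^ (i.2.1 : ℕ) * w j ^ (i.2.2 : ℕ)).det = 0 := by
  obtain ⟨a, rfl⟩ := hπ a
  obtain ⟨b, rfl⟩ := hπ b
  obtain ⟨c, rfl⟩ := hπ c
  obtain ⟨u, hu⟩ := hπ (ev (π a) (π b) (π c) f.derivative)⁻¹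
  set x₀ : MvPolynomial (Fin 2) R := MvPolynomial.X 0 + MvPolynomial.C a with hx₀
  set y₀ : MvPolynomial (Fin 2) R := MvPolynomial.X 1 + MvPolynomial.C b with hy₀
  set z : Fin T × Fin T × Fin (2 * m ^ 2) → Fin 2 → R := fun j => ![x j - a, y j - b] with hz
  have hzI : ∀ j i, z j i ∈ RingHom.ker π := fun j i => by
    fin_cases i <;> simp [hz, RingHom.mem_ker, hx, hy]
  have ex : ∀ j, MvPolynomial.eval (z j) x₀ = x j := fun j => by simp [hx₀, hz]
  have ey : ∀ j, MvPolynomial.eval (z j) y₀ = y j := fun j => by simp [hy₀, hz]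
  obtain ⟨W, hW⟩ := newton (RingHom.ker π) _ hI (f.map (hom2 x₀ y₀)) z w c u hzI
    (fun j => by simp [RingHom.mem_ker, hw])
    (fun j => by rw [Polynomial.map_map, comp_hom2, ex, ey, ← ev_eq, hf])
    (by
      rw [derivative_map, Polynomial.map_map, comp_hom2, ← ev_eq, RingHom.mem_ker, map_sub,
        map_mul, map_ev, hu, map_one]
      have e1 : MvPolynomial.eval (0 : Fin 2 → R) x₀ = a := by simp [hx₀]
      have e2 : MvPolynomial.eval (0 : Fin 2 → R) y₀ = b := by simp [hy₀]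
      rw [e1, e2, inv_mul_cancel₀ hc, sub_self])
  have := det_mem_pow (RingHom.ker π)
    (fun i : Fin T × Fin T × Fin (2 * m ^ 2) =>
      x₀ ^ (i.1 : ℕ) * y₀ ^ (i.2.1 : ℕ) * W ^ (i.2.2 : ℕ)) z hzI ((m * T) ^ 3)
    (sum_degree_two (m * T) (by simp; ring))
  rw [hI, Ideal.mem_bot] at this
  simpa only [map_mul, map_pow, ex, ey, hW] using this

theorem size_lt (m A r N l : ℕ) (hN : 2 ≤ N) (hl : N ^ 5 ≤ l ^ m) (hm : 1 ≤ m) (hr1 : 1 ≤ r)
    (hr : 8 * m ^ 2 * (2 * A * m ^ 2 + r) ^ 2 < 2 ^ r) (T s : ℕ)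
    (hT : T = 2 * (2 * A * m ^ 2 + r)) (hs : s = T * (T * (2 * m ^ 2))) :
    s.factorial * (N ^ T * N ^ T * (N ^ A) ^ (2 * m ^ 2)) ^ s < l ^ ((m * T) ^ 3) := by
  set h := 2 * A * m ^ 2 + r with hh
  have hs' : s = 8 * m ^ 2 * h ^ 2 := by rw [hs, hT]; ring
  have hs0 : s ≠ 0 := by
    have : h ≠ 0 := by omega
    have : m ≠ 0 := by omega
    rw [hs']; positivity
  have h1 : s * (N ^ T * N ^ T * (N ^ A) ^ (2 * m ^ 2)) < N ^ (5 * h) := by
    have h2 : s < N ^ r := (hs' ▸ hr).trans_le (Nat.pow_le_pow_left hN r)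
    have h3 : N ^ (5 * h) = N ^ r * (N ^ T * N ^ T * (N ^ A) ^ (2 * m ^ 2)) := by
      rw [← pow_mul, ← pow_add, ← pow_add, ← pow_add]
      congr 1
      rw [hT, hh]; ring
    rw [h3]
    exact Nat.mul_lt_mul_of_pos_right h2 (by positivity)
  calc s.factorial * (N ^ T * N ^ T * (N ^ A) ^ (2 * m ^ 2)) ^ s
      ≤ s ^ s * (N ^ T * N ^ T * (N ^ A) ^ (2 * m ^ 2)) ^ s :=
        Nat.mul_le_mul_right _ (Nat.factorial_le_pow s)
    _ = (s * (N ^ T * N ^ T * (N ^ A) ^ (2 * m ^ 2))) ^ s := by rw [← mul_pow]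
    _ < (N ^ (5 * h)) ^ s := Nat.pow_lt_pow_left h1 hs0
    _ = (N ^ 5) ^ (h * s) := by rw [← pow_mul, ← pow_mul, mul_assoc]
    _ ≤ (l ^ m) ^ (h * s) := Nat.pow_le_pow_left hl _
    _ = l ^ ((m * T) ^ 3) := by
      rw [← pow_mul]
      congr 1
      rw [hs', hT]; ring

theorem clear_pow (S : Subring ℚ) (x : S) {i T B : ℕ} (hi : i ≤ T) (hB : ht x ≤ B) :
    ((((x : ℚ).num ^ i * ((x : ℚ).den : ℤ) ^ (T - i) : ℤ)) : S) = (((x : ℚ).den ^ T : ℕ) : S) * x ^ i ∧
    ((x : ℚ).num ^ i * ((x : ℚ).den : ℤ) ^ (T - i)).natAbs ≤ B ^ T := by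
  obtain ⟨k, rfl⟩ := Nat.exists_eq_add_of_le hi
  rw [Nat.add_sub_cancel_left]
  constructor
  · apply Subtype.ext
    push_cast
    rw [← Rat.mul_den_eq_num]
    ring
  · rw [Int.natAbs_mul, Int.natAbs_pow, Int.natAbs_pow, Int.natAbs_natCast, pow_add]
    exact Nat.mul_le_mul (Nat.pow_le_pow_left ((num_le_ht _).trans hB) _)
      (Nat.pow_le_pow_left ((den_le_ht _).trans hB) _)

/-- The polynomial with prescribed coefficients. -/
theorem exists_poly (T n : ℕ) (c : Fin T × Fin T × Fin n → ℚ) (hc : c ≠ 0) :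
    ∃ Q : ℚ[X][X][X], Q ≠ 0 ∧ Q.natDegree < n ∧ (∀ i, BDeg T (Q.coeff i)) ∧
      ∀ x y w : ℚ, (Q.map (evalEvalRingHom x y)).eval w =
        ∑ i, c i * (x ^ (i.1 : ℕ) * y ^ (i.2.1 : ℕ) * w ^ (i.2.2 : ℕ)) := by
  set Q : ℚ[X][X][X] := ∑ i : Fin T × Fin T × Fin n,
    monomial (i.2.2 : ℕ) (monomial (i.2.1 : ℕ) (monomial (i.1 : ℕ) (c i))) with hQ
  obtain ⟨i₀, hi₀⟩ := Function.ne_iff.1 hc
  refine ⟨Q, fun h0 => hi₀ ?_, ?_, fun k => ⟨?_, fun k' => ?_⟩, fun x y w => ?_⟩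
  · have := congrArg (fun P : ℚ[X][X][X] => ((P.coeff i₀.2.2).coeff i₀.2.1).coeff i₀.1) h0
    simp only [hQ, finsetSum_coeff, coeff_zero] at this
    rw [Finset.sum_eq_single i₀] at this
    · simpa using this
    · intro i _ hi
      simp only [coeff_monomial]
      split_ifs with h1
      · simp only [coeff_monomial]
        split_ifs with h2
        · simp only [coeff_monomial]
          split_ifs with h3
          · exact absurd (Prod.ext (Fin.ext h3) (Prod.ext (Fin.ext h2) (Fin.ext h1))) hi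
          · rfl
        · simp
      · simp
    · simp
  · have hn : 0 < n := Fin.pos i₀.2.2
    refine lt_of_le_of_lt (natDegree_sum_le_of_forall_le _ _ (n := n - 1) fun i _ => ?_) (by omega)
    have := i.2.2.2
    exact (natDegree_monomial_le _).trans (by omega)
  · rw [hQ, finsetSum_coeff]
    refine natDegree_sum_le_of_forall_le _ _ fun i _ => ?_
    rw [coeff_monomial]
    split_ifs
    · exact (natDegree_monomial_le _).trans i.2.1.2.le
    · simp
  · rw [hQ, finsetSum_coeff, finsetSum_coeff]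
    refine natDegree_sum_le_of_forall_le _ _ fun i _ => ?_
    rw [coeff_monomial]
    split_ifs
    · rw [coeff_monomial]
      split_ifs
      · exact (natDegree_monomial_le _).trans i.1.2.le
      · simp
    · simp
  · rw [hQ, Polynomial.map_sum, eval_finsetSum]
    refine Finset.sum_congr rfl fun i _ => ?_
    simp only [Polynomial.map_monomial, eval_monomial, coe_evalEvalRingHom, evalEval]
    simp
    ring

theorem exists_bdeg_coeff (F : ℚ[X][X][X]) : ∃ D, ∀ i, BDeg D (F.coeff i) := by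
  choose D hD using fun i => exists_bdeg (F.coeff i)
  refine ⟨F.support.sup D, fun i => ?_⟩
  by_cases hi : i ∈ F.support
  · exact (hD i).mono (Finset.le_sup hi)
  · rw [notMem_support_iff.1 hi]
    exact ⟨by simp, fun _ => by simp⟩

/-- The points that are good for the prime `l`. -/
theorem per_prime (m A r : ℕ) (hm : 1 ≤ m) (hr1 : 1 ≤ r)
    (hr : 8 * m ^ 2 * (2 * A * m ^ 2 + r) ^ 2 < 2 ^ r) (F : ℚ[X][X][X]) (hF : Irreducible F)
    (hd : 2 * m ^ 2 ≤ F.natDegree) (D : ℕ) (hD1 : F.natDegree ≤ D)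
    (hD2 : ∀ i, BDeg D (F.coeff i)) (hD3 : 2 * (2 * A * m ^ 2 + r) ≤ D) (d : ℤ)
    (f : ℤ[X][X][X]) (hf : f.map cast2 = C (C (C (d : ℚ))) * F) (N l : ℕ) (hN : 2 ≤ N)
    (hl : l.Prime) (hlN : N ^ 5 ≤ l ^ m) :
    ∃ s : Finset ℚ[X][X], s.card ≤ l ^ 2 * f.natDegree ∧
      (∀ G ∈ s, G ≠ 0 ∧ BDeg (2 * D ^ 2) G) ∧
      ∀ x y w : ℚ, ht x ≤ N → ht y ≤ N → ht w ≤ N ^ A →
        (F.map (evalEvalRingHom x y)).eval w = 0 → ¬ l ∣ x.den → ¬ l ∣ y.den → ¬ l ∣ w.den →
        ¬ (l : ℤ) ∣ (ev x y w f.derivative).num → ∃ G ∈ s, G.evalEval x y = 0 := by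
  set T := 2 * (2 * A * m ^ 2 + r) with hT
  have : Fact l.Prime := ⟨hl⟩
  have : NeZero (l ^ ((m * T) ^ 3)) := ⟨pow_ne_zero _ hl.ne_zero⟩
  have he : (m * T) ^ 3 ≠ 0 := by
    have : T ≠ 0 := by omega
    have : m ≠ 0 := by omega
    positivity
  have hm2 : 0 < 2 * m ^ 2 := by positivity
  have hF1 : 1 ≤ F.natDegree := by omega
  obtain ⟨S, ψ, hS⟩ := exists_red l ((m * T) ^ 3) hl
  set π : ZMod (l ^ ((m * T) ^ 3)) →+* ZMod l := ZMod.castHom (dvd_pow_self l he) (ZMod l) with hπ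
  have hπs : Function.Surjective π := ZMod.castHom_surjective _
  have : Nonempty (Fin T × Fin T × Fin (2 * m ^ 2)) :=
    ⟨(⟨0, by omega⟩, ⟨0, by omega⟩, ⟨0, hm2⟩)⟩
  have key : ∀ a : ZMod l × ZMod l × ZMod l, ∃ G : ℚ[X][X], (G ≠ 0 ∧ BDeg (2 * D ^ 2) G) ∧
      (ev a.1 a.2.1 a.2.2 f.derivative ≠ 0 → ∀ x y w : S, ht x ≤ N → ht y ≤ N → ht w ≤ N ^ A →
        (F.map (evalEvalRingHom (x : ℚ) y)).eval (w : ℚ) = 0 → π (ψ x) = a.1 → π (ψ y) = a.2.1 →
        π (ψ w) = a.2.2 → G.evalEval (x : ℚ) y = 0) := by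
    rintro ⟨a, b, c⟩
    by_cases hc : ev a b c f.derivative = 0
    · exact ⟨1, ⟨one_ne_zero, by simp, fun i => by
        rw [coeff_one]; split_ifs <;> simp⟩, fun h => absurd hc h⟩
    let κ := {p : S × S × S // ht p.1 ≤ N ∧ ht p.2.1 ≤ N ∧ ht p.2.2 ≤ N ^ A ∧
      (F.map (evalEvalRingHom (p.1 : ℚ) p.2.1)).eval (p.2.2 : ℚ) = 0 ∧ π (ψ p.1) = a ∧
      π (ψ p.2.1) = b ∧ π (ψ p.2.2) = c}
    obtain ⟨cv, hcv, hsum⟩ := exists_orth
      (fun (i : Fin T × Fin T × Fin (2 * m ^ 2)) (p : κ) =>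
        (p.1.1 : ℚ) ^ (i.1 : ℕ) * (p.1.2.1 : ℚ) ^ (i.2.1 : ℕ) * (p.1.2.2 : ℚ) ^ (i.2.2 : ℕ))
      (fun j => by
        have h0 := det_zero S ψ
          (Matrix.of fun i i' : Fin T × Fin T × Fin (2 * m ^ 2) =>
            (j i').1.1 ^ (i.1 : ℕ) * (j i').1.2.1 ^ (i.2.1 : ℕ) * (j i').1.2.2 ^ (i.2.2 : ℕ))
          (fun i' => ((j i').1.1 : ℚ).den ^ T * ((j i').1.2.1 : ℚ).den ^ T *
            ((j i').1.2.2 : ℚ).den ^ (2 * m ^ 2))
          (fun i' => by positivity)
          (Matrix.of fun i i' =>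
            (((j i').1.1 : ℚ).num ^ (i.1 : ℕ) * (((j i').1.1 : ℚ).den : ℤ) ^ (T - i.1)) *
            (((j i').1.2.1 : ℚ).num ^ (i.2.1 : ℕ) * (((j i').1.2.1 : ℚ).den : ℤ) ^ (T - i.2.1)) *
            (((j i').1.2.2 : ℚ).num ^ (i.2.2 : ℕ) *
              (((j i').1.2.2 : ℚ).den : ℤ) ^ (2 * m ^ 2 - i.2.2)))
          (fun i i' => by
            rw [Matrix.of_apply, Matrix.of_apply, Int.cast_mul, Int.cast_mul,
              (clear_pow S _ i.1.2.le (j i').2.1).1, (clear_pow S _ i.2.1.2.le (j i').2.2.1).1,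
              (clear_pow S _ i.2.2.2.le (j i').2.2.2.1).1, Nat.cast_mul, Nat.cast_mul]
            ring)
          (by
            have := det_local π hπs m T (ker_pow l _ π) f a b c hc (fun i' => ψ (j i').1.1)
              (fun i' => ψ (j i').1.2.1) (fun i' => ψ (j i').1.2.2)
              (fun i' => (j i').2.2.2.2.2.1) (fun i' => (j i').2.2.2.2.2.2.1)
              (fun i' => (j i').2.2.2.2.2.2.2) (fun i' => by
                rw [← map_ev]
                have h1 : ev (j i').1.1 (j i').1.2.1 (j i').1.2.2 f = 0 := by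
                  apply S.subtype_injective
                  rw [map_ev, map_zero, ev_rat hf]
                  exact mul_eq_zero_of_right _ (j i').2.2.2.2.1
                rw [h1, map_zero])
            rw [← this]
            congr 1
            ext i i'
            simp)
          (N ^ T * N ^ T * (N ^ A) ^ (2 * m ^ 2))
          (fun i i' => by
            rw [Matrix.of_apply, Int.natAbs_mul, Int.natAbs_mul]
            exact Nat.mul_le_mul (Nat.mul_le_mul (clear_pow S _ i.1.2.le (j i').2.1).2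
              (clear_pow S _ i.2.1.2.le (j i').2.2.1).2) (clear_pow S _ i.2.2.2.le (j i').2.2.2.1).2)
          (size_lt m A r N l hN hlN hm hr1 hr T _ hT (by simp))
        have h1 := congrArg S.subtype h0
        rw [RingHom.map_det, map_zero] at h1
        refine Eq.trans ?_ h1
        congr 1)
    obtain ⟨Q, hQ0, hQd, hQb, hQe⟩ := exists_poly T (2 * m ^ 2) cv hcv
    refine ⟨resultant F Q, ⟨resultant_ne_zero_of_irreducible hF hF1 fun h => ?_,
      bdeg_resultant hD1 hD2 (by omega) fun i => (hQb i).mono hD3⟩,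
      fun _ x y w h1 h2 h3 h4 h5 h6 h7 => ?_⟩
    · have := natDegree_le_of_dvd h hQ0
      omega
    · exact map_resultant_eq_zero (evalEvalRingHom (x : ℚ) y) hF1 h4
        ((hQe _ _ _).trans (hsum ⟨(x, y, w), h1, h2, h3, h4, h5, h6, h7⟩))
  choose G hG1 hG2 using key
  let K : Finset (ZMod l × ZMod l × ZMod l) := Finset.univ.biUnion fun ab : ZMod l × ZMod l =>
    (f.map (hom2 ab.1 ab.2)).roots.toFinset.image fun c => (ab.1, ab.2, c)
  refine ⟨K.image G, Finset.card_image_le.trans ?_, fun G' hG' => ?_,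
    fun x y w h1 h2 h3 h4 h5 h6 h7 h8 => ?_⟩
  · refine (Finset.card_biUnion_le_card_mul _ _ f.natDegree fun ab _ => ?_).trans ?_
    · exact Finset.card_image_le.trans ((Multiset.toFinset_card_le _).trans
        ((card_roots' _).trans natDegree_map_le))
    · simp [sq]
  · obtain ⟨a, -, rfl⟩ := Finset.mem_image.1 hG'
    exact hG1 a
  · set x' : S := ⟨x, hS x h5⟩ with hx'
    set y' : S := ⟨y, hS y h6⟩ with hy'
    set w' : S := ⟨w, hS w h7⟩ with hw'
    have hne : ev (π (ψ x')) (π (ψ y')) (π (ψ w')) f.derivative ≠ 0 := by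
      rw [← map_ev, ← map_ev]
      intro h0
      set v : S := ev x' y' w' f.derivative with hv
      have hv' : (v : ℚ) = ev x y w f.derivative := map_ev S.subtype x' y' w' _
      have h9 : v * ((v : ℚ).den : S) = ((v : ℚ).num : S) := by
        apply Subtype.ext
        push_cast
        exact Rat.mul_den_eq_num _
      have h10 := congrArg (fun t => π (ψ t)) h9
      simp only [map_mul, h0, zero_mul, map_intCast] at h10
      rw [hv'] at h10
      exact h8 ((ZMod.intCast_zmod_eq_zero_iff_dvd _ _).1 h10.symm)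
    refine ⟨G (π (ψ x'), π (ψ y'), π (ψ w')), Finset.mem_image_of_mem _ ?_,
      hG2 _ hne x' y' w' h1 h2 h3 h4 rfl rfl rfl⟩
    refine Finset.mem_biUnion.2 ⟨(π (ψ x'), π (ψ y')), Finset.mem_univ _,
      Finset.mem_image_of_mem _ (Multiset.mem_toFinset.2 ((mem_roots fun h0 => hne ?_).2 ?_))⟩
    · rw [ev_eq, ← derivative_map, h0]
      simp
    · rw [IsRoot, ← ev_eq, ← map_ev, ← map_ev]
      have h1 : ev x' y' w' f = 0 := by
        apply S.subtype_injective
        rw [map_ev, map_zero, ev_rat hf]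
        exact mul_eq_zero_of_right _ h4
      rw [h1, map_zero, map_zero]

end DM2

open DM2 in
/-- The determinant method for a finite cover of the plane. -/
theorem dm2 (m A : ℕ) (hm : 1 ≤ m) (F : ℚ[X][X][X]) (hF : Irreducible F)
    (hd : 2 * m ^ 2 ≤ F.natDegree) : ∃ (D : ℕ) (C : ℝ), ∀ N : ℕ, 2 ≤ N →
      ∃ s : Finset ℚ[X][X], (s.card : ℝ) ≤ C * (N : ℝ) ^ ((10 : ℝ) / m) ∧
        (∀ G ∈ s, G ≠ 0 ∧ BDeg D G) ∧
        ∀ x y w : ℚ, ht x ≤ N → ht y ≤ N → ht w ≤ N ^ A →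
          (F.map (evalEvalRingHom x y)).eval w = 0 → ∃ G ∈ s, G.evalEval x y = 0 := by
  obtain ⟨r, hr1, hr⟩ := exists_sq_lt (8 * m ^ 2) (2 * A * m ^ 2)
  obtain ⟨d, f, hd0, hf⟩ := clear_den F
  obtain ⟨D₁, hD₁⟩ := exists_bdeg_coeff F
  obtain ⟨D₂, hD₂⟩ := exists_bdeg (resultant F F.derivative)
  obtain ⟨K, hK⟩ := ht_ev A f.derivative
  have hm2 : 0 < 2 * m ^ 2 := by positivity
  have hF1 : 1 ≤ F.natDegree := by omega
  set D := F.natDegree + D₁ + 2 * (2 * A * m ^ 2 + r) with hD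
  set k := m * (3 + A + K) with hk
  refine ⟨2 * D ^ 2 + D₂, 1 + k * ((2 ^ k * 2) ^ 2 * f.natDegree), fun N hN => ?_⟩
  have hN1 : (1 : ℝ) ≤ N := by exact_mod_cast (by omega : 1 ≤ N)
  have hm0 : (m : ℝ) ≠ 0 := by positivity
  set ρ : ℝ := (N : ℝ) ^ ((5 : ℝ) / m) with hρ
  have hρ1 : 1 ≤ ρ := Real.one_le_rpow hN1 (by positivity)
  have hρ2 : ρ ^ 2 = (N : ℝ) ^ ((10 : ℝ) / m) := by
    rw [hρ, ← Real.rpow_natCast, ← Real.rpow_mul (by positivity)]
    congr 1
    push_cast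
    ring
  set L := ⌈ρ⌉₊ with hL
  have hL1 : 1 ≤ L := Nat.one_le_ceil_iff.2 (by linarith)
  have hL2 : (L : ℝ) ≤ 2 * ρ := by
    have := Nat.ceil_lt_add_one (by linarith : 0 ≤ ρ)
    linarith
  have hL3 : N ^ 5 ≤ L ^ m := by
    have h1 : ρ ^ m = (N : ℝ) ^ 5 := by
      rw [hρ, ← Real.rpow_natCast, ← Real.rpow_mul (by positivity), div_mul_cancel₀ _ hm0]
      exact_mod_cast Real.rpow_natCast (N : ℝ) 5
    have h2 : ρ ^ m ≤ (L : ℝ) ^ m := pow_le_pow_left₀ (by linarith) (Nat.le_ceil ρ) m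
    rw [h1] at h2
    exact_mod_cast h2
  obtain ⟨P, hPc, hP, hPa⟩ := exists_primes k L hL1
  have key := fun (l : ℕ) (hl : l ∈ P) => per_prime m A r hm hr1 hr F hF hd D (by omega)
    (fun i => (hD₁ i).mono (by omega)) (by omega) d f hf N l hN (hP l hl).1
    (hL3.trans (Nat.pow_le_pow_left (hP l hl).2.1 m))
  choose! s hs1 hs2 hs3 using key
  refine ⟨insert (resultant F F.derivative) (P.biUnion s), ?_, fun G hG => ?_,
    fun x y w hx hy hw h0 => ?_⟩
  · have h1 : (P.biUnion s).card ≤ k * ((2 ^ k * L) ^ 2 * f.natDegree) := by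
      rw [← hPc]
      refine Finset.card_biUnion_le_card_mul _ _ _ fun l hl => (hs1 l hl).trans ?_
      rw [hPc]
      exact Nat.mul_le_mul_right _ (Nat.pow_le_pow_left (hP l hl).2.2 2)
    have h2 := (Finset.card_insert_le (resultant F F.derivative) (P.biUnion s)).trans
      (Nat.add_le_add_right h1 1)
    have h3 : ((insert (resultant F F.derivative) (P.biUnion s)).card : ℝ) ≤
        k * ((2 ^ k * L) ^ 2 * f.natDegree) + 1 := by exact_mod_cast h2
    rw [← hρ2]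
    refine h3.trans ?_
    have h4 : ((2 : ℝ) ^ k * L) ^ 2 ≤ (2 ^ k * 2) ^ 2 * ρ ^ 2 := by
      rw [← mul_pow, mul_assoc]
      gcongr
    have h5 : 1 ≤ ρ ^ 2 := one_le_pow₀ hρ1
    calc (k : ℝ) * ((2 ^ k * L) ^ 2 * f.natDegree) + 1
        ≤ k * (((2 ^ k * 2) ^ 2 * ρ ^ 2) * f.natDegree) + ρ ^ 2 := by gcongr
      _ = _ := by ring
  · rcases Finset.mem_insert.1 hG with rfl | hG
    · refine ⟨resultant_ne_zero_of_irreducible hF hF1 fun h => ?_, hD₂.mono (by omega)⟩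
      have h1 : F.derivative ≠ 0 := fun h2 => by
        have := derivative_eq_zero.1 h2
        omega
      have h2 := natDegree_le_of_dvd h h1
      have h3 := natDegree_derivative_lt (p := F) (by omega)
      omega
    · obtain ⟨l, hl, hG⟩ := Finset.mem_biUnion.1 hG
      exact ⟨(hs2 l hl G hG).1, (hs2 l hl G hG).2.mono (by omega)⟩
  · by_cases h1 : (F.derivative.map (evalEvalRingHom x y)).eval w = 0
    · exact ⟨_, Finset.mem_insert_self _ _, map_resultant_eq_zero (evalEvalRingHom x y) hF1 h0 h1⟩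
    have hv : ev x y w f.derivative ≠ 0 := by
      rw [ev_rat (deriv_clear hf)]
      exact mul_ne_zero (by exact_mod_cast hd0) h1
    obtain ⟨l, hl, hla⟩ := hPa ((x.den : ℤ) * y.den * w.den * (ev x y w f.derivative).num)
      (mul_ne_zero (by positivity) (Rat.num_ne_zero.2 hv)) (by
        rw [Int.natAbs_mul, Int.natAbs_mul, Int.natAbs_mul, Int.natAbs_natCast,
          Int.natAbs_natCast, Int.natAbs_natCast]
        calc x.den * y.den * w.den * (ev x y w f.derivative).num.natAbs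
            ≤ N * N * N ^ A * N ^ K :=
              Nat.mul_le_mul (Nat.mul_le_mul (Nat.mul_le_mul ((den_le_ht _).trans hx)
                ((den_le_ht _).trans hy)) ((den_le_ht _).trans hw))
                ((num_le_ht _).trans (hK N hN x y w hx hy hw))
          _ = N ^ (2 + A + K) := by ring
          _ < N ^ (5 * (3 + A + K)) := Nat.pow_lt_pow_right (by omega) (by omega)
          _ ≤ L ^ k := by
            rw [hk, pow_mul, pow_mul]
            exact Nat.pow_le_pow_left hL3 _)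
    obtain ⟨G, hG, hG0⟩ := hs3 l hl x y w hx hy hw h0
      (fun h => hla (((Int.natCast_dvd_natCast.2 h).mul_right _).mul_right _ |>.mul_right _))
      (fun h => hla (((Int.natCast_dvd_natCast.2 h).mul_left _).mul_right _ |>.mul_right _))
      (fun h => hla (((Int.natCast_dvd_natCast.2 h).mul_left _).mul_right _))
      (fun h => hla (h.mul_left _))
    exact ⟨G, Finset.mem_insert_of_mem (Finset.mem_biUnion.2 ⟨l, hl, hG⟩), hG0⟩

end

end Pool.Agent.P.MP_a60a76_nt.SP
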