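import Pool.Agent.P.MP_a60a76_nt.SP.Stmt

/-! Internal definitions for the sparsity theorem. -/

namespace Pool.Agent.P.MP_a60a76_nt.SP

open Polynomial UpperHalfPlane PeriodPair
open scoped MatrixGroups UpperHalfPlane Matrix Modular Topology Classical

noncomputable section

/-- The period pair `(τ, 1)`. -/
def lat (τ : ℍ) : PeriodPair where
  ω₁ := τ
  ω₂ := 1
  indep := by
    rw [LinearIndependent.pair_iff]
    intro s t h
    have h1 := congrArg Complex.im h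
    have h2 := congrArg Complex.re h
    simp at h1 h2
    have hs : s = 0 := h1.resolve_right τ.im_pos.ne'
    simp [hs] at h2
    exact ⟨hs, h2⟩

/-- Discriminant of the lattice. -/
def disc (τ : ℍ) : ℂ := (lat τ).g₂ ^ 3 - 27 * (lat τ).g₃ ^ 2

/-- The modular invariant. -/
def J (τ : ℍ) : ℂ := 1728 * (lat τ).g₂ ^ 3 / disc τ

/-- A weight zero function of the `x`-coordinate, a nonconstant polynomial of degree at most 3
in `℘` for every lattice. -/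
def hf (τ : ℍ) (z : ℂ) : ℂ :=
  (lat τ).weierstrassP z ^ 2 *
    ((12 * (lat τ).g₂) ^ 2 + 216 * (lat τ).g₃ * (lat τ).weierstrassP z) / disc τ

/-- The `p`-division point attached to a row vector. -/
def zv (p : ℕ) (v : Fin 2 → ZMod p) (τ : ℍ) : ℂ :=
  (((v 0).val : ℂ) * τ + ((v 1).val : ℂ)) / p

/-- Level `p` modular functions. -/
def hv (p : ℕ) (v : Fin 2 → ZMod p) (τ : ℍ) : ℂ := hf τ (zv p v τ)

/-- The resolvent attached to a matrix `g` modulo `p`. -/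
def wf (p : ℕ) [NeZero p] (l μ : ℕ) (g : Matrix (Fin 2) (Fin 2) (ZMod p)) (τ τ' : ℍ) : ℂ :=
  ∏ v : Fin 2 → ZMod p, ((l : ℂ) - hv p v τ - μ * hv p (v ᵥ* g) τ')

/-- Reduction modulo `p`. -/
def red (p : ℕ) (γ : SL(2, ℤ)) : Matrix (Fin 2) (Fin 2) (ZMod p) :=
  (γ : Matrix (Fin 2) (Fin 2) ℤ).map (Int.cast : ℤ → ZMod p)

/-- Non-scalar matrices. -/
def NonScalar {p : ℕ} (α : Matrix (Fin 2) (Fin 2) (ZMod p)) : Prop :=
  α 0 1 ≠ 0 ∨ α 1 0 ≠ 0 ∨ α 0 0 ≠ α 1 1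

/-- Holomorphic functions on the upper half plane. -/
def Hol (f : ℍ → ℂ) : Prop := DifferentiableOn ℂ (f ∘ ofComplex) {z : ℂ | 0 < z.im}

/-- Holomorphic with growth at most `exp (2 π k Im τ)` at every cusp. -/
def Mod (k : ℕ) (f : ℍ → ℂ) : Prop :=
  Hol f ∧ ∃ C : ℝ, ∀ γ : SL(2, ℤ), ∀ τ ∈ 𝒟, ‖f (γ • τ)‖ ≤ C * Real.exp (2 * Real.pi * k * τ.im)

/-- Naive height of a rational number. -/
def ht (q : ℚ) : ℕ := max q.num.natAbs q.den

/-- Degree at most `D` in both variables. -/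
def BDeg {K : Type*} [CommRing K] (D : ℕ) (G : K[X][X]) : Prop :=
  G.natDegree ≤ D ∧ ∀ i, (G.coeff i).natDegree ≤ D

/-- `x` and `y` are invariants of lattices related by an integral matrix of positive
determinant. -/
def Hecke (x y : ℂ) : Prop :=
  ∃ (a b c d : ℤ) (τ τ' : ℍ), 0 < a * d - b * c ∧
    (τ' : ℂ) * (c * τ + d) = a * τ + b ∧ J τ = x ∧ J τ' = y

/-- Complex uniformisation of a Weierstrass curve by the lattice of `τ`. -/
structure Unif (W : WeierstrassCurve ℂ) (τ : ℍ) where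
  /-- scaling factor -/
  u : ℂ
  u_ne : u ≠ 0
  /-- the parametrisation -/
  Φ : ℂ →+ W.toAffine.Point
  surj : Function.Surjective Φ
  ker : ∀ z, Φ z = 0 ↔ z ∈ (lat τ).lattice
  c4 : W.c₄ = u ^ 4 * (12 * (lat τ).g₂)
  c6 : W.c₆ = u ^ 6 * (216 * (lat τ).g₃)
  eq_some : ∀ z, z ∉ (lat τ).lattice → ∃ h, Φ z =
    WeierstrassCurve.Affine.Point.some (u ^ 2 * (lat τ).weierstrassP z - W.b₂ / 12)
      (u ^ 3 * (lat τ).derivWeierstrassP z / 2 -
        (W.a₁ * (u ^ 2 * (lat τ).weierstrassP z - W.b₂ / 12) + W.a₃) / 2) h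

/-- A homomorphism given by rational functions with complex coefficients. -/
def RatHom {W W' : WeierstrassCurve ℂ} (ψ : W.toAffine.Point →+ W'.toAffine.Point) : Prop :=
  ∃ a₁ b₁ a₂ b₂ c : ℂ[X], c ≠ 0 ∧
    ∀ (x y : ℂ) (h : W.toAffine.Nonsingular x y), c.eval x ≠ 0 →
      ∃ h', ψ (WeierstrassCurve.Affine.Point.some x y h) =
        WeierstrassCurve.Affine.Point.some ((a₁.eval x + b₁.eval x * y) / c.eval x)
          ((a₂.eval x + b₂.eval x * y) / c.eval x) h'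

/-- No polynomial of degree in `[1, m)` in the outer variable has, for all but finitely many
`x`, all its roots in the fibre of `𝒲` over `x`. -/
def NoSmall (m : ℕ) (𝒲 : Set (ℂ × ℂ)) : Prop :=
  ∀ P : ℂ[X][X], 1 ≤ P.natDegree → P.natDegree < m →
    ¬ ∃ S : Finset ℂ, ∀ x, x ∉ S → ∀ ω, P.evalEval x ω = 0 → (x, ω) ∈ 𝒲

/-- Values of the resolvents of invertible matrices over the curve `G = 0`. -/
def WG (p : ℕ) [NeZero p] (l μ : ℕ) (G : ℂ[X][X]) : Set (ℂ × ℂ) :=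
  {a | ∃ (τ τ' : ℍ) (g : Matrix (Fin 2) (Fin 2) (ZMod p)), IsUnit g.det ∧ J τ = a.1 ∧
    G.evalEval a.1 (J τ') = 0 ∧ a.2 = wf p l μ g τ τ'}

/-- Values of the resolvents of non-scalar matrices on the diagonal. -/
def WD (p : ℕ) [NeZero p] (l μ : ℕ) : Set (ℂ × ℂ) :=
  {a | ∃ (τ : ℍ) (α : Matrix (Fin 2) (Fin 2) (ZMod p)), NonScalar α ∧ J τ = a.1 ∧
    a.2 = wf p l μ α τ τ}

/-- The part of the preimage of the curve `G = 0` over the complement of `B`. -/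
def EB (G : ℂ[X][X]) (B : Finset ℂ) : Set (ℍ × ℍ) :=
  {ξ | J ξ.1 ∉ B ∧ G.evalEval (J ξ.1) (J ξ.2) = 0}

/-- Uniform local holomorphic sections of `ξ ↦ J ξ.1` on `E` over the complement of `B`. -/
def Sec (E : Set (ℍ × ℍ)) (B : Finset ℂ) : Prop :=
  ∀ x₁, x₁ ∉ B → ∃ r > 0, (∀ x ∈ Metric.ball x₁ r, x ∉ B) ∧
    ∀ ξ ∈ E, J ξ.1 ∈ Metric.ball x₁ r → ∃ s : ℂ → ℍ × ℍ,
      DifferentiableOn ℂ (fun x => ((s x).1 : ℂ)) (Metric.ball x₁ r) ∧
      DifferentiableOn ℂ (fun x => ((s x).2 : ℂ)) (Metric.ball x₁ r) ∧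
      (∀ x ∈ Metric.ball x₁ r, s x ∈ E ∧ J (s x).1 = x) ∧ s (J ξ.1) = ξ ∧
      ∀ᶠ ξ' in 𝓝[E] ξ, s (J ξ'.1) = ξ'

/-- All entries of both matrices are bounded by `K`. -/
def Bdd (K : ℕ) (γ : SL(2, ℤ) × SL(2, ℤ)) : Prop :=
  ∀ i j, |γ.1 i j| ≤ K ∧ |γ.2 i j| ≤ K

end

end Pool.Agent.P.MP_a60a76_nt.SP
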