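import Pool.Agent.P.MP_a60a76_nt.SP.Fix

namespace Pool.Agent.P.MP_a60a76_nt.SP

open Polynomial UpperHalfPlane PeriodPair
open scoped MatrixGroups UpperHalfPlane Matrix Modular Topology Classical

noncomputable section

open WeierstrassCurve

theorem descent_eval_map (σ : ℂ ≃ₐ[ℚ] ℂ) (a : ℂ[X]) (x : ℂ) :
    (a.map (σ : ℂ →+* ℂ)).eval x = σ (a.eval (σ.symm x)) := by
  have h : x = (σ : ℂ →+* ℂ) (σ.symm x) := by simp
  conv_lhs => rw [h]
  rw [eval_map, eval₂_at_apply]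
  rfl

/-- Conjugating by an automorphism of `ℂ` preserves rationality. -/
theorem ratHom_conj (E E' : WeierstrassCurve ℚ)
    (ψ : (E.baseChange ℂ).toAffine.Point →+ (E'.baseChange ℂ).toAffine.Point) (h : RatHom ψ)
    (σ : ℂ ≃ₐ[ℚ] ℂ) :
    RatHom (((Affine.Point.map (W' := E') σ.toAlgHom).comp ψ).comp
      (Affine.Point.map (W' := E) σ.symm.toAlgHom)) := by
  obtain ⟨a₁, b₁, a₂, b₂, c, hc, H⟩ := h
  refine ⟨a₁.map (σ : ℂ →+* ℂ), b₁.map (σ : ℂ →+* ℂ), a₂.map (σ : ℂ →+* ℂ),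
    b₂.map (σ : ℂ →+* ℂ), c.map (σ : ℂ →+* ℂ), Polynomial.map_ne_zero hc, fun x y hxy hx => ?_⟩
  have hx' : c.eval (σ.symm x) ≠ 0 := fun h0 => hx (by rw [descent_eval_map, h0, map_zero])
  have hn : (E.baseChange ℂ).toAffine.Nonsingular (σ.symm x) (σ.symm y) :=
    (Affine.baseChange_nonsingular (W := E.toAffine) (f := σ.symm.toAlgHom)
      σ.symm.injective x y).mpr hxy
  obtain ⟨h', e⟩ := H _ _ hn hx'
  have e1 : σ ((a₁.eval (σ.symm x) + b₁.eval (σ.symm x) * σ.symm y) / c.eval (σ.symm x)) =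
      ((a₁.map (σ : ℂ →+* ℂ)).eval x + (b₁.map (σ : ℂ →+* ℂ)).eval x * y) /
        (c.map (σ : ℂ →+* ℂ)).eval x := by
    simp only [descent_eval_map, map_div₀, map_add, map_mul, AlgEquiv.apply_symm_apply]
  have e2 : σ ((a₂.eval (σ.symm x) + b₂.eval (σ.symm x) * σ.symm y) / c.eval (σ.symm x)) =
      ((a₂.map (σ : ℂ →+* ℂ)).eval x + (b₂.map (σ : ℂ →+* ℂ)).eval x * y) /
        (c.map (σ : ℂ →+* ℂ)).eval x := by
    simp only [descent_eval_map, map_div₀, map_add, map_mul, AlgEquiv.apply_symm_apply]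
  have hn' := (Affine.baseChange_nonsingular (W := E'.toAffine) (f := σ.toAlgHom)
    σ.injective _ _).mpr h'
  rw [← e1, ← e2]
  refine ⟨hn', ?_⟩
  have e3 : Affine.Point.map (W' := E) σ.symm.toAlgHom (Affine.Point.some x y hxy) =
      Affine.Point.some _ _ hn := rfl
  rw [AddMonoidHom.comp_apply, AddMonoidHom.comp_apply, e3, e]
  rfl

/-- Applying a rational linear form to the coefficients of a complex polynomial. -/
theorem descent_form (φ : ℂ →ₗ[ℚ] ℚ) (P : ℂ[X]) :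
    ∃ P₀ : ℚ[X], ∀ x : ℚ, P₀.eval x = φ (P.eval (x : ℂ)) := by
  induction P using Polynomial.induction_on' with
  | add p q hp hq =>
    obtain ⟨p₀, hp⟩ := hp
    obtain ⟨q₀, hq⟩ := hq
    exact ⟨p₀ + q₀, fun x => by rw [eval_add, eval_add, map_add, hp, hq]⟩
  | monomial n a =>
    refine ⟨monomial n (φ a), fun x => ?_⟩
    have : a * (x : ℂ) ^ n = (x ^ n) • a := by
      rw [Rat.smul_def, mul_comm]
      push_cast
      rfl
    rw [eval_monomial, eval_monomial, this, map_smul, smul_eq_mul, mul_comm]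

theorem descent_aeval_cast (P : ℚ[X]) (x : ℚ) : aeval (x : ℂ) P = ((P.eval x : ℚ) : ℂ) := by
  have := Polynomial.aeval_algebraMap_apply ℂ x P
  simpa using this

/-- Two different points over all but finitely many abscissas. -/
theorem descent_two (W : WeierstrassCurve ℂ) [W.IsElliptic] : ∃ D : ℂ[X], D ≠ 0 ∧
    ∀ x : ℂ, D.eval x ≠ 0 → ∃ y y' : ℂ, y ≠ y' ∧ W.toAffine.Nonsingular x y ∧
      W.toAffine.Nonsingular x y' := by
  refine ⟨C 4 * X ^ 3 + C (W.a₁ ^ 2 + 4 * W.a₂) * X ^ 2 + C (2 * W.a₁ * W.a₃ + 4 * W.a₄) * X +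
    C (W.a₃ ^ 2 + 4 * W.a₆), fun h0 => ?_, fun x hx => ?_⟩
  · have := congrArg (fun p : ℂ[X] => p.coeff 3) h0
    simp only [coeff_add, coeff_C_mul, coeff_X_pow, coeff_X, coeff_C, coeff_zero] at this
    norm_num at this
  · simp only [eval_add, eval_mul, eval_C, eval_pow, eval_X] at hx
    obtain ⟨s, hs⟩ := IsAlgClosed.exists_pow_nat_eq (4 * x ^ 3 + (W.a₁ ^ 2 + 4 * W.a₂) * x ^ 2 +
      (2 * W.a₁ * W.a₃ + 4 * W.a₄) * x + (W.a₃ ^ 2 + 4 * W.a₆)) (show 0 < 2 by norm_num)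
    have hs0 : s ≠ 0 := fun h0 => hx (by rw [← hs, h0]; norm_num)
    refine ⟨(-(W.a₁ * x + W.a₃) + s) / 2, (-(W.a₁ * x + W.a₃) - s) / 2, fun h0 => hs0 ?_, ?_, ?_⟩
    · linear_combination h0
    · rw [← Affine.equation_iff_nonsingular, Affine.equation_iff]
      linear_combination hs / 4
    · rw [← Affine.equation_iff_nonsingular, Affine.equation_iff]
      linear_combination hs / 4

theorem descent_fix {A B y y' : ℂ} (hy : y ≠ y')
    (h : ∀ σ : ℂ ≃ₐ[ℚ] ℂ, σ (A + B * y) = A + B * σ y ∧ σ (A + B * y') = A + B * σ y') :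
    (∃ q : ℚ, (q : ℂ) = A) ∧ ∃ q : ℚ, (q : ℂ) = B := by
  have hB : ∀ σ : ℂ ≃ₐ[ℚ] ℂ, σ B = B := fun σ => by
    obtain ⟨h1, h2⟩ := h σ
    rw [map_add, map_mul] at h1 h2
    have hne : σ y - σ y' ≠ 0 := sub_ne_zero.2 fun e => hy (σ.injective e)
    refine mul_right_cancel₀ hne ?_
    linear_combination h1 - h2
  refine ⟨fix_rat A fun σ => ?_, fix_rat B hB⟩
  have h1 := (h σ).1
  rw [map_add, map_mul, hB] at h1
  linear_combination h1

/-- A rational function with rational values at infinitely many rationals is rational. -/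
theorem descent_ident (φ : ℂ →ₗ[ℚ] ℚ) (a c : ℂ[X]) (c₀ : ℚ[X])
    (hc₀ : ∀ x : ℚ, c₀.eval x = φ (c.eval (x : ℂ))) (T : Set ℚ) (hT : T.Infinite)
    (h : ∀ x ∈ T, c.eval (x : ℂ) ≠ 0 ∧ ∃ q : ℚ, (q : ℂ) = a.eval (x : ℂ) / c.eval (x : ℂ)) :
    ∃ a₀ : ℚ[X], ∀ z : ℂ, a.eval z * aeval z c₀ = aeval z a₀ * c.eval z := by
  obtain ⟨a₀, ha₀⟩ := descent_form φ a
  refine ⟨a₀, fun z => ?_⟩
  have key : a * c₀.map (algebraMap ℚ ℂ) = a₀.map (algebraMap ℚ ℂ) * c := by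
    refine Polynomial.eq_of_infinite_eval_eq _ _
      ((hT.image (Rat.cast_injective (α := ℂ)).injOn).mono ?_)
    rintro _ ⟨x, hx, rfl⟩
    obtain ⟨h0, q, hq⟩ := h x hx
    rw [eq_div_iff h0] at hq
    have e : a₀.eval x = q * c₀.eval x := by
      rw [ha₀, hc₀, ← hq, ← Rat.smul_def, map_smul, smul_eq_mul]
    change eval (x : ℂ) _ = eval (x : ℂ) _
    rw [eval_mul, eval_mul, eval_map_algebraMap, eval_map_algebraMap, descent_aeval_cast,
      descent_aeval_cast, e, ← hq]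
    push_cast
    ring
  have := congrArg (eval z) key
  rwa [eval_mul, eval_mul, eval_map_algebraMap, eval_map_algebraMap] at this

/-- Galois descent. -/
theorem descent (E E' : WeierstrassCurve ℚ) [E.IsElliptic]
    (ψ : (E.baseChange ℂ).toAffine.Point →+ (E'.baseChange ℂ).toAffine.Point) (h : RatHom ψ)
    (hσ : ∀ (σ : ℂ ≃ₐ[ℚ] ℂ) P, Affine.Point.map (W' := E') σ.toAlgHom (ψ P) =
      ψ (Affine.Point.map (W' := E) σ.toAlgHom P)) : Isogenous E E' := by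
  obtain ⟨a₁, b₁, a₂, b₂, c, hc, H⟩ := h
  have : (E.baseChange ℂ).IsElliptic := inferInstanceAs (E.map (algebraMap ℚ ℂ)).IsElliptic
  obtain ⟨D, hD, hD2⟩ := descent_two (E.baseChange ℂ)
  have hnσ : ∀ (σ : ℂ ≃ₐ[ℚ] ℂ) (x y : ℂ), (E.baseChange ℂ).toAffine.Nonsingular x y →
      (E.baseChange ℂ).toAffine.Nonsingular (σ x) (σ y) := fun σ x y hxy =>
    (Affine.baseChange_nonsingular (W := E.toAffine) (f := σ.toAlgHom) σ.injective x y).mpr hxy
  have hT : {x : ℚ | (c * D).eval (x : ℂ) ≠ 0}.Infinite := by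
    have hf : {x : ℚ | (c * D).eval (x : ℂ) = 0}.Finite := by
      refine Set.Finite.of_finite_image (f := fun x : ℚ => (x : ℂ))
        (((c * D).roots.toFinset.finite_toSet).subset ?_) (Rat.cast_injective (α := ℂ)).injOn
      rintro _ ⟨x, hx, rfl⟩
      exact Multiset.mem_toFinset.2 ((mem_roots (mul_ne_zero hc hD)).2 hx)
    exact hf.infinite_compl
  have hrat : ∀ x ∈ {x : ℚ | (c * D).eval (x : ℂ) ≠ 0}, c.eval (x : ℂ) ≠ 0 ∧
      ((∃ q : ℚ, (q : ℂ) = a₁.eval (x : ℂ) / c.eval (x : ℂ)) ∧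
        ∃ q : ℚ, (q : ℂ) = b₁.eval (x : ℂ) / c.eval (x : ℂ)) ∧
      ((∃ q : ℚ, (q : ℂ) = a₂.eval (x : ℂ) / c.eval (x : ℂ)) ∧
        ∃ q : ℚ, (q : ℂ) = b₂.eval (x : ℂ) / c.eval (x : ℂ)) := by
    intro x hx
    have hx' : (c * D).eval (x : ℂ) ≠ 0 := hx
    rw [eval_mul, mul_ne_zero_iff] at hx'
    obtain ⟨y, y', hy, n1, n2⟩ := hD2 _ hx'.2
    have key : ∀ (σ : ℂ ≃ₐ[ℚ] ℂ) (y : ℂ), (E.baseChange ℂ).toAffine.Nonsingular x y →
        σ (a₁.eval (x : ℂ) / c.eval (x : ℂ) + b₁.eval (x : ℂ) / c.eval (x : ℂ) * y) =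
          a₁.eval (x : ℂ) / c.eval (x : ℂ) + b₁.eval (x : ℂ) / c.eval (x : ℂ) * σ y ∧
        σ (a₂.eval (x : ℂ) / c.eval (x : ℂ) + b₂.eval (x : ℂ) / c.eval (x : ℂ) * y) =
          a₂.eval (x : ℂ) / c.eval (x : ℂ) + b₂.eval (x : ℂ) / c.eval (x : ℂ) * σ y := by
      intro σ y n
      have hσx : σ (x : ℂ) = x := map_ratCast σ x
      have n' := hnσ σ _ _ n
      obtain ⟨h1, e1⟩ := H _ _ n hx'.1
      obtain ⟨h2, e2⟩ := H _ _ n' (by rw [hσx]; exact hx'.1)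
      have e := hσ σ (Affine.Point.some _ _ n)
      have e3 : Affine.Point.map (W' := E) σ.toAlgHom (Affine.Point.some _ _ n) =
          Affine.Point.some _ _ n' := rfl
      rw [e1, e3, e2, Affine.Point.map_some] at e
      obtain ⟨f1, f2⟩ := Affine.Point.some.inj e
      rw [hσx] at f1 f2
      simp only [div_mul_eq_mul_div, ← add_div]
      exact ⟨f1, f2⟩
    exact ⟨hx'.1, descent_fix hy fun σ => ⟨(key σ y n1).1, (key σ y' n2).1⟩,
      descent_fix hy fun σ => ⟨(key σ y n1).2, (key σ y' n2).2⟩⟩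
  obtain ⟨x₀, hx₀⟩ := hT.nonempty
  obtain ⟨φ, hφ⟩ : ∃ φ : ℂ →ₗ[ℚ] ℚ, φ (c.eval (x₀ : ℂ)) ≠ 0 := by
    by_contra hcon
    push Not at hcon
    exact (hrat x₀ hx₀).1 ((Module.forall_dual_apply_eq_zero_iff ℚ _).1 hcon)
  obtain ⟨c₀, hc₀⟩ := descent_form φ c
  have hc₀0 : c₀ ≠ 0 := fun h0 => hφ (by rw [← hc₀, h0, eval_zero])
  obtain ⟨A₁, hA₁⟩ := descent_ident φ a₁ c c₀ hc₀ _ hT
    fun x hx => ⟨(hrat x hx).1, (hrat x hx).2.1.1⟩
  obtain ⟨B₁, hB₁⟩ := descent_ident φ b₁ c c₀ hc₀ _ hT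
    fun x hx => ⟨(hrat x hx).1, (hrat x hx).2.1.2⟩
  obtain ⟨A₂, hA₂⟩ := descent_ident φ a₂ c c₀ hc₀ _ hT
    fun x hx => ⟨(hrat x hx).1, (hrat x hx).2.2.1⟩
  obtain ⟨B₂, hB₂⟩ := descent_ident φ b₂ c c₀ hc₀ _ hT
    fun x hx => ⟨(hrat x hx).1, (hrat x hx).2.2.2⟩
  obtain ⟨m, hm0, hm⟩ : ∃ m : ℚ[X], m ≠ 0 ∧
      ∀ x : ℂ, aeval x m ≠ 0 → ∃ σ : ℂ ≃ₐ[ℚ] ℂ, c.eval (σ x) ≠ 0 := by
    refine ⟨∏ r ∈ c.roots.toFinset.filter (fun r : ℂ => _root_.IsIntegral ℚ r), minpoly ℚ r,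
      Finset.prod_ne_zero_iff.2 fun r hr => minpoly.ne_zero (Finset.mem_filter.1 hr).2,
      fun x hx => ?_⟩
    by_contra hcon
    push Not at hcon
    have hin : ∀ σ : ℂ ≃ₐ[ℚ] ℂ, σ x ∈ c.roots.toFinset := fun σ =>
      Multiset.mem_toFinset.2 ((mem_roots hc).2 (hcon σ))
    have halg := isAlgebraic_of_finite_orbit x _ hin
    refine hx ?_
    rw [map_prod]
    exact Finset.prod_eq_zero (Finset.mem_filter.2 ⟨hin AlgEquiv.refl, halg.isIntegral⟩)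
      (minpoly.aeval ℚ x)
  refine ⟨ψ, fun h0 => ?_, A₁ * m, B₁ * m, A₂ * m, B₂ * m, c₀ * m, mul_ne_zero hc₀0 hm0,
    fun x y hxy hx => ?_⟩
  · have hx' : (c * D).eval (x₀ : ℂ) ≠ 0 := hx₀
    rw [eval_mul, mul_ne_zero_iff] at hx'
    obtain ⟨y, -, -, n1, -⟩ := hD2 _ hx'.2
    obtain ⟨h1, e1⟩ := H _ _ n1 hx'.1
    rw [h0] at e1
    exact Affine.Point.some_ne_zero _ e1.symm
  · rw [map_mul, mul_ne_zero_iff] at hx
    obtain ⟨σ, hσc⟩ := hm x hx.2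
    have n' := hnσ σ _ _ hxy
    obtain ⟨h2, e2⟩ := H _ _ n' hσc
    have hae : ∀ P : ℚ[X], σ (aeval x P) = aeval (σ x) P := fun P =>
      (Polynomial.aeval_algHom_apply σ x P).symm
    have hc' : aeval (σ x) c₀ ≠ 0 := by
      rw [← hae]
      exact (map_ne_zero σ).2 hx.1
    have val : ∀ (a b : ℂ[X]) (A B : ℚ[X]),
        (∀ z : ℂ, a.eval z * aeval z c₀ = aeval z A * c.eval z) →
        (∀ z : ℂ, b.eval z * aeval z c₀ = aeval z B * c.eval z) →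
        (a.eval (σ x) + b.eval (σ x) * σ y) / c.eval (σ x) =
          σ ((aeval x (A * m) + aeval x (B * m) * y) / aeval x (c₀ * m)) := by
      intro a b A B hA hB
      have e : (aeval x (A * m) + aeval x (B * m) * y) / aeval x (c₀ * m) =
          (aeval x A + aeval x B * y) / aeval x c₀ := by
        simp only [map_mul]
        rw [div_eq_div_iff (mul_ne_zero hx.1 hx.2) hx.1]
        ring
      rw [e, map_div₀, map_add, map_mul, hae, hae, hae, div_eq_div_iff hσc hc']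
      linear_combination hA (σ x) + σ y * hB (σ x)
    have v1 := val _ _ _ _ hA₁ hB₁
    have v2 := val _ _ _ _ hA₂ hB₂
    have h3 := h2
    rw [v1, v2] at h3
    have h4 := (Affine.baseChange_nonsingular (W := E'.toAffine) (f := σ.toAlgHom)
      σ.injective _ _).mp h3
    refine ⟨h4, Affine.Point.map_injective (W' := E') σ.toAlgHom ?_⟩
    have e3 : Affine.Point.map (W' := E) σ.toAlgHom (Affine.Point.some _ _ hxy) =
        Affine.Point.some _ _ n' := rfl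
    rw [hσ, e3, e2, Affine.Point.map_some]
    simp only [Affine.Point.some.injEq]
    exact ⟨v1, v2⟩

end

end Pool.Agent.P.MP_a60a76_nt.SP
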