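import Pool.Agent.P.MP_a60a76_nt.SP.JBasic

namespace Pool.Agent.P.MP_a60a76_nt.SP

open Polynomial UpperHalfPlane PeriodPair
open scoped MatrixGroups UpperHalfPlane Matrix Modular Topology Classical

noncomputable section

/-- Homogeneity of the Weierstrass functions and of the invariants. -/
theorem wp_scale (L L' : PeriodPair) (c : ℂ) (hc : c ≠ 0)
    (h : ∀ z, c * z ∈ L'.lattice ↔ z ∈ L.lattice) :
    (∀ z, L'.weierstrassP (c * z) = (c ^ 2)⁻¹ * L.weierstrassP z) ∧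
    (∀ z, L'.derivWeierstrassP (c * z) = (c ^ 3)⁻¹ * L.derivWeierstrassP z) ∧
    L'.g₂ = (c ^ 4)⁻¹ * L.g₂ ∧ L'.g₃ = (c ^ 6)⁻¹ * L.g₃ := by
  let e : L.lattice ≃ L'.lattice :=
    { toFun := fun l => ⟨c * l, (h l).2 l.2⟩
      invFun := fun l => ⟨c⁻¹ * l, (h _).1 (by rw [mul_inv_cancel_left₀ hc]; exact l.2)⟩
      left_inv := fun l => Subtype.ext (inv_mul_cancel_left₀ hc _)
      right_inv := fun l => Subtype.ext (mul_inv_cancel_left₀ hc _) }
  have he : ∀ l, ((e l : L'.lattice) : ℂ) = c * l := fun _ => rfl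
  have hG : ∀ n, L'.G n = (c ^ n)⁻¹ * L.G n := by
    intro n
    rw [PeriodPair.G, PeriodPair.G, ← e.tsum_eq, ← tsum_mul_left]
    exact tsum_congr fun l => by rw [he, mul_pow, mul_inv]
  refine ⟨fun z => ?_, fun z => ?_, ?_, ?_⟩
  · rw [weierstrassP, weierstrassP, ← e.tsum_eq, ← tsum_mul_left]
    refine tsum_congr fun l => ?_
    rw [he, ← mul_sub, mul_pow, mul_pow]
    simp only [one_div, mul_inv]
    ring
  · rw [derivWeierstrassP, derivWeierstrassP, ← e.tsum_eq, mul_neg, ← tsum_mul_left]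
    congr 1
    refine tsum_congr fun l => ?_
    rw [he, ← mul_sub, mul_pow]
    simp only [div_eq_mul_inv, mul_inv]
    ring
  · rw [g₂, g₂, hG]; ring
  · rw [g₃, g₃, hG]; ring

theorem mem_lat (τ : ℍ) (z : ℂ) : z ∈ (lat τ).lattice ↔ ∃ m n : ℤ, z = m * τ + n := by
  rw [mem_lattice]
  constructor
  · rintro ⟨m, n, h⟩
    exact ⟨m, n, by rw [← h]; simp [lat]⟩
  · rintro ⟨m, n, h⟩
    exact ⟨m, n, by rw [h]; simp [lat]⟩

lemma hv_eq_of_cast (p : ℕ) [NeZero p] (w : Fin 2 → ZMod p) (τ : ℍ) (m n : ℤ)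
    (hm : (m : ZMod p) = w 0) (hn : (n : ZMod p) = w 1) :
    hv p w τ = hf τ (((m : ℂ) * τ + n) / p) := by
  obtain ⟨k, hk⟩ := (ZMod.intCast_eq_iff p m (w 0)).1 hm
  obtain ⟨k', hk'⟩ := (ZMod.intCast_eq_iff p n (w 1)).1 hn
  have hp : (p : ℂ) ≠ 0 := Nat.cast_ne_zero.2 (NeZero.ne p)
  have h1 : ((m : ℂ) * τ + n) / p =
      zv p w τ + ((⟨k * τ + k', (mem_lat τ _).2 ⟨k, k', rfl⟩⟩ : (lat τ).lattice) : ℂ) := by
    rw [zv, hk, hk']
    push_cast
    field_simp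
    ring
  rw [h1, hv, hf, hf, weierstrassP_add_coe]

lemma hf_scale (τ τ' : ℍ) (c : ℂ) (hc : c ≠ 0)
    (h : ∀ z, c * z ∈ (lat τ').lattice ↔ z ∈ (lat τ).lattice) (z : ℂ) :
    hf τ' (c * z) = hf τ z := by
  obtain ⟨h1, -, h2, h3⟩ := wp_scale (lat τ) (lat τ') c hc h
  have hc' : (c⁻¹) ^ 12 ≠ 0 := pow_ne_zero _ (inv_ne_zero hc)
  rw [hf, hf, disc, disc, h1, h2, h3, ← mul_div_mul_left ((lat τ).weierstrassP z ^ 2 * _) _ hc']
  simp only [← inv_pow]
  congr 1 <;> ring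

theorem hv_smul (p : ℕ) [NeZero p] (v : Fin 2 → ZMod p) (γ : SL(2, ℤ)) (τ : ℍ) :
    hv p v (γ • τ) = hv p (v ᵥ* red p γ) τ := by
  have hdet : γ 0 0 * γ 1 1 - γ 0 1 * γ 1 0 = 1 := by
    have := γ.det_coe
    rwa [Matrix.det_fin_two] at this
  have hdet' : (γ 0 0 : ℂ) * γ 1 1 - γ 0 1 * γ 1 0 = 1 := by exact_mod_cast hdet
  have hj : (γ 1 0 : ℂ) * τ + γ 1 1 ≠ 0 := by
    intro h0
    have h1 := congrArg Complex.im h0
    simp only [Complex.add_im, Complex.mul_im, Complex.intCast_re, Complex.intCast_im, zero_mul,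
      add_zero, Complex.zero_im, coe_im, mul_eq_zero, Int.cast_eq_zero] at h1
    have h2 : γ 1 0 = 0 := h1.resolve_right τ.im_pos.ne'
    rw [h2] at h0 hdet
    have h3 : γ 1 1 = 0 := by simpa using h0
    rw [h3] at hdet
    simp at hdet
  have hγ : ((γ 1 0 : ℂ) * τ + γ 1 1) * ((γ • τ : ℍ) : ℂ) = γ 0 0 * τ + γ 0 1 := by
    rw [coe_specialLinearGroup_apply]
    simp only [eq_intCast, Complex.ofReal_intCast]
    exact mul_div_cancel₀ _ hj
  have hl : ∀ z, ((γ 1 0 : ℂ) * τ + γ 1 1) * z ∈ (lat τ).lattice ↔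
      z ∈ (lat (γ • τ)).lattice := by
    intro z
    rw [mem_lat, mem_lat]
    constructor
    · rintro ⟨m, n, h⟩
      refine ⟨m * γ 1 1 - n * γ 1 0, n * γ 0 0 - m * γ 0 1, mul_left_cancel₀ hj ?_⟩
      push_cast
      linear_combination h - (m * γ 1 1 - n * γ 1 0 : ℂ) * hγ - (m * τ + n : ℂ) * hdet'
    · rintro ⟨m, n, h⟩
      refine ⟨m * γ 0 0 + n * γ 1 0, m * γ 0 1 + n * γ 1 1, ?_⟩
      rw [h]
      push_cast
      linear_combination (m : ℂ) * hγ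
  rw [hv_eq_of_cast p (v ᵥ* red p γ) τ ((v 0).val * γ 0 0 + (v 1).val * γ 1 0)
    ((v 0).val * γ 0 1 + (v 1).val * γ 1 1)
    (by simp [red, Matrix.vecMul, dotProduct, Fin.sum_univ_two])
    (by simp [red, Matrix.vecMul, dotProduct, Fin.sum_univ_two]),
    hv, ← hf_scale _ _ _ hj hl, zv]
  congr 1
  push_cast
  linear_combination ((v 0).val / p : ℂ) * hγ

theorem hv_neg (p : ℕ) [NeZero p] (v : Fin 2 → ZMod p) (τ : ℍ) : hv p (-v) τ = hv p v τ := by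
  rw [hv_eq_of_cast p (-v) τ (-(v 0).val) (-(v 1).val) (by simp) (by simp), hv, zv]
  have h : (((-((v 0).val : ℤ) : ℤ) : ℂ) * τ + ((-((v 1).val : ℤ) : ℤ) : ℂ)) / p =
      -((((v 0).val : ℂ) * τ + ((v 1).val : ℂ)) / p) := by
    push_cast
    ring
  rw [h, hf, hf, weierstrassP_neg]

theorem red_mul (p : ℕ) (γ γ' : SL(2, ℤ)) : red p (γ * γ') = red p γ * red p γ' := by
  rw [red, red, red, Matrix.SpecialLinearGroup.coe_mul]
  exact Matrix.map_mul (f := Int.castRingHom (ZMod p))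

theorem red_one (p : ℕ) : red p 1 = 1 := by
  rw [red, Matrix.SpecialLinearGroup.coe_one]
  exact Matrix.map_one _ Int.cast_zero Int.cast_one

theorem red_det (p : ℕ) (γ : SL(2, ℤ)) : (red p γ).det = 1 := by
  have h := (Int.castRingHom (ZMod p)).map_det (γ : Matrix (Fin 2) (Fin 2) ℤ)
  rw [γ.det_coe, map_one] at h
  exact h.symm

theorem wf_smul (p : ℕ) [NeZero p] (l μ : ℕ) (g : Matrix (Fin 2) (Fin 2) (ZMod p))
    (γ γ' : SL(2, ℤ)) (τ τ' : ℍ) :
    wf p l μ g (γ • τ) (γ' • τ') = wf p l μ (red p γ⁻¹ * g * red p γ') τ τ' := by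
  let e : (Fin 2 → ZMod p) ≃ (Fin 2 → ZMod p) :=
    { toFun := fun v => v ᵥ* red p γ
      invFun := fun v => v ᵥ* red p γ⁻¹
      left_inv := fun v => by
        simp only [Matrix.vecMul_vecMul, ← red_mul, mul_inv_cancel, red_one, Matrix.vecMul_one]
      right_inv := fun v => by
        simp only [Matrix.vecMul_vecMul, ← red_mul, inv_mul_cancel, red_one, Matrix.vecMul_one] }
  rw [wf, wf]
  refine Fintype.prod_equiv e _ _ fun v => ?_
  have he : e v = v ᵥ* red p γ := rfl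
  rw [he, hv_smul, hv_smul, Matrix.vecMul_vecMul, Matrix.vecMul_vecMul, ← mul_assoc, ← mul_assoc,
    ← red_mul, mul_inv_cancel, red_one, one_mul]

end

end Pool.Agent.P.MP_a60a76_nt.SP
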