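import Pool.Agent.P.MP_a60a76_nt.SP.Poly
import Pool.Agent.P.MP_a60a76_nt.SP.Scale

namespace Pool.Agent.P.MP_a60a76_nt.SP

open Polynomial UpperHalfPlane PeriodPair
open scoped MatrixGroups UpperHalfPlane Matrix Modular Topology Classical

noncomputable section

/-- The term of the Weierstrass series at a division point. -/
def hvmT (p a b : ℕ) (x : Fin 2 → ℤ) (w : ℂ) : ℂ :=
  1 / (((a : ℂ) * w + b) / p - (x 0 * w + x 1)) ^ 2 - 1 / ((x 0 : ℂ) * w + x 1) ^ 2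

theorem hvm_tsum (τ : ℍ) (z : ℂ) : (lat τ).weierstrassP z =
    ∑' x : Fin 2 → ℤ, (1 / (z - (x 0 * (τ : ℂ) + x 1)) ^ 2 - 1 / ((x 0 : ℂ) * τ + x 1) ^ 2) := by
  rw [weierstrassP, ← ((finTwoArrowEquiv ℤ).trans (lat τ).latticeEquivProd.symm.toEquiv).tsum_eq]
  refine tsum_congr fun x => ?_
  have e : ((((finTwoArrowEquiv ℤ).trans (lat τ).latticeEquivProd.symm.toEquiv) x :
      (lat τ).lattice) : ℂ) = x 0 * (τ : ℂ) + x 1 := by
    have := (lat τ).latticeEquiv_symm_apply (x 0, x 1)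
    refine this.trans ?_
    simp [lat]
  rw [e]

theorem hvm_abs {p a : ℕ} (ha : a < p) (n : ℤ) : |n| ≤ |(a : ℤ) - p * n| := by
  have ha' : (a : ℤ) + 1 ≤ p := by exact_mod_cast ha
  have h0 : (0 : ℤ) ≤ a := Int.natCast_nonneg a
  rcases le_or_gt n 0 with h | h
  · rw [abs_of_nonpos h]
    refine le_trans ?_ (le_abs_self _)
    nlinarith
  · rw [abs_of_pos h]
    refine le_trans ?_ (neg_le_abs _)
    nlinarith

theorem hvm_ne {p a : ℕ} (ha : a < p) (n : ℤ) (h : (a : ℤ) - p * n = 0) : a = 0 := by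
  have h1 := hvm_abs ha n
  rw [h, abs_zero] at h1
  have h2 : n = 0 := abs_nonpos_iff.1 h1
  rw [h2] at h
  simpa using h

theorem hvm_lower {p a b : ℕ} (ha : a < p) (hb : b < p) (hab : a ≠ 0 ∨ b ≠ 0) (τ : ℍ)
    (x : Fin 2 → ℤ) :
    EisensteinSeries.r τ / p * max 1 ‖x‖ ≤ ‖((a : ℂ) * τ + b) / p - (x 0 * (τ : ℂ) + x 1)‖ := by
  have hp : (0 : ℝ) < p := by exact_mod_cast (Nat.zero_le a).trans_lt ha
  have hpc : (p : ℂ) ≠ 0 := by exact_mod_cast hp.ne'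
  set y : Fin 2 → ℤ := ![(a : ℤ) - p * x 0, (b : ℤ) - p * x 1] with hy
  have hy0 : y ≠ 0 := by
    intro h
    have h0 := congrFun h 0
    have h1 := congrFun h 1
    simp only [hy, Matrix.cons_val_zero, Matrix.cons_val_one, Pi.zero_apply] at h0 h1
    rcases hab with h' | h'
    · exact h' (hvm_ne ha _ h0)
    · exact h' (hvm_ne hb _ h1)
  have h1 := EisensteinSeries.r_mul_max_le τ hy0
  have e : ((a : ℂ) * τ + b) / p - (x 0 * (τ : ℂ) + x 1) = (y 0 * (τ : ℂ) + y 1) / p := by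
    simp only [hy, Matrix.cons_val_zero, Matrix.cons_val_one]
    push_cast
    field_simp
    ring
  have h2 : max 1 ‖x‖ ≤ ‖y‖ := by
    refine max_le ?_ ?_
    · obtain ⟨i, hi⟩ := Function.ne_iff.1 hy0
      refine le_trans ?_ (norm_le_pi_norm y i)
      rw [Int.norm_eq_abs]
      exact_mod_cast Int.one_le_abs hi
    · refine (pi_norm_le_iff_of_nonneg (norm_nonneg _)).2 fun i => ?_
      refine le_trans ?_ (norm_le_pi_norm y i)
      rw [Int.norm_eq_abs, Int.norm_eq_abs]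
      fin_cases i
      · exact_mod_cast hvm_abs ha (x 0)
      · exact_mod_cast hvm_abs hb (x 1)
  rw [e, norm_div, Complex.norm_natCast, div_mul_eq_mul_div]
  have h3 := EisensteinSeries.r_pos τ
  gcongr
  exact le_trans (by gcongr) h1

theorem hvm_term_aux (z l : ℂ) (t Z : ℝ) (ht : 0 < t) (h1 : t ≤ ‖z - l‖) (h2 : t ≤ ‖l‖)
    (hZ : ‖z‖ ≤ Z) : ‖1 / (z - l) ^ 2 - 1 / l ^ 2‖ ≤ 2 * Z / t ^ 3 := by
  have e1 : z - l ≠ 0 := norm_pos_iff.1 (ht.trans_le h1)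
  have e2 : l ≠ 0 := norm_pos_iff.1 (ht.trans_le h2)
  have e : 1 / (z - l) ^ 2 - 1 / l ^ 2 = z / (l * (z - l) ^ 2) - z / (l ^ 2 * (z - l)) := by
    field_simp
    ring
  have hZ0 : 0 ≤ Z := (norm_nonneg _).trans hZ
  rw [e]
  refine (norm_sub_le _ _).trans ?_
  rw [norm_div, norm_div, norm_mul, norm_mul, norm_pow, norm_pow]
  have b1 : ‖z‖ / (‖l‖ * ‖z - l‖ ^ 2) ≤ Z / (t * t ^ 2) := by gcongr
  have b2 : ‖z‖ / (‖l‖ ^ 2 * ‖z - l‖) ≤ Z / (t ^ 2 * t) := by gcongr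
  have e3 : 2 * Z / t ^ 3 = Z / (t * t ^ 2) + Z / (t ^ 2 * t) := by
    field_simp
    ring
  rw [e3]
  exact add_le_add b1 b2

/-- The summable majorant. -/
def hvmU (ρ Z : ℝ) (x : Fin 2 → ℤ) : ℝ :=
  2 * Z / ρ ^ 3 * ‖x‖ ^ (-3 : ℝ) + if x = 0 then 1 / ρ ^ 2 else 0

theorem hvm_hasSum (ρ Z : ℝ) : HasSum (hvmU ρ Z)
    (2 * Z / ρ ^ 3 * (∑' x : Fin 2 → ℤ, ‖x‖ ^ (-3 : ℝ)) + 1 / ρ ^ 2) :=
  (((EisensteinSeries.summable_one_div_norm_rpow (k := 3) (by norm_num)).hasSum).mul_left _).add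
    (hasSum_ite_eq (0 : Fin 2 → ℤ) (1 / ρ ^ 2))

theorem hvm_term {p a b : ℕ} (ha : a < p) (hb : b < p) (hab : a ≠ 0 ∨ b ≠ 0) (τ : ℍ)
    (ρ R : ℝ) (hρ : 0 < ρ) (hr : ρ ≤ EisensteinSeries.r τ) (hR : ‖(τ : ℂ)‖ ≤ R)
    (x : Fin 2 → ℤ) : ‖hvmT p a b x τ‖ ≤ hvmU (ρ / p) (R + 1) x := by
  have hp1 : (1 : ℝ) ≤ p := by exact_mod_cast (Nat.zero_le a).trans_lt ha
  have hp : (0 : ℝ) < p := by linarith
  have hR0 : 0 ≤ R := (norm_nonneg _).trans hR
  have h1 := hvm_lower ha hb hab τ x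
  have h1' : ρ / p * max 1 ‖x‖ ≤ ‖((a : ℂ) * τ + b) / p - (x 0 * (τ : ℂ) + x 1)‖ :=
    le_trans (by gcongr) h1
  have hz : ‖((a : ℂ) * τ + b) / p‖ ≤ R + 1 := by
    rw [norm_div, Complex.norm_natCast, div_le_iff₀ hp]
    refine (norm_add_le _ _).trans ?_
    rw [norm_mul, Complex.norm_natCast, Complex.norm_natCast]
    have ha' : (a : ℝ) ≤ p := by exact_mod_cast ha.le
    have hb' : (b : ℝ) ≤ p := by exact_mod_cast hb.le
    have : (a : ℝ) * ‖(τ : ℂ)‖ ≤ p * R := by gcongr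
    nlinarith
  by_cases hx : x = 0
  · subst hx
    simp only [hvmT, hvmU, Pi.zero_apply, Int.cast_zero, zero_mul, add_zero, sub_zero, norm_zero,
      if_true] at h1' ⊢
    rw [Real.zero_rpow (by norm_num), mul_zero, zero_add, zero_pow two_ne_zero, div_zero, sub_zero,
      norm_div, norm_one, norm_pow]
    rw [max_eq_left zero_le_one, mul_one] at h1'
    gcongr
  · have hx0 : 0 < ‖x‖ := norm_pos_iff.2 hx
    have h2 := EisensteinSeries.r_mul_max_le τ hx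
    have h3 : ρ / p * ‖x‖ ≤ ‖x 0 * (τ : ℂ) + x 1‖ := by
      refine le_trans ?_ h2
      gcongr
      exact (div_le_self hρ.le hp1).trans hr
    have h4 := hvm_term_aux _ _ (ρ / p * ‖x‖) (R + 1) (by positivity)
      (le_trans (by gcongr; exact le_max_right _ _) h1') h3 hz
    refine h4.trans (le_of_eq ?_)
    rw [hvmU, if_neg hx, add_zero, Real.rpow_neg hx0.le, mul_pow]
    have : ‖x‖ ^ (3 : ℝ) = ‖x‖ ^ 3 := by exact_mod_cast Real.rpow_natCast ‖x‖ 3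
    rw [this]
    field_simp

theorem hvm_wp_eq (p a b : ℕ) (τ : ℍ) :
    (lat τ).weierstrassP (((a : ℂ) * τ + b) / p) = ∑' x, hvmT p a b x τ := hvm_tsum τ _

theorem hvm_wp_hol {p a b : ℕ} (ha : a < p) (hb : b < p) (hab : a ≠ 0 ∨ b ≠ 0) :
    Hol fun τ => (lat τ).weierstrassP (((a : ℂ) * τ + b) / p) := by
  intro w₀ hw₀
  have hw₀' : 0 < w₀.im := hw₀
  have hB : 0 < w₀.im / 2 := by linarith
  set U : Set ℂ := {w | w₀.im / 2 < w.im} ∩ Metric.ball 0 (‖w₀‖ + 1) with hU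
  have hUo : IsOpen U :=
    (isOpen_lt continuous_const Complex.continuous_im).inter Metric.isOpen_ball
  have hwU : w₀ ∈ U := ⟨show w₀.im / 2 < w₀.im by linarith, by simp⟩
  have hpos : ∀ w ∈ U, 0 < w.im := fun w hw => hB.trans hw.1
  set ρ := EisensteinSeries.r ⟨⟨‖w₀‖ + 1, w₀.im / 2⟩, hB⟩ with hρ
  have hρ0 : 0 < ρ := EisensteinSeries.r_pos _
  have hlow : ∀ w (hw : w ∈ U), ρ ≤ EisensteinSeries.r ⟨w, hpos w hw⟩ := by
    intro w hw
    refine EisensteinSeries.r_lower_bound_on_verticalStrip _ hB ⟨?_, le_of_lt hw.1⟩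
    have h1 : ‖w‖ < ‖w₀‖ + 1 := by simpa using hw.2
    exact (Complex.abs_re_le_norm w).trans h1.le
  have hd : DifferentiableOn ℂ (fun w => ∑' x, hvmT p a b x w) U := by
    refine Complex.differentiableOn_tsum_of_summable_norm
      (hvm_hasSum (ρ / p) (‖w₀‖ + 1 + 1)).summable (fun x => ?_) hUo (fun x w hw => ?_)
    · intro w hw
      refine DifferentiableAt.differentiableWithinAt ?_
      have hp : (0 : ℝ) < p := by exact_mod_cast (Nat.zero_le a).trans_lt ha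
      have h1 := hvm_lower ha hb hab ⟨w, hpos w hw⟩ x
      have h2 : ((a : ℂ) * w + b) / p - (x 0 * w + x 1) ≠ 0 := by
        refine norm_pos_iff.1 (lt_of_lt_of_le ?_ h1)
        have := EisensteinSeries.r_pos ⟨w, hpos w hw⟩
        positivity
      refine DifferentiableAt.fun_sub ?_ ?_
      · exact DifferentiableAt.fun_div (by fun_prop) (by fun_prop) (pow_ne_zero _ h2)
      · by_cases hx : x = 0
        · subst hx
          simp
        · have h3 := EisensteinSeries.r_mul_max_le ⟨w, hpos w hw⟩ hx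
          have h4 : (x 0 : ℂ) * w + x 1 ≠ 0 := by
            refine norm_pos_iff.1 (lt_of_lt_of_le ?_ h3)
            exact mul_pos (EisensteinSeries.r_pos _) (norm_pos_iff.2 hx)
          exact DifferentiableAt.fun_div (by fun_prop) (by fun_prop) (pow_ne_zero _ h4)
    · have h1 : ‖w‖ < ‖w₀‖ + 1 := by simpa using hw.2
      exact hvm_term ha hb hab ⟨w, hpos w hw⟩ ρ (‖w₀‖ + 1) hρ0 (hlow w hw) h1.le x
  have hd' := hd.differentiableAt (hUo.mem_nhds hwU)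
  refine (hd'.congr_of_eventuallyEq ?_).differentiableWithinAt
  filter_upwards [hUo.mem_nhds hwU] with w hw
  simp only [Function.comp]
  rw [ofComplex_apply_of_im_pos (hpos w hw)]
  exact hvm_wp_eq p a b ⟨w, hpos w hw⟩

theorem hvm_wp_bound (p : ℕ) : ∃ K : ℝ, 0 ≤ K ∧ ∀ a b : ℕ, a < p → b < p → ∀ τ ∈ 𝒟,
    ‖(lat τ).weierstrassP (((a : ℂ) * τ + b) / p)‖ ≤ K * Real.exp τ.im := by
  have hB : (0 : ℝ) < 1 / 2 := by norm_num
  set ρ := EisensteinSeries.r ⟨⟨1 / 2, 1 / 2⟩, hB⟩ with hρ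
  have hρ0 : 0 < ρ := EisensteinSeries.r_pos _
  set S := ∑' x : Fin 2 → ℤ, ‖x‖ ^ (-3 : ℝ) with hS
  have hS0 : 0 ≤ S := tsum_nonneg fun x => by positivity
  refine ⟨4 / (ρ / p) ^ 3 * S + 1 / (ρ / p) ^ 2, by positivity, fun a b ha hb τ hτ => ?_⟩
  have hy := τ.im_pos
  have he : τ.im + 1 ≤ Real.exp τ.im := Real.add_one_le_exp _
  by_cases hab : a ≠ 0 ∨ b ≠ 0
  · have him : 1 / 2 ≤ τ.im := by
      have := ModularGroup.three_le_four_mul_im_sq_of_mem_fd hτ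
      nlinarith
    have hlow : ρ ≤ EisensteinSeries.r τ :=
      EisensteinSeries.r_lower_bound_on_verticalStrip _ hB ⟨hτ.2, him⟩
    have hR : ‖(τ : ℂ)‖ ≤ 1 / 2 + τ.im := by
      refine (Complex.norm_le_abs_re_add_abs_im _).trans ?_
      have h1 : |(τ : ℂ).re| ≤ 1 / 2 := hτ.2
      have h2 : |(τ : ℂ).im| = τ.im := abs_of_pos hy
      linarith
    rw [hvm_wp_eq]
    refine (tsum_of_norm_bounded (hvm_hasSum (ρ / p) (1 / 2 + τ.im + 1))
      (hvm_term ha hb hab τ ρ _ hρ0 hlow hR)).trans ?_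
    have hp : (0 : ℝ) < p := by exact_mod_cast (Nat.zero_le a).trans_lt ha
    have h1 : 2 * (1 / 2 + τ.im + 1) / (ρ / p) ^ 3 * S ≤
        4 / (ρ / p) ^ 3 * S * Real.exp τ.im := by
      have : 2 * (1 / 2 + τ.im + 1) ≤ 4 * Real.exp τ.im := by linarith
      calc 2 * (1 / 2 + τ.im + 1) / (ρ / p) ^ 3 * S
          ≤ 4 * Real.exp τ.im / (ρ / p) ^ 3 * S := by gcongr
        _ = _ := by ring
    have h2 : 1 / (ρ / p) ^ 2 ≤ 1 / (ρ / p) ^ 2 * Real.exp τ.im :=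
      le_mul_of_one_le_right (by positivity) (by linarith)
    rw [add_mul]
    exact add_le_add h1 h2
  · push Not at hab
    obtain ⟨rfl, rfl⟩ := hab
    simp only [Nat.cast_zero, zero_mul, add_zero, zero_div, weierstrassP_zero, norm_zero]
    positivity

theorem hvm_wp_hol' (p : ℕ) [NeZero p] (v : Fin 2 → ZMod p) :
    Hol fun τ => (lat τ).weierstrassP (zv p v τ) := by
  by_cases h : (v 0).val ≠ 0 ∨ (v 1).val ≠ 0
  · exact hvm_wp_hol (ZMod.val_lt _) (ZMod.val_lt _) h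
  · push Not at h
    have e : (fun τ => (lat τ).weierstrassP (zv p v τ)) = fun _ => 0 := by
      funext τ
      simp [zv, h.1, h.2]
    rw [e]
    exact differentiableOn_const _

theorem hvm_hol (p : ℕ) [NeZero p] (v : Fin 2 → ZMod p) : Hol (hv p v) := by
  have h1 := hvm_wp_hol' p v
  have h2 := g₂_hol
  have h3 := g₃_hol
  unfold Hol at h1 h2 h3 ⊢
  exact (((h1.pow 2).mul (((h2.const_mul 12).pow 2).add ((h3.const_mul 216).mul h1))).div
    ((h2.pow 3).sub ((h3.pow 2).const_mul 27)) (fun w _ => disc_ne_zero (ofComplex w)))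

theorem hvm_bound (p : ℕ) [NeZero p] : ∃ C : ℝ, ∀ (v : Fin 2 → ZMod p), ∀ τ ∈ 𝒟,
    ‖hv p v τ‖ ≤ C * Real.exp (2 * Real.pi * (2 : ℕ) * τ.im) := by
  obtain ⟨K, hK0, hK⟩ := hvm_wp_bound p
  obtain ⟨C, hC⟩ := g_bound
  refine ⟨K ^ 2 * ((12 * C) ^ 2 + 216 * C * K) * C, fun v τ hτ => ?_⟩
  obtain ⟨h2, h3, hd⟩ := hC τ hτ
  have hC0 : 0 ≤ C := (norm_nonneg _).trans h2
  have hx : ‖(lat τ).weierstrassP (zv p v τ)‖ ≤ K * Real.exp τ.im :=
    hK _ _ (ZMod.val_lt _) (ZMod.val_lt _) τ hτ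
  have hy := τ.im_pos
  have he : 1 ≤ Real.exp τ.im := Real.one_le_exp hy.le
  have h4 : ‖(12 * (lat τ).g₂) ^ 2 + 216 * (lat τ).g₃ * (lat τ).weierstrassP (zv p v τ)‖ ≤
      ((12 * C) ^ 2 + 216 * C * K) * Real.exp τ.im := by
    refine (norm_add_le _ _).trans ?_
    rw [norm_pow, norm_mul, norm_mul, norm_mul, Complex.norm_ofNat, Complex.norm_ofNat, add_mul]
    refine add_le_add ?_ ?_
    · calc (12 * ‖(lat τ).g₂‖) ^ 2 ≤ (12 * C) ^ 2 := by gcongr
        _ ≤ _ := le_mul_of_one_le_right (by positivity) he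
    · calc 216 * ‖(lat τ).g₃‖ * ‖(lat τ).weierstrassP (zv p v τ)‖
          ≤ 216 * C * (K * Real.exp τ.im) := by gcongr
        _ = _ := by ring
  have h5 : Real.exp τ.im ^ 3 * Real.exp (2 * Real.pi * τ.im) ≤
      Real.exp (2 * Real.pi * (2 : ℕ) * τ.im) := by
    rw [← Real.exp_nat_mul, ← Real.exp_add, Real.exp_le_exp]
    have := Real.pi_gt_three
    push_cast
    nlinarith
  rw [hv, hf, div_eq_mul_inv, norm_mul, norm_mul, norm_pow]
  calc ‖(lat τ).weierstrassP (zv p v τ)‖ ^ 2 *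
        ‖(12 * (lat τ).g₂) ^ 2 + 216 * (lat τ).g₃ * (lat τ).weierstrassP (zv p v τ)‖ *
        ‖(disc τ)⁻¹‖
      ≤ (K * Real.exp τ.im) ^ 2 * (((12 * C) ^ 2 + 216 * C * K) * Real.exp τ.im) *
        (C * Real.exp (2 * Real.pi * τ.im)) := by gcongr
    _ = K ^ 2 * ((12 * C) ^ 2 + 216 * C * K) * C *
        (Real.exp τ.im ^ 3 * Real.exp (2 * Real.pi * τ.im)) := by ring
    _ ≤ _ := by gcongr

theorem hv_mod (p : ℕ) [NeZero p] (v : Fin 2 → ZMod p) : Mod 2 (hv p v) := by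
  obtain ⟨C, hC⟩ := hvm_bound p
  refine ⟨hvm_hol p v, C, fun γ τ hτ => ?_⟩
  rw [hv_smul]
  exact hC _ τ hτ

theorem hvm_prod {ι : Type*} (s : Finset ι) (k : ℕ) (f : ι → ℍ → ℂ) (hf : ∀ i, Mod k (f i)) :
    Mod (k * s.card) fun τ => ∏ i ∈ s, f i τ := by
  induction s using Finset.induction_on with
  | empty => simpa using Mod.const 1
  | insert i s hi ih =>
    simp only [Finset.prod_insert hi, Finset.card_insert_of_notMem hi]
    exact ((hf i).mul ih).mono (le_of_eq (by ring))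

theorem hvm_prod_univ (p : ℕ) [NeZero p] (f : (Fin 2 → ZMod p) → ℍ → ℂ) (hf : ∀ v, Mod 2 (f v)) :
    Mod (2 * p ^ 2) fun τ => ∏ v, f v τ := by
  have h := hvm_prod Finset.univ 2 f hf
  rwa [Finset.card_univ, Fintype.card_fun, ZMod.card, Fintype.card_fin] at h

theorem hvm_lin {f g : ℍ → ℂ} (hf : Mod 2 f) (hg : Mod 2 g) (c d : ℂ) :
    Mod 2 fun τ => c - f τ - d * g τ := by
  have h1 := ((Mod.const c).mono (Nat.zero_le 2)).add
    ((((Mod.const (-1)).mul hf).mono (le_refl 2)).add (((Mod.const (-d)).mul hg).mono (le_refl 2)))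
  have e : (fun τ => c - f τ - d * g τ) = fun τ => c + (-1 * f τ + -d * g τ) := by
    funext τ
    ring
  rw [e]
  exact h1

theorem wf_mod_left (p : ℕ) [NeZero p] (l μ : ℕ) (g : Matrix (Fin 2) (Fin 2) (ZMod p)) (τ' : ℍ) :
    Mod (2 * p ^ 2) fun τ => wf p l μ g τ τ' :=
  hvm_prod_univ p (fun v τ => (l : ℂ) - hv p v τ - μ * hv p (v ᵥ* g) τ') fun v =>
    hvm_lin (hv_mod p v) ((Mod.const _).mono (Nat.zero_le 2)) _ _

theorem wf_mod_right (p : ℕ) [NeZero p] (l μ : ℕ) (g : Matrix (Fin 2) (Fin 2) (ZMod p)) (τ : ℍ) :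
    Mod (2 * p ^ 2) (wf p l μ g τ) :=
  hvm_prod_univ p (fun v τ' => (l : ℂ) - hv p v τ - μ * hv p (v ᵥ* g) τ') fun v =>
    hvm_lin ((Mod.const _).mono (Nat.zero_le 2)) (hv_mod p (v ᵥ* g)) _ _

theorem wf_mod_diag (p : ℕ) [NeZero p] (l μ : ℕ) (g : Matrix (Fin 2) (Fin 2) (ZMod p)) :
    Mod (2 * p ^ 2) fun τ => wf p l μ g τ τ :=
  hvm_prod_univ p (fun v τ => (l : ℂ) - hv p v τ - μ * hv p (v ᵥ* g) τ) fun v =>
    hvm_lin (hv_mod p v) (hv_mod p (v ᵥ* g)) _ _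

theorem hv_hol (p : ℕ) [NeZero p] (v : Fin 2 → ZMod p) : Hol (hv p v) := (hv_mod p v).1

theorem hvm_continuous {f : ℍ → ℂ} (hf : Hol f) : Continuous f := by
  have h1 : Continuous fun τ : ℍ => (f ∘ ofComplex) (τ : ℂ) :=
    hf.continuousOn.comp_continuous UpperHalfPlane.continuous_coe fun τ => τ.im_pos
  simpa only [Function.comp, ofComplex_apply] using h1

theorem wf_continuous (p : ℕ) [NeZero p] (l μ : ℕ) (g : Matrix (Fin 2) (Fin 2) (ZMod p)) :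
    Continuous fun ξ : ℍ × ℍ => wf p l μ g ξ.1 ξ.2 := by
  refine continuous_finsetProd _ fun v _ => ?_
  exact (continuous_const.sub ((hvm_continuous (hv_hol p v)).comp continuous_fst)).sub
    (continuous_const.mul ((hvm_continuous (hv_hol p (v ᵥ* g))).comp continuous_snd))

/-- Composition with holomorphic maps into the upper half plane. -/
theorem Hol.comp {f : ℍ → ℂ} (hf : Hol f) {t : ℂ → ℍ} {U : Set ℂ}
    (ht : DifferentiableOn ℂ (fun x => (t x : ℂ)) U) : DifferentiableOn ℂ (fun x => f (t x)) U := by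
  have h1 : DifferentiableOn ℂ (fun x => (f ∘ ofComplex) (t x : ℂ)) U :=
    DifferentiableOn.comp (g := f ∘ ofComplex) (t := {z : ℂ | 0 < z.im}) hf ht
      fun x _ => (t x).im_pos
  simpa only [Function.comp, ofComplex_apply] using h1

theorem wf_comp (p : ℕ) [NeZero p] (l μ : ℕ) (g : Matrix (Fin 2) (Fin 2) (ZMod p))
    {t t' : ℂ → ℍ} {U : Set ℂ} (ht : DifferentiableOn ℂ (fun x => (t x : ℂ)) U)
    (ht' : DifferentiableOn ℂ (fun x => (t' x : ℂ)) U) :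
    DifferentiableOn ℂ (fun x => wf p l μ g (t x) (t' x)) U := by
  refine DifferentiableOn.fun_finsetProd fun v _ => ?_
  exact ((differentiableOn_const _).sub ((hv_hol p v).comp ht)).sub
    (((hv_hol p (v ᵥ* g)).comp ht').const_mul _)

end

end Pool.Agent.P.MP_a60a76_nt.SP
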