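import Pool.Agent.P.MP_a60a76_nt.SP.Gal
import Pool.Agent.P.MP_a60a76_nt.SP.HvMod

namespace Pool.Agent.P.MP_a60a76_nt.SP

open Polynomial UpperHalfPlane PeriodPair
open scoped MatrixGroups UpperHalfPlane Matrix Modular Topology Classical

noncomputable section

namespace FPolyAux

theorem wf_gal (p : ℕ) [NeZero p] (l μ : ℕ) (σ : ℂ ≃ₐ[ℚ] ℂ) {τ τ' : ℍ}
    {a a' : Matrix (Fin 2) (Fin 2) (ZMod p)} (ha : IsUnit a.det)
    (h : ∀ v, σ (hv p v τ) = hv p (v ᵥ* a) τ) (h' : ∀ v, σ (hv p v τ') = hv p (v ᵥ* a') τ')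
    (g : Matrix (Fin 2) (Fin 2) (ZMod p)) :
    σ (wf p l μ g τ τ') = wf p l μ (a⁻¹ * g * a') τ τ' := by
  unfold wf
  rw [map_prod]
  refine Finset.prod_nbij' (fun v => v ᵥ* a) (fun w => w ᵥ* a⁻¹) (by simp) (by simp) ?_ ?_ ?_
  · intro v _
    simp [Matrix.vecMul_vecMul, Matrix.mul_nonsing_inv _ ha]
  · intro v _
    simp [Matrix.vecMul_vecMul, Matrix.nonsing_inv_mul _ ha]
  · intro v _
    have e : (v ᵥ* a) ᵥ* (a⁻¹ * g * a') = (v ᵥ* g) ᵥ* a' := by
      rw [Matrix.vecMul_vecMul, Matrix.vecMul_vecMul, ← Matrix.mul_assoc, ← Matrix.mul_assoc,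
        Matrix.mul_nonsing_inv _ ha, Matrix.one_mul]
    simp only [map_sub, map_mul, map_natCast, h, h', e]

theorem prod_unit {p : ℕ} [NeZero p] {M : Type*} [CommMonoid M]
    (f : Matrix (Fin 2) (Fin 2) (ZMod p) → M) {a b : Matrix (Fin 2) (Fin 2) (ZMod p)}
    (ha : IsUnit a.det) (hb : IsUnit b.det) :
    ∏ g ∈ Finset.univ.filter (fun g : Matrix (Fin 2) (Fin 2) (ZMod p) => IsUnit g.det),
        f (a * g * b) =
      ∏ g ∈ Finset.univ.filter (fun g : Matrix (Fin 2) (Fin 2) (ZMod p) => IsUnit g.det), f g := by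
  refine Finset.prod_nbij' (fun g => a * g * b) (fun g => a⁻¹ * g * b⁻¹) ?_ ?_ ?_ ?_ ?_
  · intro g hg
    simp only [Finset.mem_filter, Finset.mem_univ, true_and] at hg ⊢
    rw [Matrix.det_mul, Matrix.det_mul]
    exact (ha.mul hg).mul hb
  · intro g hg
    simp only [Finset.mem_filter, Finset.mem_univ, true_and] at hg ⊢
    rw [Matrix.det_mul, Matrix.det_mul]
    exact ((Matrix.isUnit_nonsing_inv_det a ha).mul hg).mul (Matrix.isUnit_nonsing_inv_det b hb)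
  · intro g _
    show a⁻¹ * (a * g * b) * b⁻¹ = g
    rw [Matrix.mul_assoc a, Matrix.nonsing_inv_mul_cancel_left _ _ ha,
      Matrix.mul_nonsing_inv_cancel_right _ _ hb]
  · intro g _
    show a * (a⁻¹ * g * b⁻¹) * b = g
    rw [Matrix.mul_assoc a⁻¹, Matrix.mul_nonsing_inv_cancel_left _ _ ha,
      Matrix.nonsing_inv_mul_cancel_right _ _ hb]
  · intro g _
    rfl

theorem scalar_of_not {p : ℕ} {α : Matrix (Fin 2) (Fin 2) (ZMod p)} (h : ¬ NonScalar α) :
    α = α 0 0 • (1 : Matrix (Fin 2) (Fin 2) (ZMod p)) := by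
  unfold NonScalar at h
  push Not at h
  obtain ⟨h1, h2, h3⟩ := h
  ext i j
  fin_cases i <;> fin_cases j <;> simp [h1, h2, h3]

theorem nonScalar_conj {p : ℕ} {α a b : Matrix (Fin 2) (Fin 2) (ZMod p)} (hab : b * a = 1)
    (h : NonScalar α) : NonScalar (a * α * b) := by
  by_contra hn
  have e := scalar_of_not hn
  set c := (a * α * b) 0 0
  have e2 : α = c • (1 : Matrix (Fin 2) (Fin 2) (ZMod p)) := by
    have : α = b * (a * α * b) * a := by
      rw [← Matrix.mul_assoc, ← Matrix.mul_assoc, hab, Matrix.one_mul, Matrix.mul_assoc, hab,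
        Matrix.mul_one]
    rw [this, e, Matrix.mul_smul, Matrix.mul_one, Matrix.smul_mul, hab]
  unfold NonScalar at h
  rw [e2] at h
  simp at h

theorem prod_ns {p : ℕ} [NeZero p] {M : Type*} [CommMonoid M]
    (f : Matrix (Fin 2) (Fin 2) (ZMod p) → M) {a b : Matrix (Fin 2) (Fin 2) (ZMod p)}
    (hab : a * b = 1) (hba : b * a = 1) :
    ∏ g ∈ Finset.univ.filter (fun g : Matrix (Fin 2) (Fin 2) (ZMod p) => NonScalar g),
        f (a * g * b) =
      ∏ g ∈ Finset.univ.filter (fun g : Matrix (Fin 2) (Fin 2) (ZMod p) => NonScalar g), f g := by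
  refine Finset.prod_nbij' (fun g => a * g * b) (fun g => b * g * a) ?_ ?_ ?_ ?_ ?_
  · intro g hg
    simp only [Finset.mem_filter, Finset.mem_univ, true_and] at hg ⊢
    exact nonScalar_conj hba hg
  · intro g hg
    simp only [Finset.mem_filter, Finset.mem_univ, true_and] at hg ⊢
    exact nonScalar_conj hab hg
  · intro g _
    show b * (a * g * b) * a = g
    rw [← Matrix.mul_assoc, ← Matrix.mul_assoc, hba, Matrix.one_mul, Matrix.mul_assoc, hba,
      Matrix.mul_one]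
  · intro g _
    show a * (b * g * a) * b = g
    rw [← Matrix.mul_assoc, ← Matrix.mul_assoc, hab, Matrix.one_mul, Matrix.mul_assoc, hab,
      Matrix.mul_one]
  · intro g _
    rfl

/-- Over a rational invariant the automorphisms of `ℂ` act through invertible matrices. -/
theorem gal_rat (p : ℕ) [Fact p.Prime] (x : ℚ) {τ : ℍ} (hτ : J τ = x) (σ : ℂ ≃ₐ[ℚ] ℂ) :
    ∃ a : Matrix (Fin 2) (Fin 2) (ZMod p), IsUnit a.det ∧
      ∀ v, σ (hv p v τ) = hv p (v ᵥ* a) τ := by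
  have : ((WeierstrassCurve.ofJ x).baseChange ℂ).IsElliptic :=
    inferInstanceAs ((WeierstrassCurve.ofJ x).map (algebraMap ℚ ℂ)).IsElliptic
  have hj : J τ = ((WeierstrassCurve.ofJ x).baseChange ℂ).j := by
    rw [hτ]
    show _ = ((WeierstrassCurve.ofJ x).map (algebraMap ℚ ℂ)).j
    rw [WeierstrassCurve.map_j, WeierstrassCurve.ofJ_j]
    simp
  obtain ⟨U⟩ := unif _ τ hj
  obtain ⟨a, ha, h⟩ := gal (WeierstrassCurve.ofJ x) U p σ
  exact ⟨a, ha, fun v => (h v).2⟩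

theorem coeff_rat {ι : Type*} (s : Finset ι) (f : ι → ℂ)
    (h : ∀ σ : ℂ ≃ₐ[ℚ] ℂ, ∏ i ∈ s, (X - C (σ (f i))) = ∏ i ∈ s, (X - C (f i))) (n : ℕ) :
    ∃ q : ℚ, (∏ i ∈ s, (X - C (f i))).coeff n = (q : ℂ) := by
  obtain ⟨q, hq⟩ := fix_rat ((∏ i ∈ s, (X - C (f i))).coeff n) (fun σ => by
    have e : (∏ i ∈ s, (X - C (f i))).map (σ : ℂ →+* ℂ) = ∏ i ∈ s, (X - C (f i)) := by
      rw [Polynomial.map_prod, ← h σ]
      simp
    have e2 := congrArg (fun P : ℂ[X] => P.coeff n) e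
    simp only [Polynomial.coeff_map] at e2
    exact e2)
  exact ⟨q, hq.symm⟩

end FPolyAux

open FPolyAux

/-- The equation of the diagonal quotient surface over the plane of invariants. -/
theorem exists_F (p : ℕ) [Fact p.Prime] (l μ : ℕ) :
    ∃ F : ℚ[X][X][X], F.Monic ∧ ∀ τ τ' : ℍ,
      F.map (aevalAeval (J τ) (J τ') : ℚ[X][X] →ₐ[ℚ] ℂ).toRingHom =
        ∏ g ∈ Finset.univ.filter
          (fun g : Matrix (Fin 2) (Fin 2) (ZMod p) => IsUnit g.det), (X - C (wf p l μ g τ τ')) := by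
  obtain ⟨F, hFm, hF⟩ := poly2_prod
    (Finset.univ.filter (fun g : Matrix (Fin 2) (Fin 2) (ZMod p) => IsUnit g.det)) (2 * p ^ 2)
    (fun g => wf p l μ g) (fun g _ τ' => wf_mod_left p l μ g τ')
    (fun g _ τ => wf_mod_right p l μ g τ) (fun γ γ' τ τ' => by
      simp only [wf_smul]
      exact prod_unit (fun g => X - C (wf p l μ g τ τ')) (by rw [red_det]; exact isUnit_one)
        (by rw [red_det]; exact isUnit_one))
  have hl : F ∈ Polynomial.lifts (mapRingHom (mapRingHom (algebraMap ℚ ℂ)) : ℚ[X][X] →+* ℂ[X][X]) := by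
    rw [Polynomial.lifts_iff_coeff_lifts]
    intro n
    obtain ⟨Q₀, hQ₀⟩ := lifts_of_rat2 (F.coeff n) (fun x y => by
      obtain ⟨τ, hτ⟩ := J_surj (x : ℂ)
      obtain ⟨τ', hτ'⟩ := J_surj (y : ℂ)
      obtain ⟨q, hq⟩ := coeff_rat
        (Finset.univ.filter (fun g : Matrix (Fin 2) (Fin 2) (ZMod p) => IsUnit g.det))
        (fun g => wf p l μ g τ τ') (fun σ => by
          obtain ⟨a, ha, h⟩ := gal_rat p x hτ σ
          obtain ⟨a', ha', h'⟩ := gal_rat p y hτ' σ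
          simp only [wf_gal p l μ σ ha h h']
          exact prod_unit (fun g => X - C (wf p l μ g τ τ'))
            (Matrix.isUnit_nonsing_inv_det a ha) ha') n
      refine ⟨q, ?_⟩
      rw [← hq, ← hF τ τ', Polynomial.coeff_map, hτ, hτ']
      rfl)
    exact ⟨Q₀, hQ₀⟩
  obtain ⟨F₀, hF₀, -, hm⟩ := Polynomial.lifts_and_natDegree_eq_and_monic hl hFm
  refine ⟨F₀, hm, fun τ τ' => ?_⟩
  rw [← hF τ τ', ← hF₀, Polynomial.map_map]
  congr 1
  ext <;> simp

theorem exists_FD (p : ℕ) [Fact p.Prime] (l μ : ℕ) :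
    ∃ F : ℚ[X][X], F.Monic ∧ ∀ τ : ℍ,
      F.map (aeval (J τ) : ℚ[X] →ₐ[ℚ] ℂ).toRingHom =
        ∏ α ∈ Finset.univ.filter
          (fun α : Matrix (Fin 2) (Fin 2) (ZMod p) => NonScalar α), (X - C (wf p l μ α τ τ)) := by
  obtain ⟨F, hFm, hF⟩ := poly1_prod
    (Finset.univ.filter (fun g : Matrix (Fin 2) (Fin 2) (ZMod p) => NonScalar g)) (2 * p ^ 2)
    (fun g τ => wf p l μ g τ τ) (fun g _ => wf_mod_diag p l μ g) (fun γ τ => by
      simp only [wf_smul]
      exact prod_ns (fun g => X - C (wf p l μ g τ τ))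
        (by rw [← red_mul, inv_mul_cancel, red_one]) (by rw [← red_mul, mul_inv_cancel, red_one]))
  have hl : F ∈ Polynomial.lifts (mapRingHom (algebraMap ℚ ℂ) : ℚ[X] →+* ℂ[X]) := by
    rw [Polynomial.lifts_iff_coeff_lifts]
    intro n
    obtain ⟨Q₀, hQ₀⟩ := lifts_of_rat1 (F.coeff n) (fun x => by
      obtain ⟨τ, hτ⟩ := J_surj (x : ℂ)
      obtain ⟨q, hq⟩ := coeff_rat
        (Finset.univ.filter (fun g : Matrix (Fin 2) (Fin 2) (ZMod p) => NonScalar g))
        (fun g => wf p l μ g τ τ) (fun σ => by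
          obtain ⟨a, ha, h⟩ := gal_rat p x hτ σ
          simp only [wf_gal p l μ σ ha h h]
          exact prod_ns (fun g => X - C (wf p l μ g τ τ))
            (Matrix.nonsing_inv_mul a ha) (Matrix.mul_nonsing_inv a ha)) n
      refine ⟨q, ?_⟩
      rw [← hq, ← hF τ, Polynomial.coeff_map, hτ]
      rfl)
    exact ⟨Q₀, hQ₀⟩
  obtain ⟨F₀, hF₀, -, hm⟩ := Polynomial.lifts_and_natDegree_eq_and_monic hl hFm
  refine ⟨F₀, hm, fun τ => ?_⟩
  rw [← hF τ, ← hF₀, Polynomial.map_map]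
  congr 1
  ext <;> simp

end

end Pool.Agent.P.MP_a60a76_nt.SP
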