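import Pool.Agent.P.MP_a60a76_nt.SP.Defs

namespace Pool.Agent.P.MP_a60a76_nt.SP

open Polynomial UpperHalfPlane PeriodPair
open scoped MatrixGroups UpperHalfPlane Matrix Modular Topology Classical

noncomputable section

/-- Extension of an automorphism of the polynomial ring on a transcendence basis to `ℂ`. -/
theorem fix_ext {R : Type} [Field R] [Algebra R ℂ] {ι : Type} (v : ι → ℂ)
    (hv : IsTranscendenceBasis R v) (τ : MvPolynomial ι R ≃+* MvPolynomial ι R) :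
    ∃ σ : ℂ ≃+* ℂ, ∀ p : MvPolynomial ι R,
      σ (MvPolynomial.aeval v p) = MvPolynomial.aeval v (τ p) := by
  let := IsAlgClosed.isAlgClosure_of_transcendence_basis v hv
  let e : Algebra.adjoin R (Set.range v) ≃+* Algebra.adjoin R (Set.range v) :=
    (hv.1.aevalEquiv.symm.toRingEquiv.trans τ).trans hv.1.aevalEquiv.toRingEquiv
  refine ⟨IsAlgClosure.equivOfEquiv ℂ ℂ e, fun p => ?_⟩
  rw [← hv.1.algebraMap_aevalEquiv p, IsAlgClosure.equivOfEquiv_algebraMap,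
    ← hv.1.algebraMap_aevalEquiv (τ p)]
  congr 1
  simp [e]

/-- A transcendental number can be shifted by any natural number by an automorphism. -/
theorem fix_shift (z : ℂ) (hz : Transcendental ℚ z) (n : ℕ) :
    ∃ σ : ℂ ≃ₐ[ℚ] ℂ, σ z = z + n := by
  have h1 : AlgebraicIndepOn ℚ id ({z} : Set ℂ) := by
    have := (algebraicIndependent_singleton_iff (R := ℚ)
      (x := fun x : ({z} : Set ℂ) => (id (x : ℂ) : ℂ)) ⟨z, rfl⟩).mpr hz
    exact this
  obtain ⟨t, hzt, ht⟩ := exists_isTranscendenceBasis_superset h1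
  let i : t := ⟨z, hzt rfl⟩
  let f : ℚ → MvPolynomial t ℚ →ₐ[ℚ] MvPolynomial t ℚ := fun c =>
    MvPolynomial.aeval (fun j => MvPolynomial.X j + MvPolynomial.C c)
  let τ : MvPolynomial t ℚ ≃ₐ[ℚ] MvPolynomial t ℚ :=
    AlgEquiv.ofAlgHom (f n) (f (-n)) (by ext1 j; simp [f]) (by ext1 j; simp [f])
  obtain ⟨σ, hσ⟩ := fix_ext ((↑) : t → ℂ) ht τ.toRingEquiv
  refine ⟨σ.toRatAlgEquiv, ?_⟩
  have := hσ (MvPolynomial.X i)
  simpa [τ, f, i] using this

theorem fix_alg (z : ℂ) (S : Finset ℂ) (h : ∀ σ : ℂ ≃ₐ[ℚ] ℂ, σ z ∈ S) :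
    IsAlgebraic ℚ z := by
  by_contra hz
  have hz' : Transcendental ℚ z := hz
  have hmem : ∀ n : ℕ, z + n ∈ (S : Set ℂ) := by
    intro n
    obtain ⟨σ, hσ⟩ := fix_shift z hz' n
    rw [← hσ]
    exact h σ
  have hinj : Function.Injective (fun n : ℕ => z + (n : ℂ)) := by
    intro a b hab
    have : (a : ℂ) = b := add_left_cancel hab
    exact_mod_cast this
  exact (Set.infinite_of_injective_forall_mem hinj hmem) S.finite_toSet

/-- The fixed field of the automorphism group of `ℂ` is `ℚ`. -/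
theorem fix_rat (z : ℂ) (h : ∀ σ : ℂ ≃ₐ[ℚ] ℂ, σ z = z) : ∃ q : ℚ, (q : ℂ) = z := by
  have hz : IsAlgebraic ℚ z := fix_alg z {z} (fun σ => by simp [h σ])
  let K := algebraicClosure ℚ ℂ
  have hzK : z ∈ K := mem_algebraicClosure_iff.mpr hz
  have hcl : IsAlgClosure ℚ K := algebraicClosure.isAlgClosure ℚ ℂ
  have hG : IsGalois ℚ K := IsAlgClosure.isGalois ℚ K
  have key : (⟨z, hzK⟩ : K) ∈ Set.range (algebraMap ℚ K) := by
    rw [InfiniteGalois.mem_range_algebraMap_iff_fixed]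
    intro g
    obtain ⟨t, ht⟩ := exists_isTranscendenceBasis K ℂ
    obtain ⟨σ, hσ⟩ := fix_ext ((↑) : t → ℂ) ht (MvPolynomial.mapEquiv t g.toRingEquiv)
    have h1 := hσ (MvPolynomial.C ⟨z, hzK⟩)
    have h2 := h σ.toRatAlgEquiv
    apply Subtype.ext
    simp only [MvPolynomial.mapEquiv_apply, MvPolynomial.map_C, MvPolynomial.aeval_C] at h1
    have h3 : σ z = ((g ⟨z, hzK⟩ : K) : ℂ) := h1
    rw [← h3]
    exact h2
  obtain ⟨q, hq⟩ := key
  refine ⟨q, ?_⟩
  have := congrArg (fun x : K => (x : ℂ)) hq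
  simpa using this

/-- A complex number with finite orbit under the automorphisms of `ℂ` is algebraic. -/
theorem isAlgebraic_of_finite_orbit (z : ℂ) (S : Finset ℂ) (h : ∀ σ : ℂ ≃ₐ[ℚ] ℂ, σ z ∈ S) :
    IsAlgebraic ℚ z :=
  fix_alg z S h

/-- A complex polynomial taking rational values at all rationals is rational. -/
theorem lifts_of_rat1 (Q : ℂ[X]) (h : ∀ x : ℚ, ∃ q : ℚ, Q.eval (x : ℂ) = q) :
    ∃ Q₀ : ℚ[X], Q₀.map (algebraMap ℚ ℂ) = Q := by
  choose r hr using h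
  let s : Finset ℕ := Finset.range (Q.natDegree + 1)
  have hinj : Set.InjOn (fun n : ℕ => (n : ℚ)) s := fun a _ b _ hab => Nat.cast_injective hab
  have hinj' : Set.InjOn (fun n : ℕ => (n : ℂ)) s := fun a _ b _ hab => Nat.cast_injective hab
  refine ⟨Lagrange.interpolate s (fun n : ℕ => (n : ℚ)) (fun n => r n), ?_⟩
  apply Polynomial.eq_of_degrees_lt_of_eval_index_eq s hinj'
  · exact lt_of_le_of_lt Polynomial.degree_map_le (Lagrange.degree_interpolate_lt _ hinj)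
  · have : (s.card : WithBot ℕ) = ((Q.natDegree + 1 : ℕ) : WithBot ℕ) := by simp [s]
    rw [this]
    refine lt_of_le_of_lt Polynomial.degree_le_natDegree ?_
    exact_mod_cast Nat.lt_succ_self _
  · intro i hi
    have h1 : ((i : ℕ) : ℂ) = algebraMap ℚ ℂ (i : ℚ) := by simp
    have h2 := Lagrange.eval_interpolate_at_node (fun n : ℕ => r n) hinj hi
    have h3 := hr (i : ℚ)
    have h4 : (((i : ℕ) : ℚ) : ℂ) = ((i : ℕ) : ℂ) := by simp
    rw [h4] at h3
    rw [h3, h1, Polynomial.eval_map_algebraMap, Polynomial.aeval_algebraMap_apply,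
      Polynomial.coe_aeval_eq_eval, h2]
    simp

theorem lifts_of_rat2 (Q : ℂ[X][X]) (h : ∀ x y : ℚ, ∃ q : ℚ, Q.evalEval (x : ℂ) (y : ℂ) = q) :
    ∃ Q₀ : ℚ[X][X], Q₀.map (mapRingHom (algebraMap ℚ ℂ)) = Q := by
  rw [← Polynomial.mem_lifts, Polynomial.lifts_iff_coeff_lifts]
  intro n
  have h1 : ∀ x : ℚ, ∃ q : ℚ, (Q.coeff n).eval (x : ℂ) = q := by
    intro x
    obtain ⟨P, hP⟩ := lifts_of_rat1 (Q.map (evalRingHom (x : ℂ))) (fun y => by
      obtain ⟨q, hq⟩ := h x y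
      exact ⟨q, by rw [Polynomial.map_evalRingHom_eval]; exact hq⟩)
    refine ⟨P.coeff n, ?_⟩
    have := congrArg (fun p : ℂ[X] => p.coeff n) hP
    simp only [Polynomial.coeff_map, coe_evalRingHom] at this
    rw [← this]
    simp
  obtain ⟨P, hP⟩ := lifts_of_rat1 _ h1
  exact ⟨P, hP⟩

end

end Pool.Agent.P.MP_a60a76_nt.SP
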