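import Mathlib

/-! Analytic facts about the Weierstrass functions: surjectivity, the differential equation,
injectivity modulo the lattice, and the generic addition formula. -/

namespace Pool.Agent.P.MP_a60a76_nt.SP.UnifAux

open PeriodPair Filter
open scoped Topology Classical

noncomputable section

variable (L : PeriodPair)

theorem countable_lattice : (L.lattice : Set ℂ).Countable := by
  have h : (L.lattice : Set ℂ) ⊆ Set.range (fun p : ℤ × ℤ => (p.1 : ℂ) * L.ω₁ + p.2 * L.ω₂) := by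
    intro x hx
    obtain ⟨m, n, h⟩ := PeriodPair.mem_lattice.1 hx
    exact ⟨(m, n), h⟩
  exact (Set.countable_range _).mono h

theorem rank_lt : 1 < Module.rank ℝ ℂ := by
  rw [Complex.rank_real_complex]; norm_num

theorem mem_nhds_compl {z : ℂ} (hz : z ∉ L.lattice) : ∀ᶠ s in 𝓝 z, s ∉ L.lattice :=
  L.isClosed_lattice.isOpen_compl.mem_nhds hz

theorem anP {z : ℂ} (hz : z ∉ L.lattice) : AnalyticAt ℂ L.weierstrassP z :=
  L.analyticOnNhd_weierstrassP z hz

theorem anQ {z : ℂ} (hz : z ∉ L.lattice) : AnalyticAt ℂ L.derivWeierstrassP z :=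
  L.analyticOnNhd_derivWeierstrassP z hz

theorem derP {z : ℂ} (hz : z ∉ L.lattice) :
    HasDerivAt L.weierstrassP (L.derivWeierstrassP z) z := by
  have h := (anP L hz).differentiableAt.hasDerivAt
  rwa [L.deriv_weierstrassP] at h

theorem P_near {z : ℂ} (hz : z ≠ 0) :
    z ^ 2 * L.weierstrassP z = z ^ 2 * L.weierstrassPExcept 0 z + 1 := by
  have h := L.ite_eq_one_sub_sq_mul_weierstrassP 0 L.lattice.zero_mem z
  rw [if_neg hz] at h
  simpa using h

theorem near_zero : ∀ᶠ s in 𝓝 (0 : ℂ), s ≠ 0 → s ∉ L.lattice := by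
  filter_upwards [L.compl_lattice_sdiff_singleton_mem_nhds 0] with s hs h0 hm
  exact hs ⟨hm, h0⟩

/-- `℘` takes every value off the lattice. -/
theorem P_surj (c : ℂ) : ∃ t, t ∉ L.lattice ∧ L.weierstrassP t = c := by
  by_contra hcon
  push Not at hcon
  set g : ℂ → ℂ := fun z => if z ∈ L.lattice then 0 else (L.weierstrassP z - c)⁻¹ with hg
  have hper : ∀ z, ∀ l ∈ L.lattice, g (z + l) = g z := by
    intro z l hl
    have h1 : z + l ∈ L.lattice ↔ z ∈ L.lattice := L.lattice.add_mem_iff_left hl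
    have h2 : L.weierstrassP (z + l) = L.weierstrassP z := L.weierstrassP_add_coe z ⟨l, hl⟩
    simp only [hg, h1, h2]
  have h0 : AnalyticAt ℂ g 0 := by
    have ha := L.analyticAt_weierstrassPExcept 0
    have h1 : AnalyticAt ℂ (fun z : ℂ =>
        z ^ 2 / (z ^ 2 * L.weierstrassPExcept 0 z + 1 - c * z ^ 2)) 0 := by
      refine AnalyticAt.div (by fun_prop) (by fun_prop) (by simp)
    refine h1.congr ?_
    filter_upwards [near_zero L] with z hz
    by_cases hz0 : z = 0
    · simp [hg, hz0]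
    · have hzl := hz hz0
      have h2 := sub_ne_zero.2 (hcon z hzl)
      simp only [hg, if_neg hzl]
      rw [← P_near L hz0]
      field_simp
  have hd : Differentiable ℂ g := by
    intro z
    by_cases hz : z ∈ L.lattice
    · have h1 : g = fun s => g (s - z) := by
        funext s
        rw [← hper (s - z) z hz, sub_add_cancel]
      rw [h1]
      have h2 : DifferentiableAt ℂ g (z - z) := by rw [sub_self]; exact h0.differentiableAt
      exact h2.comp z (f := fun s => s - z) (by fun_prop)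
    · have h1 : DifferentiableAt ℂ (fun s => (L.weierstrassP s - c)⁻¹) z :=
        ((anP L hz).differentiableAt.sub_const c).inv (sub_ne_zero.2 (hcon z hz))
      refine h1.congr_of_eventuallyEq ?_
      filter_upwards [mem_nhds_compl L hz] with s hs
      simp only [hg, if_neg hs]
  have hb := (IsZLattice.isCompact_range_of_periodic L.lattice g hd.continuous hper).isBounded
  have h3 := hd.apply_eq_apply_of_bounded hb (L.ω₁ / 2) 0
  have h4 := L.ω₁_div_two_notMem_lattice
  simp only [hg, if_neg h4, if_pos L.lattice.zero_mem] at h3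
  exact inv_ne_zero (sub_ne_zero.2 (hcon _ h4)) h3

/-- every point of the affine cubic is attained -/
theorem PQ_surj (x y : ℂ) (h : y ^ 2 = 4 * x ^ 3 - L.g₂ * x - L.g₃) :
    ∃ t, t ∉ L.lattice ∧ L.weierstrassP t = x ∧ L.derivWeierstrassP t = y := by
  obtain ⟨t, ht, hx⟩ := P_surj L x
  have h1 := L.derivWeierstrassP_sq t ht
  rw [hx, ← h] at h1
  rcases sq_eq_sq_iff_eq_or_eq_neg.1 h1 with h2 | h2
  · exact ⟨t, ht, hx, h2⟩
  · refine ⟨-t, fun hm => ht (L.lattice.neg_mem_iff.1 hm), ?_, ?_⟩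
    · rw [L.weierstrassP_neg, hx]
    · rw [L.derivWeierstrassP_neg, h2, neg_neg]

theorem derQ {z : ℂ} (hz : z ∉ L.lattice) :
    HasDerivAt L.derivWeierstrassP (6 * L.weierstrassP z ^ 2 - L.g₂ / 2) z := by
  have hU : IsPreconnected (L.lattice : Set ℂ)ᶜ :=
    ((countable_lattice L).isConnected_compl_of_one_lt_rank rank_lt).isPreconnected
  have h1 : AnalyticOnNhd ℂ (fun s => deriv L.derivWeierstrassP s
      - (6 * L.weierstrassP s ^ 2 - L.g₂ / 2)) (L.lattice : Set ℂ)ᶜ := by
    intro s hs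
    have a1 := (anQ L hs).deriv
    have a2 := anP L hs
    fun_prop
  have h2 := AnalyticOnNhd.eq_zero_or_eq_zero_of_mul_eq_zero L.analyticOnNhd_derivWeierstrassP h1
    (fun s hs => by
      have a1 := (anQ L hs).differentiableAt.hasDerivAt
      have a2 := derP L hs
      have a3 : HasDerivAt (fun s => L.derivWeierstrassP s ^ 2)
          (2 * L.derivWeierstrassP s * deriv L.derivWeierstrassP s) s := by
        refine (a1.pow 2).congr_deriv ?_
        simp
      have a4 : HasDerivAt (fun s => 4 * L.weierstrassP s ^ 3 - L.g₂ * L.weierstrassP s - L.g₃)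
          (4 * (3 * L.weierstrassP s ^ 2 * L.derivWeierstrassP s)
            - L.g₂ * L.derivWeierstrassP s) s := by
        have b1 := (((a2.pow 3).const_mul 4).sub (a2.const_mul L.g₂)).sub_const L.g₃
        refine b1.congr_deriv ?_
        simp
      have a5 : (fun s => L.derivWeierstrassP s ^ 2) =ᶠ[𝓝 s]
          fun s => 4 * L.weierstrassP s ^ 3 - L.g₂ * L.weierstrassP s - L.g₃ := by
        filter_upwards [mem_nhds_compl L hs] with r hr using L.derivWeierstrassP_sq r hr
      have a6 := a3.unique (a4.congr_of_eventuallyEq a5)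
      linear_combination (1 / 2 : ℂ) * a6) hU
  rcases h2 with h2 | h2
  · exfalso
    have key : ∀ c : ℂ, 4 * c ^ 3 - L.g₂ * c - L.g₃ = 0 := by
      intro c
      obtain ⟨t, ht, hc⟩ := P_surj L c
      have := L.derivWeierstrassP_sq t ht
      rw [h2 t ht, hc] at this
      rw [← this]; ring
    have k0 := key 0
    have k1 := key 1
    have k2 := key 2
    have : (24 : ℂ) = 0 := by linear_combination k2 - 2 * k1 + k0
    norm_num at this
  · have a1 := (anQ L hz).differentiableAt.hasDerivAt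
    rwa [sub_eq_zero.1 (h2 z hz)] at a1

/-- uniqueness for an analytic second order linear equation -/
theorem ode_zero {D a : ℂ → ℂ} {z : ℂ} (hD : AnalyticAt ℂ D z) (ha : AnalyticAt ℂ a z)
    (h0 : D z = 0) (h1 : deriv D z = 0) (h2 : deriv (deriv D) =ᶠ[𝓝 z] a * D) :
    ∀ᶠ s in 𝓝 z, D s = 0 := by
  have e1 := hD.analyticOrderAt_deriv_add_one
  have e2 := hD.deriv.analyticOrderAt_deriv_add_one
  simp only [h0, h1, sub_zero] at e1 e2
  rw [analyticOrderAt_congr h2, analyticOrderAt_mul ha hD] at e2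
  rw [← analyticOrderAt_eq_top]
  change analyticOrderAt (deriv D) z + 1 = analyticOrderAt D z at e1
  change _ = analyticOrderAt (deriv D) z at e2
  rw [← e2] at e1
  generalize analyticOrderAt D z = n at e1
  generalize analyticOrderAt a z = m at e1
  cases n with
  | top => rfl
  | coe n =>
    cases m with
    | top => simp at e1
    | coe m =>
      exfalso
      have : m + n + 1 + 1 = n := by exact_mod_cast e1
      omega

/-- uniqueness for the differential equation of `℘` -/
theorem ode_unique {X Y : ℂ → ℂ} {z c : ℂ} (hc : z + c ∉ L.lattice) (hX : AnalyticAt ℂ X z)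
    (h1 : ∀ᶠ s in 𝓝 z, HasDerivAt X (Y s) s ∧ HasDerivAt Y (6 * X s ^ 2 - L.g₂ / 2) s)
    (hx : X z = L.weierstrassP (z + c)) (hy : Y z = L.derivWeierstrassP (z + c)) :
    ∀ᶠ s in 𝓝 z, X s = L.weierstrassP (s + c) ∧ Y s = L.derivWeierstrassP (s + c) := by
  have hl : ∀ᶠ s in 𝓝 z, s + c ∉ L.lattice :=
    (continuous_add_const c).continuousAt.eventually (p := fun s => s ∉ L.lattice)
      (mem_nhds_compl L hc)
  have hP : AnalyticAt ℂ (fun s => L.weierstrassP (s + c)) z :=
    (anP L hc).comp_of_eq (f := fun s => s + c) (by fun_prop) rfl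
  set D : ℂ → ℂ := fun s => X s - L.weierstrassP (s + c) with hD
  set E : ℂ → ℂ := fun s => Y s - L.derivWeierstrassP (s + c) with hE
  have d1 : ∀ᶠ s in 𝓝 z, HasDerivAt D (E s) s ∧
      HasDerivAt E (6 * (X s + L.weierstrassP (s + c)) * D s) s := by
    filter_upwards [h1, hl] with s hs hs'
    refine ⟨hs.1.sub ((derP L hs').comp_add_const s c), ?_⟩
    refine (hs.2.sub ((derQ L hs').comp_add_const s c)).congr_deriv ?_
    simp only [hD]; ring
  have d2 : deriv D =ᶠ[𝓝 z] E := by
    filter_upwards [d1] with s hs using hs.1.deriv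
  have d3 : ∀ᶠ s in 𝓝 z, D s = 0 := by
    refine ode_zero (a := fun s => 6 * (X s + L.weierstrassP (s + c))) (hX.sub hP)
      (by fun_prop) (by simp [hD, hx]) (by rw [d2.self_of_nhds]; simp [hE, hy]) ?_
    refine d2.deriv.trans ?_
    filter_upwards [d1] with s hs using hs.2.deriv
  have d4 : deriv D =ᶠ[𝓝 z] deriv (fun _ => (0 : ℂ)) := EventuallyEq.deriv d3
  filter_upwards [d2, d3, d4] with s s2 s3 s4
  refine ⟨sub_eq_zero.1 s3, sub_eq_zero.1 ?_⟩
  rw [deriv_const] at s4
  exact s2.symm.trans s4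

theorem preconn (c : ℂ) : IsPreconnected {s : ℂ | s ∉ L.lattice ∧ s + c ∉ L.lattice} := by
  have h1 : ((L.lattice : Set ℂ) ∪ (fun s => s + c) ⁻¹' L.lattice).Countable :=
    (countable_lattice L).union ((countable_lattice L).preimage (add_left_injective c))
  have h2 := (h1.isConnected_compl_of_one_lt_rank rank_lt).isPreconnected
  have h3 : {s : ℂ | s ∉ L.lattice ∧ s + c ∉ L.lattice}
      = ((L.lattice : Set ℂ) ∪ (fun s => s + c) ⁻¹' L.lattice)ᶜ := by
    ext s; simp
  rwa [h3]

/-- injectivity modulo the lattice -/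
theorem PQ_inj {z w : ℂ} (hz : z ∉ L.lattice) (hw : w ∉ L.lattice)
    (hP : L.weierstrassP z = L.weierstrassP w)
    (hQ : L.derivWeierstrassP z = L.derivWeierstrassP w) : z - w ∈ L.lattice := by
  by_contra hd
  set c := z - w with hc
  have hzc : w + c = z := by rw [hc]; ring
  have h1 := ode_unique L (X := L.weierstrassP) (Y := L.derivWeierstrassP) (z := w) (c := c)
    (by rwa [hzc]) (anP L hw)
    (by filter_upwards [mem_nhds_compl L hw] with s hs using ⟨derP L hs, derQ L hs⟩)
    (by rw [hzc, hP]) (by rw [hzc, hQ])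
  have h2 : AnalyticOnNhd ℂ (fun s => L.weierstrassP s - L.weierstrassP (s + c))
      {s : ℂ | s ∉ L.lattice ∧ s + c ∉ L.lattice} := fun s hs =>
    (anP L hs.1).sub ((anP L hs.2).comp_of_eq (f := fun s => s + c) (by fun_prop) rfl)
  have h3 := h2.eqOn_zero_of_preconnected_of_eventuallyEq_zero (preconn L c) (z₀ := w)
    ⟨hw, by rwa [hzc]⟩ (by filter_upwards [h1] with s hs using sub_eq_zero.2 hs.1)
  have hc0 : (0 : ℂ) + c ∉ L.lattice := by rwa [zero_add]
  have hl : ∀ᶠ s in 𝓝 (0 : ℂ), s + c ∉ L.lattice :=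
    (continuous_add_const c).continuousAt.eventually (p := fun s => s ∉ L.lattice)
      (mem_nhds_compl L hc0)
  have a1 : ContinuousAt (fun s => L.weierstrassP (s + c)) 0 :=
    ((anP L hc0).comp_of_eq (f := fun s => s + c) (by fun_prop) rfl).continuousAt
  have a2 := (L.analyticAt_weierstrassPExcept 0).continuousAt
  have a3 : ContinuousAt (fun s : ℂ => s ^ 2 * L.weierstrassPExcept 0 s + 1
      - s ^ 2 * L.weierstrassP (s + c)) 0 := by fun_prop
  have a4 : ∀ᶠ s in 𝓝[≠] (0 : ℂ), s ^ 2 * L.weierstrassPExcept 0 s + 1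
      - s ^ 2 * L.weierstrassP (s + c) = 0 := by
    filter_upwards [self_mem_nhdsWithin, mem_nhdsWithin_of_mem_nhds hl,
      mem_nhdsWithin_of_mem_nhds (near_zero L)] with s s0 s1 s2
    have b1 : L.weierstrassP s - L.weierstrassP (s + c) = 0 := h3 ⟨s2 s0, s1⟩
    rw [← P_near L s0]
    linear_combination s ^ 2 * b1
  have a5 := tendsto_nhds_unique (a3.tendsto.mono_left nhdsWithin_le_nhds)
    (tendsto_const_nhds.congr' (EventuallyEq.symm a4))
  simp at a5

theorem P_eq {z w : ℂ} (hz : z ∉ L.lattice) (hw : w ∉ L.lattice)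
    (hP : L.weierstrassP z = L.weierstrassP w) : z - w ∈ L.lattice ∨ z + w ∈ L.lattice := by
  have h1 := L.derivWeierstrassP_sq z hz
  rw [hP, ← L.derivWeierstrassP_sq w hw] at h1
  rcases sq_eq_sq_iff_eq_or_eq_neg.1 h1 with h2 | h2
  · exact Or.inl (PQ_inj L hz hw hP h2)
  · right
    have := PQ_inj L (w := -w) hz (fun hm => hw (L.lattice.neg_mem_iff.1 hm))
      (by rw [L.weierstrassP_neg, hP]) (by rw [L.derivWeierstrassP_neg, h2])
    rwa [sub_neg_eq_add] at this

theorem Q_ne {w : ℂ} (hw : w + w ∉ L.lattice) : L.derivWeierstrassP w ≠ 0 := by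
  intro h
  have hw' : w ∉ L.lattice := fun hm => hw (L.lattice.add_mem hm hm)
  have := PQ_inj L (w := -w) hw' (fun hm => hw' (L.lattice.neg_mem_iff.1 hm))
    (by rw [L.weierstrassP_neg]) (by rw [L.derivWeierstrassP_neg, h, neg_zero])
  rw [sub_neg_eq_add] at this
  exact hw this

/-- the generic addition formula -/
theorem add_generic {w : ℂ} (hw2 : w + w ∉ L.lattice) {z : ℂ} (hz : z ∉ L.lattice)
    (hzw : z + w ∉ L.lattice) :
    4 * (L.weierstrassP z - L.weierstrassP w) ^ 2 *
        (L.weierstrassP (z + w) + L.weierstrassP z + L.weierstrassP w)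
      = (L.derivWeierstrassP z - L.derivWeierstrassP w) ^ 2 ∧
    (L.weierstrassP z - L.weierstrassP w) * (L.derivWeierstrassP (z + w) + L.derivWeierstrassP z)
      + (L.derivWeierstrassP z - L.derivWeierstrassP w)
        * (L.weierstrassP (z + w) - L.weierstrassP z) = 0 := by
  have hw : w ∉ L.lattice := fun hm => hw2 (L.lattice.add_mem hm hm)
  have hQw := Q_ne L hw2
  have hcw := L.derivWeierstrassP_sq w hw
  obtain ⟨x2, hx2⟩ : ∃ x2, L.weierstrassP w = x2 := ⟨_, rfl⟩
  obtain ⟨y2, hy2⟩ : ∃ y2, L.derivWeierstrassP w = y2 := ⟨_, rfl⟩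
  rw [hx2, hy2] at hcw ⊢
  rw [hy2] at hQw
  set P := L.weierstrassP with hP
  set Q := L.derivWeierstrassP with hQ
  obtain ⟨z0, hz0, hPz0⟩ := P_surj L (x2 + 1)
  set lam : ℂ → ℂ := fun s => (Q s - y2) / (P s - x2) with hlam
  set X : ℂ → ℂ := fun s => lam s ^ 2 / 4 - P s - x2 with hX
  set Y : ℂ → ℂ := fun s => -Q s - lam s * (X s - P s) with hY
  have hne0 : P z0 - x2 ≠ 0 := by rw [hP, hPz0]; simp
  have hne : ∀ᶠ s in 𝓝 z0, P s - x2 ≠ 0 :=
    ((anP L hz0).continuousAt.sub continuousAt_const).eventually_ne hne0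
  have key : ∀ s, s ∉ L.lattice → P s - x2 ≠ 0 →
      lam s * (P s - x2) = Q s - y2 ∧
      2 * lam s * Q s = 4 * (P s ^ 2 + P s * x2 + x2 ^ 2) - L.g₂ + lam s ^ 2 * (P s - x2) := by
    intro s hs hd
    have k1 : lam s * (P s - x2) = Q s - y2 := div_mul_cancel₀ _ hd
    have k2 : Q s ^ 2 = 4 * P s ^ 3 - L.g₂ * P s - L.g₃ := L.derivWeierstrassP_sq s hs
    refine ⟨k1, mul_right_cancel₀ hd ?_⟩
    linear_combination (Q s + y2 - lam s * (P s - x2)) * k1 + k2 - hcw
  have hder : ∀ᶠ s in 𝓝 z0, HasDerivAt X (Y s) s ∧ HasDerivAt Y (6 * X s ^ 2 - L.g₂ / 2) s := by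
    filter_upwards [hne, mem_nhds_compl L hz0] with s hd hs
    obtain ⟨k1, k2⟩ := key s hs hd
    have dP : HasDerivAt P (Q s) s := derP L hs
    have dQ : HasDerivAt Q (6 * P s ^ 2 - L.g₂ / 2) s := derQ L hs
    have dl : HasDerivAt lam (2 * (P s - X s)) s := by
      refine ((dQ.sub_const y2).div (dP.sub_const x2) hd).congr_deriv ?_
      rw [div_eq_iff (pow_ne_zero 2 hd), ← k1]
      simp only [hX]
      linear_combination (-(P s - x2) / 2) * k2
    have dX : HasDerivAt X (Y s) s := by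
      refine ((((dl.pow 2).div_const 4).sub dP).sub_const x2).congr_deriv ?_
      simp only [hY]
      simp
      ring
    refine ⟨dX, ?_⟩
    refine (dQ.neg.sub (dl.mul (dX.sub dP))).congr_deriv ?_
    simp only [hY, hX, Pi.sub_apply]
    linear_combination k2
  have hcurve : Y z0 ^ 2 = 4 * X z0 ^ 3 - L.g₂ * X z0 - L.g₃ := by
    obtain ⟨k1, k2⟩ := key z0 hz0 hne0
    have k3 : Q z0 ^ 2 = 4 * P z0 ^ 3 - L.g₂ * P z0 - L.g₃ := L.derivWeierstrassP_sq z0 hz0
    simp only [hY, hX]
    linear_combination k3 + (lam z0 ^ 2 / 4 - 2 * P z0 - x2) * k2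
  obtain ⟨t, ht, htx, hty⟩ := PQ_surj L _ _ hcurve
  set c := t - z0 with hc
  have hzc : z0 + c = t := by rw [hc]; ring
  have hXa : AnalyticAt ℂ X z0 := by
    have a1 : AnalyticAt ℂ P z0 := anP L hz0
    have a2 : AnalyticAt ℂ Q z0 := anQ L hz0
    have a3 : AnalyticAt ℂ lam z0 := AnalyticAt.div (by fun_prop) (by fun_prop) hne0
    have a4 : AnalyticAt ℂ (fun s => lam s ^ 2 * (1 / 4) - P s - x2) z0 := by fun_prop
    convert a4 using 1
    funext s
    simp only [hX]
    ring
  have huniq := ode_unique L (X := X) (Y := Y) (z := z0) (c := c) (by rwa [hzc]) hXa hder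
    (by rw [hzc, htx]) (by rw [hzc, hty])
  have hV : z0 ∈ {s : ℂ | s ∉ L.lattice ∧ s + c ∉ L.lattice} := ⟨hz0, by rwa [hzc]⟩
  have F1 : AnalyticOnNhd ℂ (fun s => 4 * (P s - x2) ^ 2 * (P (s + c) + P s + x2) - (Q s - y2) ^ 2)
      {s : ℂ | s ∉ L.lattice ∧ s + c ∉ L.lattice} := by
    intro s hs
    have a1 : AnalyticAt ℂ P s := anP L hs.1
    have a2 : AnalyticAt ℂ Q s := anQ L hs.1
    have a3 : AnalyticAt ℂ (fun s => P (s + c)) s :=
      (anP L hs.2).comp_of_eq (f := fun s => s + c) (by fun_prop) rfl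
    exact ((analyticAt_const.mul ((a1.sub analyticAt_const).pow 2)).mul
      ((a3.add a1).add analyticAt_const)).sub ((a2.sub analyticAt_const).pow 2)
  have F2 : AnalyticOnNhd ℂ (fun s => (P s - x2) * (Q (s + c) + Q s)
      + (Q s - y2) * (P (s + c) - P s)) {s : ℂ | s ∉ L.lattice ∧ s + c ∉ L.lattice} := by
    intro s hs
    have a1 : AnalyticAt ℂ P s := anP L hs.1
    have a2 : AnalyticAt ℂ Q s := anQ L hs.1
    have a3 : AnalyticAt ℂ (fun s => P (s + c)) s :=
      (anP L hs.2).comp_of_eq (f := fun s => s + c) (by fun_prop) rfl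
    have a4 : AnalyticAt ℂ (fun s => Q (s + c)) s :=
      (anQ L hs.2).comp_of_eq (f := fun s => s + c) (by fun_prop) rfl
    exact ((a1.sub analyticAt_const).mul (a4.add a2)).add
      ((a2.sub analyticAt_const).mul (a3.sub a1))
  have G1 := F1.eqOn_zero_of_preconnected_of_eventuallyEq_zero (preconn L c) hV (by
    filter_upwards [huniq, hne, mem_nhds_compl L hz0] with s hs hd hl
    obtain ⟨k1, -⟩ := key s hl hd
    have e1 : P (s + c) = lam s ^ 2 / 4 - P s - x2 := hs.1.symm
    rw [Pi.zero_apply, e1, ← k1]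
    ring)
  have G2 := F2.eqOn_zero_of_preconnected_of_eventuallyEq_zero (preconn L c) hV (by
    filter_upwards [huniq, hne, mem_nhds_compl L hz0] with s hs hd hl
    obtain ⟨k1, -⟩ := key s hl hd
    have e1 : P (s + c) = X s := hs.1.symm
    have e2 : Q (s + c) = -Q s - lam s * (X s - P s) := hs.2.symm
    rw [Pi.zero_apply, e1, e2, ← k1]
    ring)
  have hcl : -w + c ∈ L.lattice := by
    by_contra hn
    have b1 := G1 (show -w ∈ {s : ℂ | s ∉ L.lattice ∧ s + c ∉ L.lattice} from
      ⟨fun hm => hw (L.lattice.neg_mem_iff.1 hm), hn⟩)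
    have b2 : P (-w) = x2 := by rw [hP, L.weierstrassP_neg, ← hP, hx2]
    have b3 : Q (-w) = -y2 := by rw [hQ, L.derivWeierstrassP_neg, ← hQ, hy2]
    simp only [b2, b3, Pi.zero_apply] at b1
    have b4 : (2 * y2) ^ 2 = 0 := by linear_combination (-1 : ℂ) * b1
    exact hQw (by simpa using b4)
  have e0 : z + c = z + w + (-w + c) := by ring
  have e1 : P (z + c) = P (z + w) := by
    rw [e0]; exact L.weierstrassP_add_coe _ ⟨_, hcl⟩
  have e2 : Q (z + c) = Q (z + w) := by
    rw [e0]; exact L.derivWeierstrassP_add_coe _ ⟨_, hcl⟩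
  have hzV : z ∈ {s : ℂ | s ∉ L.lattice ∧ s + c ∉ L.lattice} :=
    ⟨hz, by rw [e0]; exact fun hm => hzw ((L.lattice.add_mem_iff_left hcl).1 hm)⟩
  have b1 := G1 hzV
  have b2 := G2 hzV
  simp only [e1, e2, Pi.zero_apply] at b1 b2
  exact ⟨sub_eq_zero.1 b1, b2⟩

/-- a generic auxiliary point -/
theorem exists_generic (z w : ℂ) :
    ∃ t : ℂ, ∀ a b : ℤ, t + t + (a * z + b * w) ∉ L.lattice := by
  have h1 : (⋃ p : ℤ × ℤ, (fun t : ℂ => t + t + (p.1 * z + p.2 * w)) ⁻¹' L.lattice).Countable := by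
    refine Set.countable_iUnion fun p => (countable_lattice L).preimage ?_
    intro s t h
    have h2 : (2 : ℂ) * s = 2 * t := by
      simp only at h
      linear_combination h
    exact mul_left_cancel₀ two_ne_zero h2
  obtain ⟨t, ht⟩ := (h1.isConnected_compl_of_one_lt_rank rank_lt).nonempty
  exact ⟨t, fun a b hm => ht (Set.mem_iUnion.2 ⟨(a, b), hm⟩)⟩

end

end Pool.Agent.P.MP_a60a76_nt.SP.UnifAux
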