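import Pool.Agent.P.MP_a60a76_nt.SP.JBasic
import Pool.Agent.P.MP_a60a76_nt.SP.UnifAux

namespace Pool.Agent.P.MP_a60a76_nt.SP

open Polynomial UpperHalfPlane PeriodPair
open scoped MatrixGroups UpperHalfPlane Matrix Modular Topology Classical

noncomputable section

theorem unif_equation (W : WeierstrassCurve ℂ) (u g2 g3 : ℂ) (hu : u ≠ 0)
    (h4 : W.c₄ = u ^ 4 * (12 * g2)) (h6 : W.c₆ = u ^ 6 * (216 * g3)) (P Q : ℂ) :
    W.toAffine.Equation (u ^ 2 * P - W.b₂ / 12)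
      (u ^ 3 * Q / 2 - (W.a₁ * (u ^ 2 * P - W.b₂ / 12) + W.a₃) / 2)
      ↔ Q ^ 2 = 4 * P ^ 3 - g2 * P - g3 := by
  rw [WeierstrassCurve.Affine.equation_iff']
  have key : (u ^ 3 * Q / 2 - (W.a₁ * (u ^ 2 * P - W.b₂ / 12) + W.a₃) / 2) ^ 2
      + W.a₁ * (u ^ 2 * P - W.b₂ / 12)
        * (u ^ 3 * Q / 2 - (W.a₁ * (u ^ 2 * P - W.b₂ / 12) + W.a₃) / 2)
      + W.a₃ * (u ^ 3 * Q / 2 - (W.a₁ * (u ^ 2 * P - W.b₂ / 12) + W.a₃) / 2)
      - ((u ^ 2 * P - W.b₂ / 12) ^ 3 + W.a₂ * (u ^ 2 * P - W.b₂ / 12) ^ 2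
        + W.a₄ * (u ^ 2 * P - W.b₂ / 12) + W.a₆)
      = u ^ 6 / 4 * (Q ^ 2 - (4 * P ^ 3 - g2 * P - g3)) := by
    simp only [WeierstrassCurve.c₄, WeierstrassCurve.c₆, WeierstrassCurve.b₂,
      WeierstrassCurve.b₄, WeierstrassCurve.b₆] at h4 h6 ⊢
    linear_combination (u ^ 2 * P / 48) * h4 + (1 / 864 : ℂ) * h6
  change _ = (0 : ℂ) ↔ _
  rw [show W.toAffine.a₁ = W.a₁ from rfl, show W.toAffine.a₂ = W.a₂ from rfl,
    show W.toAffine.a₃ = W.a₃ from rfl, show W.toAffine.a₄ = W.a₄ from rfl,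
    show W.toAffine.a₆ = W.a₆ from rfl, key, mul_eq_zero, sub_eq_zero]
  have : u ^ 6 / 4 ≠ 0 := div_ne_zero (pow_ne_zero 6 hu) (by norm_num)
  simp [this]

theorem unif_some_congr {W : WeierstrassCurve ℂ} {x y x' y' : ℂ} (h : W.toAffine.Nonsingular x y)
    (h' : W.toAffine.Nonsingular x' y') (hx : x = x') (hy : y = y') :
    WeierstrassCurve.Affine.Point.some x y h = WeierstrassCurve.Affine.Point.some x' y' h' := by
  subst hx hy; rfl

/-- The addition theorem: uniformisation of an elliptic curve with the given invariants. -/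
theorem unif_core (L : PeriodPair) (W : WeierstrassCurve ℂ) [W.IsElliptic] (u : ℂ) (hu : u ≠ 0)
    (h4 : W.c₄ = u ^ 4 * (12 * L.g₂)) (h6 : W.c₆ = u ^ 6 * (216 * L.g₃)) :
    ∃ Φ : ℂ →+ W.toAffine.Point, Function.Surjective Φ ∧ (∀ z, Φ z = 0 ↔ z ∈ L.lattice) ∧
      ∀ z, z ∉ L.lattice → ∃ h, Φ z =
        WeierstrassCurve.Affine.Point.some (u ^ 2 * L.weierstrassP z - W.b₂ / 12)
          (u ^ 3 * L.derivWeierstrassP z / 2 -
            (W.a₁ * (u ^ 2 * L.weierstrassP z - W.b₂ / 12) + W.a₃) / 2) h := by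
  have hns : ∀ z, z ∉ L.lattice → W.toAffine.Nonsingular (u ^ 2 * L.weierstrassP z - W.b₂ / 12)
      (u ^ 3 * L.derivWeierstrassP z / 2 -
        (W.a₁ * (u ^ 2 * L.weierstrassP z - W.b₂ / 12) + W.a₃) / 2) := fun z hz =>
    WeierstrassCurve.Affine.equation_iff_nonsingular.1
      ((unif_equation W u _ _ hu h4 h6 _ _).2 (L.derivWeierstrassP_sq z hz))
  set φ : ℂ → W.toAffine.Point := fun z =>
    if hz : z ∈ L.lattice then 0 else WeierstrassCurve.Affine.Point.some _ _ (hns z hz) with hφ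
  have φ0 : ∀ z, z ∈ L.lattice → φ z = 0 := fun z hz => dif_pos hz
  have φ1 : ∀ z (hz : z ∉ L.lattice),
      φ z = WeierstrassCurve.Affine.Point.some _ _ (hns z hz) := fun z hz => dif_neg hz
  have gen : ∀ z t : ℂ, t + t ∉ L.lattice → z - t ∉ L.lattice → z + t ∉ L.lattice →
      φ (z + t) = φ z + φ t := by
    intro z t ht2 hm hp
    have ht : t ∉ L.lattice := fun h => ht2 (L.lattice.add_mem h h)
    by_cases hz : z ∈ L.lattice
    · rw [φ0 z hz, zero_add, φ1 _ hp, φ1 _ ht]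
      have e1 : L.weierstrassP (z + t) = L.weierstrassP t := by
        rw [add_comm]; exact L.weierstrassP_add_coe t ⟨z, hz⟩
      have e2 : L.derivWeierstrassP (z + t) = L.derivWeierstrassP t := by
        rw [add_comm]; exact L.derivWeierstrassP_add_coe t ⟨z, hz⟩
      exact unif_some_congr _ _ (by rw [e1]) (by rw [e1, e2])
    · have hne : L.weierstrassP z - L.weierstrassP t ≠ 0 := fun h =>
        (UnifAux.P_eq L hz ht (sub_eq_zero.1 h)).elim hm hp
      obtain ⟨a1, a2⟩ := UnifAux.add_generic L ht2 hz hp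
      have hx : u ^ 2 * L.weierstrassP z - W.b₂ / 12 ≠ u ^ 2 * L.weierstrassP t - W.b₂ / 12 := by
        intro h
        apply mul_ne_zero (pow_ne_zero 2 hu) hne
        linear_combination h
      rw [φ1 _ hp, φ1 _ hz, φ1 _ ht, WeierstrassCurve.Affine.Point.add_of_X_ne hx]
      obtain ⟨lam, hlam⟩ : ∃ lam, lam * (L.weierstrassP z - L.weierstrassP t)
          = L.derivWeierstrassP z - L.derivWeierstrassP t := ⟨_, div_mul_cancel₀ _ hne⟩
      have b1 : L.weierstrassP (z + t) = lam ^ 2 / 4 - L.weierstrassP z - L.weierstrassP t := by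
        refine mul_left_cancel₀ (pow_ne_zero 2 hne) ?_
        rw [← hlam] at a1
        linear_combination (1 / 4 : ℂ) * a1
      have b2 : L.derivWeierstrassP (z + t) = -L.derivWeierstrassP z
          - lam * (L.weierstrassP (z + t) - L.weierstrassP z) := by
        refine mul_left_cancel₀ hne ?_
        rw [← hlam] at a2
        linear_combination a2
      have b3 : W.toAffine.slope (u ^ 2 * L.weierstrassP z - W.b₂ / 12)
          (u ^ 2 * L.weierstrassP t - W.b₂ / 12)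
          (u ^ 3 * L.derivWeierstrassP z / 2 -
            (W.a₁ * (u ^ 2 * L.weierstrassP z - W.b₂ / 12) + W.a₃) / 2)
          (u ^ 3 * L.derivWeierstrassP t / 2 -
            (W.a₁ * (u ^ 2 * L.weierstrassP t - W.b₂ / 12) + W.a₃) / 2)
          = u * lam / 2 - W.a₁ / 2 := by
        rw [WeierstrassCurve.Affine.slope_of_X_ne hx, div_eq_iff (sub_ne_zero.2 hx)]
        linear_combination (-u ^ 3 / 2) * hlam
      refine unif_some_congr _ _ ?_ ?_
      · rw [b3, b1]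
        simp only [WeierstrassCurve.Affine.addX, WeierstrassCurve.b₂]
        ring
      · rw [b3, b2, b1]
        simp only [WeierstrassCurve.Affine.addY, WeierstrassCurve.Affine.negAddY,
          WeierstrassCurve.Affine.negY, WeierstrassCurve.Affine.addX, WeierstrassCurve.b₂]
        ring
  have hadd : ∀ z w : ℂ, φ (z + w) = φ z + φ w := by
    intro z w
    obtain ⟨t, ht⟩ := UnifAux.exists_generic L z w
    have hp : ∀ (a b : ℤ) (s : ℂ), s + s = t + t + (a * z + b * w) → s ∉ L.lattice := by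
      intro a b s hs hm
      exact ht a b (hs ▸ L.lattice.add_mem hm hm)
    have hn : ∀ (a b : ℤ) (s : ℂ), -(s + s) = t + t + (a * z + b * w) → s ∉ L.lattice := by
      intro a b s hs hm
      exact ht a b (hs ▸ L.lattice.neg_mem (L.lattice.add_mem hm hm))
    have t2 : t + t ∉ L.lattice := by simpa using ht 0 0
    have e1 := gen (z + w) t t2 (hn (-2) (-2) _ (by push_cast; ring))
      (hp 2 2 _ (by push_cast; ring))
    have e2 := gen z (w + t) (by
        have := ht 0 2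
        rwa [show t + t + (((0 : ℤ) : ℂ) * z + ((2 : ℤ) : ℂ) * w) = w + t + (w + t) by
          push_cast; ring] at this)
      (hn (-2) 2 _ (by push_cast; ring)) (hp 2 2 _ (by push_cast; ring))
    have e3 := gen w t t2 (hn 0 (-2) _ (by push_cast; ring)) (hp 0 2 _ (by push_cast; ring))
    rw [← add_assoc z w t, e1, e3, ← add_assoc] at e2
    exact add_right_cancel e2
  refine ⟨AddMonoidHom.mk' φ hadd, ?_, ?_, ?_⟩
  · rintro (_ | ⟨x, y, h⟩)
    · exact ⟨0, φ0 0 L.lattice.zero_mem⟩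
    · have ex : x = u ^ 2 * ((x + W.b₂ / 12) / u ^ 2) - W.b₂ / 12 := by field_simp; ring
      have ey : y = u ^ 3 * ((2 * y + W.a₁ * x + W.a₃) / u ^ 3) / 2 -
          (W.a₁ * (u ^ 2 * ((x + W.b₂ / 12) / u ^ 2) - W.b₂ / 12) + W.a₃) / 2 := by
        rw [← ex]; field_simp; ring
      have he : W.toAffine.Equation (u ^ 2 * ((x + W.b₂ / 12) / u ^ 2) - W.b₂ / 12)
          (u ^ 3 * ((2 * y + W.a₁ * x + W.a₃) / u ^ 3) / 2 -
            (W.a₁ * (u ^ 2 * ((x + W.b₂ / 12) / u ^ 2) - W.b₂ / 12) + W.a₃) / 2) := by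
        rw [← ey, ← ex]; exact h.1
      obtain ⟨t, ht, h1, h2⟩ := UnifAux.PQ_surj L _ _ ((unif_equation W u _ _ hu h4 h6 _ _).1 he)
      refine ⟨t, (φ1 t ht).trans (unif_some_congr _ _ ?_ ?_)⟩
      · rw [h1]; exact ex.symm
      · rw [h1, h2]; exact ey.symm
  · intro z
    refine ⟨fun h => ?_, φ0 z⟩
    by_contra hz
    exact WeierstrassCurve.Affine.Point.some_ne_zero _ ((φ1 z hz).symm.trans h)
  · intro z hz
    exact ⟨hns z hz, φ1 z hz⟩

theorem unif_scale (A B c4 c6 ρ : ℂ) (hρ : ρ ≠ 0) (hAB : A ^ 3 - B ^ 2 ≠ 0)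
    (h4 : c4 ^ 3 = ρ * A ^ 3) (h6 : c6 ^ 2 = ρ * B ^ 2) :
    ∃ u : ℂ, u ≠ 0 ∧ c4 = u ^ 4 * A ∧ c6 = u ^ 6 * B := by
  have z4 : c4 = 0 ↔ A = 0 := by
    rw [← pow_eq_zero_iff (three_ne_zero), h4]; simp [hρ]
  have z6 : c6 = 0 ↔ B = 0 := by
    rw [← pow_eq_zero_iff (two_ne_zero), h6]; simp [hρ]
  by_cases hA : A = 0
  · have hB : B ≠ 0 := by rintro rfl; simp [hA] at hAB
    obtain ⟨u, hu⟩ := IsAlgClosed.exists_pow_nat_eq (c6 / B) (n := 6) (by norm_num)
    refine ⟨u, ?_, by rw [hA, z4.2 hA, mul_zero], by rw [hu, div_mul_cancel₀ _ hB]⟩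
    rintro rfl
    exact div_ne_zero (fun h => hB (z6.1 h)) hB (by rw [← hu]; simp)
  by_cases hB : B = 0
  · obtain ⟨u, hu⟩ := IsAlgClosed.exists_pow_nat_eq (c4 / A) (n := 4) (by norm_num)
    refine ⟨u, ?_, by rw [hu, div_mul_cancel₀ _ hA], by rw [hB, z6.2 hB, mul_zero]⟩
    rintro rfl
    exact div_ne_zero (fun h => hA (z4.1 h)) hA (by rw [← hu]; simp)
  have n4 : c4 ≠ 0 := fun h => hA (z4.1 h)
  have n6 : c6 ≠ 0 := fun h => hB (z6.1 h)
  obtain ⟨u, hu⟩ := IsAlgClosed.exists_pow_nat_eq (c6 * A / (B * c4)) (n := 2) (by norm_num)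
  have e0 : c6 ^ 2 * A ^ 3 = c4 ^ 3 * B ^ 2 := by rw [h4, h6]; ring
  have e4 : c4 = u ^ 4 * A := by
    rw [show u ^ 4 = (u ^ 2) ^ 2 by ring, hu]
    field_simp
    linear_combination (-1 : ℂ) * e0
  refine ⟨u, ?_, e4, ?_⟩
  · rintro rfl
    exact n4 (by rw [e4]; simp)
  · rw [show u ^ 6 * B = u ^ 2 * u ^ 4 * B by ring, hu]
    field_simp
    linear_combination e4

theorem unif (W : WeierstrassCurve ℂ) [W.IsElliptic] (τ : ℍ) (h : J τ = W.j) :
    Nonempty (Unif W τ) := by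
  have hd := disc_ne_zero τ
  have hΔ : W.Δ ≠ 0 := W.coe_Δ' ▸ W.Δ'.ne_zero
  have hj : W.j = W.c₄ ^ 3 / W.Δ := by
    rw [WeierstrassCurve.j, Units.val_inv_eq_inv_val, W.coe_Δ', div_eq_inv_mul]
  rw [hj, J, div_eq_div_iff hd hΔ] at h
  have hrel := W.c_relation
  have hdisc : (12 * (lat τ).g₂) ^ 3 - (216 * (lat τ).g₃) ^ 2 = 1728 * disc τ := by
    rw [disc]; ring
  have h4 : W.c₄ ^ 3 = W.Δ / disc τ * (12 * (lat τ).g₂) ^ 3 := by
    field_simp
    linear_combination (-1 : ℂ) * h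
  obtain ⟨u, hu, e4, e6⟩ := unif_scale (12 * (lat τ).g₂) (216 * (lat τ).g₃) W.c₄ W.c₆
    (W.Δ / disc τ) (div_ne_zero hΔ hd) (by rw [hdisc]; exact mul_ne_zero (by norm_num) hd) h4 (by
      have e1 : (216 * (lat τ).g₃) ^ 2 = (12 * (lat τ).g₂) ^ 3 - 1728 * disc τ := by
        linear_combination (-1 : ℂ) * hdisc
      rw [e1, mul_sub, ← h4]
      field_simp
      linear_combination hrel)
  obtain ⟨Φ, h1, h2, h3⟩ := unif_core (lat τ) W u hu e4 e6
  exact ⟨⟨u, hu, Φ, h1, h2, e4, e6, h3⟩⟩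

/-- `℘` takes the same value exactly at `± z` modulo the lattice. -/
theorem wp_eq_iff (τ : ℍ) {z w : ℂ} (hz : z ∉ (lat τ).lattice) (hw : w ∉ (lat τ).lattice)
    (h : (lat τ).weierstrassP z = (lat τ).weierstrassP w) :
    z - w ∈ (lat τ).lattice ∨ z + w ∈ (lat τ).lattice :=
  UnifAux.P_eq (lat τ) hz hw h

end

end Pool.Agent.P.MP_a60a76_nt.SP
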