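import Pool.Agent.P.MP_a60a76_nt.SP.Scale
import Pool.Agent.P.MP_a60a76_nt.SP.Unif

namespace Pool.Agent.P.MP_a60a76_nt.SP

open Polynomial UpperHalfPlane PeriodPair
open scoped MatrixGroups UpperHalfPlane Matrix Modular Topology Classical

noncomputable section

/-- The regular parts of the two Weierstrass functions agree near the origin. -/
theorem jinj_except_eq (L L' : PeriodPair) (h2 : L.g₂ = L'.g₂) (h3 : L.g₃ = L'.g₃) :
    ∀ᶠ z in 𝓝 (0 : ℂ), L.weierstrassPExcept 0 z - L'.weierstrassPExcept 0 z = 0 := by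
  have aP := L.analyticAt_weierstrassPExcept 0
  have aP' := L'.analyticAt_weierstrassPExcept 0
  have aQ := L.analyticAt_derivWeierstrassPExcept 0
  have aQ' := L'.analyticAt_derivWeierstrassPExcept 0
  have aD : AnalyticAt ℂ (fun z => L.weierstrassPExcept 0 z - L'.weierstrassPExcept 0 z) 0 :=
    aP.sub aP'
  by_contra hne
  obtain ⟨n, g, ag, hg0, hD⟩ := aD.exists_eventuallyEq_pow_smul_nonzero_iff.2 hne
  have ag' : AnalyticAt ℂ (deriv g) 0 := ag.deriv
  have hN := L.compl_lattice_sdiff_singleton_mem_nhds 0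
  have hN' := L'.compl_lattice_sdiff_singleton_mem_nhds 0
  have hQ : ∀ᶠ z in 𝓝 (0 : ℂ), z * (L.derivWeierstrassPExcept 0 z -
      L'.derivWeierstrassPExcept 0 z) = z ^ n * (n * g z + z * deriv g z) := by
    filter_upwards [hD.eventually_nhds, hN, hN', aP.eventually_analyticAt,
      aP'.eventually_analyticAt, ag.eventually_analyticAt] with z hz h1 h1' b b' bg
    have e1 : HasDerivAt (fun z => L.weierstrassPExcept 0 z - L'.weierstrassPExcept 0 z)
        (L.derivWeierstrassPExcept 0 z - L'.derivWeierstrassPExcept 0 z) z := by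
      rw [← L.eqOn_deriv_weierstrassPExcept_derivWeierstrassPExcept 0 h1,
        ← L'.eqOn_deriv_weierstrassPExcept_derivWeierstrassPExcept 0 h1']
      exact b.differentiableAt.hasDerivAt.sub b'.differentiableAt.hasDerivAt
    have e2 : HasDerivAt (fun z : ℂ => z ^ n * g z)
        (((n : ℂ) * z ^ (n - 1)) * g z + z ^ n * deriv g z) z :=
      (hasDerivAt_pow n z).mul bg.differentiableAt.hasDerivAt
    have e3 : (fun z => L.weierstrassPExcept 0 z - L'.weierstrassPExcept 0 z) =ᶠ[𝓝 z]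
        fun z : ℂ => z ^ n * g z := by
      filter_upwards [hz] with w hw
      simpa using hw
    rw [e1.unique (e2.congr_of_eventuallyEq e3)]
    rcases n with _ | n
    · simp
    · simp only [Nat.add_sub_cancel]
      ring
  have key : ∀ᶠ z in 𝓝[≠] (0 : ℂ),
      (n * g z + z * deriv g z) * (z ^ 3 * (L.derivWeierstrassPExcept 0 z +
        L'.derivWeierstrassPExcept 0 z) - 4) =
      g z * (4 * ((z ^ 2 * L.weierstrassPExcept 0 z + 1) ^ 2 +
        (z ^ 2 * L.weierstrassPExcept 0 z + 1) * (z ^ 2 * L'.weierstrassPExcept 0 z + 1) +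
        (z ^ 2 * L'.weierstrassPExcept 0 z + 1) ^ 2) - L.g₂ * z ^ 4) := by
    filter_upwards [self_mem_nhdsWithin, mem_nhdsWithin_of_mem_nhds hN,
      mem_nhdsWithin_of_mem_nhds hN', mem_nhdsWithin_of_mem_nhds hD,
      mem_nhdsWithin_of_mem_nhds hQ] with z hz0 h1 h1' hd hq
    have hz : z ≠ 0 := hz0
    have m1 : z ∉ L.lattice := fun h => h1 ⟨h, hz⟩
    have m2 : z ∉ L'.lattice := fun h => h1' ⟨h, hz⟩
    have r1 := L.derivWeierstrassP_sq z m1
    have r2 := L'.derivWeierstrassP_sq z m2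
    have p1 : L.weierstrassP z = L.weierstrassPExcept 0 z + 1 / z ^ 2 := by
      simpa using (L.weierstrassPExcept_add 0 z).symm
    have p2 : L'.weierstrassP z = L'.weierstrassPExcept 0 z + 1 / z ^ 2 := by
      simpa using (L'.weierstrassPExcept_add 0 z).symm
    have q1 : L.derivWeierstrassP z = L.derivWeierstrassPExcept 0 z - 2 / z ^ 3 := by
      simpa using (L.derivWeierstrassPExcept_sub 0 z).symm
    have q2 : L'.derivWeierstrassP z = L'.derivWeierstrassPExcept 0 z - 2 / z ^ 3 := by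
      simpa using (L'.derivWeierstrassPExcept_sub 0 z).symm
    rw [p1, q1] at r1
    rw [p2, q2, ← h2, ← h3] at r2
    simp only [sub_zero, smul_eq_mul] at hd
    set P := L.weierstrassPExcept 0 z
    set P' := L'.weierstrassPExcept 0 z
    set Q := L.derivWeierstrassPExcept 0 z
    set Q' := L'.derivWeierstrassPExcept 0 z
    have s1 : (z ^ 3 * Q - 2) ^ 2 = 4 * (z ^ 2 * P + 1) ^ 3 - L.g₂ * z ^ 4 * (z ^ 2 * P + 1) -
        L.g₃ * z ^ 6 := by
      field_simp at r1
      linear_combination r1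
    have s2 : (z ^ 3 * Q' - 2) ^ 2 = 4 * (z ^ 2 * P' + 1) ^ 3 -
        L.g₂ * z ^ 4 * (z ^ 2 * P' + 1) - L.g₃ * z ^ 6 := by
      field_simp at r2
      linear_combination r2
    apply mul_left_cancel₀ (mul_ne_zero (pow_ne_zero 2 hz) (pow_ne_zero n hz))
    linear_combination (s1 - s2) - z ^ 2 * (z ^ 3 * (Q + Q') - 4) * hq +
      z ^ 2 * (4 * ((z ^ 2 * P + 1) ^ 2 + (z ^ 2 * P + 1) * (z ^ 2 * P' + 1) +
        (z ^ 2 * P' + 1) ^ 2) - L.g₂ * z ^ 4) * hd
  have cP := aP.continuousAt
  have cP' := aP'.continuousAt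
  have cQ := aQ.continuousAt
  have cQ' := aQ'.continuousAt
  have cg := ag.continuousAt
  have cg' := ag'.continuousAt
  have c1 : ContinuousAt (fun z : ℂ => (n * g z + z * deriv g z) *
      (z ^ 3 * (L.derivWeierstrassPExcept 0 z + L'.derivWeierstrassPExcept 0 z) - 4)) 0 := by
    fun_prop
  have c2 : ContinuousAt (fun z : ℂ => g z * (4 * ((z ^ 2 * L.weierstrassPExcept 0 z + 1) ^ 2 +
        (z ^ 2 * L.weierstrassPExcept 0 z + 1) * (z ^ 2 * L'.weierstrassPExcept 0 z + 1) +
        (z ^ 2 * L'.weierstrassPExcept 0 z + 1) ^ 2) - L.g₂ * z ^ 4)) 0 := by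
    fun_prop
  have e := tendsto_nhds_unique_of_eventuallyEq (c1.tendsto.mono_left nhdsWithin_le_nhds)
    (c2.tendsto.mono_left nhdsWithin_le_nhds) key
  have e' : ((n : ℂ) + 3) * g 0 = 0 := by
    simp at e
    linear_combination (-1 / 4 : ℂ) * e
  have : ((n : ℂ) + 3) ≠ 0 := by exact_mod_cast (by omega : n + 3 ≠ 0)
  exact hg0 ((mul_eq_zero.1 e').resolve_left this)

theorem jinj_countable (L : PeriodPair) : (L.lattice : Set ℂ).Countable := by
  have : Countable L.lattice := L.latticeEquivProd.toEquiv.countable_iff.2 inferInstance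
  exact this.to_set

theorem jinj_le (L L' : PeriodPair) (h2 : L.g₂ = L'.g₂) (h3 : L.g₃ = L'.g₃) :
    L.lattice ≤ L'.lattice := by
  intro l hl
  by_contra hl'
  have hc : ((((L.lattice : Set ℂ) \ {0}) ∪ ((L'.lattice : Set ℂ) \ {0}))).Countable :=
    ((jinj_countable L).mono Set.sdiff_subset).union ((jinj_countable L').mono Set.sdiff_subset)
  have hU : IsPreconnected ((((L.lattice : Set ℂ) \ {0}) ∪ ((L'.lattice : Set ℂ) \ {0})))ᶜ :=
    (hc.isPathConnected_compl_of_one_lt_rank (by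
      rw [Complex.rank_real_complex]; norm_num)).isConnected.isPreconnected
  have aD : AnalyticOnNhd ℂ (fun z => L.weierstrassPExcept 0 z - L'.weierstrassPExcept 0 z)
      ((((L.lattice : Set ℂ) \ {0}) ∪ ((L'.lattice : Set ℂ) \ {0})))ᶜ := fun z hz =>
    (L.analyticOnNhd_weierstrassPExcept 0 z fun h => hz (Or.inl h)).sub
      (L'.analyticOnNhd_weierstrassPExcept 0 z fun h => hz (Or.inr h))
  have hD := aD.eqOn_zero_of_preconnected_of_eventuallyEq_zero hU (z₀ := 0) (by simp)
    (jinj_except_eq L L' h2 h3)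
  have he : L.weierstrassP =ᶠ[𝓝[≠] l] L'.weierstrassP := by
    filter_upwards [self_mem_nhdsWithin,
      mem_nhdsWithin_of_mem_nhds (L.compl_lattice_sdiff_singleton_mem_nhds l),
      mem_nhdsWithin_of_mem_nhds (L'.compl_lattice_sdiff_singleton_mem_nhds l)] with z hz h1 h1'
    have hz' : z ≠ l := hz
    have := hD (x := z) (by
      rintro (h | h)
      · exact h1 ⟨h.1, hz'⟩
      · exact h1' ⟨h.1, hz'⟩)
    have p1 : L.weierstrassP z = L.weierstrassPExcept 0 z + 1 / z ^ 2 := by
      simpa using (L.weierstrassPExcept_add 0 z).symm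
    have p2 : L'.weierstrassP z = L'.weierstrassPExcept 0 z + 1 / z ^ 2 := by
      simpa using (L'.weierstrassPExcept_add 0 z).symm
    rw [p1, p2]
    simp only [Pi.zero_apply] at this
    linear_combination this
  have o1 := L.order_weierstrassP l hl
  have o2 := (L'.analyticOnNhd_weierstrassP l hl').meromorphicOrderAt_nonneg
  rw [← meromorphicOrderAt_congr he, o1] at o2
  exact absurd o2 (by decide)

/-- A lattice is determined by its invariants. -/
theorem lattice_eq_of_g (L L' : PeriodPair) (hΔ : L.g₂ ^ 3 - 27 * L.g₃ ^ 2 ≠ 0)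
    (h2 : L.g₂ = L'.g₂) (h3 : L.g₃ = L'.g₃) :
    L.lattice = L'.lattice := by
  have _ := hΔ
  exact le_antisymm (jinj_le L L' h2 h3) (jinj_le L' L h2.symm h3.symm)

theorem jinj_scale {a b a' b' : ℂ} (h : a ^ 3 - 27 * b ^ 2 ≠ 0) (h' : a' ^ 3 - 27 * b' ^ 2 ≠ 0)
    (e : 1728 * a ^ 3 / (a ^ 3 - 27 * b ^ 2) = 1728 * a' ^ 3 / (a' ^ 3 - 27 * b' ^ 2)) :
    ∃ c : ℂ, c ≠ 0 ∧ (c ^ 4)⁻¹ * a = a' ∧ (c ^ 6)⁻¹ * b = b' := by
  rw [div_eq_div_iff h h'] at e
  have e1 : a ^ 3 * b' ^ 2 = a' ^ 3 * b ^ 2 := by linear_combination (-1 / 46656 : ℂ) * e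
  by_cases ha : a = 0
  · have hb : b ≠ 0 := by
      rintro rfl
      simp [ha] at h
    have ha' : a' = 0 := by
      rw [ha] at e1
      have : a' ^ 3 * b ^ 2 = 0 := by linear_combination -e1
      simpa [hb] using this
    have hb' : b' ≠ 0 := by
      rintro rfl
      simp [ha'] at h'
    obtain ⟨c, hc⟩ := IsAlgClosed.exists_pow_nat_eq (b / b') (n := 6) (by norm_num)
    refine ⟨c, ?_, by simp [ha, ha'], ?_⟩
    · rintro rfl
      exact div_ne_zero hb hb' (by simpa using hc.symm)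
    · rw [hc]
      field_simp
  · have ha' : a' ≠ 0 := by
      rintro rfl
      have : a ^ 3 * b' ^ 2 = 0 := by linear_combination e1
      have hb' : b' = 0 := by simpa [ha] using this
      simp [hb'] at h'
    by_cases hb : b = 0
    · have hb' : b' = 0 := by
        rw [hb] at e1
        have : a ^ 3 * b' ^ 2 = 0 := by linear_combination e1
        simpa [ha] using this
      obtain ⟨c, hc⟩ := IsAlgClosed.exists_pow_nat_eq (a / a') (n := 4) (by norm_num)
      refine ⟨c, ?_, ?_, by simp [hb, hb']⟩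
      · rintro rfl
        exact div_ne_zero ha ha' (by simpa using hc.symm)
      · rw [hc]
        field_simp
    · have hb' : b' ≠ 0 := by
        rintro rfl
        have : a' ^ 3 * b ^ 2 = 0 := by linear_combination -e1
        simp [ha', hb] at this
      obtain ⟨c, hc⟩ := IsAlgClosed.exists_pow_nat_eq (b * a' / (b' * a)) (n := 2) (by norm_num)
      refine ⟨c, ?_, ?_, ?_⟩
      · rintro rfl
        exact div_ne_zero (mul_ne_zero hb ha') (mul_ne_zero hb' ha) (by simpa using hc.symm)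
      · rw [show c ^ 4 = (c ^ 2) ^ 2 by ring, hc]
        field_simp
        linear_combination e1
      · rw [show c ^ 6 = (c ^ 2) ^ 3 by ring, hc]
        field_simp
        linear_combination e1

/-- The period pair `(c τ, c)`. -/
def jinjPair (τ : ℍ) (c : ℂ) (hc : c ≠ 0) : PeriodPair where
  ω₁ := c * τ
  ω₂ := c
  indep := by
    rw [LinearIndependent.pair_iff]
    intro s t h
    have h0 : s • (τ : ℂ) + t • (1 : ℂ) = 0 := by
      apply mul_left_cancel₀ hc
      simp only [Complex.real_smul] at h ⊢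
      linear_combination h
    exact (LinearIndependent.pair_iff.1 (lat τ).indep) s t h0

theorem jinj_indep (τ : ℍ) {m n : ℤ} (h : (m : ℂ) * τ + n = 0) : m = 0 ∧ n = 0 := by
  have h1 := congrArg Complex.im h
  have h2 := congrArg Complex.re h
  simp at h1 h2
  have hs : m = 0 := h1.resolve_right τ.im_pos.ne'
  simp [hs] at h2
  exact ⟨hs, h2⟩

theorem J_inj {τ τ' : ℍ} (h : J τ = J τ') : ∃ γ : SL(2, ℤ), τ' = γ • τ := by
  obtain ⟨c, hc, e2, e3⟩ := jinj_scale (disc_ne_zero τ) (disc_ne_zero τ') h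
  have hm : ∀ z, z ∈ (jinjPair τ c hc).lattice ↔ ∃ m n : ℤ, z = c * (m * τ + n) := by
    intro z
    rw [mem_lattice]
    constructor
    · rintro ⟨m, n, rfl⟩
      exact ⟨m, n, by simp only [jinjPair]; ring⟩
    · rintro ⟨m, n, rfl⟩
      exact ⟨m, n, by simp only [jinjPair]; ring⟩
  obtain ⟨-, -, s2, s3⟩ := wp_scale (lat τ) (jinjPair τ c hc) c hc (fun z => by
    rw [hm, mem_lat]
    simp only [mul_right_inj' hc])
  have hL : (lat τ').lattice = (jinjPair τ c hc).lattice :=
    lattice_eq_of_g _ _ (disc_ne_zero τ') (by rw [s2, e2]) (by rw [s3, e3])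
  obtain ⟨a, b, h1⟩ := (hm τ').1 (hL ▸ (lat τ').ω₁_mem_lattice)
  obtain ⟨p, q, h2⟩ := (hm 1).1 (hL ▸ (lat τ').ω₂_mem_lattice)
  obtain ⟨e, f, h3⟩ := (mem_lat τ' (c * τ)).1 (hL ▸ (jinjPair τ c hc).ω₁_mem_lattice)
  obtain ⟨r, s, h4⟩ := (mem_lat τ' c).1 (hL ▸ (jinjPair τ c hc).ω₂_mem_lattice)
  obtain ⟨u1, u2⟩ := jinj_indep τ (m := e * a + f * p - 1) (n := e * b + f * q) (by
    apply mul_left_cancel₀ hc
    push_cast
    linear_combination -h3 - e * h1 - f * h2)
  obtain ⟨u3, u4⟩ := jinj_indep τ (m := r * a + s * p) (n := r * b + s * q - 1) (by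
    apply mul_left_cancel₀ hc
    push_cast
    linear_combination -h4 - r * h1 - s * h2)
  have hdet : (a * q - b * p) * (e * s - f * r) = 1 := by
    have : (a * q - b * p) * (e * s - f * r) =
      (e * a + f * p) * (r * b + s * q) - (e * b + f * q) * (r * a + s * p) := by ring
    rw [this, u2, show e * a + f * p = 1 by omega, show r * b + s * q = 1 by omega]
    ring
  have hden : (p : ℂ) * τ + q ≠ 0 := by
    intro h0
    rw [h0, mul_zero] at h2
    exact one_ne_zero h2
  have hτ : (τ' : ℂ) * (p * τ + q) = a * τ + b := by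
    linear_combination (p * (τ : ℂ) + q) * h1 - (a * (τ : ℂ) + b) * h2
  have hpos : 0 < a * q - b * p := by
    have hre := congrArg Complex.re hτ
    have him := congrArg Complex.im hτ
    simp at hre him
    have hn : 0 < Complex.normSq ((p : ℂ) * τ + q) := Complex.normSq_pos.2 hden
    rw [Complex.normSq_apply] at hn
    simp at hn
    have t1 := τ.im_pos
    have t2 := τ'.im_pos
    have : τ'.im * ((p * τ.re + q) * (p * τ.re + q) + p * τ.im * (p * τ.im)) =
        ((a * q - b * p : ℤ) : ℝ) * τ.im := by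
      push_cast
      linear_combination (p * τ.re + q) * him - p * τ.im * hre
    have h5 : 0 < ((a * q - b * p : ℤ) : ℝ) * τ.im := this ▸ mul_pos t2 hn
    exact_mod_cast (pos_iff_pos_of_mul_pos h5).2 t1
  have hone : a * q - b * p = 1 := Int.eq_one_of_mul_eq_one_right hpos.le hdet
  let γ : SL(2, ℤ) := ⟨!![a, b; p, q], by simp [Matrix.det_fin_two, hone]⟩
  refine ⟨γ, ?_⟩
  apply UpperHalfPlane.ext
  rw [UpperHalfPlane.coe_specialLinearGroup_apply]
  have g1 : γ 0 0 = a := rfl
  have g2 : γ 0 1 = b := rfl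
  have g3 : γ 1 0 = p := rfl
  have g4 : γ 1 1 = q := rfl
  simp only [g1, g2, g3, g4, algebraMap_int_eq, eq_intCast, Complex.ofReal_intCast]
  rw [eq_div_iff hden, hτ]

end

end Pool.Agent.P.MP_a60a76_nt.SP
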