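import Pool.Agent.P.MP_a60a76_nt.SP.Defs

namespace Pool.Agent.P.MP_a60a76_nt.SP

open Polynomial UpperHalfPlane PeriodPair
open scoped MatrixGroups UpperHalfPlane Matrix Modular Topology Classical

noncomputable section

theorem res_coeff_swap {K : Type*} [CommRing K] (G : K[X][X]) (i j : ℕ) :
    ((Bivariate.swap G).coeff i).coeff j = (G.coeff j).coeff i := by
  induction G using Polynomial.induction_on' with
  | add p q hp hq => simp only [map_add, coeff_add, hp, hq]
  | monomial n a =>
    induction a using Polynomial.induction_on' with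
    | add p q hp hq => simp only [map_add, coeff_add, hp, hq]
    | monomial m r =>
      rw [Bivariate.swap_monomial_monomial]
      simp only [coeff_monomial]
      by_cases h1 : m = i <;> by_cases h2 : n = j <;> simp [h1, h2, coeff_monomial]

theorem res_natDegree_coeff_le_swap {K : Type*} [CommRing K] (G : K[X][X]) (i : ℕ) :
    (G.coeff i).natDegree ≤ (Bivariate.swap G).natDegree := by
  rw [natDegree_le_iff_coeff_eq_zero]
  intro N hN
  rw [← res_coeff_swap, coeff_eq_zero_of_natDegree_lt hN, coeff_zero]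

theorem res_bdeg_iff {K : Type*} [CommRing K] {D : ℕ} {G : K[X][X]} :
    BDeg D G ↔ G.natDegree ≤ D ∧ (Bivariate.swap G).natDegree ≤ D := by
  constructor
  · rintro ⟨h1, h2⟩
    refine ⟨h1, ?_⟩
    rw [natDegree_le_iff_coeff_eq_zero]
    intro N hN
    ext j
    rw [res_coeff_swap, coeff_eq_zero_of_natDegree_lt ((h2 j).trans_lt hN), coeff_zero]
  · rintro ⟨h1, h2⟩
    exact ⟨h1, fun i => (res_natDegree_coeff_le_swap G i).trans h2⟩

theorem BDeg.mono {K : Type*} [CommRing K] {D D' : ℕ} {G : K[X][X]} (h : BDeg D G)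
    (hD : D ≤ D') : BDeg D' G := by
  exact ⟨h.1.trans hD, fun i => (h.2 i).trans hD⟩

theorem BDeg.swap {K : Type*} [CommRing K] {D : ℕ} {G : K[X][X]} (h : BDeg D G) :
    BDeg D (Bivariate.swap G) := by
  rw [res_bdeg_iff] at h ⊢
  rw [Bivariate.swap_swap_apply]
  exact ⟨h.2, h.1⟩

theorem BDeg.of_dvd {K : Type*} [CommRing K] [IsDomain K] {D : ℕ} {P G : K[X][X]} (h : BDeg D G)
    (hG : G ≠ 0) (hP : P ∣ G) : BDeg D P := by
  rw [res_bdeg_iff] at h ⊢
  refine ⟨(natDegree_le_of_dvd hP hG).trans h.1,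
    (natDegree_le_of_dvd (_root_.map_dvd (Bivariate.swap (R := K)) hP) ?_).trans h.2⟩
  exact (map_ne_zero_iff _ (Bivariate.swap (R := K)).injective).2 hG

theorem BDeg.map {K L : Type*} [CommRing K] [CommRing L] (f : K →+* L) {D : ℕ} {G : K[X][X]}
    (h : BDeg D G) : BDeg D (G.map (mapRingHom f)) := by
  refine ⟨natDegree_map_le.trans h.1, fun i => ?_⟩
  rw [coeff_map, coe_mapRingHom]
  exact natDegree_map_le.trans (h.2 i)

theorem exists_bdeg {K : Type*} [CommRing K] (G : K[X][X]) : ∃ D, BDeg D G := by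
  exact ⟨max G.natDegree (Bivariate.swap G).natDegree,
    res_bdeg_iff.2 ⟨le_max_left _ _, le_max_right _ _⟩⟩

/-- Every coefficient has degree at most the degree of the swapped polynomial. -/
theorem natDegree_coeff_le_swap {K : Type*} [CommRing K] (G : K[X][X]) (i : ℕ) :
    (G.coeff i).natDegree ≤ (Bivariate.swap G).natDegree := by
  exact res_natDegree_coeff_le_swap G i

theorem evalEval_swap {K : Type*} [CommRing K] (G : K[X][X]) (x y : K) :
    (Bivariate.swap G).evalEval x y = G.evalEval y x := by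
  have h := Bivariate.aevalAeval_swap (R := K) x y G
  rwa [coe_aevalAeval_eq_evalEval, coe_aevalAeval_eq_evalEval] at h

theorem resultant_ne_zero_of_irreducible {A : Type*} [CommRing A] [IsDomain A]
    [UniqueFactorizationMonoid A] {P Q : A[X]} (hP : Irreducible P) (h1 : 1 ≤ P.natDegree)
    (hPQ : ¬ P ∣ Q) : resultant P Q ≠ 0 := by
  have hprim : P.IsPrimitive := hP.isPrimitive (by omega)
  have hinj : Function.Injective (algebraMap A (FractionRing A)) := IsFractionRing.injective _ _
  have hirr : Irreducible (P.map (algebraMap A (FractionRing A))) :=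
    (hprim.irreducible_iff_irreducible_map_fraction_map (K := FractionRing A)).1 hP
  have hnd : ¬ P.map (algebraMap A (FractionRing A)) ∣ Q.map (algebraMap A (FractionRing A)) :=
    fun h => hPQ (hprim.dvd_of_fraction_map_dvd_fraction_map h)
  have hcop : IsCoprime (P.map (algebraMap A (FractionRing A)))
      (Q.map (algebraMap A (FractionRing A))) := hirr.coprime_iff_not_dvd.2 hnd
  have hne := resultant_ne_zero _ _ hcop
  rw [natDegree_map_eq_of_injective hinj, natDegree_map_eq_of_injective hinj,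
    resultant_map_map] at hne
  intro h0
  exact hne (by rw [h0, map_zero])

/-- The resultant vanishes at common zeros. -/
theorem map_resultant_eq_zero {A L : Type*} [CommRing A] [CommRing L] (f : A →+* L) {P Q : A[X]}
    (h1 : 1 ≤ P.natDegree) {u : L} (hP : (P.map f).eval u = 0) (hQ : (Q.map f).eval u = 0) :
    f (resultant P Q) = 0 := by
  obtain ⟨p, q, -, -, e⟩ := exists_mul_add_mul_eq_C_resultant P Q le_rfl le_rfl
    (Or.inl (by omega))
  have e2 := congrArg (fun T : A[X] => (T.map f).eval u) e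
  simp only [Polynomial.map_add, Polynomial.map_mul, eval_add, eval_mul, hP, hQ, zero_mul,
    add_zero, map_C, eval_C] at e2
  exact e2.symm

theorem res_natDegree_det {K : Type*} [CommRing K] {n : Type*} [Fintype n] [DecidableEq n]
    {D : ℕ} (M : Matrix n n K[X]) (h : ∀ i j, (M i j).natDegree ≤ D) :
    M.det.natDegree ≤ Fintype.card n * D := by
  rw [Matrix.det_apply]
  refine natDegree_sum_le_of_forall_le _ _ fun σ _ => ?_
  refine (natDegree_smul_le _ _).trans ((natDegree_prod_le _ _).trans ?_)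
  refine (Finset.sum_le_card_nsmul _ _ D fun i _ => h _ _).trans ?_
  simp

theorem res_natDegree_resultant {K : Type*} [CommRing K] {D m n : ℕ} {P Q : K[X][X]}
    (hm : m ≤ D) (hn : n ≤ D) (hP : ∀ i, (P.coeff i).natDegree ≤ D)
    (hQ : ∀ i, (Q.coeff i).natDegree ≤ D) : (resultant P Q m n).natDegree ≤ 2 * D ^ 2 := by
  unfold resultant
  refine (res_natDegree_det (D := D) _ fun i j => ?_).trans ?_
  · induction j using Fin.addCases with
    | left j =>
      simp only [sylvester, Matrix.of_apply, Fin.addCases_left]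
      split_ifs
      · exact hQ _
      · simp
    | right j =>
      simp only [sylvester, Matrix.of_apply, Fin.addCases_right]
      split_ifs
      · exact hP _
      · simp
  · rw [Fintype.card_fin]
    nlinarith

theorem natDegree_resultant_le {K : Type*} [CommRing K] {D : ℕ} {P Q : K[X][X]} (hP : BDeg D P)
    (hQ : BDeg D Q) : (resultant P Q).natDegree ≤ 2 * D ^ 2 := by
  exact res_natDegree_resultant hP.1 hQ.1 hP.2 hQ.2

theorem bdeg_resultant {K : Type*} [CommRing K] {D : ℕ} {P Q : K[X][X][X]}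
    (hP : P.natDegree ≤ D) (hP' : ∀ i, BDeg D (P.coeff i))
    (hQ : Q.natDegree ≤ D) (hQ' : ∀ i, BDeg D (Q.coeff i)) :
    BDeg (2 * D ^ 2) (resultant P Q) := by
  rw [res_bdeg_iff]
  refine ⟨res_natDegree_resultant hP hQ (fun i => (hP' i).1) (fun i => (hQ' i).1), ?_⟩
  have e := resultant_map_map P Q P.natDegree Q.natDegree
    ((Bivariate.swap (R := K)).toRingEquiv.toRingHom)
  have e' : Bivariate.swap (resultant P Q) =
      resultant (P.map (Bivariate.swap (R := K)).toRingEquiv.toRingHom)
        (Q.map (Bivariate.swap (R := K)).toRingEquiv.toRingHom) P.natDegree Q.natDegree := e.symm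
  rw [e']
  refine res_natDegree_resultant hP hQ (fun i => ?_) (fun i => ?_)
  · rw [coeff_map]
    exact (res_bdeg_iff.1 (hP' i)).2
  · rw [coeff_map]
    exact (res_bdeg_iff.1 (hQ' i)).2

/-- An irreducible polynomial of positive degree in the outer variable has no vertical line. -/
theorem map_eval_ne_zero {K : Type*} [Field K] {P : K[X][X]} (hP : Irreducible P)
    (h1 : 1 ≤ P.natDegree) (x : K) : P.map (evalRingHom x) ≠ 0 := by
  intro h0
  have hprim : P.IsPrimitive := hP.isPrimitive (by omega)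
  have hd : C (X - C x) ∣ P := by
    rw [C_dvd_iff_dvd_coeff]
    intro i
    rw [dvd_iff_isRoot]
    have h2 := congrArg (fun T : K[X] => T.coeff i) h0
    simpa [coeff_map] using h2
  exact not_isUnit_X_sub_C x (hprim _ hd)

theorem res_irreducible_deg {K : Type*} [Field K] {P : K[X][X]} (hP : Irreducible P) :
    1 ≤ P.natDegree ∨ 1 ≤ (Bivariate.swap P).natDegree := by
  by_contra hcon
  push Not at hcon
  obtain ⟨h1, h2⟩ := hcon
  have h3 : P.natDegree = 0 := by omega
  have h4 : (P.coeff 0).natDegree = 0 := by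
    have := res_natDegree_coeff_le_swap P 0
    omega
  have e1 : P = C (P.coeff 0) := eq_C_of_natDegree_eq_zero h3
  have e2 : P.coeff 0 = C ((P.coeff 0).coeff 0) := eq_C_of_natDegree_eq_zero h4
  have hne : (P.coeff 0).coeff 0 ≠ 0 := by
    intro h0
    apply hP.ne_zero
    rw [e1, e2, h0, map_zero, map_zero]
  apply hP.not_isUnit
  rw [e1, e2]
  exact isUnit_C.2 (isUnit_C.2 hne.isUnit)

theorem res_bezout_aux {K : Type*} [Field K] {D : ℕ} {P Q : K[X][X]} (hP : Irreducible P)
    (h1 : 1 ≤ P.natDegree) (hPQ : ¬ P ∣ Q) (hPD : BDeg D P) (hQD : BDeg D Q) :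
    {a : K × K | P.evalEval a.1 a.2 = 0 ∧ Q.evalEval a.1 a.2 = 0}.Finite ∧
    {a : K × K | P.evalEval a.1 a.2 = 0 ∧ Q.evalEval a.1 a.2 = 0}.ncard ≤ 2 * D ^ 3 := by
  have hR : resultant P Q ≠ 0 := resultant_ne_zero_of_irreducible hP h1 hPQ
  have hRd : (resultant P Q).natDegree ≤ 2 * D ^ 2 := natDegree_resultant_le hPD hQD
  let T : Finset (K × K) := (resultant P Q).roots.toFinset.biUnion fun x =>
    ((P.map (evalRingHom x)).roots.toFinset).image fun y => (x, y)
  have hsub : {a : K × K | P.evalEval a.1 a.2 = 0 ∧ Q.evalEval a.1 a.2 = 0} ⊆ (T : Set (K × K)) := by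
    rintro ⟨x, y⟩ ⟨ha, hb⟩
    rw [← map_evalRingHom_eval] at ha hb
    have hx := map_resultant_eq_zero (evalRingHom x) h1 ha hb
    simp only [T, Finset.coe_biUnion, Set.mem_iUnion, Finset.mem_coe, Finset.mem_image,
      Multiset.mem_toFinset]
    refine ⟨x, (mem_roots hR).2 hx, y, (mem_roots (map_eval_ne_zero hP h1 x)).2 ha, rfl⟩
  refine ⟨T.finite_toSet.subset hsub, (Set.ncard_le_ncard hsub T.finite_toSet).trans ?_⟩
  rw [Set.ncard_coe_finset]
  refine (Finset.card_biUnion_le_card_mul _ _ D fun x _ => ?_).trans ?_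
  · refine Finset.card_image_le.trans ((Multiset.toFinset_card_le _).trans
      ((card_roots' _).trans (natDegree_map_le.trans hPD.1)))
  · have h2 : (resultant P Q).roots.toFinset.card ≤ 2 * D ^ 2 :=
      (Multiset.toFinset_card_le _).trans ((card_roots' _).trans hRd)
    calc _ ≤ 2 * D ^ 2 * D := Nat.mul_le_mul_right _ h2
      _ = 2 * D ^ 3 := by ring

/-- A weak form of Bezout's theorem. -/
theorem bezout {K : Type*} [Field K] {D : ℕ} {P Q : K[X][X]} (hP : Irreducible P)
    (hPQ : ¬ P ∣ Q) (hPD : BDeg D P) (hQD : BDeg D Q) :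
    {a : K × K | P.evalEval a.1 a.2 = 0 ∧ Q.evalEval a.1 a.2 = 0}.Finite ∧
    {a : K × K | P.evalEval a.1 a.2 = 0 ∧ Q.evalEval a.1 a.2 = 0}.ncard ≤ 2 * D ^ 3 := by
  rcases res_irreducible_deg hP with h1 | h1
  · exact res_bezout_aux hP h1 hPQ hPD hQD
  · have hP' : Irreducible (Bivariate.swap P) :=
      (MulEquiv.irreducible_iff (Bivariate.swap (R := K)).toMulEquiv).2 hP
    have hPQ' : ¬ Bivariate.swap P ∣ Bivariate.swap Q := by
      intro h
      have h2 := _root_.map_dvd (Bivariate.swap (R := K)) h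
      rw [Bivariate.swap_swap_apply, Bivariate.swap_swap_apply] at h2
      exact hPQ h2
    obtain ⟨hf, hc⟩ := res_bezout_aux hP' h1 hPQ' hPD.swap hQD.swap
    have e : {a : K × K | P.evalEval a.1 a.2 = 0 ∧ Q.evalEval a.1 a.2 = 0} =
        Prod.swap '' {a : K × K | (Bivariate.swap P).evalEval a.1 a.2 = 0 ∧
          (Bivariate.swap Q).evalEval a.1 a.2 = 0} := by
      ext ⟨x, y⟩
      simp only [Set.mem_ofPred_eq, Set.mem_image, evalEval_swap]
      constructor
      · intro h
        exact ⟨(y, x), h, rfl⟩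
      · rintro ⟨⟨a, b⟩, h, he⟩
        simp only [Prod.swap_prod_mk, Prod.mk.injEq] at he
        obtain ⟨rfl, rfl⟩ := he
        exact h
    rw [e]
    exact ⟨hf.image _, (Set.ncard_image_le hf).trans hc⟩

theorem res_factors_aux {K : Type*} [Field K] (G : K[X][X]) : G ≠ 0 →
    ∃ s : Finset K[X][X], s.card ≤ G.natDegree + (Bivariate.swap G).natDegree ∧
      (∀ P ∈ s, Irreducible P ∧ P ∣ G) ∧
      ∀ x y, G.evalEval x y = 0 → ∃ P ∈ s, P.evalEval x y = 0 := by
  induction G using WfDvdMonoid.induction_on_irreducible with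
  | zero => intro h; exact absurd rfl h
  | unit u hu =>
    intro _
    refine ⟨∅, by simp, by simp, fun x y h => ?_⟩
    have h2 := hu.map (evalEvalRingHom x y)
    rw [coe_evalEvalRingHom, h] at h2
    exact absurd h2 not_isUnit_zero
  | mul a i ha hi ih =>
    intro _
    obtain ⟨s, h1, h2, h3⟩ := ih ha
    have hsa : Bivariate.swap a ≠ 0 := (map_ne_zero_iff _ (Bivariate.swap (R := K)).injective).2 ha
    have hsi : Bivariate.swap i ≠ 0 :=
      (map_ne_zero_iff _ (Bivariate.swap (R := K)).injective).2 hi.ne_zero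
    refine ⟨insert i s, ?_, ?_, ?_⟩
    · rw [map_mul, natDegree_mul hi.ne_zero ha, natDegree_mul hsi hsa]
      have h4 := Finset.card_insert_le i s
      have h5 := res_irreducible_deg hi
      omega
    · intro P hP
      rcases Finset.mem_insert.1 hP with rfl | hP
      · exact ⟨hi, dvd_mul_right _ _⟩
      · exact ⟨(h2 P hP).1, (h2 P hP).2.mul_left _⟩
    · intro x y h
      rw [evalEval_mul] at h
      rcases mul_eq_zero.1 h with h | h
      · exact ⟨i, Finset.mem_insert_self _ _, h⟩
      · obtain ⟨P, hP, h⟩ := h3 x y h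
        exact ⟨P, Finset.mem_insert_of_mem hP, h⟩

/-- A nonzero polynomial of bidegree at most `D` has at most `2 D` irreducible factors. -/
theorem exists_factors {K : Type*} [Field K] {D : ℕ} {G : K[X][X]} (hG : G ≠ 0) (hD : BDeg D G) :
    ∃ s : Finset K[X][X], s.card ≤ 2 * D ∧ (∀ P ∈ s, Irreducible P ∧ P ∣ G) ∧
      ∀ x y, G.evalEval x y = 0 → ∃ P ∈ s, P.evalEval x y = 0 := by
  obtain ⟨s, h1, h2, h3⟩ := res_factors_aux G hG
  rw [res_bdeg_iff] at hD
  exact ⟨s, by omega, h2, h3⟩

end

end Pool.Agent.P.MP_a60a76_nt.SP
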