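import Pool.Agent.P.MP_a60a76_nt.SP.PathLift
import Pool.Agent.P.MP_a60a76_nt.SP.Res
import Pool.Agent.P.MP_a60a76_nt.SP.JInj

namespace Pool.Agent.P.MP_a60a76_nt.SP

open Polynomial UpperHalfPlane PeriodPair
open scoped MatrixGroups UpperHalfPlane Matrix Modular Topology Classical

noncomputable section

/-- Restriction of a curve to the complex line through `a` with direction `b`. -/
def genLine (G : ℂ[X][X]) (a b : ℂ) : ℂ[X][X] := G.map (compRingHom (C b * X + C a))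

theorem genLine_coeff (G : ℂ[X][X]) (a b : ℂ) (i : ℕ) :
    (genLine G a b).coeff i = (G.coeff i).comp (C b * X + C a) := by
  simp [genLine]

theorem genLine_evalEval (G : ℂ[X][X]) (a b t y : ℂ) :
    (genLine G a b).evalEval t y = G.evalEval (a + t * b) y := by
  induction G using Polynomial.induction_on' with
  | add p q hp hq => simp only [genLine, Polynomial.map_add, evalEval_add] at *; rw [hp, hq]
  | monomial n p =>
    rw [← C_mul_X_pow_eq_monomial]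
    simp only [genLine, coe_compRingHom_apply,
      evalEval_mul, evalEval_C, evalEval_pow, evalEval_X, eval_comp, Polynomial.map_mul,
      Polynomial.map_pow, map_C, map_X, eval_add, eval_mul, eval_C, eval_X]
    rw [mul_comm b t, add_comm]

theorem genLine_irreducible {G : ℂ[X][X]} (hG : Irreducible G) (a : ℂ) {b : ℂ} (hb : b ≠ 0) :
    Irreducible (genLine G a b) := by
  let _ : Invertible b := invertibleOfNonzero hb
  have h : genLine G a b = mapEquiv (algEquivCMulXAddC b a).toRingEquiv G := by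
    ext i : 1
    simp [genLine_coeff, comp_eq_aeval]
  rw [h]
  exact (MulEquiv.irreducible_iff _).2 hG

theorem genLine_bdeg {m : ℕ} {G : ℂ[X][X]} (hm : BDeg m G) (a b : ℂ) :
    BDeg m (genLine G a b) := by
  refine ⟨natDegree_map_le.trans hm.1, fun i => ?_⟩
  rw [genLine_coeff]
  refine natDegree_comp_le.trans ?_
  have : (C b * X + C a : ℂ[X]).natDegree ≤ 1 := natDegree_linear_le
  calc _ ≤ m * 1 := Nat.mul_le_mul (hm.2 i) this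
    _ = m := mul_one m

theorem gen_evalEval_conj (P : ℂ[X][X]) (t y : ℂ) :
    (P.map (mapRingHom (starRingEnd ℂ))).evalEval (starRingEnd ℂ t) (starRingEnd ℂ y) =
      starRingEnd ℂ (P.evalEval t y) :=
  map_mapRingHom_evalEval _ P t y

theorem gen_conj_irreducible {P : ℂ[X][X]} (hP : Irreducible P) :
    Irreducible (P.map (mapRingHom (starRingEnd ℂ))) := by
  have h : P.map (mapRingHom (starRingEnd ℂ)) =
      mapEquiv (mapEquiv (starRingAut : ℂ ≃+* ℂ)) P := by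
    ext i j
    simp
  rw [h]
  exact (MulEquiv.irreducible_iff _).2 hP

/-- Along all lines through `a` in directions outside a finite set of real lines, the curve has
boundedly many points with real second coordinate. -/
theorem real_points (m : ℕ) (G : ℂ[X][X]) (hG : Irreducible G) (h1 : 1 ≤ G.natDegree)
    (h2 : ∃ i, 1 ≤ (G.coeff i).natDegree) (hm : BDeg m G) (a : ℂ) :
    ∃ Z : Finset ℂ, (∀ z ∈ Z, z ≠ 0) ∧ ∀ b : ℂ, (∀ z ∈ Z, (b / z).im ≠ 0) → b ≠ 0 →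
      ∃ S : Finset ℝ, S.card ≤ 2 * m ^ 3 ∧
        ∀ (t : ℝ) (y : ℂ), y.im = 0 → G.evalEval (a + t * b) y = 0 → t ∈ S := by
  obtain ⟨i₂, hi₂⟩ := h2
  obtain ⟨i₁, hi₁⟩ : ∃ i, (G.coeff i).eval a ≠ 0 := by
    by_contra h
    push Not at h
    apply map_eval_ne_zero hG h1 a
    ext i
    simp [h i]
  set n := (G.coeff i₂).natDegree with hn
  set T₁ := (G.coeff i₁).eval a with hT₁
  set T₂ := (G.coeff i₂).leadingCoeff with hT₂
  have hT₂0 : T₂ ≠ 0 := by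
    intro h
    rw [hT₂, leadingCoeff_eq_zero] at h
    rw [h] at hn
    simp at hn
    omega
  set u := T₂ / T₁ with hu
  have hu0 : u ≠ 0 := div_ne_zero hT₂0 hi₁
  have hun : (‖u‖ : ℂ) ≠ 0 := by simpa using hu0
  refine ⟨(nthRoots (2 * n) ((‖u‖ : ℂ) ^ 2 / u ^ 2)).toFinset, fun z hz => ?_, fun b hb hb0 => ?_⟩
  · rw [Multiset.mem_toFinset, mem_nthRoots (by omega)] at hz
    rintro rfl
    rw [zero_pow (by omega)] at hz
    exact div_ne_zero (pow_ne_zero _ hun) (pow_ne_zero _ hu0) hz.symm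
  set P := genLine G a b with hP
  set Q := P.map (mapRingHom (starRingEnd ℂ)) with hQ
  have hPi : Irreducible P := genLine_irreducible hG a hb0
  have hPQ : ¬ P ∣ Q := by
    rintro ⟨R, hR⟩
    have hRu : IsUnit R := ((gen_conj_irreducible hPi).isUnit_or_isUnit hR).resolve_left hPi.not_isUnit
    obtain ⟨r, hr, rfl⟩ := Polynomial.isUnit_iff.1 hRu
    obtain ⟨c, hc, rfl⟩ := Polynomial.isUnit_iff.1 hr
    have hc0 : c ≠ 0 := hc.ne_zero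
    have key : ∀ i, (P.coeff i).map (starRingEnd ℂ) = P.coeff i * C c := by
      intro i
      have := congrArg (fun F => F.coeff i) hR
      simpa [hQ] using this
    have e1 : starRingEnd ℂ T₁ = T₁ * c := by
      have := congrArg (fun F => F.coeff 0) (key i₁)
      simp only [coeff_map, coeff_mul_C] at this
      have h0 : (P.coeff i₁).coeff 0 = T₁ := by
        rw [coeff_zero_eq_eval_zero, hP, genLine_coeff, eval_comp]
        simp [hT₁]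
      rwa [h0] at this
    have e2 : starRingEnd ℂ (T₂ * b ^ n) = T₂ * b ^ n * c := by
      have := congrArg leadingCoeff (key i₂)
      rw [leadingCoeff_map, leadingCoeff_mul, leadingCoeff_C] at this
      have h0 : (P.coeff i₂).leadingCoeff = T₂ * b ^ n := by
        rw [hP, genLine_coeff, leadingCoeff_comp (by rw [natDegree_linear hb0]; omega),
          leadingCoeff_linear hb0]
      rwa [h0] at this
    have e3 : starRingEnd ℂ (u * b ^ n) = u * b ^ n := by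
      have : u * b ^ n = T₂ * b ^ n / T₁ := by rw [hu]; ring
      rw [this, map_div₀, e1, e2]
      field_simp
    have hbn : (‖b‖ : ℂ) ≠ 0 := by simpa using hb0
    apply hb (b / ‖b‖)
    · rw [Multiset.mem_toFinset, mem_nthRoots (by omega)]
      have e4 : (u * b ^ n) ^ 2 = (‖u‖ : ℂ) ^ 2 * ((‖b‖ : ℂ) ^ n) ^ 2 := by
        have := Complex.mul_conj' (u * b ^ n)
        rw [e3] at this
        rw [sq, this, norm_mul, norm_pow]
        push_cast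
        ring
      rw [mul_comm 2 n, pow_mul, div_pow, div_pow, div_eq_div_iff (by positivity) (by positivity)]
      linear_combination e4
    · rw [div_div_cancel₀ hb0]
      simp
  obtain ⟨hfin, hcard⟩ := bezout hPi hPQ (genLine_bdeg hm a b)
    ((genLine_bdeg hm a b).map (starRingEnd ℂ))
  refine ⟨hfin.toFinset.image fun w => w.1.re, ?_, fun t y hy ht => ?_⟩
  · refine Finset.card_image_le.trans ?_
    rwa [← Set.ncard_eq_toFinset_card _ hfin]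
  · refine Finset.mem_image.2 ⟨((t : ℂ), y), ?_, by simp⟩
    rw [Set.Finite.mem_toFinset]
    have hPt : P.evalEval (t : ℂ) y = 0 := by rw [hP, genLine_evalEval, ht]
    refine ⟨hPt, ?_⟩
    have := gen_evalEval_conj P t y
    rw [hPt, map_zero, Complex.conj_ofReal, Complex.conj_eq_iff_im.2 hy] at this
    exact this

theorem Bdd.gmono {K K' : ℕ} {γ : SL(2, ℤ) × SL(2, ℤ)} (h : Bdd K γ) (hK : K ≤ K') : Bdd K' γ :=
  fun i j => ⟨(h i j).1.trans (by exact_mod_cast hK), (h i j).2.trans (by exact_mod_cast hK)⟩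

theorem gen_abs_inv_le {K : ℕ} {γ : SL(2, ℤ)} (h : ∀ i j, |γ i j| ≤ K) (i j : Fin 2) :
    |γ⁻¹ i j| ≤ K := by
  rw [Matrix.SpecialLinearGroup.SL2_inv_expl]
  fin_cases i <;> fin_cases j <;> simp [h]

theorem gen_abs_mul_le {K : ℕ} {γ γ' : SL(2, ℤ)} (h : ∀ i j, |γ i j| ≤ K) (h' : ∀ i j, |γ' i j| ≤ K)
    (i j : Fin 2) : |(γ * γ') i j| ≤ (2 * K ^ 2 : ℕ) := by
  have e : (γ * γ') i j = γ i 0 * γ' 0 j + γ i 1 * γ' 1 j := by
    simp [Matrix.mul_apply, Fin.sum_univ_two]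
  rw [e]
  have a1 : |γ i 0 * γ' 0 j| ≤ K * K := by
    rw [abs_mul]; exact mul_le_mul (h _ _) (h' _ _) (abs_nonneg _) (by positivity)
  have a2 : |γ i 1 * γ' 1 j| ≤ K * K := by
    rw [abs_mul]; exact mul_le_mul (h _ _) (h' _ _) (abs_nonneg _) (by positivity)
  refine (abs_add_le _ _).trans ?_
  push_cast
  nlinarith

theorem Bdd.ginv {K : ℕ} {γ : SL(2, ℤ) × SL(2, ℤ)} (h : Bdd K γ) : Bdd K γ⁻¹ :=
  fun i j => ⟨gen_abs_inv_le (fun i j => (h i j).1) i j, gen_abs_inv_le (fun i j => (h i j).2) i j⟩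

theorem Bdd.gmul {K : ℕ} {γ γ' : SL(2, ℤ) × SL(2, ℤ)} (h : Bdd K γ) (h' : Bdd K γ') :
    Bdd (2 * K ^ 2) (γ * γ') :=
  fun i j => ⟨gen_abs_mul_le (fun i j => (h i j).1) (fun i j => (h' i j).1) i j,
    gen_abs_mul_le (fun i j => (h i j).2) (fun i j => (h' i j).2) i j⟩

/-- A path in `E` along which each invariant is real at most `n` times. -/
def GoodPath (n : ℕ) (E : Set (ℍ × ℍ)) (ξ η : ℍ × ℍ) : Prop :=
  ∃ σ : ℝ → ℍ × ℍ, ContinuousOn σ (Set.Icc 0 1) ∧ σ 0 = ξ ∧ σ 1 = η ∧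
    (∀ t ∈ Set.Icc (0 : ℝ) 1, σ t ∈ E) ∧
    (∃ S : Finset ℝ, S.card ≤ n ∧ ∀ t ∈ Set.Icc (0 : ℝ) 1, (J (σ t).1).im = 0 → t ∈ S) ∧
    (∃ S : Finset ℝ, S.card ≤ n ∧ ∀ t ∈ Set.Icc (0 : ℝ) 1, (J (σ t).2).im = 0 → t ∈ S)

theorem GoodPath.joinedIn {n : ℕ} {E : Set (ℍ × ℍ)} {ξ η : ℍ × ℍ} (h : GoodPath n E ξ η) :
    JoinedIn E ξ η := by
  obtain ⟨σ, hc, h0, h1, hE, -, -⟩ := h
  refine JoinedIn.ofLine hc h0 h1 ?_
  rintro _ ⟨t, ht, rfl⟩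
  exact hE t ht

theorem GoodPath.symm {n : ℕ} {E : Set (ℍ × ℍ)} {ξ η : ℍ × ℍ} (h : GoodPath n E ξ η) :
    GoodPath n E η ξ := by
  obtain ⟨σ, hc, h0, h1, hE, ⟨S, hS, hS'⟩, ⟨T, hT, hT'⟩⟩ := h
  have hm : ∀ t ∈ Set.Icc (0 : ℝ) 1, 1 - t ∈ Set.Icc (0 : ℝ) 1 := fun t ht =>
    ⟨by linarith [ht.2], by linarith [ht.1]⟩
  refine ⟨fun t => σ (1 - t), hc.comp (by fun_prop) hm, by simpa using h1, by simpa using h0,
    fun t ht => hE _ (hm t ht), ⟨S.image (1 - ·), Finset.card_image_le.trans hS, fun t ht h => ?_⟩,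
    ⟨T.image (1 - ·), Finset.card_image_le.trans hT, fun t ht h => ?_⟩⟩
  · exact Finset.mem_image.2 ⟨1 - t, hS' _ (hm t ht) h, by ring⟩
  · exact Finset.mem_image.2 ⟨1 - t, hT' _ (hm t ht) h, by ring⟩

theorem goodPath_bdd (n : ℕ) : ∃ K : ℕ, ∀ (E : Set (ℍ × ℍ)) (ξ η : ℍ × ℍ), GoodPath n E ξ η →
    ∀ δ δ' : SL(2, ℤ) × SL(2, ℤ), δ.1⁻¹ • ξ.1 ∈ 𝒟 → δ.2⁻¹ • ξ.2 ∈ 𝒟 → δ'.1⁻¹ • η.1 ∈ 𝒟 →
      δ'.2⁻¹ • η.2 ∈ 𝒟 → Bdd K (δ⁻¹ * δ') := by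
  obtain ⟨K, hK⟩ := crossing n
  refine ⟨K, ?_⟩
  rintro E ξ η ⟨σ, hc, rfl, rfl, -, ⟨S, hS, hS'⟩, ⟨T, hT, hT'⟩⟩ δ δ' h1 h2 h3 h4 i j
  exact ⟨hK (fun t => (σ t).1) hc.fst S hS hS' δ.1 δ'.1 h1 h3 i j,
    hK (fun t => (σ t).2) hc.snd T hT hT' δ.2 δ'.2 h2 h4 i j⟩

theorem gen_exists_fd_pair (ξ : ℍ × ℍ) :
    ∃ δ : SL(2, ℤ) × SL(2, ℤ), δ.1⁻¹ • ξ.1 ∈ 𝒟 ∧ δ.2⁻¹ • ξ.2 ∈ 𝒟 := by
  obtain ⟨g, hg⟩ := ModularGroup.exists_smul_mem_fd ξ.1
  obtain ⟨g', hg'⟩ := ModularGroup.exists_smul_mem_fd ξ.2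
  exact ⟨(g⁻¹, g'⁻¹), by simpa using hg, by simpa using hg'⟩

/-- The complement of finitely many real lines through a point is open and dense. -/
theorem gen_dense_lines (a : ℂ) (Z : Finset ℂ) (hZ : ∀ w ∈ Z, w ≠ 0) :
    IsOpen {z : ℂ | ∀ w ∈ Z, ((z - a) / w).im ≠ 0} ∧
      Dense {z : ℂ | ∀ w ∈ Z, ((z - a) / w).im ≠ 0} := by
  have e : {z : ℂ | ∀ w ∈ Z, ((z - a) / w).im ≠ 0} =
      ⋂ w ∈ (Z : Set ℂ), (fun z : ℂ => ((z - a) / w).im) ⁻¹' {0}ᶜ := by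
    ext z; simp
  have ho : ∀ w ∈ (Z : Set ℂ), IsOpen ((fun z : ℂ => ((z - a) / w).im) ⁻¹' {0}ᶜ) := fun w _ =>
    isOpen_compl_singleton.preimage (by fun_prop)
  rw [e]
  refine ⟨Z.finite_toSet.isOpen_biInter ho,
    dense_biInter_of_isOpen ho Z.countable_toSet fun w hw => ?_⟩
  refine (dense_compl_singleton (0 : ℝ)).preimage ?_
  exact Complex.isOpenMap_im.comp
    ((Homeomorph.mulRight₀ w⁻¹ (inv_ne_zero (hZ w hw))).isOpenMap.comp (isOpenMap_sub_right a))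

/-- A lift of an admissible segment is a good path. -/
theorem goodPath_of_lift {m : ℕ} {G : ℂ[X][X]} {B : Finset ℂ} {a b : ℂ} (hb : b.im ≠ 0)
    (hS : ∃ S : Finset ℝ, S.card ≤ 2 * m ^ 3 ∧
        ∀ (t : ℝ) (y : ℂ), y.im = 0 → G.evalEval (a + t * b) y = 0 → t ∈ S)
    {σ : ℝ → ℍ × ℍ} (hc : ContinuousOn σ (Set.Icc 0 1))
    (hσ : ∀ t ∈ Set.Icc (0 : ℝ) 1, σ t ∈ EB G B ∧ J (σ t).1 = a + t * b) :
    GoodPath (2 * m ^ 3 + 1) (EB G B) (σ 0) (σ 1) := by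
  obtain ⟨S, hS, hS'⟩ := hS
  refine ⟨σ, hc, rfl, rfl, fun t ht => (hσ t ht).1, ⟨{-a.im / b.im}, by simp, fun t ht h => ?_⟩,
    ⟨S, by omega, fun t ht h => hS' t _ h ?_⟩⟩
  · rw [(hσ t ht).2] at h
    simp only [Complex.add_im, Complex.mul_im, Complex.ofReal_re, Complex.ofReal_im, zero_mul,
      add_zero] at h
    rw [Finset.mem_singleton, eq_div_iff hb]
    linarith
  · rw [← (hσ t ht).2]
    exact (hσ t ht).1.2

/-- Admissible end points of segments starting at a point outside `B` form a dense open set. -/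
theorem gen_exists_adm {m : ℕ} {G : ℂ[X][X]} (hG : Irreducible G) (h1 : 1 ≤ G.natDegree)
    (h2 : ∃ i, 1 ≤ (G.coeff i).natDegree) (hm : BDeg m G) (B : Finset ℂ) {a : ℂ} (ha : a ∉ B) :
    ∃ U : Set ℂ, IsOpen U ∧ Dense U ∧ ∀ z ∈ U, (z - a).im ≠ 0 ∧
      (∀ t : ℝ, a + t * (z - a) ∉ B) ∧ ∃ S : Finset ℝ, S.card ≤ 2 * m ^ 3 ∧
        ∀ (t : ℝ) (y : ℂ), y.im = 0 → G.evalEval (a + t * (z - a)) y = 0 → t ∈ S := by
  obtain ⟨Z, hZ, hZ'⟩ := real_points m G hG h1 h2 hm a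
  have hne : ∀ w ∈ insert 1 (Z ∪ B.image (· - a)), w ≠ 0 := by
    intro w hw
    simp only [Finset.mem_insert, Finset.mem_union, Finset.mem_image] at hw
    rcases hw with rfl | hw | ⟨β, hβ, rfl⟩
    · exact one_ne_zero
    · exact hZ w hw
    · intro h
      rw [sub_eq_zero] at h
      exact ha (h ▸ hβ)
  obtain ⟨ho, hd⟩ := gen_dense_lines a _ hne
  refine ⟨_, ho, hd, fun z hz => ?_⟩
  have him : (z - a).im ≠ 0 := by simpa using hz 1 (Finset.mem_insert_self _ _)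
  have hz0 : z - a ≠ 0 := fun h => him (by rw [h]; simp)
  refine ⟨him, fun t ht => ?_, hZ' _ (fun w hw => hz w (by simp [hw])) hz0⟩
  apply hz (a + t * (z - a) - a)
  · simp only [Finset.mem_insert, Finset.mem_union, Finset.mem_image]
    exact Or.inr (Or.inr ⟨_, ht, rfl⟩)
  · rw [add_sub_cancel_left, mul_comm, div_mul_cancel_left₀ hz0, ← Complex.ofReal_inv]
    exact Complex.ofReal_im _

/-- Nearby points of the curve have good paths to a common point of the base fibre. -/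
theorem gen_common_label {m : ℕ} {G : ℂ[X][X]} (hG : Irreducible G) (h1 : 1 ≤ G.natDegree)
    (h2 : ∃ i, 1 ≤ (G.coeff i).natDegree) (hm : BDeg m G) {B : Finset ℂ} (hS : Sec (EB G B) B)
    {x₀ : ℂ} (hx₀ : x₀ ∉ B) {ξ : ℍ × ℍ} (hξ : ξ ∈ EB G B) :
    ∀ᶠ ξ' in 𝓝[EB G B] ξ, ∃ η ζ : ℍ × ℍ, GoodPath (2 * m ^ 3 + 1) (EB G B) ξ η ∧
      GoodPath (2 * m ^ 3 + 1) (EB G B) ξ' η ∧ GoodPath (2 * m ^ 3 + 1) (EB G B) η ζ ∧
      J ζ.1 = x₀ := by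
  obtain ⟨r, hr, hball, hsec⟩ := hS _ hξ.1
  obtain ⟨s, hs1, hs2, hsE, hsξ, hev⟩ := hsec ξ hξ (Metric.mem_ball_self hr)
  have hsc := continuousOn_of_coe hs1 hs2
  have hev2 : ∀ᶠ ξ' in 𝓝[EB G B] ξ, J ξ'.1 ∈ Metric.ball (J ξ.1) r := by
    apply eventually_nhdsWithin_of_eventually_nhds
    have : Continuous fun ξ' : ℍ × ℍ => J ξ'.1 := J_continuous.comp continuous_fst
    exact this.continuousAt.eventually (Metric.ball_mem_nhds _ hr)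
  filter_upwards [hev, hev2] with ξ' hξ' hξ'b
  obtain ⟨U₀, ho₀, hd₀, hU₀⟩ := gen_exists_adm hG h1 h2 hm B hx₀
  obtain ⟨U₁, ho₁, hd₁, hU₁⟩ := gen_exists_adm hG h1 h2 hm B hξ.1
  obtain ⟨U₂, ho₂, hd₂, hU₂⟩ := gen_exists_adm hG h1 h2 hm B (hball _ hξ'b)
  obtain ⟨z, hzb, ⟨hz₀, hz₁⟩, hz₂⟩ :=
    ((hd₀.inter_of_isOpen_left hd₁ ho₀).inter_of_isOpen_right hd₂ ho₂).inter_open_nonempty _
      Metric.isOpen_ball ⟨_, Metric.mem_ball_self hr⟩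
  have seg : ∀ a ∈ Metric.ball (J ξ.1) r, (z - a).im ≠ 0 →
      (∃ S : Finset ℝ, S.card ≤ 2 * m ^ 3 ∧
        ∀ (t : ℝ) (y : ℂ), y.im = 0 → G.evalEval (a + t * (z - a)) y = 0 → t ∈ S) →
      GoodPath (2 * m ^ 3 + 1) (EB G B) (s a) (s z) := by
    intro a ha him hS'
    have hmem : ∀ t ∈ Set.Icc (0 : ℝ) 1, a + t * (z - a) ∈ Metric.ball (J ξ.1) r := by
      intro t ht
      have := (convex_ball (J ξ.1) r).add_smul_sub_mem ha hzb ht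
      simpa using this
    have := goodPath_of_lift (B := B) him hS' (σ := fun t : ℝ => s (a + t * (z - a)))
      (hsc.comp (by fun_prop) hmem) (fun t ht => hsE _ (hmem t ht))
    simpa using this
  obtain ⟨him, hB, hS₀⟩ := hU₀ z hz₀
  obtain ⟨σ, hσc, hσ0, hσ⟩ := hS.lift (fun t : ℝ => x₀ + ((1 - t : ℝ) : ℂ) * (z - x₀))
    (by fun_prop) (fun t _ => hB _) (s z) (hsE z hzb).1 (by simp [(hsE z hzb).2])
  have hm' : ∀ t ∈ Set.Icc (0 : ℝ) 1, 1 - t ∈ Set.Icc (0 : ℝ) 1 := fun t ht =>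
    ⟨by linarith [ht.2], by linarith [ht.1]⟩
  have hback := goodPath_of_lift (B := B) him hS₀ (σ := fun t : ℝ => σ (1 - t))
    (hσc.comp (by fun_prop) hm') (fun t ht => by simpa using hσ _ (hm' t ht))
  refine ⟨s z, σ 1, ?_, ?_, ?_, ?_⟩
  · rw [← hsξ]
    exact seg _ (Metric.mem_ball_self hr) (hU₁ z hz₁).1 (hU₁ z hz₁).2.2
  · rw [← hξ']
    exact seg _ hξ'b (hU₂ z hz₂).1 (hU₂ z hz₂).2.2
  · simpa [hσ0] using hback.symm
  · simpa using (hσ 1 (by simp)).2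

/-- Points of the fibre in one path component are connected by bounded moves. -/
theorem gen (m : ℕ) : ∃ K : ℕ, ∀ (G : ℂ[X][X]), Irreducible G → 1 ≤ G.natDegree →
    (∃ i, 1 ≤ (G.coeff i).natDegree) → BDeg m G → ∀ B : Finset ℂ, Sec (EB G B) B →
    ∀ τ₀ ∈ 𝒟, J τ₀ ∉ B → (J τ₀).im ≠ 0 → ∀ c : ℂ → ℍ, (∀ y, c y ∈ 𝒟 ∧ J (c y) = y) →
    ∀ y₀ : ℂ, ∀ a : (SL(2, ℤ) × SL(2, ℤ)) × ℂ,
      JoinedIn (EB G B) (τ₀, c y₀) (a.1.1 • τ₀, a.1.2 • c a.2) →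
      Relation.ReflTransGen (fun a b : (SL(2, ℤ) × SL(2, ℤ)) × ℂ => Bdd K (a.1⁻¹ * b.1) ∧
        JoinedIn (EB G B) (τ₀, c y₀) (b.1.1 • τ₀, b.1.2 • c b.2)) (1, y₀) a := by
  obtain ⟨K₀, hK₀⟩ := goodPath_bdd (2 * m ^ 3 + 1)
  refine ⟨2 * K₀ ^ 2 + 2 * (2 * K₀ ^ 2) ^ 2, ?_⟩
  intro G hG h1 h2 hm B hS τ₀ hτ₀ hB _ c hc y₀ a ha
  set n := 2 * m ^ 3 + 1 with hn
  set E := EB G B with hE
  set K := 2 * K₀ ^ 2 + 2 * (2 * K₀ ^ 2) ^ 2 with hK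
  let pt : (SL(2, ℤ) × SL(2, ℤ)) × ℂ → ℍ × ℍ := fun b => (b.1.1 • τ₀, b.1.2 • c b.2)
  let R : ℍ × ℍ → (SL(2, ℤ) × SL(2, ℤ)) × ℂ → Prop := fun ξ b =>
    ∃ η, GoodPath n E ξ η ∧ GoodPath n E η (pt b)
  let Reach : (SL(2, ℤ) × SL(2, ℤ)) × ℂ → Prop := fun b =>
    Relation.ReflTransGen (fun a b : (SL(2, ℤ) × SL(2, ℤ)) × ℂ => Bdd K (a.1⁻¹ * b.1) ∧
        JoinedIn E (τ₀, c y₀) (pt b)) (1, y₀) b
  have hpt : ∀ b, b.1.1⁻¹ • (pt b).1 ∈ 𝒟 ∧ b.1.2⁻¹ • (pt b).2 ∈ 𝒟 := fun b =>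
    ⟨by simpa [pt] using hτ₀, by simpa [pt] using (hc b.2).1⟩
  have hRj : ∀ ξ b, R ξ b → JoinedIn E ξ (pt b) := fun ξ b ⟨η, p1, p2⟩ =>
    p1.joinedIn.trans p2.joinedIn
  have hR1 : ∀ ξ b, R ξ b → ∀ δ : SL(2, ℤ) × SL(2, ℤ), δ.1⁻¹ • ξ.1 ∈ 𝒟 → δ.2⁻¹ • ξ.2 ∈ 𝒟 →
      Bdd (2 * K₀ ^ 2) (δ⁻¹ * b.1) := by
    rintro ξ b ⟨η, p1, p2⟩ δ d1 d2
    obtain ⟨ε, e1, e2⟩ := gen_exists_fd_pair η
    have := (hK₀ E ξ η p1 δ ε d1 d2 e1 e2).gmul (hK₀ E η _ p2 ε b.1 e1 e2 (hpt b).1 (hpt b).2)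
    rwa [mul_assoc, mul_inv_cancel_left] at this
  have hR2 : ∀ ξ b b', R ξ b → R ξ b' → Bdd K (b.1⁻¹ * b'.1) := by
    intro ξ b b' r1 r2
    obtain ⟨δ, d1, d2⟩ := gen_exists_fd_pair ξ
    have := (hR1 ξ b r1 δ d1 d2).ginv.gmul (hR1 ξ b' r2 δ d1 d2)
    rw [mul_inv_rev, inv_inv, mul_assoc, mul_inv_cancel_left] at this
    exact this.gmono (Nat.le_add_left _ _)
  have hcommon : ∀ ξ ∈ E, ∀ᶠ ξ' in 𝓝[E] ξ, ∃ b, R ξ b ∧ R ξ' b := by
    intro ξ hξ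
    filter_upwards [gen_common_label hG h1 h2 hm hS hB hξ] with ξ' h
    obtain ⟨η, ζ, p1, p2, p3, hζ⟩ := h
    obtain ⟨γ, hγ⟩ := J_inj hζ.symm
    obtain ⟨γ', hγ'⟩ := J_inj (hc (J ζ.2)).2
    have e : pt ((γ, γ'), J ζ.2) = ζ := Prod.ext hγ.symm hγ'.symm
    have p4 : GoodPath n E η (pt ((γ, γ'), J ζ.2)) := by rw [e]; exact p3
    exact ⟨((γ, γ'), J ζ.2), ⟨η, p1, p4⟩, ⟨η, p2, p4⟩⟩
  let Q : ℍ × ℍ → Prop := fun ξ => ∃ b, R ξ b ∧ Reach b ∧ JoinedIn E (τ₀, c y₀) (pt b)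
  have hQ : ∀ ξ ξ' b, R ξ b → R ξ' b → Q ξ → Q ξ' := by
    rintro ξ ξ' b r r' ⟨b₀, r₀, h₀, j₀⟩
    have j : JoinedIn E (τ₀, c y₀) (pt b) := (j₀.trans (hRj _ _ r₀).symm).trans (hRj _ _ r)
    exact ⟨b, r', h₀.tail ⟨hR2 ξ b₀ b r₀ r, j⟩, j⟩
  have hbase : Q (τ₀, c y₀) := by
    obtain ⟨b, r, -⟩ := (hcommon _ ha.source_mem).self_of_nhdsWithin ha.source_mem
    refine ⟨b, r, Relation.ReflTransGen.single ⟨?_, hRj _ _ r⟩, hRj _ _ r⟩
    exact (hR1 _ b r 1 (by simpa using hτ₀) (by simpa using (hc y₀).1)).gmono (Nat.le_add_right _ _)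
  have hend : Q (pt a) := by
    refine joinedIn_induction (E := E) (fun ξ hξ => ?_) ha hbase
    filter_upwards [hcommon ξ hξ] with ξ' h
    obtain ⟨b, r, r'⟩ := h
    exact ⟨hQ _ _ b r' r, hQ _ _ b r r'⟩
  obtain ⟨b, r, hb, -⟩ := hend
  refine hb.tail ⟨?_, ha⟩
  have := (hR1 _ b r a.1 (hpt a).1 (hpt a).2).ginv
  rw [mul_inv_rev, inv_inv] at this
  exact this.gmono (Nat.le_add_right _ _)

end

end Pool.Agent.P.MP_a60a76_nt.SP
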