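import Pool.Agent.P.MP_a60a76_nt.SP.PathLift
import Pool.Agent.P.MP_a60a76_nt.SP.JInj

namespace Pool.Agent.P.MP_a60a76_nt.SP

open Polynomial UpperHalfPlane PeriodPair
open scoped MatrixGroups UpperHalfPlane Matrix Modular Topology Classical

noncomputable section

theorem graph_preconn (B : Finset ℂ) : IsPreconnected {τ : ℍ | J τ ∉ B} := by
  let e : ℂ → ℍ := fun w => ⟨⟨w.re, Real.exp w.im⟩, Real.exp_pos _⟩
  have he : Continuous e := by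
    rw [isOpenEmbedding_coe.isEmbedding.continuous_iff]
    have : (UpperHalfPlane.coe ∘ e) = fun w : ℂ =>
        (w.re : ℂ) + (Real.exp w.im : ℝ) * Complex.I := by
      funext w
      apply Complex.ext <;> simp [e, -Complex.ofReal_exp]
    rw [this]
    fun_prop
  have hinj : Function.Injective e := by
    intro w w' h
    have h1 := congrArg (fun z : ℍ => (z : ℂ).re) h
    have h2 := congrArg (fun z : ℍ => (z : ℂ).im) h
    simp only [e] at h1 h2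
    exact Complex.ext h1 (Real.exp_injective h2)
  have hsurj : Function.Surjective e := by
    intro τ
    refine ⟨⟨(τ : ℂ).re, Real.log (τ : ℂ).im⟩, ?_⟩
    ext1
    apply Complex.ext
    · rfl
    · exact Real.exp_log τ.coe_im_pos
  have hc : ({τ : ℍ | J τ ∈ B}).Countable := by
    have h1 : {τ : ℍ | J τ ∈ B} ⊆ ⋃ y ∈ (B : Set ℂ), {τ : ℍ | J τ = y} := by
      intro τ hτ
      simp only [Set.mem_iUnion]
      exact ⟨J τ, hτ, rfl⟩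
    refine Set.Countable.mono h1 (Set.Countable.biUnion B.countable_toSet fun y _ => ?_)
    obtain ⟨τ₀, h0⟩ := J_surj y
    have : Countable (Matrix (Fin 2) (Fin 2) ℤ) := inferInstanceAs (Countable (Fin 2 → Fin 2 → ℤ))
    have : Countable SL(2, ℤ) := inferInstanceAs (Countable {A : Matrix (Fin 2) (Fin 2) ℤ // A.det = 1})
    refine Set.Countable.mono ?_ (Set.countable_range fun γ : SL(2, ℤ) => γ • τ₀)
    intro τ hτ
    obtain ⟨γ, hγ⟩ := J_inj (h0.trans (Eq.symm hτ))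
    exact ⟨γ, hγ.symm⟩
  have h1 := ((hc.preimage hinj).isConnected_compl_of_one_lt_rank (by simp)).isPreconnected.image
    e he.continuousOn
  have h2 : e '' (e ⁻¹' {τ : ℍ | J τ ∈ B})ᶜ = {τ : ℍ | J τ ∉ B} := by
    rw [← Set.preimage_compl, Set.image_preimage_eq _ hsurj]
    rfl
  rwa [h2] at h1

theorem graph_ofC_cont : ContinuousOn (fun z : ℂ => (ofComplex z : ℍ)) {z : ℂ | 0 < z.im} :=
  fun _ hz => (contMDiffAt_ofComplex (n := 0) hz).continuousAt.continuousWithinAt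

theorem graph_coe_ofC {z : ℂ} (hz : 0 < z.im) : ((ofComplex z : ℍ) : ℂ) = z := by
  rw [ofComplex_apply_of_im_pos hz]

theorem graph_cont {s : Set ℂ} {φ : ℂ → ℍ} (h : DifferentiableOn ℂ (fun z => (φ z : ℂ)) s) :
    ContinuousOn φ s :=
  isOpenEmbedding_coe.isEmbedding.isInducing.continuousOn_iff.2 h.continuousOn

/-- Uniqueness of lifts. -/
theorem graph_unique {E : Set (ℍ × ℍ)} {B : Finset ℂ} (hS : Sec E B) (hE : ∀ ξ ∈ E, J ξ.1 ∉ B)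
    {N : Set ℂ} (hN : IsPreconnected N) {a b : ℂ → ℍ × ℍ} (ha : ContinuousOn a N)
    (hb : ContinuousOn b N) (haE : ∀ z ∈ N, a z ∈ E) (hbE : ∀ z ∈ N, b z ∈ E)
    (hab : ∀ z ∈ N, (a z).1 = (b z).1) {z₀ : ℂ} (hz₀ : z₀ ∈ N) (h0 : a z₀ = b z₀) :
    ∀ z ∈ N, a z = b z := by
  intro z hz
  have key := hN.induction₂' (fun x y => (a x = b x ↔ a y = b y)) ?_ ?_ hz₀ hz
  · exact key.1 h0
  · intro x hx
    by_cases hxe : a x = b x
    · obtain ⟨r, hr, -, hs⟩ := hS (J (a x).1) (hE _ (haE x hx))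
      obtain ⟨s, -, -, -, -, hev⟩ := hs (a x) (haE x hx) (Metric.mem_ball_self hr)
      have t1 : Filter.Tendsto a (𝓝[N] x) (𝓝[E] (a x)) :=
        tendsto_nhdsWithin_iff.2 ⟨ha x hx, eventually_mem_nhdsWithin.mono fun y hy => haE y hy⟩
      have t2 : Filter.Tendsto b (𝓝[N] x) (𝓝[E] (a x)) := by
        rw [hxe]
        exact tendsto_nhdsWithin_iff.2
          ⟨hb x hx, eventually_mem_nhdsWithin.mono fun y hy => hbE y hy⟩
      filter_upwards [t1.eventually hev, t2.eventually hev, self_mem_nhdsWithin] with y h1 h2 hy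
      have : a y = b y := by rw [← h1, ← h2, hab y hy]
      simp [this, hxe]
    · have t1 : Filter.Tendsto (fun y => (a y, b y)) (𝓝[N] x) (𝓝 (a x, b x)) :=
        (ha x hx).prodMk_nhds (hb x hx)
      have : ∀ᶠ q : (ℍ × ℍ) × (ℍ × ℍ) in 𝓝 (a x, b x), q.1 ≠ q.2 :=
        (isOpen_ne_fun continuous_fst continuous_snd).mem_nhds hxe
      filter_upwards [t1.eventually this] with y hy
      simp only [hxe, false_iff, iff_false]
      exact ⟨hy, hy⟩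
  · intro x y z _ _ _ h1 h2
    exact h1.trans h2

/-- Local graphs. -/
theorem graph_loc {G : ℂ[X][X]} {B : Finset ℂ} (hS : Sec (EB G B) B) (τ₁ : ℍ) (h : J τ₁ ∉ B) :
    ∃ ρ > 0, (∀ z ∈ Metric.ball (τ₁ : ℂ) ρ, 0 < z.im ∧ J (ofComplex z) ∉ B) ∧
      ∀ z₀ ∈ Metric.ball (τ₁ : ℂ) ρ, ∀ τ' : ℍ, (ofComplex z₀, τ') ∈ EB G B →
        ∃ φ : ℂ → ℍ, DifferentiableOn ℂ (fun z => (φ z : ℂ)) (Metric.ball (τ₁ : ℂ) ρ) ∧
          φ z₀ = τ' ∧ ∀ z ∈ Metric.ball (τ₁ : ℂ) ρ, (ofComplex z, φ z) ∈ EB G B := by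
  obtain ⟨r, hr, hB, hs⟩ := hS (J τ₁) h
  have ho : IsOpen {z : ℂ | 0 < z.im} := isOpen_lt continuous_const Complex.continuous_im
  have hc : ContinuousAt (J ∘ ofComplex) (τ₁ : ℂ) :=
    J_hol.continuousOn.continuousAt (ho.mem_nhds τ₁.coe_im_pos)
  have e1 : ∀ᶠ z in 𝓝 (τ₁ : ℂ), J (ofComplex z) ∈ Metric.ball (J τ₁) r := by
    apply hc.eventually
    rw [Function.comp_apply, ofComplex_apply]
    exact Metric.ball_mem_nhds _ hr
  obtain ⟨ρ, hρ, hball⟩ := Metric.mem_nhds_iff.1 (e1.and (ho.mem_nhds τ₁.coe_im_pos))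
  refine ⟨ρ, hρ, fun z hz => ⟨(hball hz).2, hB _ (hball hz).1⟩, fun z₀ hz₀ τ' hτ' => ?_⟩
  obtain ⟨s, -, hs2, hsE, hs0, -⟩ := hs _ hτ' (hball hz₀).1
  refine ⟨fun z => (s (J (ofComplex z))).2, ?_, ?_, fun z hz => ?_⟩
  · exact hs2.comp (f := J ∘ ofComplex) (J_hol.mono fun z hz => (hball hz).2)
      fun z hz => (hball hz).1
  · exact congrArg Prod.snd hs0
  · obtain ⟨h1, h2⟩ := hsE _ (hball hz).1
    refine ⟨hB _ (hball hz).1, ?_⟩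
    have := h1.2
    rwa [h2] at this

/-- The fibres of a path component vary holomorphically. -/
theorem graph_fam {G : ℂ[X][X]} {B : Finset ℂ} (hS : Sec (EB G B) B) (ζ : ℍ × ℍ) (τ₁ : ℍ)
    (h : J τ₁ ∉ B) :
    ∃ ρ > 0, (∀ z ∈ Metric.ball (τ₁ : ℂ) ρ, 0 < z.im ∧ J (ofComplex z) ∉ B) ∧
      ∃ φ : ℍ → ℂ → ℍ, (∀ τ', JoinedIn (EB G B) ζ (τ₁, τ') →
          DifferentiableOn ℂ (fun z => (φ τ' z : ℂ)) (Metric.ball (τ₁ : ℂ) ρ)) ∧
        ∀ z ∈ Metric.ball (τ₁ : ℂ) ρ, Set.BijOn (fun τ' => φ τ' z)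
          {τ' | JoinedIn (EB G B) ζ (τ₁, τ')} {τ' | JoinedIn (EB G B) ζ (ofComplex z, τ')} := by
  obtain ⟨ρ, hρ, hU, hloc⟩ := graph_loc hS τ₁ h
  have hc : (τ₁ : ℂ) ∈ Metric.ball (τ₁ : ℂ) ρ := Metric.mem_ball_self hρ
  have hE : ∀ ξ ∈ EB G B, J ξ.1 ∉ B := fun ξ hξ => hξ.1
  have hcont : ∀ {φ : ℂ → ℍ}, DifferentiableOn ℂ (fun z => (φ z : ℂ)) (Metric.ball (τ₁ : ℂ) ρ) →
      ContinuousOn (fun z => ((ofComplex z : ℍ), φ z)) (Metric.ball (τ₁ : ℂ) ρ) := fun hφ =>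
    (graph_ofC_cont.mono fun z hz => (hU z hz).1).prodMk (graph_cont hφ)
  have huniq : ∀ {φ ψ : ℂ → ℍ},
      DifferentiableOn ℂ (fun z => (φ z : ℂ)) (Metric.ball (τ₁ : ℂ) ρ) →
      DifferentiableOn ℂ (fun z => (ψ z : ℂ)) (Metric.ball (τ₁ : ℂ) ρ) →
      (∀ z ∈ Metric.ball (τ₁ : ℂ) ρ, (ofComplex z, φ z) ∈ EB G B) →
      (∀ z ∈ Metric.ball (τ₁ : ℂ) ρ, (ofComplex z, ψ z) ∈ EB G B) →
      ∀ z₀ ∈ Metric.ball (τ₁ : ℂ) ρ, φ z₀ = ψ z₀ →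
      ∀ z ∈ Metric.ball (τ₁ : ℂ) ρ, φ z = ψ z := by
    intro φ ψ hφ hψ h1 h2 z₀ hz₀ h0 z hz
    have := graph_unique hS hE (convex_ball _ _).isPreconnected (hcont hφ) (hcont hψ) h1 h2
      (fun _ _ => rfl) hz₀ (by simp only [h0]) z hz
    exact congrArg Prod.snd this
  have hjoin : ∀ {φ : ℂ → ℍ},
      DifferentiableOn ℂ (fun z => (φ z : ℂ)) (Metric.ball (τ₁ : ℂ) ρ) →
      (∀ z ∈ Metric.ball (τ₁ : ℂ) ρ, (ofComplex z, φ z) ∈ EB G B) →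
      ∀ z₀ ∈ Metric.ball (τ₁ : ℂ) ρ, ∀ z ∈ Metric.ball (τ₁ : ℂ) ρ,
        JoinedIn (EB G B) (ofComplex z₀, φ z₀) (ofComplex z, φ z) := by
    intro φ hφ h1 z₀ hz₀ z hz
    have hp := ((convex_ball (τ₁ : ℂ) ρ).isPathConnected ⟨_, hc⟩).image' (hcont hφ)
    refine (hp.joinedIn _ ⟨z₀, hz₀, rfl⟩ _ ⟨z, hz, rfl⟩).mono ?_
    rintro _ ⟨w, hw, rfl⟩
    exact h1 w hw
  have hex : ∀ τ' : ℍ, ∃ φ : ℂ → ℍ, JoinedIn (EB G B) ζ (τ₁, τ') →
      DifferentiableOn ℂ (fun z => (φ z : ℂ)) (Metric.ball (τ₁ : ℂ) ρ) ∧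
        φ τ₁ = τ' ∧ ∀ z ∈ Metric.ball (τ₁ : ℂ) ρ, (ofComplex z, φ z) ∈ EB G B := by
    intro τ'
    by_cases hj : JoinedIn (EB G B) ζ (τ₁, τ')
    · obtain ⟨φ, hφ⟩ := hloc _ hc τ' (by rw [ofComplex_apply]; exact hj.target_mem)
      exact ⟨φ, fun _ => hφ⟩
    · exact ⟨fun _ => τ', fun h => absurd h hj⟩
  choose φ hφ using hex
  refine ⟨ρ, hρ, hU, φ, fun τ' hτ' => (hφ τ' hτ').1, fun z hz => ⟨?_, ?_, ?_⟩⟩
  · intro τ' hτ'
    obtain ⟨h1, h2, h3⟩ := hφ τ' hτ'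
    have := hjoin h1 h3 _ hc z hz
    rw [h2, ofComplex_apply] at this
    exact JoinedIn.trans hτ' this
  · intro a ha b hb hab
    obtain ⟨h1, h2, h3⟩ := hφ a ha
    obtain ⟨h1', h2', h3'⟩ := hφ b hb
    rw [← h2, ← h2']
    exact huniq h1 h1' h3 h3' z hz hab _ hc
  · intro σ hσ
    have hσ' : JoinedIn (EB G B) ζ (ofComplex z, σ) := hσ
    obtain ⟨ψ, h1, h2, h3⟩ := hloc z hz σ hσ'.target_mem
    have hj : JoinedIn (EB G B) ζ (τ₁, ψ τ₁) := by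
      have := hjoin h1 h3 z hz _ hc
      rw [h2, ofComplex_apply] at this
      exact hσ'.trans this
    obtain ⟨h1', h2', h3'⟩ := hφ _ hj
    refine ⟨ψ τ₁, hj, ?_⟩
    rw [← h2]
    exact huniq h1' h1 h3' h3 _ hc h2' z hz

theorem graph_ball_nhds (τ₁ : ℍ) {ρ : ℝ} (hρ : 0 < ρ) :
    ∀ᶠ τ : ℍ in 𝓝 τ₁, (τ : ℂ) ∈ Metric.ball (τ₁ : ℂ) ρ :=
  UpperHalfPlane.continuous_coe.continuousAt.eventually (Metric.ball_mem_nhds _ hρ)

/-- A path component projects onto the complement of the bad set. -/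
theorem graph_nonempty {G : ℂ[X][X]} {B : Finset ℂ} (hS : Sec (EB G B) B) (ζ : ℍ × ℍ)
    (hζ : ζ ∈ EB G B) (τ : ℍ) (h : J τ ∉ B) : ∃ τ', JoinedIn (EB G B) ζ (τ, τ') := by
  have key := (graph_preconn B).induction₂'
    (fun x y => ((∃ τ', JoinedIn (EB G B) ζ (x, τ')) ↔ ∃ τ', JoinedIn (EB G B) ζ (y, τ')))
    ?_ ?_ (x := ζ.1) (y := τ) hζ.1 h
  · exact key.1 ⟨ζ.2, JoinedIn.refl hζ⟩
  · intro x hx
    obtain ⟨ρ, hρ, -, φ, -, hbij⟩ := graph_fam hS ζ x hx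
    filter_upwards [nhdsWithin_le_nhds (graph_ball_nhds x hρ)] with y hy
    have hb := hbij y hy
    rw [ofComplex_apply] at hb
    have : (∃ τ', JoinedIn (EB G B) ζ (x, τ')) ↔ ∃ τ', JoinedIn (EB G B) ζ (y, τ') := by
      constructor
      · rintro ⟨a, ha⟩
        exact ⟨_, hb.mapsTo ha⟩
      · rintro ⟨a, ha⟩
        obtain ⟨b, hb', -⟩ := hb.surjOn ha
        exact ⟨b, hb'⟩
    exact ⟨this, this.symm⟩
  · intro x y z _ _ _ h1 h2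
    exact h1.trans h2

end

end Pool.Agent.P.MP_a60a76_nt.SP
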