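import Pool.Agent.P.MP_a60a76_nt.SP.Defs

namespace Pool.Agent.P.MP_a60a76_nt.SP

open Polynomial UpperHalfPlane PeriodPair
open scoped MatrixGroups UpperHalfPlane Matrix Modular Topology Classical

noncomputable section

/-- Denominator of a Moebius transformation. -/
def gden (A : Matrix (Fin 2) (Fin 2) ℤ) (z : ℂ) : ℂ := (A 1 0 : ℂ) * z + (A 1 1 : ℂ)

/-- Moebius transformation of an integral matrix. -/
def gmob (A : Matrix (Fin 2) (Fin 2) ℤ) (z : ℂ) : ℂ :=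
  ((A 0 0 : ℂ) * z + (A 0 1 : ℂ)) / gden A z

theorem gden_ne {A : Matrix (Fin 2) (Fin 2) ℤ} (hA : A.det ≠ 0) {z : ℂ} (hz : z.im ≠ 0) :
    gden A z ≠ 0 := by
  intro h
  have h1 := congrArg Complex.im h
  simp [gden, hz] at h1
  simp [gden, h1] at h
  apply hA
  rw [Matrix.det_fin_two, h1, h]
  simp

theorem gmob_im {A : Matrix (Fin 2) (Fin 2) ℤ} (z : ℂ) :
    (gmob A z).im = (A.det : ℝ) * z.im / Complex.normSq (gden A z) := by
  rw [gmob, Complex.div_im, Matrix.det_fin_two]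
  simp [gden]
  ring

theorem gmob_im_ne {A : Matrix (Fin 2) (Fin 2) ℤ} (hA : A.det ≠ 0) {z : ℂ} (hz : z.im ≠ 0) :
    (gmob A z).im ≠ 0 := by
  rw [gmob_im]
  have h1 : (A.det : ℝ) ≠ 0 := by exact_mod_cast hA
  have h2 : Complex.normSq (gden A z) ≠ 0 := by simpa using gden_ne hA hz
  positivity

theorem gmob_sub {A : Matrix (Fin 2) (Fin 2) ℤ} (hA : A.det ≠ 0) {z w : ℂ} (hz : z.im ≠ 0)
    (hw : w.im ≠ 0) : gmob A z - gmob A w = (A.det : ℂ) * (z - w) / (gden A z * gden A w) := by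
  have h1 := gden_ne hA hz
  have h2 := gden_ne hA hw
  rw [gmob, gmob, Matrix.det_fin_two]
  field_simp
  simp only [gden]
  push_cast
  ring

theorem gmob_mul {A B : Matrix (Fin 2) (Fin 2) ℤ} (hA : A.det ≠ 0) (hB : B.det ≠ 0) {z : ℂ}
    (hz : z.im ≠ 0) : gmob (A * B) z = gmob A (gmob B z) := by
  have h1 := gden_ne hB hz
  have h2 := gden_ne hA (gmob_im_ne hB hz)
  have h3 : gden (A * B) z ≠ 0 := gden_ne (by rw [Matrix.det_mul]; exact mul_ne_zero hA hB) hz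
  have e1 : gden (A * B) z = gden A (gmob B z) * gden B z := by
    have : gden A (gmob B z) * gden B z
        = (A 1 0 : ℂ) * ((B 0 0 : ℂ) * z + (B 0 1 : ℂ)) + (A 1 1 : ℂ) * gden B z := by
      rw [gden, gmob]; field_simp
    rw [this]
    simp [gden, Matrix.mul_apply, Fin.sum_univ_two]
    ring
  have e2 : (((A * B) 0 0 : ℤ) : ℂ) * z + (((A * B) 0 1 : ℤ) : ℂ)
      = ((A 0 0 : ℂ) * gmob B z + (A 0 1 : ℂ)) * gden B z := by
    have : ((A 0 0 : ℂ) * gmob B z + (A 0 1 : ℂ)) * gden B z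
        = (A 0 0 : ℂ) * ((B 0 0 : ℂ) * z + (B 0 1 : ℂ)) + (A 0 1 : ℂ) * gden B z := by
      rw [gmob]; field_simp
    rw [this]
    simp [gden, Matrix.mul_apply, Fin.sum_univ_two]
    ring
  rw [gmob, e1, e2, gmob.eq_1 A, mul_div_mul_right _ _ h1]

theorem gmob_smul (γ : SL(2, ℤ)) (τ : ℍ) :
    ((γ • τ : ℍ) : ℂ) = gmob (γ : Matrix (Fin 2) (Fin 2) ℤ) τ := by
  rw [coe_specialLinearGroup_apply]
  simp [gmob, gden]

/-- The invariant inequality. -/
def Near (C : ℝ) (z w : ℂ) : Prop := Complex.normSq (w - z) ≤ C * (|w.im| * |z.im|)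

theorem Near.smul {C : ℝ} {z w : ℂ} (h : Near C z w) (hz : z.im ≠ 0) (hw : w.im ≠ 0)
    (γ : SL(2, ℤ)) : Near C (gmob (γ : Matrix (Fin 2) (Fin 2) ℤ) z)
      (gmob (γ : Matrix (Fin 2) (Fin 2) ℤ) w) := by
  have hd : (γ : Matrix (Fin 2) (Fin 2) ℤ).det ≠ 0 := by rw [γ.det_coe]; exact one_ne_zero
  have h1 : 0 < Complex.normSq (gden (γ : Matrix (Fin 2) (Fin 2) ℤ) z) :=
    Complex.normSq_pos.2 (gden_ne hd hz)
  have h2 : 0 < Complex.normSq (gden (γ : Matrix (Fin 2) (Fin 2) ℤ) w) :=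
    Complex.normSq_pos.2 (gden_ne hd hw)
  unfold Near at h ⊢
  rw [gmob_sub hd hw hz, gmob_im, gmob_im, γ.det_coe]
  simp only [Int.cast_one, one_mul, map_div₀, map_mul, abs_div, abs_of_pos h1, abs_of_pos h2]
  rw [div_mul_div_comm, ← mul_div_assoc]
  gcongr

theorem Near.mono {C C' : ℝ} {z w : ℂ} (h : Near C z w) (hC : C ≤ C') : Near C' z w := by
  unfold Near at h ⊢
  exact h.trans (by gcongr)

theorem Near.norm_le {C : ℝ} (hC : 0 ≤ C) {z w : ℂ} (h : Near C z w) :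
    ‖w - z‖ ≤ (C + 1) * |z.im| := by
  unfold Near at h
  rw [Complex.normSq_eq_norm_sq] at h
  have h1 : |w.im| ≤ |z.im| + ‖w - z‖ := by
    have h2 := Complex.abs_im_le_norm (w - z)
    rw [Complex.sub_im] at h2
    have := abs_add_le z.im (w.im - z.im)
    rw [add_sub_cancel] at this
    linarith
  set D := ‖w - z‖
  set y := |z.im|
  have hy : 0 ≤ y := abs_nonneg _
  have hD : 0 ≤ D := norm_nonneg _
  have h3 : D ^ 2 ≤ C * ((y + D) * y) := h.trans (by gcongr)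
  by_contra hcon
  push Not at hcon
  have h4 : (C + 1) * y * D < D ^ 2 ∨ D = 0 := by
    rcases hD.eq_or_lt with h0 | h0
    · exact Or.inr h0.symm
    · left; nlinarith
  rcases h4 with h4 | h4
  · have : C * y * y ≤ D * y := by
      have : C * y ≤ D := by nlinarith
      gcongr
    nlinarith
  · rw [h4] at hcon
    have : 0 ≤ (C + 1) * y := by positivity
    linarith

/-- The bounded factor. -/
def gfac (Y : Matrix (Fin 2) (Fin 2) ℤ) (z w : ℂ) : ℂ :=
  (gmob Y w - z) / ((gmob Y w + (Y.det : ℂ) * Complex.I) * (z + Complex.I))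

theorem gfac_den1 {Y : Matrix (Fin 2) (Fin 2) ℤ} {w : ℂ} (hw : 0 < w.im) :
    |(Y.det : ℝ)| ≤ ‖gmob Y w + (Y.det : ℂ) * Complex.I‖ := by
  refine le_trans ?_ (Complex.abs_im_le_norm _)
  have : (gmob Y w + (Y.det : ℂ) * Complex.I).im
      = (Y.det : ℝ) * (w.im / Complex.normSq (gden Y w) + 1) := by
    rw [Complex.add_im, gmob_im]
    simp
    ring
  rw [this, abs_mul]
  have h1 : 0 ≤ w.im / Complex.normSq (gden Y w) := div_nonneg hw.le (Complex.normSq_nonneg _)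
  have h2 : 1 ≤ |w.im / Complex.normSq (gden Y w) + 1| := by
    rw [abs_of_nonneg (by linarith)]; linarith
  nlinarith [abs_nonneg (Y.det : ℝ)]

theorem gfac_den2 {z : ℂ} (hz : 0 < z.im) : 1 ≤ ‖z + Complex.I‖ := by
  refine le_trans ?_ (Complex.abs_im_le_norm _)
  rw [Complex.add_im, Complex.I_im, abs_of_nonneg (by linarith)]
  linarith

theorem gfac_det {Y : Matrix (Fin 2) (Fin 2) ℤ} (hY : Y.det ≠ 0) : (1 : ℝ) ≤ |(Y.det : ℝ)| := by
  exact_mod_cast Int.one_le_abs hY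

theorem gfac_le {Y : Matrix (Fin 2) (Fin 2) ℤ} (hY : Y.det ≠ 0) {z w : ℂ} (hz : 0 < z.im)
    (hw : 0 < w.im) : ‖gfac Y z w‖ ≤ 4 ∧ ‖gfac Y z w‖ ≤ ‖gmob Y w - z‖ := by
  have h1 := gfac_den1 (Y := Y) hw
  have h2 := gfac_den2 hz
  have h3 := gfac_det hY
  rw [gfac, norm_div, norm_mul]
  set a := ‖gmob Y w + (Y.det : ℂ) * Complex.I‖ with ha
  set b := ‖z + Complex.I‖ with hb
  have h4 : ‖gmob Y w - z‖ ≤ a + b + (|(Y.det : ℝ)| + 1) := by
    have e : gmob Y w - z = (gmob Y w + (Y.det : ℂ) * Complex.I) - (z + Complex.I)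
        - ((Y.det : ℂ) * Complex.I - Complex.I) := by ring
    rw [e]
    refine (norm_sub_le _ _).trans (add_le_add (norm_sub_le _ _) ((norm_sub_le _ _).trans ?_))
    rw [norm_mul, Complex.norm_I, mul_one, Complex.norm_intCast]
  have hab : 1 ≤ a * b := by nlinarith
  constructor
  · rw [div_le_iff₀ (by linarith)]
    nlinarith
  · exact div_le_self (norm_nonneg _) hab

theorem gfac_eq_zero {Y : Matrix (Fin 2) (Fin 2) ℤ} (hY : Y.det ≠ 0) {z w : ℂ} (hz : 0 < z.im)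
    (hw : 0 < w.im) (h : gfac Y z w = 0) : gmob Y w = z := by
  have h1 := gfac_den1 (Y := Y) hw
  have h2 := gfac_den2 hz
  have h3 := gfac_det hY
  rw [gfac, div_eq_zero_iff, mul_eq_zero] at h
  rcases h with h | h | h
  · exact sub_eq_zero.1 h
  · rw [h, norm_zero] at h1; linarith
  · rw [h, norm_zero] at h2; linarith

theorem gmob_diff {Y : Matrix (Fin 2) (Fin 2) ℤ} (hY : Y.det ≠ 0) {s : Set ℂ} {φ : ℂ → ℍ}
    (hφ : DifferentiableOn ℂ (fun z => (φ z : ℂ)) s) :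
    DifferentiableOn ℂ (fun z => gmob Y (φ z)) s := by
  unfold gmob
  refine DifferentiableOn.div (by fun_prop) ?_ fun z _ => gden_ne hY (φ z).coe_im_pos.ne'
  unfold gden
  fun_prop

theorem gfac_diff {Y : Matrix (Fin 2) (Fin 2) ℤ} (hY : Y.det ≠ 0) {s : Set ℂ}
    (hs : ∀ z ∈ s, 0 < z.im) {φ : ℂ → ℍ} (hφ : DifferentiableOn ℂ (fun z => (φ z : ℂ)) s) :
    DifferentiableOn ℂ (fun z => gfac Y z (φ z)) s := by
  have h0 := gmob_diff hY hφ
  unfold gfac
  refine DifferentiableOn.div (h0.sub differentiableOn_id)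
    ((h0.add_const _).mul (differentiableOn_id.add_const _)) fun z hz => mul_ne_zero ?_ ?_
  · intro h
    have h1 := gfac_den1 (Y := Y) (φ z).coe_im_pos
    have h3 := gfac_det hY
    rw [h, norm_zero] at h1; linarith
  · intro h
    have h2 := gfac_den2 (hs z hz)
    rw [h, norm_zero] at h2; linarith

/-- Lower triangular unipotent matrices. -/
def glow (n : ℤ) : SL(2, ℤ) := ⟨!![1, 0; n, 1], by simp [Matrix.det_fin_two_of]⟩

theorem glow_mul_inv (n m : ℤ) : glow n * (glow m)⁻¹ = glow (n - m) := by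
  rw [mul_inv_eq_iff_eq_mul]
  apply Subtype.ext
  simp [glow]

theorem gdet_ne {Y : Matrix (Fin 2) (Fin 2) ℤ} (hY : Y ≠ 0) {M M' : ℤ} (hM : M ≠ 0) (hM' : M' ≠ 0)
    {A A' : Matrix (Fin 2) (Fin 2) ℤ} (h1 : !![1, M; 0, 1] * Y = Y * A)
    (h2 : !![1, 0; M', 1] * Y = Y * A') : Y.det ≠ 0 := by
  intro hd
  rw [Matrix.det_fin_two] at hd
  have a00 := congrFun (congrFun h1 0) 0
  have a01 := congrFun (congrFun h1 0) 1
  have a10 := congrFun (congrFun h1 1) 0
  have a11 := congrFun (congrFun h1 1) 1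
  have b00 := congrFun (congrFun h2 0) 0
  have b01 := congrFun (congrFun h2 0) 1
  have b10 := congrFun (congrFun h2 1) 0
  have b11 := congrFun (congrFun h2 1) 1
  simp [Matrix.mul_apply, Fin.sum_univ_two] at a00 a01 a10 a11 b00 b01 b10 b11
  have c1 : M * Y 1 0 ^ 2 = 0 := by
    linear_combination Y 1 0 * a00 - Y 0 0 * a10 - A 1 0 * hd
  have c2 : M * Y 1 1 ^ 2 = 0 := by
    linear_combination Y 1 1 * a01 - Y 0 1 * a11 + A 0 1 * hd
  have c3 : M' * Y 0 0 ^ 2 = 0 := by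
    linear_combination Y 0 0 * b10 - Y 1 0 * b00 + A' 1 0 * hd
  have c4 : M' * Y 0 1 ^ 2 = 0 := by
    linear_combination Y 0 1 * b11 - Y 1 1 * b01 - A' 0 1 * hd
  simp [hM, hM'] at c1 c2 c3 c4
  apply hY
  ext i j
  fin_cases i <;> fin_cases j <;> simp [c1, c2, c3, c4]

end

end Pool.Agent.P.MP_a60a76_nt.SP
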