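import Pool.Agent.P.MP_a60a76_nt.SP.JBasic

namespace Pool.Agent.P.MP_a60a76_nt.SP

open Polynomial UpperHalfPlane PeriodPair
open scoped MatrixGroups UpperHalfPlane Matrix Modular Topology Classical

noncomputable section

theorem continuousOn_of_coe {U : Set ℂ} {s : ℂ → ℍ × ℍ}
    (h1 : DifferentiableOn ℂ (fun x => ((s x).1 : ℂ)) U)
    (h2 : DifferentiableOn ℂ (fun x => ((s x).2 : ℂ)) U) : ContinuousOn s U := by
  have a1 : ContinuousOn (fun x => (s x).1) U :=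
    UpperHalfPlane.isEmbedding_coe.isInducing.continuousOn_iff.2 h1.continuousOn
  have a2 : ContinuousOn (fun x => (s x).2) U :=
    UpperHalfPlane.isEmbedding_coe.isInducing.continuousOn_iff.2 h2.continuousOn
  exact a1.prodMk a2

theorem pathlift_ind {Y : Type*} [TopologicalSpace Y] {U : Set Y} (hU : IsPreconnected U)
    {Q : Y → Prop} (h : ∀ x ∈ U, ∀ᶠ y in 𝓝[U] x, (Q y ↔ Q x)) {a b : Y} (ha : a ∈ U) (hb : b ∈ U)
    (hQ : Q a) : Q b :=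
  hU.induction₂' (fun x y => Q x → Q y)
    (fun x hx => (h x hx).mono fun _ hy => ⟨hy.2, hy.1⟩)
    (fun _ _ _ _ _ _ h1 h2 h3 => h2 (h1 h3)) ha hb hQ

/-- Path lifting from uniform local sections. -/
theorem Sec.lift {E : Set (ℍ × ℍ)} {B : Finset ℂ} (h : Sec E B) (c : ℝ → ℂ)
    (hc : ContinuousOn c (Set.Icc 0 1)) (hB : ∀ t ∈ Set.Icc (0 : ℝ) 1, c t ∉ B) (ξ : ℍ × ℍ)
    (hξ : ξ ∈ E) (h0 : J ξ.1 = c 0) :
    ∃ σ : ℝ → ℍ × ℍ, ContinuousOn σ (Set.Icc 0 1) ∧ σ 0 = ξ ∧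
      ∀ t ∈ Set.Icc (0 : ℝ) 1, σ t ∈ E ∧ J (σ t).1 = c t := by
  refine pathlift_ind (U := Set.Icc (0 : ℝ) 1) isPreconnected_Icc
    (Q := fun T => ∃ σ : ℝ → ℍ × ℍ, ContinuousOn σ (Set.Icc 0 T) ∧ σ 0 = ξ ∧
      ∀ t ∈ Set.Icc (0 : ℝ) T, σ t ∈ E ∧ J (σ t).1 = c t) (a := 0) ?_ (by simp) (by simp) ?_
  · intro T0 hT0
    obtain ⟨r, hr, -, hs⟩ := h (c T0) (hB T0 hT0)
    have h1 : ∀ᶠ t in 𝓝[Set.Icc (0 : ℝ) 1] T0, c t ∈ Metric.ball (c T0) r :=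
      hc T0 hT0 (Metric.ball_mem_nhds _ hr)
    obtain ⟨δ, hδ, hδ'⟩ := Metric.mem_nhdsWithin_iff.1 h1
    have key : ∀ T T' : ℝ, T ∈ Metric.ball T0 δ ∩ Set.Icc (0 : ℝ) 1 →
        T' ∈ Metric.ball T0 δ ∩ Set.Icc (0 : ℝ) 1 →
        (∃ σ : ℝ → ℍ × ℍ, ContinuousOn σ (Set.Icc 0 T) ∧ σ 0 = ξ ∧
          ∀ t ∈ Set.Icc (0 : ℝ) T, σ t ∈ E ∧ J (σ t).1 = c t) →
        ∃ σ : ℝ → ℍ × ℍ, ContinuousOn σ (Set.Icc 0 T') ∧ σ 0 = ξ ∧
          ∀ t ∈ Set.Icc (0 : ℝ) T', σ t ∈ E ∧ J (σ t).1 = c t := by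
      rintro T T' hT hT' ⟨σ, hσ, hσ0, hσE⟩
      rcases le_total T' T with hle | hle
      · exact ⟨σ, hσ.mono (Set.Icc_subset_Icc_right hle), hσ0,
          fun t ht => hσE t (Set.Icc_subset_Icc_right hle ht)⟩
      · have hTT := hσE T ⟨hT.2.1, le_rfl⟩
        have hsub : Set.Icc T T' ⊆ Metric.ball T0 δ ∩ Set.Icc (0 : ℝ) 1 :=
          (((convex_ball T0 δ).inter (convex_Icc 0 1)).ordConnected).out hT hT'
        obtain ⟨s, hs1, hs2, hs3, hs4, -⟩ := hs (σ T) hTT.1 (by rw [hTT.2]; exact hδ' hT)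
        have hsc := continuousOn_of_coe hs1 hs2
        have e1 : ∀ t ∈ Set.Icc 0 T, (if t ≤ T then σ t else s (c t)) = σ t :=
          fun t ht => if_pos ht.2
        have e2 : ∀ t ∈ Set.Icc T T', (if t ≤ T then σ t else s (c t)) = s (c t) := by
          intro t ht
          split_ifs with h'
          · rw [le_antisymm h' ht.1, ← hTT.2, hs4]
          · rfl
        refine ⟨fun t => if t ≤ T then σ t else s (c t), ?_, ?_, ?_⟩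
        · rw [← Set.Icc_union_Icc_eq_Icc hT.2.1 hle]
          refine ContinuousOn.union_of_isClosed (hσ.congr e1) (ContinuousOn.congr ?_ e2)
            isClosed_Icc isClosed_Icc
          exact hsc.comp (hc.mono fun t ht => (hsub ht).2) fun t ht => hδ' (hsub ht)
        · exact (e1 0 ⟨le_rfl, hT.2.1⟩).trans hσ0
        · intro t ht
          rcases le_total t T with h' | h'
          · have := e1 t ⟨ht.1, h'⟩
            simp only [this]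
            exact hσE t ⟨ht.1, h'⟩
          · have := e2 t ⟨h', ht.2⟩
            simp only [this]
            exact hs3 _ (hδ' (hsub ⟨h', ht.2⟩))
    have h2 : T0 ∈ Metric.ball T0 δ ∩ Set.Icc (0 : ℝ) 1 := ⟨Metric.mem_ball_self hδ, hT0⟩
    filter_upwards [inter_mem_nhdsWithin (Set.Icc (0 : ℝ) 1) (Metric.ball_mem_nhds T0 hδ)] with T hT
    exact ⟨key T T0 hT.symm h2, key T0 T h2 hT.symm⟩
  · refine ⟨fun _ => ξ, continuousOn_const, rfl, fun t ht => ?_⟩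
    rw [le_antisymm ht.2 ht.1]
    exact ⟨hξ, h0⟩

theorem pathlift_cont (γ : SL(2, ℤ)) : Continuous fun z : ℍ => γ • z :=
  continuous_const_smul (Matrix.SpecialLinearGroup.mapGL ℝ γ)

theorem pathlift_finite : {g : SL(2, ℤ) | ∃ z ∈ 𝒟, g • z ∈ 𝒟}.Finite := by
  let T := ModularGroup.T
  let S := ModularGroup.S
  refine Set.Finite.subset (s := {1, -1, T, -T, T⁻¹, -T⁻¹, S, -S, T * S, -(T * S), T⁻¹ * S * T⁻¹,
    -(T⁻¹ * S * T⁻¹), S * T⁻¹, -(S * T⁻¹), S * T, -(S * T), T * S * T, -(T * S * T), T⁻¹ * S,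
    -(T⁻¹ * S)}) (Set.toFinite _) ?_
  rintro g ⟨z, hz, hg⟩
  have := ModularGroup.cases_of_mem_fd_smul_mem_fd hz hg
  simp only [Set.mem_insert_iff, Set.mem_singleton_iff, T, S]
  rcases this with (h | h) | ⟨h | h, -⟩ | ⟨h | h, -⟩ | ⟨h | h, -⟩ | ⟨h | h, -⟩ | ⟨h | h, -⟩ |
    ⟨h | h, -⟩ | ⟨h | h, -⟩ | ⟨h | h, -⟩ | ⟨h | h, -⟩ <;> simp only [h, true_or, or_true]

theorem pathlift_mem {γ γ' : SL(2, ℤ)} {z : ℍ} (h : γ⁻¹ • z ∈ 𝒟) (h' : γ'⁻¹ • z ∈ 𝒟) :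
    γ⁻¹ * γ' ∈ {g : SL(2, ℤ) | ∃ z ∈ 𝒟, g • z ∈ 𝒟} :=
  ⟨γ'⁻¹ • z, h', by rwa [mul_smul, smul_inv_smul]⟩

theorem pathlift_ex (z : ℍ) : ∃ δ : SL(2, ℤ), δ⁻¹ • z ∈ 𝒟 := by
  obtain ⟨g, hg⟩ := ModularGroup.exists_smul_mem_fd z
  exact ⟨g⁻¹, by rwa [inv_inv]⟩

theorem pathlift_base {σ : ℝ → ℍ} {a b : ℝ} (hab : a < b) (hσ : ContinuousOn σ (Set.Icc a b))
    (hJ : ∀ t ∈ Set.Ioo a b, (J (σ t)).im ≠ 0) :
    ∃ δ : SL(2, ℤ), δ⁻¹ • σ a ∈ 𝒟 ∧ δ⁻¹ • σ b ∈ 𝒟 := by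
  obtain ⟨m, hm⟩ : (Set.Ioo a b).Nonempty := Set.nonempty_Ioo.2 hab
  obtain ⟨δ, hδ⟩ := pathlift_ex (σ m)
  have hc : ContinuousOn (fun t => δ⁻¹ • σ t) (Set.Icc a b) :=
    (pathlift_cont δ⁻¹).comp_continuousOn hσ
  have hin : ∀ t ∈ Set.Ioo a b, δ⁻¹ • σ t ∈ 𝒟 → δ⁻¹ • σ t ∈ 𝒟ᵒ := by
    intro t ht h1
    by_contra h2
    exact hJ t ht (by rw [← J_smul δ⁻¹]; exact J_real h1 h2)
  have h1 : (fun t => δ⁻¹ • σ t) '' Set.Ioo a b ⊆ 𝒟ᵒ := by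
    refine (isPreconnected_Ioo.image _ (hc.mono Set.Ioo_subset_Icc_self)).subset_left_of_subset_union
      ModularGroup.isOpen_fdo ModularGroup.isClosed_fd.isOpen_compl
      (Set.disjoint_compl_right_iff_subset.2 ModularGroup.fdo_subset_fd) ?_
      ⟨_, ⟨m, hm, rfl⟩, hin m hm hδ⟩
    rintro _ ⟨t, ht, rfl⟩
    by_cases h2 : δ⁻¹ • σ t ∈ 𝒟
    · exact Or.inl (hin t ht h2)
    · exact Or.inr h2
  have h2 : ∀ t ∈ Set.Icc a b, δ⁻¹ • σ t ∈ 𝒟 := by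
    intro t ht
    have h3 := ((hc t ht).mono Set.Ioo_subset_Icc_self).mem_closure_image
      (by rwa [closure_Ioo hab.ne])
    exact ModularGroup.isClosed_fd.closure_subset_iff.2 (h1.trans ModularGroup.fdo_subset_fd) h3
  exact ⟨δ, h2 a ⟨le_rfl, hab.le⟩, h2 b ⟨hab.le, le_rfl⟩⟩

theorem pathlift_mul {W W' : Set SL(2, ℤ)} {γ δ γ' : SL(2, ℤ)} (h : γ⁻¹ * δ ∈ W)
    (h' : δ⁻¹ * γ' ∈ W') : γ⁻¹ * γ' ∈ Set.image2 (fun x y => x * y) W W' :=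
  ⟨_, h, _, h', by simp only [mul_assoc, mul_inv_cancel_left]⟩

theorem pathlift_step (n : ℕ) : ∃ W : Set SL(2, ℤ), W.Finite ∧ ∀ (σ : ℝ → ℍ) (a b : ℝ), a < b →
    ContinuousOn σ (Set.Icc a b) → ∀ S : Finset ℝ, S.card ≤ n →
    (∀ t ∈ Set.Ioo a b, (J (σ t)).im = 0 → t ∈ S) →
    ∀ γ γ' : SL(2, ℤ), γ⁻¹ • σ a ∈ 𝒟 → γ'⁻¹ • σ b ∈ 𝒟 → γ⁻¹ * γ' ∈ W := by
  induction n with
  | zero =>
    refine ⟨_, pathlift_finite.image2 (fun x y => x * y) pathlift_finite, ?_⟩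
    intro σ a b hab hσ S hS hJ γ γ' h1 h2
    obtain ⟨δ, h3, h4⟩ := pathlift_base hab hσ fun t ht h => by
      have := Finset.card_pos.2 ⟨t, hJ t ht h⟩
      omega
    exact pathlift_mul (pathlift_mem h1 h3) (pathlift_mem h4 h2)
  | succ n ih =>
    obtain ⟨W, hW, ih⟩ := ih
    refine ⟨_, hW.union (hW.image2 (fun x y => x * y) hW), ?_⟩
    intro σ a b hab hσ S hS hJ γ γ' h1 h2
    by_cases hex : ∃ s ∈ Set.Ioo a b, (J (σ s)).im = 0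
    · obtain ⟨s, hs, hs0⟩ := hex
      obtain ⟨δ, hδ⟩ := pathlift_ex (σ s)
      have hc : (S.erase s).card ≤ n := by
        rw [Finset.card_erase_of_mem (hJ s hs hs0)]
        omega
      refine Or.inr (pathlift_mul (δ := δ) ?_ ?_)
      · exact ih σ a s hs.1 (hσ.mono (Set.Icc_subset_Icc_right hs.2.le)) _ hc
          (fun t ht h => Finset.mem_erase.2 ⟨ht.2.ne, hJ t ⟨ht.1, ht.2.trans hs.2⟩ h⟩) γ δ h1 hδ
      · exact ih σ s b hs.2 (hσ.mono (Set.Icc_subset_Icc_left hs.1.le)) _ hc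
          (fun t ht h => Finset.mem_erase.2 ⟨ht.1.ne', hJ t ⟨hs.1.trans ht.1, ht.2⟩ h⟩) δ γ' hδ h2
    · exact Or.inl (ih σ a b hab hσ ∅ (by simp) (fun t ht h => (hex ⟨t, ht, h⟩).elim) γ γ' h1 h2)

/-- A path along which `J` is real at most `n` times moves through a bounded number of
translates of the fundamental domain. -/
theorem crossing (n : ℕ) : ∃ K : ℕ, ∀ (σ : ℝ → ℍ), ContinuousOn σ (Set.Icc 0 1) →
    ∀ S : Finset ℝ, S.card ≤ n → (∀ t ∈ Set.Icc (0 : ℝ) 1, (J (σ t)).im = 0 → t ∈ S) →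
    ∀ γ γ' : SL(2, ℤ), γ⁻¹ • σ 0 ∈ 𝒟 → γ'⁻¹ • σ 1 ∈ 𝒟 → ∀ i j, |(γ⁻¹ * γ') i j| ≤ K := by
  obtain ⟨W, hW, h⟩ := pathlift_step n
  obtain ⟨K, hK⟩ := ((hW.prod (Set.finite_univ (α := Fin 2 × Fin 2))).image
    (fun x => (x.1 x.2.1 x.2.2).natAbs)).bddAbove
  refine ⟨K, fun σ hσ S hS hJ γ γ' h1 h2 i j => ?_⟩
  have h3 := h σ 0 1 one_pos hσ S hS (fun t ht => hJ t (Set.Ioo_subset_Icc_self ht)) γ γ' h1 h2
  have h4 : ((γ⁻¹ * γ') i j).natAbs ≤ K := hK ⟨(γ⁻¹ * γ', i, j), ⟨h3, trivial⟩, rfl⟩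
  rw [← Int.natCast_natAbs]
  exact_mod_cast h4

/-- A property which is locally constant along `E` is constant on path components. -/
theorem joinedIn_induction {Y : Type*} [TopologicalSpace Y] {E : Set Y} {Q : Y → Prop}
    (h : ∀ ξ ∈ E, ∀ᶠ ξ' in 𝓝[E] ξ, (Q ξ' ↔ Q ξ)) {a b : Y} (hab : JoinedIn E a b) (ha : Q a) :
    Q b := by
  obtain ⟨γ, hγ⟩ := hab
  have hsub : Set.range γ ⊆ E := Set.range_subset_iff.2 hγ
  exact pathlift_ind (isPreconnected_range γ.continuous)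
    (fun x hx => (h x (hsub hx)).filter_mono (nhdsWithin_mono x hsub)) ⟨0, γ.source⟩ ⟨1, γ.target⟩ ha

/-- Points of `E` near a given point are joined to it. -/
theorem Sec.joinedIn {E : Set (ℍ × ℍ)} {B : Finset ℂ} (h : Sec E B)
    (hE : ∀ ξ ∈ E, J ξ.1 ∉ B) (ξ : ℍ × ℍ) (hξ : ξ ∈ E) : ∀ᶠ ξ' in 𝓝[E] ξ, JoinedIn E ξ ξ' := by
  obtain ⟨r, hr, -, hs⟩ := h (J ξ.1) (hE ξ hξ)
  obtain ⟨s, hs1, hs2, hs3, hs4, hs5⟩ := hs ξ hξ (Metric.mem_ball_self hr)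
  have hsc := continuousOn_of_coe hs1 hs2
  have h1 : ∀ᶠ ξ' in 𝓝 ξ, J ξ'.1 ∈ Metric.ball (J ξ.1) r :=
    (J_continuous.comp continuous_fst).continuousAt (Metric.ball_mem_nhds _ hr)
  filter_upwards [hs5, h1.filter_mono nhdsWithin_le_nhds] with ξ' h2 h3
  have h4 := (((convex_ball (J ξ.1) r).isPathConnected (Metric.nonempty_ball.2 hr)).joinedIn _
    (Metric.mem_ball_self hr) _ h3).map_continuousOn hsc
  rw [hs4, h2] at h4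
  exact h4.mono (by rintro _ ⟨x, hx, rfl⟩; exact (hs3 x hx).1)

/-- Uniqueness of sections over a preconnected set. -/
theorem Sec.unique {E : Set (ℍ × ℍ)} {B : Finset ℂ} (h : Sec E B) {U : Set ℂ}
    (hU : IsPreconnected U) (hUB : ∀ x ∈ U, x ∉ B) {s s' : ℂ → ℍ × ℍ} (hs : ContinuousOn s U)
    (hs' : ContinuousOn s' U) (hE : ∀ x ∈ U, s x ∈ E ∧ J (s x).1 = x)
    (hE' : ∀ x ∈ U, s' x ∈ E ∧ J (s' x).1 = x) {x₀ : ℂ} (hx₀ : x₀ ∈ U) (h0 : s x₀ = s' x₀) :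
    ∀ x ∈ U, s x = s' x := by
  intro x hx
  refine pathlift_ind hU (Q := fun y => s y = s' y) ?_ hx₀ hx h0
  intro y hy
  by_cases hyy : s y = s' y
  · obtain ⟨r, hr, -, h1⟩ := h y (hUB y hy)
    obtain ⟨s0, -, -, -, -, h2⟩ := h1 (s y) (hE y hy).1
      (by rw [(hE y hy).2]; exact Metric.mem_ball_self hr)
    have a1 := ((hs y hy).tendsto_nhdsWithin fun z hz => (hE z hz).1).eventually h2
    rw [hyy] at h2
    have a2 := ((hs' y hy).tendsto_nhdsWithin fun z hz => (hE' z hz).1).eventually h2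
    filter_upwards [a1, a2, self_mem_nhdsWithin] with z b1 b2 hz
    rw [(hE z hz).2] at b1
    rw [(hE' z hz).2] at b2
    exact iff_of_true (b1.symm.trans b2) hyy
  · have a1 := ((hs y hy).prodMk (hs' y hy)).tendsto.eventually
      (isClosed_diagonal.isOpen_compl.mem_nhds hyy)
    filter_upwards [a1] with z hz
    exact iff_of_false hz hyy

theorem smul_mem_EB {G : ℂ[X][X]} {B : Finset ℂ} (γ γ' : SL(2, ℤ)) {ξ : ℍ × ℍ} :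
    (γ • ξ.1, γ' • ξ.2) ∈ EB G B ↔ ξ ∈ EB G B := by
  simp only [EB, Set.mem_setOf_eq, J_smul]

theorem joinedIn_smul {G : ℂ[X][X]} {B : Finset ℂ} (γ γ' : SL(2, ℤ)) {ξ ξ' : ℍ × ℍ}
    (h : JoinedIn (EB G B) ξ ξ') :
    JoinedIn (EB G B) (γ • ξ.1, γ' • ξ.2) (γ • ξ'.1, γ' • ξ'.2) := by
  have h1 := h.map (f := fun ξ : ℍ × ℍ => (γ • ξ.1, γ' • ξ.2))
    (((pathlift_cont γ).comp continuous_fst).prodMk ((pathlift_cont γ').comp continuous_snd))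
  exact h1.mono (by rintro _ ⟨x, hx, rfl⟩; exact (smul_mem_EB γ γ').2 hx)

end

end Pool.Agent.P.MP_a60a76_nt.SP
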