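import Pool.Agent.P.MP_a60a76_nt.SP.PL
import Pool.Agent.P.MP_a60a76_nt.SP.PathLift
import Pool.Agent.P.MP_a60a76_nt.SP.JInj
import Pool.Agent.P.MP_a60a76_nt.SP.Res
import Pool.Agent.P.MP_a60a76_nt.SP.GraphAux
import Pool.Agent.P.MP_a60a76_nt.SP.GraphMob

namespace Pool.Agent.P.MP_a60a76_nt.SP

open Polynomial UpperHalfPlane PeriodPair
open scoped MatrixGroups UpperHalfPlane Matrix Modular Topology Classical

noncomputable section

theorem graph_red {p : ℕ} {a b : SL(2, ℤ)} (h : red p a = red p b) : red p (b * a⁻¹) = 1 := by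
  rw [red_mul, ← h, ← red_mul, mul_inv_cancel, red_one]

theorem graph_smul_cont (γ : SL(2, ℤ)) : Continuous fun σ : ℍ => γ • σ :=
  continuous_const_smul (γ : GL (Fin 2) ℝ)

theorem graph_lab (p : ℕ) : ∃ lab : ℍ → Matrix (Fin 2) (Fin 2) (ZMod p), ∀ a b : ℍ, J a = J b →
    lab a = lab b → ∃ γ : SL(2, ℤ), red p γ = 1 ∧ b = γ • a := by
  choose c hc using J_surj
  choose d hd using fun τ : ℍ => J_inj (hc (J τ))
  refine ⟨fun τ => red p (d τ), fun a b hJ hl => ⟨d b * (d a)⁻¹, graph_red hl, ?_⟩⟩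
  have h1 : (d a)⁻¹ • a = c (J a) := by
    rw [inv_smul_eq_iff]; exact hd a
  rw [mul_smul, h1, hJ]
  exact hd b

theorem graph_roots {G : ℂ[X][X]} {B : Finset ℂ}
    (hlc : ∀ x, x ∉ B → G.leadingCoeff.eval x ≠ 0) (x : ℂ) :
    ∃ R : Finset ℂ, R.card ≤ G.natDegree ∧ ∀ ξ ∈ EB G B, J ξ.1 = x → J ξ.2 ∈ R := by
  refine ⟨(G.map (evalRingHom x)).roots.toFinset, ?_, fun ξ hξ hx => ?_⟩
  · exact (Multiset.toFinset_card_le _).trans ((card_roots' _).trans natDegree_map_le)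
  · have h0 : G.map (evalRingHom x) ≠ 0 := by
      intro h
      apply hlc x (hx ▸ hξ.1)
      have := congrArg (fun P : ℂ[X] => P.coeff G.natDegree) h
      simpa using this
    rw [Multiset.mem_toFinset, mem_roots h0, IsRoot, map_evalRingHom_eval, ← hx]
    exact hξ.2

/-- A component whose stabiliser is intertwined by an integral matrix is a graph. -/
theorem graph (G : ℂ[X][X]) (h1 : 1 ≤ G.natDegree) (B : Finset ℂ) (hS : Sec (EB G B) B)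
    (hlc : ∀ x, x ∉ B → G.leadingCoeff.eval x ≠ 0) (ζ : ℍ × ℍ) (hζ : ζ ∈ EB G B)
    (p : ℕ) [NeZero p] (g : Matrix (Fin 2) (Fin 2) (ZMod p))
    (Y : Matrix (Fin 2) (Fin 2) ℤ) (hY : Y ≠ 0)
    (h : ∀ γ γ' : SL(2, ℤ), JoinedIn (EB G B) ζ (γ • ζ.1, γ' • ζ.2) →
      red p γ * g = g * red p γ' →
      (γ : Matrix (Fin 2) (Fin 2) ℤ) * Y = Y * (γ' : Matrix (Fin 2) (Fin 2) ℤ)) :
    ∃ a b c d : ℤ, 0 < a * d - b * c ∧ ∀ τ τ' : ℍ, (τ' : ℂ) * (c * τ + d) = a * τ + b →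
      J τ ∉ B → G.evalEval (J τ) (J τ') = 0 := by
  have _h1 := h1
  have good : ∀ (γ γ' : SL(2, ℤ)) (τ τ' : ℍ), JoinedIn (EB G B) ζ (τ, τ') →
      JoinedIn (EB G B) ζ (γ • τ, γ' • τ') → red p γ = 1 → red p γ' = 1 →
      (∀ σ σ' : ℍ, JoinedIn (EB G B) ζ (σ, σ') → JoinedIn (EB G B) ζ (γ • σ, γ' • σ')) ∧
        (γ : Matrix (Fin 2) (Fin 2) ℤ) * Y = Y * (γ' : Matrix (Fin 2) (Fin 2) ℤ) := by
    intro γ γ' τ τ' a1 a2 r1 r2
    have a3 : JoinedIn (EB G B) ζ (γ • ζ.1, γ' • ζ.2) := a2.trans (joinedIn_smul γ γ' a1).symm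
    exact ⟨fun σ σ' a4 => a3.trans (joinedIn_smul γ γ' a4),
      h γ γ' a3 (by rw [r1, r2, one_mul, mul_one])⟩
  obtain ⟨lab, hlab⟩ := graph_lab p
  -- finite index
  have hidx : ∃ lab3 : SL(2, ℤ) →
      ℂ × Matrix (Fin 2) (Fin 2) (ZMod p) × Matrix (Fin 2) (Fin 2) (ZMod p),
      (Set.range lab3).Finite ∧ ∀ δ₁ δ₂, lab3 δ₁ = lab3 δ₂ → ∃ γ' : SL(2, ℤ),
        (∀ σ σ' : ℍ, JoinedIn (EB G B) ζ (σ, σ') →
          JoinedIn (EB G B) ζ ((δ₂ * δ₁⁻¹) • σ, γ' • σ')) ∧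
        ((δ₂ * δ₁⁻¹ : SL(2, ℤ)) : Matrix (Fin 2) (Fin 2) ℤ) * Y
          = Y * (γ' : Matrix (Fin 2) (Fin 2) ℤ) := by
    choose t ht using fun δ : SL(2, ℤ) =>
      graph_nonempty hS ζ hζ (δ • ζ.1) (by rw [J_smul]; exact hζ.1)
    obtain ⟨R, -, hR⟩ := graph_roots hlc (J ζ.1)
    refine ⟨fun δ => (J (t δ), red p δ, lab (t δ)), ?_, fun δ₁ δ₂ he => ?_⟩
    · refine (R.finite_toSet.prod (Set.finite_univ)).subset ?_
      rintro _ ⟨δ, rfl⟩
      have := hR (δ • ζ.1, t δ) (ht δ).target_mem (J_smul δ ζ.1)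
      exact Set.mk_mem_prod (Finset.mem_coe.2 this) (Set.mem_univ _)
    · simp only [Prod.mk.injEq] at he
      obtain ⟨γ', r2, e2⟩ := hlab _ _ he.1 he.2.2
      refine ⟨γ', good _ γ' _ _ (ht δ₁) ?_ (graph_red he.2.1) r2⟩
      rw [mul_smul, inv_smul_smul, ← e2]
      exact ht δ₂
  obtain ⟨lab3, hfin3, hlab3⟩ := hidx
  have hdet : Y.det ≠ 0 := by
    obtain ⟨n, -, m, -, hne, he⟩ := (Set.infinite_univ (α := ℤ)).exists_ne_map_eq_of_mapsTo
      (f := fun n : ℤ => lab3 (ModularGroup.T ^ n)) (fun n _ => Set.mem_range_self _) hfin3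
    obtain ⟨n', -, m', -, hne', he'⟩ := (Set.infinite_univ (α := ℤ)).exists_ne_map_eq_of_mapsTo
      (f := fun n : ℤ => lab3 (glow n)) (fun n _ => Set.mem_range_self _) hfin3
    obtain ⟨γ₁, -, e1⟩ := hlab3 _ _ he
    obtain ⟨γ₂, -, e2⟩ := hlab3 _ _ he'
    rw [← zpow_sub, ModularGroup.coe_T_zpow] at e1
    rw [glow_mul_inv] at e2
    exact gdet_ne hY (sub_ne_zero.2 hne.symm) (sub_ne_zero.2 hne'.symm) e1 e2
  -- finite fibres
  have hinj : ∀ τ : ℍ, Set.InjOn (fun τ' => (J τ', lab τ'))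
      {τ' | JoinedIn (EB G B) ζ (τ, τ')} := by
    intro τ a ha b hb he
    simp only [Prod.mk.injEq] at he
    obtain ⟨γ', r2, e2⟩ := hlab _ _ he.1 he.2
    have := (good 1 γ' τ a ha (by rw [one_smul, ← e2]; exact hb) (red_one p) r2).2
    have h2 : Y * ((γ' : Matrix (Fin 2) (Fin 2) ℤ) - 1) = 0 := by
      rw [mul_sub, ← this]; simp
    have h3 : Y.det • ((γ' : Matrix (Fin 2) (Fin 2) ℤ) - 1) = 0 := by
      rw [← Matrix.one_mul (_ - _), ← Matrix.smul_mul, ← Matrix.adjugate_mul, Matrix.mul_assoc, h2,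
        Matrix.mul_zero]
    have h4 : γ' = 1 := Subtype.ext (sub_eq_zero.1 ((smul_eq_zero.1 h3).resolve_left hdet))
    rw [e2, h4, one_smul]
  have hfc : ∀ τ : ℍ, ∃ F : Finset ℍ, (∀ τ', τ' ∈ F ↔ JoinedIn (EB G B) ζ (τ, τ')) ∧
      F.card ≤ G.natDegree * Fintype.card (Matrix (Fin 2) (Fin 2) (ZMod p)) := by
    intro τ
    obtain ⟨R, hRc, hR⟩ := graph_roots hlc (J τ)
    have hm : Set.MapsTo (fun τ' => (J τ', lab τ')) {τ' | JoinedIn (EB G B) ζ (τ, τ')}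
        (R ×ˢ (Finset.univ : Finset (Matrix (Fin 2) (Fin 2) (ZMod p))) : Finset _) := by
      intro a ha
      have ha' : JoinedIn (EB G B) ζ (τ, a) := ha
      have := hR (τ, a) ha'.target_mem rfl
      simpa using this
    have hf : {τ' | JoinedIn (EB G B) ζ (τ, τ')}.Finite :=
      Set.Finite.of_injOn hm (hinj τ) (Finset.finite_toSet _)
    refine ⟨hf.toFinset, fun τ' => by simp, ?_⟩
    refine (Finset.card_le_card_of_injOn (fun τ' => (J τ', lab τ'))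
      (t := R ×ˢ Finset.univ) (by simpa using hm) (by simpa using hinj τ)).trans ?_
    rw [Finset.card_product, Finset.card_univ]
    gcongr
  choose F hF hFc using hfc
  set N := G.natDegree * Fintype.card (Matrix (Fin 2) (Fin 2) (ZMod p)) with hN
  have hprod : ∀ (τ : ℍ) (s : Finset ℍ), s.card ≤ N → ‖∏ τ' ∈ s, gfac Y τ τ'‖ ≤ 4 ^ N := by
    intro τ s hs
    rw [norm_prod]
    calc ∏ τ' ∈ s, ‖gfac Y τ τ'‖ ≤ ∏ _τ' ∈ s, (4 : ℝ) :=
          Finset.prod_le_prod (fun _ _ => norm_nonneg _)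
            fun τ' _ => (gfac_le hdet τ.coe_im_pos τ'.coe_im_pos).1
      _ = 4 ^ s.card := Finset.prod_const _
      _ ≤ 4 ^ N := pow_le_pow_right₀ (by norm_num) hs
  -- local bound
  have hloc : ∀ τ₁ : ℍ, J τ₁ ∉ B → ∃ C : ℝ, ∀ᶠ τ : ℍ in 𝓝 τ₁, ∃ τ' : ℍ,
      JoinedIn (EB G B) ζ (τ, τ') ∧ Near C τ (gmob Y τ') := by
    intro τ₁ hτ₁
    obtain ⟨ρ, hρ, hU, φ, hφ, hbij⟩ := graph_fam hS ζ τ₁ hτ₁
    obtain ⟨a, ha⟩ := graph_nonempty hS ζ hζ τ₁ hτ₁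
    have c1 : ContinuousAt (fun z => gmob Y (φ a z)) (τ₁ : ℂ) :=
      (gmob_diff hdet (hφ a ha)).continuousOn.continuousAt (Metric.ball_mem_nhds _ hρ)
    have c2 : ContinuousAt (fun z : ℂ => Complex.normSq (gmob Y (φ a z) - z) /
        (|(gmob Y (φ a z)).im| * |z.im|)) (τ₁ : ℂ) := by
      refine ContinuousAt.div (Complex.continuous_normSq.continuousAt.comp (c1.sub continuousAt_id))
        ((Complex.continuous_im.continuousAt.comp c1).abs.mul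
          Complex.continuous_im.continuousAt.abs) (mul_ne_zero ?_ ?_)
      · exact abs_ne_zero.2 (gmob_im_ne hdet (φ a τ₁).coe_im_pos.ne')
      · exact abs_ne_zero.2 τ₁.coe_im_pos.ne'
    have c3 := (c2.comp UpperHalfPlane.continuous_coe.continuousAt).eventually
      (gt_mem_nhds (lt_add_one _))
    refine ⟨Complex.normSq (gmob Y (φ a τ₁) - τ₁) /
      (|(gmob Y (φ a τ₁)).im| * |(τ₁ : ℂ).im|) + 1, ?_⟩
    filter_upwards [c3, graph_ball_nhds τ₁ hρ] with τ e1 e2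
    have hb := (hbij τ e2).mapsTo ha
    rw [ofComplex_apply] at hb
    refine ⟨φ a τ, hb, ?_⟩
    have hpos : 0 < |(gmob Y (φ a τ)).im| * |(τ : ℂ).im| :=
      mul_pos (abs_pos.2 (gmob_im_ne hdet (φ a τ).coe_im_pos.ne')) (abs_pos.2 τ.coe_im_pos.ne')
    exact (div_le_iff₀ hpos).1 e1.le
  have hcomp : ∀ K : Set ℍ, IsCompact K → (∀ σ ∈ K, J σ ∉ B) → ∃ C : ℝ, ∀ τ ∈ K, ∃ τ' : ℍ,
      JoinedIn (EB G B) ζ (τ, τ') ∧ Near C τ (gmob Y τ') := by
    intro K hK hKB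
    refine hK.induction_on (p := fun s => ∃ C : ℝ, ∀ τ ∈ s, ∃ τ' : ℍ,
      JoinedIn (EB G B) ζ (τ, τ') ∧ Near C τ (gmob Y τ')) ⟨0, by simp⟩ ?_ ?_ ?_
    · rintro s t hst ⟨C, hC⟩
      exact ⟨C, fun τ hτ => hC τ (hst hτ)⟩
    · rintro s t ⟨C, hC⟩ ⟨C', hC'⟩
      refine ⟨max C C', ?_⟩
      rintro τ (hτ | hτ)
      · obtain ⟨a, a1, a2⟩ := hC τ hτ
        exact ⟨a, a1, a2.mono (le_max_left _ _)⟩
      · obtain ⟨a, a1, a2⟩ := hC' τ hτ
        exact ⟨a, a1, a2.mono (le_max_right _ _)⟩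
    · intro x hx
      obtain ⟨C, hC⟩ := hloc x (hKB x hx)
      exact ⟨_, nhdsWithin_le_nhds hC, C, fun τ hτ => hτ⟩
  have hvan := pl_vanish B (fun τ => ∏ τ' ∈ F τ, gfac Y τ τ') ?_ (4 ^ N)
    (fun τ _ => hprod τ _ (hFc τ)) ?_
  · have hex : ∀ τ : ℍ, J τ ∉ B → ∃ τ' : ℍ, JoinedIn (EB G B) ζ (τ, τ') ∧ gmob Y τ' = τ := by
      intro τ hτ
      obtain ⟨a, a1, a2⟩ := Finset.prod_eq_zero_iff.1 (hvan τ hτ)
      exact ⟨a, (hF τ a).1 a1, gfac_eq_zero hdet τ.coe_im_pos a.coe_im_pos a2⟩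
    have hpos : 0 < Y.det := by
      obtain ⟨a, -, a2⟩ := hex ζ.1 hζ.1
      have e1 := gmob_im (A := Y) (a : ℂ)
      rw [a2] at e1
      have e2 := ζ.1.coe_im_pos
      rw [e1] at e2
      have e3 : 0 < Complex.normSq (gden Y a) :=
        Complex.normSq_pos.2 (gden_ne hdet a.coe_im_pos.ne')
      have e4 := (div_pos_iff_of_pos_right e3).1 e2
      exact_mod_cast (mul_pos_iff_of_pos_right a.coe_im_pos).1 e4
    refine ⟨Y 1 1, -Y 0 1, -Y 1 0, Y 0 0, by rw [Matrix.det_fin_two] at hpos; linarith, ?_⟩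
    intro τ τ' he hτ
    obtain ⟨a, a1, a2⟩ := hex τ hτ
    have e1 : gden !![Y 1 1, -Y 0 1; -Y 1 0, Y 0 0] τ ≠ 0 := by
      refine gden_ne ?_ τ.coe_im_pos.ne'
      rw [Matrix.det_fin_two] at hpos
      rw [Matrix.det_fin_two_of]
      linarith
    have e2 : (a : ℂ) * gden !![Y 1 1, -Y 0 1; -Y 1 0, Y 0 0] τ
        = (τ' : ℂ) * gden !![Y 1 1, -Y 0 1; -Y 1 0, Y 0 0] τ := by
      rw [gmob, div_eq_iff (gden_ne hdet a.coe_im_pos.ne')] at a2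
      have e0 : gden !![Y 1 1, -Y 0 1; -Y 1 0, Y 0 0] τ = -(Y 1 0 : ℂ) * τ + Y 0 0 := by
        simp [gden]
      rw [e0]
      simp only [gden] at a2
      push_cast at he
      linear_combination a2 - he
    have e3 : a = τ' := UpperHalfPlane.ext (mul_right_cancel₀ e1 e2)
    rw [← e3]
    exact a1.target_mem.2
  · rintro z ⟨hz, hzB⟩
    obtain ⟨ρ, hρ, hU, φ, hφ, hbij⟩ := graph_fam hS ζ (ofComplex z) hzB
    rw [graph_coe_ofC hz] at hU hφ hbij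
    have d1 : DifferentiableOn ℂ (fun w => ∏ a ∈ F (ofComplex z), gfac Y w (φ a w))
        (Metric.ball z ρ) :=
      DifferentiableOn.fun_finsetProd fun a ha =>
        gfac_diff hdet (fun w hw => (hU w hw).1) (hφ a ((hF _ a).1 ha))
    refine ((d1.congr fun w hw => ?_).differentiableAt
      (Metric.ball_mem_nhds z hρ)).differentiableWithinAt
    simp only [Function.comp_apply]
    rw [graph_coe_ofC (hU w hw).1]
    symm
    refine Finset.prod_nbij (fun a => φ a w) (fun a ha => ?_) (fun a ha b hb hab => ?_)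
      (fun b hb => ?_) fun _ _ => rfl
    · exact (hF _ _).2 ((hbij w hw).mapsTo ((hF _ a).1 ha))
    · exact (hbij w hw).injOn ((hF _ a).1 ha) ((hF _ b).1 hb) hab
    · obtain ⟨a, a1, a2⟩ := (hbij w hw).surjOn ((hF _ b).1 hb)
      exact ⟨a, (hF _ a).2 a1, a2⟩
  · intro K hK hKB
    have hK' : IsCompact (⋃ l ∈ Set.range lab3,
        (fun σ : ℍ => Function.invFun lab3 l • σ) '' K) :=
      hfin3.isCompact_biUnion fun l _ => hK.image (graph_smul_cont _)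
    obtain ⟨C, hC⟩ := hcomp _ hK' (by
      intro σ hσ
      simp only [Set.mem_iUnion] at hσ
      obtain ⟨l, -, σ', h1, rfl⟩ := hσ
      rw [J_smul]
      exact hKB σ' h1)
    refine ⟨4 ^ N * (max C 0 + 1), fun δ σ hσ => ?_⟩
    set δ₀ := Function.invFun lab3 (lab3 δ) with hδ₀
    obtain ⟨a, a1, a2⟩ := hC (δ₀ • σ) (by
      simp only [Set.mem_iUnion]
      exact ⟨lab3 δ, Set.mem_range_self _, σ, hσ, rfl⟩)
    obtain ⟨γ', b1, b2⟩ := hlab3 δ₀ δ (Function.invFun_eq ⟨δ, rfl⟩)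
    have b3 := b1 _ _ a1
    have b0 : (δ * δ₀⁻¹) • δ₀ • σ = δ • σ := by rw [mul_smul, inv_smul_smul]
    rw [b0] at b3
    have b4 := (a2.mono (le_max_left C 0)).smul (δ₀ • σ).coe_im_pos.ne'
      (gmob_im_ne hdet a.coe_im_pos.ne') (δ * δ₀⁻¹)
    have hd1 : ∀ γ : SL(2, ℤ), (γ : Matrix (Fin 2) (Fin 2) ℤ).det ≠ 0 := fun γ => by
      rw [γ.det_coe]; exact one_ne_zero
    rw [← gmob_smul, b0, ← gmob_mul (hd1 _) hdet a.coe_im_pos.ne', b2,
      gmob_mul hdet (hd1 _) a.coe_im_pos.ne', ← gmob_smul] at b4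
    have b5 := b4.norm_le (le_max_right C 0)
    rw [abs_of_pos (δ • σ).coe_im_pos] at b5
    have hm : γ' • a ∈ F (δ • σ) := (hF _ _).2 b3
    rw [← Finset.prod_erase_mul _ _ hm, norm_mul, mul_assoc]
    exact mul_le_mul (hprod _ _ ((Finset.card_erase_le).trans (hFc _)))
      ((gfac_le hdet (δ • σ).coe_im_pos (γ' • a).coe_im_pos).2.trans b5) (norm_nonneg _)
      (by positivity)

end

end Pool.Agent.P.MP_a60a76_nt.SP
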