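import Pool.Agent.P.MP_a60a76_nt.SP.Poly
import Pool.Agent.P.MP_a60a76_nt.SP.Res

namespace Pool.Agent.P.MP_a60a76_nt.SP

open Polynomial UpperHalfPlane PeriodPair
open scoped MatrixGroups UpperHalfPlane Matrix Modular Topology Classical

noncomputable section

theorem Hecke.symm {x y : ℂ} (h : Hecke x y) : Hecke y x := by
  obtain ⟨a, b, c, d, τ, τ', h1, h2, h3, h4⟩ := h
  refine ⟨d, -b, -c, a, τ', τ, by linarith, ?_, h4, h3⟩
  push_cast
  linear_combination -h2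

/-- The real invertible matrix `g` is the integral matrix `M`. -/
def IsI (g : GL (Fin 2) ℝ) (M : Matrix (Fin 2) (Fin 2) ℤ) : Prop :=
  (g : Matrix (Fin 2) (Fin 2) ℝ) = M.map (Int.castRingHom ℝ)

section

variable {g g' : GL (Fin 2) ℝ} {M M' : Matrix (Fin 2) (Fin 2) ℤ}

theorem IsI.mul (h : IsI g M) (h' : IsI g' M') : IsI (g * g') (M * M') := by
  rw [IsI, Units.val_mul, h, h', Matrix.map_mul]

theorem isI_sl (γ : SL(2, ℤ)) : IsI (γ : GL (Fin 2) ℝ) γ := rfl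

theorem IsI.det (h : IsI g M) : g.det.val = (M.det : ℝ) := by
  rw [Matrix.GeneralLinearGroup.val_det_apply, h]
  exact ((Int.castRingHom ℝ).map_det M).symm

theorem IsI.unique (h : IsI g M) (h' : IsI g' M) : g = g' := Units.ext (h.trans h'.symm)

theorem IsI.apply (h : IsI g M) (i j : Fin 2) : g i j = (M i j : ℝ) := congrFun (congrFun h i) j

theorem exists_isI (hM : 0 < M.det) : ∃ g, IsI g M := by
  refine ⟨Matrix.GeneralLinearGroup.mkOfDetNeZero (M.map (Int.castRingHom ℝ)) ?_, rfl⟩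
  have h : (M.map (Int.castRingHom ℝ)).det = (M.det : ℝ) := ((Int.castRingHom ℝ).map_det M).symm
  rw [h]
  exact_mod_cast hM.ne'

theorem IsI.det_pos (h : IsI g M) (hM : 0 < M.det) : 0 < g.det.val := by
  rw [h.det]
  exact_mod_cast hM

theorem IsI.coe_smul (h : IsI g M) (hM : 0 < M.det) (τ : ℍ) :
    ((g • τ : ℍ) : ℂ) * (M 1 0 * τ + M 1 1) = M 0 0 * τ + M 0 1 := by
  have h1 : denom g τ = M 1 0 * τ + M 1 1 := by simp [denom, h.apply]
  have h2 : num g τ = M 0 0 * τ + M 0 1 := by simp [num, h.apply]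
  rw [coe_smul_of_det_pos (h.det_pos hM), ← h1, ← h2, div_mul_cancel₀ _ (denom_ne_zero g τ)]

theorem IsI.im_le (h : IsI g M) (hM : 0 < M.det) {τ : ℍ} (hτ : τ ∈ 𝒟) :
    (g • τ).im ≤ 2 * M.det * τ.im := by
  have h1 : 1 / 2 ≤ Complex.normSq (denom g τ) := by
    by_cases hc : M 1 0 = 0
    · have h2 : denom g τ = (M 1 1 : ℝ) := by simp [denom, h.apply, hc]
      have h3 : M 1 1 ≠ 0 := fun h3 => denom_ne_zero g τ (by simp [h2, h3])
      have h4 : (1 : ℝ) ≤ M 1 1 * M 1 1 := by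
        exact_mod_cast (show 1 ≤ M 1 1 * M 1 1 from mul_self_pos.2 h3)
      rw [h2, Complex.normSq_ofReal]
      linarith
    · have h2 := c_mul_im_sq_le_normSq_denom g τ
      have h3 := ModularGroup.three_le_four_mul_im_sq_of_mem_fd hτ
      have h4 : (1 : ℝ) ≤ M 1 0 * M 1 0 := by
        exact_mod_cast (show 1 ≤ M 1 0 * M 1 0 from mul_self_pos.2 hc)
      rw [h.apply] at h2
      nlinarith
  have h2 := h.det_pos hM
  rw [UpperHalfPlane.im_smul_eq_div_normSq, abs_of_pos h2, div_le_iff₀ (by linarith), ← h.det]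
  have h3 := mul_le_mul_of_nonneg_left h1 (mul_pos h2 τ.im_pos).le
  linarith

theorem IsI.mod (h : IsI g M) {n : ℕ} (hn : M.det = n) (hM : 0 < M.det) :
    Mod (2 * n) fun τ => J (g • τ) := by
  refine ⟨mdifferentiable_iff.1 ((mdifferentiable_iff.2 J_hol).comp
    (mdifferentiable_smul (h.det_pos hM))), ?_⟩
  obtain ⟨C, hC⟩ := J_mod.2
  refine ⟨|C|, fun γ τ hτ => ?_⟩
  obtain ⟨δ, hδ⟩ := ModularGroup.exists_smul_mem_fd (g • γ • τ)
  have h1 := hC 1 _ hδ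
  rw [one_smul, J_smul] at h1
  have h2 : (δ.1 * M * γ.1).det = M.det := by simp [Matrix.det_mul]
  have h3 := (((isI_sl δ).mul h).mul (isI_sl γ)).im_le (h2 ▸ hM) hτ
  rw [mul_smul, mul_smul, h2, hn] at h3
  refine h1.trans (mul_le_mul (le_abs_self C) (Real.exp_le_exp.2 ?_) (Real.exp_pos _).le
    (abs_nonneg C))
  have h4 := mul_le_mul_of_nonneg_left h3 Real.pi_pos.le
  push_cast at h4 ⊢
  change Real.pi * (δ • g • γ • τ).im ≤ _ at h4
  linarith

theorem IsI.congr (h : IsI g M) {n : ℕ} (hn : M.det = n) (hM : 0 < M.det) {γ γ' : SL(2, ℤ)}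
    (e : red n γ = red n γ') (τ : ℍ) : J (g • γ • τ) = J (g • γ' • τ) := by
  have h1 : ∀ i j, ∃ k : ℤ, γ i j - γ' i j = n * k := fun i j =>
    (ZMod.intCast_eq_intCast_iff_dvd_sub _ _ n).1 (congrFun (congrFun e i) j).symm
  choose K hK using h1
  have h2 : γ.1 = γ'.1 + (n : ℤ) • Matrix.of K := by
    ext i j
    have := hK i j
    simp only [Matrix.add_apply, Matrix.smul_apply, Matrix.of_apply, smul_eq_mul]
    linarith
  have h3 : (1 + M * Matrix.of K * (γ'⁻¹).1 * M.adjugate) * M * γ'.1 = M * γ.1 := by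
    have h4 : (γ'⁻¹).1 * γ'.1 = 1 := by
      rw [← Matrix.SpecialLinearGroup.coe_mul, inv_mul_cancel, Matrix.SpecialLinearGroup.coe_one]
    rw [add_mul, one_mul, mul_assoc _ M.adjugate, Matrix.adjugate_mul, hn, h2, add_mul, mul_add,
      Matrix.mul_smul, mul_one, Matrix.smul_mul, mul_assoc _ _ γ'.1, h4, mul_one, Matrix.mul_smul]
  have h4 : (1 + M * Matrix.of K * (γ'⁻¹).1 * M.adjugate).det = 1 := by
    have h5 := congrArg Matrix.det h3
    simp only [Matrix.det_mul, Matrix.SpecialLinearGroup.det_coe, mul_one] at h5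
    exact mul_right_cancel₀ hM.ne' (h5.trans (one_mul _).symm)
  have h5 := ((isI_sl ⟨_, h4⟩).mul h).mul (isI_sl γ')
  have h6 := (h.mul (isI_sl γ)).unique (h3 ▸ h5)
  have h7 := congrArg (fun u : GL (Fin 2) ℝ => J (u • τ)) h6
  simp only [mul_smul] at h7
  exact h7.trans (J_smul ⟨_, h4⟩ _)

theorem IsI.modpoly (h : IsI g M) (hM : 0 < M.det) : ∃ F : ℂ[X][X], ∀ (τ : ℍ) (y : ℂ),
    F.evalEval (J τ) y = 0 ↔ ∃ γ : SL(2, ℤ), y = J (g • γ • τ) := by
  obtain ⟨n, hn⟩ := Int.eq_ofNat_of_zero_le hM.le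
  have : NeZero n := ⟨by omega⟩
  let f : SL(2, ℤ) → ℍ → ℂ := fun γ τ => J (g • γ • τ)
  have hS : (Set.range f).Finite := by
    refine (Set.finite_range (f ∘ Function.invFun (red n))).subset ?_
    rintro _ ⟨γ, rfl⟩
    exact ⟨red n γ, funext fun τ => h.congr hn hM (Function.invFun_eq ⟨γ, rfl⟩) τ⟩
  have hm : ∀ (δ : SL(2, ℤ)), ∀ i ∈ hS.toFinset, (fun τ => i (δ • τ)) ∈ hS.toFinset := by
    intro δ i hi
    obtain ⟨γ, rfl⟩ := hS.mem_toFinset.1 hi
    exact hS.mem_toFinset.2 ⟨γ * δ, funext fun τ => by simp only [f, mul_smul]⟩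
  obtain ⟨F, -, hF⟩ := poly1_prod hS.toFinset (2 * n) (fun i => i)
    (fun i hi => by
      obtain ⟨γ, rfl⟩ := hS.mem_toFinset.1 hi
      exact (h.mod hn hM).smul γ)
    fun δ τ => Finset.prod_nbij' (fun i τ => i (δ • τ)) (fun i τ => i (δ⁻¹ • τ)) (hm δ) (hm δ⁻¹)
      (fun i _ => funext fun τ => by simp only [smul_inv_smul])
      (fun i _ => funext fun τ => by simp only [inv_smul_smul]) fun _ _ => rfl
  refine ⟨F, fun τ y => ?_⟩
  rw [← map_evalRingHom_eval, hF, eval_prod, Finset.prod_eq_zero_iff]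
  simp only [eval_sub, eval_X, eval_C, sub_eq_zero, Set.Finite.mem_toFinset, Set.mem_range]
  exact ⟨fun ⟨_, ⟨γ, e⟩, e'⟩ => ⟨γ, by rw [e', ← e]⟩, fun ⟨γ, e⟩ => ⟨_, ⟨γ, rfl⟩, e⟩⟩

end

/-- An irreducible curve containing a graph consists of related invariants. -/
theorem hecke_of_graph (G : ℂ[X][X]) (hG : Irreducible G) (B : Finset ℂ) (a b c d : ℤ)
    (hdet : 0 < a * d - b * c)
    (h : ∀ τ τ' : ℍ, (τ' : ℂ) * (c * τ + d) = a * τ + b → J τ ∉ B →
      G.evalEval (J τ) (J τ') = 0) :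
    ∀ x y, G.evalEval x y = 0 → Hecke x y := by
  have hM : 0 < (!![a, b; c, d] : Matrix (Fin 2) (Fin 2) ℤ).det := by
    rwa [Matrix.det_fin_two_of]
  obtain ⟨g, hg⟩ := exists_isI hM
  have hs : ∀ τ : ℍ, ((g • τ : ℍ) : ℂ) * (c * τ + d) = a * τ + b := hg.coe_smul hM
  obtain ⟨F, hF⟩ := hg.modpoly hM
  have hd : G ∣ F := by
    by_contra hd
    obtain ⟨D, hD⟩ := exists_bdeg G
    obtain ⟨D', hD'⟩ := exists_bdeg F
    have h1 := (bezout hG hd (hD.mono (le_max_left D D')) (hD'.mono (le_max_right D D'))).1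
    refine Set.infinite_univ (α := ℂ) (((h1.image Prod.fst).union B.finite_toSet).subset ?_)
    intro x _
    obtain ⟨τ, rfl⟩ := J_surj x
    by_cases hx : J τ ∈ B
    · exact Or.inr hx
    · exact Or.inl ⟨(J τ, J (g • τ)), ⟨h τ _ (hs τ) hx, (hF τ _).2 ⟨1, by rw [one_smul]⟩⟩, rfl⟩
  intro x y hxy
  obtain ⟨τ, rfl⟩ := J_surj x
  obtain ⟨Q, rfl⟩ := hd
  obtain ⟨γ, rfl⟩ := (hF τ y).1 (by rw [evalEval_mul, hxy, zero_mul])
  exact ⟨a, b, c, d, γ • τ, g • γ • τ, hdet, hs _, J_smul γ τ, rfl⟩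

end

end Pool.Agent.P.MP_a60a76_nt.SP
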