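import Pool.Agent.P.MP_a60a76_nt.SP.Sep
import Pool.Agent.P.MP_a60a76_nt.SP.HvMod
import Pool.Agent.P.MP_a60a76_nt.SP.JInj

namespace Pool.Agent.P.MP_a60a76_nt.SP

open Polynomial UpperHalfPlane PeriodPair
open scoped MatrixGroups UpperHalfPlane Matrix Modular Topology Classical

noncomputable section

namespace Orb

theorem hol_zero {f : ℍ → ℂ} (hf : Hol f) {τ : ℍ} (h : ∃ᶠ z in 𝓝[≠] τ, f z = 0) (z : ℍ) :
    f z = 0 := by
  have := UpperHalfPlane.eq_zero_of_frequently (UpperHalfPlane.mdifferentiable_iff.mpr hf) h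
  exact congrFun this z

theorem hol_eval (Q : ℂ[X]) {f : ℍ → ℂ} (hf : Hol f) : Hol fun τ => Q.eval (f τ) :=
  (Polynomial.differentiable Q).comp_differentiableOn hf

theorem hol_evalEval (P : ℂ[X][X]) {f h : ℍ → ℂ} (hf : Hol f) (hh : Hol h) :
    Hol fun τ => P.evalEval (f τ) (h τ) := by
  induction P using Polynomial.induction_on' with
  | add p q hp hq =>
    have e : (fun τ => (p + q).evalEval (f τ) (h τ)) =
        fun τ => p.evalEval (f τ) (h τ) + q.evalEval (f τ) (h τ) := by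
      funext τ
      rw [evalEval_add]
    rw [e]
    exact DifferentiableOn.add hp hq
  | monomial n a =>
    have e : (fun τ => (monomial n a : ℂ[X][X]).evalEval (f τ) (h τ)) =
        fun τ => a.eval (f τ) * h τ ^ n := by
      funext τ
      rw [← C_mul_X_pow_eq_monomial, evalEval_mul, evalEval_C, evalEval_pow, evalEval_X]
    rw [e]
    exact DifferentiableOn.mul (hol_eval a hf) (DifferentiableOn.pow hh n)

/-- The abstract counting statement. -/
theorem core {ι κ : Type} [Fintype ι] [Fintype κ] (A : Set ι) (w : ι → ℍ → ℂ) (N : ℕ)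
    (hw : ∀ g, Hol (w g)) (hc : ∀ g, Continuous (w g))
    (hN : ∀ c : ℂ, (Finset.univ.filter fun g => w g I = c).card ≤ N)
    (horb : ∀ g ∈ A, ∃ φ : κ → ι, Function.Injective φ ∧
      ∀ k, ∃ γ : SL(2, ℤ), ∀ τ, w g (γ • τ) = w (φ k) τ)
    (P : ℂ[X][X]) (hP : 1 ≤ P.natDegree) (S : Finset ℂ)
    (hS : ∀ τ, J τ ∉ S → ∀ ω, P.evalEval (J τ) ω = 0 → ∃ g ∈ A, ω = w g τ) :
    Fintype.card κ ≤ N * P.natDegree := by
  have hP0 : P ≠ 0 := by
    rintro rfl
    simp at hP
  have hlc : P.leadingCoeff ≠ 0 := leadingCoeff_ne_zero.mpr hP0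
  set Q : ℂ[X] := P.leadingCoeff * ∏ s ∈ S, (X - C s) with hQ
  have hQ0 : Q ≠ 0 :=
    mul_ne_zero hlc (Finset.prod_ne_zero_iff.mpr fun s _ => X_sub_C_ne_zero s)
  have hev : ∀ᶠ τ in 𝓝[≠] (I : ℍ), Q.eval (J τ) ≠ 0 := by
    by_contra h
    have h' : ∃ᶠ τ in 𝓝[≠] (I : ℍ), Q.eval (J τ) = 0 := h
    apply hQ0
    apply Polynomial.funext
    intro x
    obtain ⟨τ, rfl⟩ := J_surj x
    simpa using hol_zero (hol_eval Q J_hol) h' τ
  have hgood : ∀ τ, Q.eval (J τ) ≠ 0 → J τ ∉ S ∧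
      (P.map (evalRingHom (J τ))).natDegree = P.natDegree := by
    intro τ h
    rw [hQ, eval_mul, eval_prod] at h
    obtain ⟨h1, h2⟩ := mul_ne_zero_iff.mp h
    refine ⟨fun hs => ?_, natDegree_map_of_leadingCoeff_ne_zero _ (by simpa using h1)⟩
    exact Finset.prod_ne_zero_iff.mp h2 _ hs (by simp)
  have hevv : ∀ x ω : ℂ, (P.map (evalRingHom x)).eval ω = P.evalEval x ω := fun x ω =>
    map_evalRingHom_eval x ω P
  have h1 : ∀ᶠ τ in 𝓝[≠] (I : ℍ), ∃ g, g ∈ A ∧ P.evalEval (J τ) (w g τ) = 0 := by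
    filter_upwards [hev] with τ hτ
    obtain ⟨hs, hd⟩ := hgood τ hτ
    have hdeg : (P.map (evalRingHom (J τ))).degree ≠ 0 := by
      intro h0
      have := natDegree_eq_of_degree_eq_some (n := 0) h0
      omega
    obtain ⟨ω, hω⟩ := IsAlgClosed.exists_root _ hdeg
    have hω' : P.evalEval (J τ) ω = 0 := by rw [← hevv]; exact hω
    obtain ⟨g, hg, rfl⟩ := hS τ hs ω hω'
    exact ⟨g, hg, hω'⟩
  obtain ⟨g, hg⟩ := Filter.frequently_exists.mp h1.frequently
  have hgA : g ∈ A := by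
    obtain ⟨_, h, _⟩ := hg.exists
    exact h
  have hz : ∀ τ, P.evalEval (J τ) (w g τ) = 0 :=
    hol_zero (hol_evalEval P J_hol (hw g)) (hg.mono fun _ h => h.2)
  obtain ⟨φ, hφ, hγ⟩ := horb g hgA
  have hz' : ∀ k τ, P.evalEval (J τ) (w (φ k) τ) = 0 := by
    intro k τ
    obtain ⟨γ, h⟩ := hγ k
    rw [← h τ, ← J_smul γ τ]
    exact hz _
  have hsep : ∀ᶠ τ in 𝓝 (I : ℍ), ∀ a b : ι, w a I ≠ w b I → w a τ ≠ w b τ := by
    rw [Filter.eventually_all]
    intro a
    rw [Filter.eventually_all]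
    intro b
    by_cases hab : w a I = w b I
    · exact Filter.Eventually.of_forall fun _ h => (h hab).elim
    · have := (isOpen_ne_fun (hc a) (hc b)).mem_nhds (x := (I : ℍ)) hab
      filter_upwards [this] with τ h _
      exact h
  obtain ⟨τ, hτ1, hτ2⟩ := (hev.and (hsep.filter_mono nhdsWithin_le_nhds)).exists
  obtain ⟨_, hd⟩ := hgood τ hτ1
  set R := P.map (evalRingHom (J τ)) with hR
  have hR0 : R ≠ 0 := by
    intro h0
    rw [h0] at hd
    simp at hd
    omega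
  have hmain : (Finset.univ : Finset κ).card ≤ N * R.roots.toFinset.card := by
    apply Finset.card_le_mul_card_image_of_maps_to (f := fun k => w (φ k) τ)
    · intro k _
      rw [Multiset.mem_toFinset, mem_roots hR0, IsRoot, hR, hevv]
      exact hz' k τ
    · intro c _
      rcases (Finset.univ.filter fun k => w (φ k) τ = c).eq_empty_or_nonempty with h | ⟨k₀, hk₀⟩
      · rw [h]
        simp
      · refine le_trans ?_ (hN (w (φ k₀) I))
        apply Finset.card_le_card_of_injOn φ _ hφ.injOn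
        intro k hk
        simp only [Finset.coe_filter, Finset.mem_univ, true_and, Set.mem_ofPred_eq,
          Finset.mem_filter] at hk hk₀ ⊢
        by_contra hne
        exact hτ2 _ _ hne (hk.trans hk₀.symm)
  calc Fintype.card κ ≤ N * R.roots.toFinset.card := hmain
    _ ≤ N * P.natDegree := by
      apply Nat.mul_le_mul_left
      rw [← hd]
      exact (Multiset.toFinset_card_le _).trans (card_roots' R)

/-- Upper unipotent matrices. -/
def Uz (k : ℤ) : SL(2, ℤ) := ⟨!![1, k; 0, 1], by simp [Matrix.det_fin_two_of]⟩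

/-- Lower unipotent matrices. -/
def Lz (k : ℤ) : SL(2, ℤ) := ⟨!![1, 0; k, 1], by simp [Matrix.det_fin_two_of]⟩

theorem Uz_inv (k : ℤ) : (Uz k)⁻¹ = Uz (-k) := by
  apply inv_eq_of_mul_eq_one_right
  ext i j
  fin_cases i <;> fin_cases j <;> simp [Uz, Matrix.mul_apply, Fin.sum_univ_two]

theorem Lz_inv (k : ℤ) : (Lz k)⁻¹ = Lz (-k) := by
  apply inv_eq_of_mul_eq_one_right
  ext i j
  fin_cases i <;> fin_cases j <;> simp [Lz, Matrix.mul_apply, Fin.sum_univ_two]

theorem red_Uz (p : ℕ) (k : ℤ) : red p (Uz k) = !![1, (k : ZMod p); 0, 1] := by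
  ext i j
  fin_cases i <;> fin_cases j <;> simp [red, Uz]

theorem red_Lz (p : ℕ) (k : ℤ) : red p (Lz k) = !![1, 0; (k : ZMod p), 1] := by
  ext i j
  fin_cases i <;> fin_cases j <;> simp [red, Lz]

theorem nonScalar_conj {p : ℕ} {α : Matrix (Fin 2) (Fin 2) (ZMod p)} (h : NonScalar α)
    (γ : SL(2, ℤ)) : NonScalar (red p γ⁻¹ * α * red p γ) := by
  by_contra hn
  simp only [NonScalar, not_or, not_not] at hn
  obtain ⟨h1, h2, h3⟩ := hn
  set β := red p γ⁻¹ * α * red p γ with hβ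
  have e1 : β = β 1 1 • (1 : Matrix (Fin 2) (Fin 2) (ZMod p)) := by
    ext i j
    fin_cases i <;> fin_cases j <;> simp [h1, h2, h3]
  have e2 : red p γ * red p γ⁻¹ = 1 := by rw [← red_mul, mul_inv_cancel, red_one]
  have e3 : α = red p γ * β * red p γ⁻¹ := by
    rw [hβ]
    calc α = (red p γ * red p γ⁻¹) * α * (red p γ * red p γ⁻¹) := by rw [e2, one_mul, mul_one]
      _ = _ := by simp only [mul_assoc]
  rw [e1, Matrix.mul_smul, mul_one, Matrix.smul_mul, e2] at e3
  rw [e3] at h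
  simp [NonScalar] at h

end Orb

open Orb

/-- Over a horizontal line all components of the cover have large degree. -/
theorem line (m : ℕ) : ∃ p₀ : ℕ, ∀ (p : ℕ) [Fact p.Prime], p₀ < p → ∃ Λ : ℕ, ∀ y₀ : ℂ,
    ∃ l ≤ Λ, ∃ μ ≤ Λ, NoSmall m (WG p l μ (X - C (C y₀))) := by
  refine ⟨2401 * m, fun p _ hp => ?_⟩
  obtain ⟨Λ, hΛ⟩ := sep p 1
  refine ⟨Λ, fun y₀ => ?_⟩
  obtain ⟨τ₀, hτ₀⟩ := J_surj y₀
  obtain ⟨l, hl, μ, hμ, hs⟩ := hΛ {((I : ℍ), τ₀)} (by simp)
  refine ⟨l, hl, μ, hμ, ?_⟩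
  rintro P hP1 hP2 ⟨S, hS⟩
  have hcont : ∀ g, Continuous fun τ : ℍ => wf p l μ g τ τ₀ := fun g =>
    Continuous.comp' (f := fun τ : ℍ => (τ, τ₀)) (g := fun ξ : ℍ × ℍ => wf p l μ g ξ.1 ξ.2)
      (wf_continuous p l μ g) (continuous_id.prodMk continuous_const)
  have hfib : ∀ c : ℂ, (Finset.univ.filter fun g : Matrix (Fin 2) (Fin 2) (ZMod p) =>
      wf p l μ g I τ₀ = c).card ≤ 2401 := fun c => hs _ (Finset.mem_singleton_self _) c
  have key := core (κ := ZMod p) {g : Matrix (Fin 2) (Fin 2) (ZMod p) | IsUnit g.det}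
    (fun g τ => wf p l μ g τ τ₀) 2401 (fun g => (wf_mod_left p l μ g τ₀).1)
    hcont hfib ?_ P hP1 S ?_
  · rw [ZMod.card] at key
    have : 2401 * P.natDegree ≤ 2401 * m := Nat.mul_le_mul_left _ hP2.le
    omega
  · intro g hg
    refine ⟨fun k => !![1, k; 0, 1] * g, ?_, fun k => ⟨Uz (-(k.val : ℤ)), fun τ => ?_⟩⟩
    · intro k k' h
      have hu : IsUnit g := (Matrix.isUnit_iff_isUnit_det g).mpr hg
      have h2 := hu.mul_right_cancel h
      simpa using congrFun (congrFun h2 0) 1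
    · have := wf_smul p l μ g (Uz (-(k.val : ℤ))) 1 τ τ₀
      rw [one_smul, red_one, mul_one, Uz_inv, neg_neg, red_Uz] at this
      simpa using this
  · intro τ hτ ω hω
    obtain ⟨σ, σ', g, hg, h1, h2, h3⟩ := hS _ hτ ω hω
    simp only at h1 h2 h3
    have h4 : J τ₀ = J σ' := by
      rw [evalEval_sub, evalEval_X, evalEval_CC, sub_eq_zero] at h2
      rw [hτ₀, h2]
    obtain ⟨γ, rfl⟩ := J_inj h1.symm
    obtain ⟨γ', rfl⟩ := J_inj h4
    refine ⟨red p γ⁻¹ * g * red p γ', ?_, by rw [h3, wf_smul]⟩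
    show IsUnit (red p γ⁻¹ * g * red p γ').det
    rw [Matrix.det_mul, Matrix.det_mul, red_det, red_det, one_mul, mul_one]
    exact hg

theorem diag (m : ℕ) : ∃ p₀ : ℕ, ∀ (p : ℕ) [Fact p.Prime], p₀ < p →
    ∃ l μ : ℕ, NoSmall m (WD p l μ) := by
  refine ⟨2401 * m, fun p _ hp => ?_⟩
  obtain ⟨Λ, hΛ⟩ := sep p 1
  obtain ⟨l, -, μ, -, hs⟩ := hΛ {((I : ℍ), (I : ℍ))} (by simp)
  refine ⟨l, μ, ?_⟩
  rintro P hP1 hP2 ⟨S, hS⟩
  have hcont : ∀ g, Continuous fun τ : ℍ => wf p l μ g τ τ := fun g =>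
    Continuous.comp' (f := fun τ : ℍ => (τ, τ)) (g := fun ξ : ℍ × ℍ => wf p l μ g ξ.1 ξ.2)
      (wf_continuous p l μ g) (continuous_id.prodMk continuous_id)
  have hfib : ∀ c : ℂ, (Finset.univ.filter fun g : Matrix (Fin 2) (Fin 2) (ZMod p) =>
      wf p l μ g I I = c).card ≤ 2401 := fun c => hs _ (Finset.mem_singleton_self _) c
  have key := core (κ := ZMod p) {α : Matrix (Fin 2) (Fin 2) (ZMod p) | NonScalar α}
    (fun g τ => wf p l μ g τ τ) 2401 (fun g => (wf_mod_diag p l μ g).1)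
    hcont hfib ?_ P hP1 S ?_
  · rw [ZMod.card] at key
    have : 2401 * P.natDegree ≤ 2401 * m := Nat.mul_le_mul_left _ hP2.le
    omega
  · intro α hα
    by_cases hb : α 0 1 = 0
    · refine ⟨fun k => !![1, k; 0, 1] * α * !![1, -k; 0, 1], ?_,
        fun k => ⟨Uz (-(k.val : ℤ)), fun τ => ?_⟩⟩
      · intro k k' h
        have h00 := congrFun (congrFun h 0) 0
        have h01 := congrFun (congrFun h 0) 1
        simp [Matrix.mul_apply, Fin.sum_univ_two, Matrix.vecMul, dotProduct] at h00 h01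
        rcases h00 with h00 | hc
        · exact h00
        · have had : α 0 0 ≠ α 1 1 := by
            rcases hα with h | h | h
            · exact (h hb).elim
            · exact (h hc).elim
            · exact h
          rw [hc] at h01
          have : (k - k') * (α 1 1 - α 0 0) = 0 := by linear_combination h01
          rcases mul_eq_zero.mp this with h | h
          · exact sub_eq_zero.mp h
          · exact (had (sub_eq_zero.mp h).symm).elim
      · have := wf_smul p l μ α (Uz (-(k.val : ℤ))) (Uz (-(k.val : ℤ))) τ τ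
        rw [Uz_inv, neg_neg, red_Uz, red_Uz] at this
        simpa using this
    · refine ⟨fun k => !![1, 0; k, 1] * α * !![1, 0; -k, 1], ?_,
        fun k => ⟨Lz (-(k.val : ℤ)), fun τ => ?_⟩⟩
      · intro k k' h
        have h00 := congrFun (congrFun h 0) 0
        simp [Matrix.mul_apply, Fin.sum_univ_two, Matrix.vecMul, dotProduct] at h00
        rcases h00 with h00 | h00
        · exact h00
        · exact (hb h00).elim
      · have := wf_smul p l μ α (Lz (-(k.val : ℤ))) (Lz (-(k.val : ℤ))) τ τ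
        rw [Lz_inv, neg_neg, red_Lz, red_Lz] at this
        simpa using this
  · intro τ hτ ω hω
    obtain ⟨σ, α, hα, h1, h3⟩ := hS _ hτ ω hω
    simp only at h1 h3
    obtain ⟨γ, rfl⟩ := J_inj h1.symm
    exact ⟨red p γ⁻¹ * α * red p γ, nonScalar_conj hα γ, by rw [h3, wf_smul]⟩

end

end Pool.Agent.P.MP_a60a76_nt.SP
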