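import Pool.Agent.P.MP_a60a76_nt.SP.Defs

namespace Pool.Agent.P.MP_a60a76_nt.SP

open Polynomial UpperHalfPlane PeriodPair
open scoped MatrixGroups UpperHalfPlane Matrix Modular Topology Classical

noncomputable section

/-- Elements given by a word of length at most `k` in `S` and its inverses. -/
def SchW {Γ : Type*} [Group Γ] (S : Set Γ) (k : ℕ) (x : Γ) : Prop :=
  ∃ l : List Γ, l.length ≤ k ∧ (∀ s ∈ l, s ∈ S ∨ s⁻¹ ∈ S) ∧ l.prod = x

theorem schW_one {Γ : Type*} [Group Γ] (S : Set Γ) (k : ℕ) : SchW S k 1 :=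
  ⟨[], by simp, by simp, by simp⟩

theorem schW_mono {Γ : Type*} [Group Γ] {S : Set Γ} {k k' : ℕ} {x : Γ} (h : SchW S k x)
    (hk : k ≤ k') : SchW S k' x := by
  obtain ⟨l, h1, h2, h3⟩ := h
  exact ⟨l, h1.trans hk, h2, h3⟩

theorem schW_mul {Γ : Type*} [Group Γ] {S : Set Γ} {k k' : ℕ} {x y : Γ} (h : SchW S k x)
    (h' : SchW S k' y) : SchW S (k + k') (x * y) := by
  obtain ⟨l, h1, h2, h3⟩ := h
  obtain ⟨l', h1', h2', h3'⟩ := h'
  refine ⟨l ++ l', by simp; omega, ?_, by simp [h3, h3']⟩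
  intro s hs
  rcases List.mem_append.1 hs with hs | hs
  · exact h2 s hs
  · exact h2' s hs

theorem schW_gen {Γ : Type*} [Group Γ] {S : Set Γ} {x : Γ} (h : x ∈ S) : SchW S 1 x :=
  ⟨[x], by simp, by simp [h], by simp⟩

theorem schW_inv {Γ : Type*} [Group Γ] {S : Set Γ} {k : ℕ} {x : Γ} (h : SchW S k x) :
    SchW S k x⁻¹ := by
  obtain ⟨l, h1, h2, h3⟩ := h
  refine ⟨(l.map fun s => s⁻¹).reverse, by simpa using h1, ?_, ?_⟩
  · intro s hs
    rw [List.mem_reverse, List.mem_map] at hs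
    obtain ⟨t, ht, rfl⟩ := hs
    rw [inv_inv]
    exact (h2 t ht).symm
  · rw [← h3, List.prod_inv_reverse]

/-- A subgroup acting with few orbits on a connected graph is generated by short words. -/
theorem schreier {Γ I L : Type*} [Group Γ] (S : Set Γ) (Ω : Set (Γ × I)) (i₀ : I)
    (H : Subgroup Γ) (lab : Γ × I → L) (T : Finset L) (hT : ∀ a ∈ Ω, lab a ∈ T)
    (h1 : (1, i₀) ∈ Ω)
    (hconn : ∀ a ∈ Ω, Relation.ReflTransGen (fun a b : Γ × I => a.1⁻¹ * b.1 ∈ S ∧ b ∈ Ω) (1, i₀) a)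
    (hH : ∀ h ∈ H, ∀ a ∈ Ω, (h * a.1, a.2) ∈ Ω)
    (hlab : ∀ a ∈ Ω, ∀ b ∈ Ω, lab a = lab b → a.2 = b.2 ∧ b.1 * a.1⁻¹ ∈ H) :
    H ≤ Subgroup.closure {x | x ∈ H ∧ ∃ l : List Γ, l.length ≤ 2 * T.card + 1 ∧
      (∀ s ∈ l, s ∈ S ∨ s⁻¹ ∈ S) ∧ l.prod = x} := by
  set O : ℕ → Γ × I → Prop := fun k a => ∃ h ∈ H, ∃ x, SchW S k x ∧ a.1 = h * x with hO
  have hO0 : ∀ k, O k (1, i₀) := fun k => ⟨1, H.one_mem, 1, schW_one S k, by simp⟩
  have hmono : ∀ k a, O k a → O (k + 1) a := by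
    rintro k a ⟨h, hh, x, hx, e⟩
    exact ⟨h, hh, x, schW_mono hx (Nat.le_succ k), e⟩
  have hstep : ∀ k a b, O k a → a.1⁻¹ * b.1 ∈ S → O (k + 1) b := by
    rintro k a b ⟨h, hh, x, hx, e⟩ hs
    refine ⟨h, hh, x * (a.1⁻¹ * b.1), schW_mul hx (schW_gen hs), ?_⟩
    rw [← mul_assoc, ← e]; group
  have hexit : ∀ k, (∃ a ∈ Ω, ¬ O k a) → ∃ b ∈ Ω, ¬ O k b ∧ O (k + 1) b := by
    rintro k ⟨a, ha, hna⟩
    by_contra hc
    push Not at hc
    apply hna
    have hp := hconn a ha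
    clear hna ha
    induction hp with
    | refl => exact hO0 k
    | tail _ hbc ih =>
      by_contra hn
      exact hc _ hbc.2 hn (hstep k _ _ ih hbc.1)
  have hgrow : ∀ k, (∀ a ∈ Ω, O k a) ∨
      k + 1 ≤ (T.filter fun t => ∃ a ∈ Ω, O k a ∧ lab a = t).card := by
    intro k
    induction k with
    | zero =>
      right
      rw [zero_add, Finset.one_le_card]
      exact ⟨lab (1, i₀), Finset.mem_filter.2 ⟨hT _ h1, _, h1, hO0 0, rfl⟩⟩
    | succ k ih =>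
      by_cases hall : ∀ a ∈ Ω, O k a
      · exact Or.inl fun a ha => hmono k a (hall a ha)
      right
      have ih' := ih.resolve_left hall
      push Not at hall
      obtain ⟨b, hb, hnb, hb'⟩ := hexit k hall
      refine (Nat.succ_le_succ ih').trans (Finset.card_lt_card ?_)
      rw [Finset.ssubset_iff_of_subset]
      · refine ⟨lab b, Finset.mem_filter.2 ⟨hT _ hb, b, hb, hb', rfl⟩, ?_⟩
        intro hm
        obtain ⟨-, a, ha, ⟨h, hh, x, hx, e⟩, hl⟩ := Finset.mem_filter.1 hm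
        apply hnb
        refine ⟨b.1 * a.1⁻¹ * h, H.mul_mem (hlab a ha b hb hl).2 hh, x, hx, ?_⟩
        rw [mul_assoc, ← e]; group
      · intro t ht
        obtain ⟨h0, a, ha, hoa, hl⟩ := Finset.mem_filter.1 ht
        exact Finset.mem_filter.2 ⟨h0, a, ha, hmono k a hoa, hl⟩
  have hall : ∀ a ∈ Ω, O T.card a := by
    refine (hgrow T.card).resolve_right ?_
    have := Finset.card_filter_le T fun t => ∃ a ∈ Ω, O T.card a ∧ lab a = t
    omega
  set C := Subgroup.closure {x | x ∈ H ∧ ∃ l : List Γ, l.length ≤ 2 * T.card + 1 ∧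
      (∀ s ∈ l, s ∈ S ∨ s⁻¹ ∈ S) ∧ l.prod = x} with hC
  have hgen : ∀ x ∈ H, SchW S (2 * T.card + 1) x → x ∈ C := fun x hx hw =>
    Subgroup.subset_closure ⟨hx, hw⟩
  have key : ∀ a, Relation.ReflTransGen (fun a b : Γ × I => a.1⁻¹ * b.1 ∈ S ∧ b ∈ Ω) (1, i₀) a →
      a ∈ Ω ∧ ∀ h ∈ H, ∀ x, SchW S T.card x → a.1 = h * x → h ∈ C := by
    intro a hp
    induction hp with
    | refl =>
      refine ⟨h1, fun h hh x hx e => hgen h hh ?_⟩
      have : h = x⁻¹ := eq_inv_of_mul_eq_one_left e.symm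
      rw [this]
      exact schW_mono (schW_inv hx) (by omega)
    | @tail b c _ hbc ih =>
      refine ⟨hbc.2, fun h' hh' x' hx' e' => ?_⟩
      obtain ⟨h, hh, x, hx, e⟩ := hall b ih.1
      have hhC := ih.2 h hh x hx e
      have hw : SchW S (2 * T.card + 1) (h⁻¹ * h') := by
        have := schW_mul (schW_mul hx (schW_gen hbc.1)) (schW_inv hx')
        have e2 : x * (b.1⁻¹ * c.1) * x'⁻¹ = h⁻¹ * h' := by
          rw [e, e']; group
        rw [e2] at this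
        exact schW_mono this (by omega)
      have := C.mul_mem hhC (hgen _ (H.mul_mem (H.inv_mem hh) hh') hw)
      simpa using this
  intro h hh
  have hΩ := hH h hh _ h1
  exact (key _ (hconn _ hΩ)).2 h hh 1 (schW_one S _) rfl

theorem sl2_bdd_inv {K : ℤ} (A : SL(2, ℤ)) (h : ∀ i j, |A i j| ≤ K) (i j : Fin 2) :
    |(A⁻¹ : SL(2, ℤ)) i j| ≤ K := by
  rw [Matrix.SpecialLinearGroup.SL2_inv_expl]
  have h00 := h 0 0
  have h01 := h 0 1
  have h10 := h 1 0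
  have h11 := h 1 1
  fin_cases i <;> fin_cases j <;> simpa using ‹_›

theorem bdd_inv {K : ℕ} {γ : SL(2, ℤ) × SL(2, ℤ)} (h : Bdd K γ) : Bdd K γ⁻¹ := fun i j =>
  ⟨sl2_bdd_inv γ.1 (fun i j => (h i j).1) i j, sl2_bdd_inv γ.2 (fun i j => (h i j).2) i j⟩

theorem sl2_bdd_mul {K K' : ℤ} (A B : SL(2, ℤ)) (h : ∀ i j, |A i j| ≤ K)
    (h' : ∀ i j, |B i j| ≤ K') (i j : Fin 2) : |(A * B : SL(2, ℤ)) i j| ≤ 2 * K * K' := by
  have e : (A * B : SL(2, ℤ)) i j = A i 0 * B 0 j + A i 1 * B 1 j := by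
    rw [Matrix.SpecialLinearGroup.coe_mul, Matrix.mul_apply, Fin.sum_univ_two]
  rw [e]
  have hK : 0 ≤ K := (abs_nonneg _).trans (h 0 0)
  have a1 : |A i 0 * B 0 j| ≤ K * K' := by
    rw [abs_mul]; exact mul_le_mul (h _ _) (h' _ _) (abs_nonneg _) hK
  have a2 : |A i 1 * B 1 j| ≤ K * K' := by
    rw [abs_mul]; exact mul_le_mul (h _ _) (h' _ _) (abs_nonneg _) hK
  have := abs_add_le (A i 0 * B 0 j) (A i 1 * B 1 j)
  linarith

theorem bdd_words (K n : ℕ) : ∃ K' : ℕ, ∀ l : List (SL(2, ℤ) × SL(2, ℤ)), l.length ≤ n →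
    (∀ s ∈ l, Bdd K s ∨ Bdd K s⁻¹) → Bdd K' l.prod := by
  have hone : ∀ K' : ℕ, 1 ≤ K' → Bdd K' 1 := by
    intro K' hK i j
    have h : |(1 : SL(2, ℤ)) i j| ≤ (K' : ℤ) := by
      have : (1 : ℤ) ≤ K' := by exact_mod_cast hK
      rw [Matrix.SpecialLinearGroup.coe_one, Matrix.one_apply]
      split_ifs
      · simpa using this
      · simp
    exact ⟨h, h⟩
  induction n with
  | zero =>
    refine ⟨1, fun l hl _ => ?_⟩
    rw [List.length_eq_zero_iff.1 (Nat.le_zero.1 hl)]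
    exact hone 1 le_rfl
  | succ n ih =>
    obtain ⟨K', hK'⟩ := ih
    refine ⟨2 * K * K' + 1, fun l hl hs => ?_⟩
    cases l with
    | nil => exact hone _ (by omega)
    | cons s l =>
      have h1 : Bdd K s := by
        rcases hs s (by simp) with h | h
        · exact h
        · simpa using bdd_inv h
      have h2 := hK' l (by simpa using hl) fun t ht => hs t (by simp [ht])
      rw [List.prod_cons]
      intro i j
      have b1 := sl2_bdd_mul s.1 l.prod.1 (fun i j => (h1 i j).1) (fun i j => (h2 i j).1) i j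
      have b2 := sl2_bdd_mul s.2 l.prod.2 (fun i j => (h1 i j).2) (fun i j => (h2 i j).2) i j
      constructor
      · refine le_trans (le_of_eq rfl) (b1.trans ?_)
        push_cast; linarith
      · refine le_trans (le_of_eq rfl) (b2.trans ?_)
        push_cast; linarith

theorem int_inj_mod {m n : Type*} [Fintype m] [Fintype n] [DecidableEq n] (A : Matrix m n ℤ)
    (h : ∀ v, A *ᵥ v = 0 → v = 0) : ∃ d : ℤ, d ≠ 0 ∧ ∀ (p : ℕ) (w : n → ZMod p),
      (A.map (Int.cast : ℤ → ZMod p)) *ᵥ w = 0 → (d : ZMod p) • w = 0 := by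
  refine ⟨(Aᵀ * A).det, ?_, ?_⟩
  · intro hd
    obtain ⟨v, hv, hv0⟩ := Matrix.exists_mulVec_eq_zero_iff.2 hd
    apply hv
    apply h
    have : (A *ᵥ v) ⬝ᵥ (A *ᵥ v) = 0 := by
      rw [Matrix.dotProduct_mulVec, ← Matrix.mulVec_transpose, Matrix.mulVec_mulVec, hv0,
        zero_dotProduct]
    exact dotProduct_self_eq_zero.1 this
  · intro p w hw
    set f := Int.castRingHom (ZMod p) with hf
    have e : ((Aᵀ * A).adjugate * Aᵀ) * A = (Aᵀ * A).det • (1 : Matrix n n ℤ) := by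
      rw [Matrix.mul_assoc, Matrix.adjugate_mul]
    have e2 : (((Aᵀ * A).adjugate * Aᵀ).map f) * (A.map f) =
        (((Aᵀ * A).det : ℤ) : ZMod p) • (1 : Matrix n n (ZMod p)) := by
      rw [← Matrix.map_mul, e]
      ext i j
      rw [Matrix.map_apply, Matrix.smul_apply, Matrix.smul_apply, Matrix.one_apply,
        Matrix.one_apply]
      split_ifs <;> simp [hf]
    have hw' : (A.map f) *ᵥ w = 0 := hw
    have := congrArg (fun M => M *ᵥ w) e2
    simp only [← Matrix.mulVec_mulVec, hw', Matrix.mulVec_zero, Matrix.smul_mulVec,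
      Matrix.one_mulVec] at this
    exact this.symm

/-- The matrix of the linear system of intertwining equations. -/
def twMat (𝒯 : Finset (SL(2, ℤ) × SL(2, ℤ))) : Matrix (𝒯 × Fin 2 × Fin 2) (Fin 2 × Fin 2) ℤ :=
  fun a b => (if b.2 = a.2.2 then a.1.1.1 a.2.1 b.1 else 0) -
    (if b.1 = a.2.1 then a.1.1.2 b.2 a.2.2 else 0)

theorem twMat_mulVec {R : Type*} [CommRing R] (𝒯 : Finset (SL(2, ℤ) × SL(2, ℤ)))
    (w : Fin 2 × Fin 2 → R) (γ : 𝒯) (i j : Fin 2) :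
    (((twMat 𝒯).map (Int.cast : ℤ → R)) *ᵥ w) (γ, i, j) =
      (((γ.1.1 : Matrix (Fin 2) (Fin 2) ℤ).map (Int.cast : ℤ → R)) *
          (Matrix.of fun k l => w (k, l)) -
        (Matrix.of fun k l => w (k, l)) *
          ((γ.1.2 : Matrix (Fin 2) (Fin 2) ℤ).map (Int.cast : ℤ → R))) i j := by
  simp only [Matrix.mulVec, dotProduct, Fintype.sum_prod_type, Fin.sum_univ_two, Matrix.map_apply,
    twMat, Matrix.sub_apply, Matrix.mul_apply, Matrix.of_apply]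
  fin_cases i <;> fin_cases j <;> simp <;> ring

theorem bdd_finite (K : ℕ) : {γ : SL(2, ℤ) × SL(2, ℤ) | Bdd K γ}.Finite := by
  have h1 : {M : Fin 2 → Fin 2 → ℤ | ∀ i, M i ∈ {r : Fin 2 → ℤ | ∀ j, r j ∈ Set.Icc (-K : ℤ) K}}.Finite :=
    Set.Finite.pi' fun _ => Set.Finite.pi' fun _ => Set.finite_Icc _ _
  have h2 : {A : SL(2, ℤ) | ∀ i j, |A i j| ≤ (K : ℤ)}.Finite := by
    refine (h1.preimage (f := fun A : SL(2, ℤ) => fun i j => A i j) ?_).subset ?_
    · intro A _ B _ hAB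
      ext i j
      exact congrFun (congrFun hAB i) j
    · intro A hA i j
      exact abs_le.1 (hA i j)
  refine (h2.prod h2).subset ?_
  intro γ hγ
  exact ⟨fun i j => (hγ i j).1, fun i j => (hγ i j).2⟩

/-- A nonzero intertwiner modulo a large prime lifts to an integral intertwiner. -/
theorem rat_lift (K : ℕ) : ∃ p₀ : ℕ, ∀ (p : ℕ) [Fact p.Prime], p₀ < p →
    ∀ g : Matrix (Fin 2) (Fin 2) (ZMod p), g ≠ 0 → ∃ Y : Matrix (Fin 2) (Fin 2) ℤ, Y ≠ 0 ∧
      ∀ γ : SL(2, ℤ) × SL(2, ℤ), Bdd K γ → red p γ.1 * g = g * red p γ.2 →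
        (γ.1 : Matrix (Fin 2) (Fin 2) ℤ) * Y = Y * (γ.2 : Matrix (Fin 2) (Fin 2) ℤ) := by
  have hd : ∀ 𝒯 : Finset (SL(2, ℤ) × SL(2, ℤ)), ∃ d : ℤ, d ≠ 0 ∧
      ((∀ v, twMat 𝒯 *ᵥ v = 0 → v = 0) → ∀ (p : ℕ) (w : Fin 2 × Fin 2 → ZMod p),
        ((twMat 𝒯).map (Int.cast : ℤ → ZMod p)) *ᵥ w = 0 → (d : ZMod p) • w = 0) := by
    intro 𝒯
    by_cases h : ∀ v, twMat 𝒯 *ᵥ v = 0 → v = 0
    · obtain ⟨d, hd, hd'⟩ := int_inj_mod _ h
      exact ⟨d, hd, fun _ => hd'⟩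
    · exact ⟨1, one_ne_zero, fun h' => absurd h' h⟩
  choose d hd0 hd using hd
  set F := (bdd_finite K).toFinset with hF
  refine ⟨F.powerset.sup fun 𝒯 => (d 𝒯).natAbs, fun p _ hp g hg => ?_⟩
  set 𝒯 := F.filter fun γ => red p γ.1 * g = g * red p γ.2 with h𝒯
  have hlt : (d 𝒯).natAbs < p :=
    lt_of_le_of_lt (Finset.le_sup (f := fun 𝒯 => (d 𝒯).natAbs)
      (Finset.mem_powerset.2 (Finset.filter_subset _ _))) hp
  have hdp : (d 𝒯 : ZMod p) ≠ 0 := by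
    intro h
    rw [ZMod.intCast_zmod_eq_zero_iff_dvd] at h
    have := Nat.le_of_dvd (Int.natAbs_pos.2 (hd0 𝒯)) (Int.natCast_dvd.1 h)
    omega
  have hno : ¬ ∀ v, twMat 𝒯 *ᵥ v = 0 → v = 0 := by
    intro h
    have := hd 𝒯 h p (fun b => g b.1 b.2) (by
      funext a
      obtain ⟨γ, i, j⟩ := a
      rw [twMat_mulVec]
      have hγ := (Finset.mem_filter.1 γ.2).2
      have e : (Matrix.of fun k l => g k l) = g := rfl
      simp only [e]
      have : (γ.1.1 : Matrix (Fin 2) (Fin 2) ℤ).map (Int.cast : ℤ → ZMod p) * g -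
          g * (γ.1.2 : Matrix (Fin 2) (Fin 2) ℤ).map (Int.cast : ℤ → ZMod p) = 0 :=
        sub_eq_zero.2 hγ
      rw [this]; rfl)
    apply hg
    ext i j
    have h2 := congrFun this (i, j)
    simp only [Pi.smul_apply, smul_eq_mul, Pi.zero_apply] at h2
    exact (mul_eq_zero.1 h2).resolve_left hdp
  push Not at hno
  obtain ⟨v, hv, hv0⟩ := hno
  refine ⟨Matrix.of fun k l => v (k, l), ?_, fun γ hγ hg' => ?_⟩
  · intro h
    apply hv0
    funext b
    exact congrFun (congrFun h b.1) b.2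
  · have hm : γ ∈ 𝒯 := Finset.mem_filter.2 ⟨(Set.Finite.mem_toFinset _).2 hγ, hg'⟩
    rw [← sub_eq_zero]
    ext i j
    have h := twMat_mulVec (R := ℤ) 𝒯 v ⟨γ, hm⟩ i j
    have e : ∀ {a b : Type} (M : Matrix a b ℤ), M.map (Int.cast : ℤ → ℤ) = M := by
      intro a b M; ext; simp
    rw [e, e, e, hv] at h
    exact h.symm

end

end Pool.Agent.P.MP_a60a76_nt.SP
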