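import Pool.Agent.P.MP_a60a76_nt.SP.Sec
import Pool.Agent.P.MP_a60a76_nt.SP.Gen
import Pool.Agent.P.MP_a60a76_nt.SP.Schreier
import Pool.Agent.P.MP_a60a76_nt.SP.Graph
import Pool.Agent.P.MP_a60a76_nt.SP.Modpoly
import Pool.Agent.P.MP_a60a76_nt.SP.Orb

namespace Pool.Agent.P.MP_a60a76_nt.SP

open Polynomial UpperHalfPlane PeriodPair
open scoped MatrixGroups UpperHalfPlane Matrix Modular Topology Classical

noncomputable section

namespace GFM

theorem WG_congr (p : ℕ) [NeZero p] (l μ : ℕ) {G G' : ℂ[X][X]}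
    (h : ∀ x y, G.evalEval x y = 0 ↔ G'.evalEval x y = 0) : WG p l μ G = WG p l μ G' := by
  ext a
  simp only [WG, Set.mem_ofPred_eq, h]

theorem horizontal {G : ℂ[X][X]} (hG : Irreducible G) (h1 : 1 ≤ G.natDegree)
    (h2 : ∀ i, (G.coeff i).natDegree = 0) :
    ∃ y₀ : ℂ, ∀ x y, G.evalEval x y = 0 ↔ (X - C (C y₀) : ℂ[X][X]).evalEval x y = 0 := by
  set g : ℂ[X] := G.map (evalRingHom 0) with hg
  have hGg : G = g.map C := by
    ext1 i
    rw [coeff_map, hg, coeff_map, coe_evalRingHom, eq_C_of_natDegree_eq_zero (h2 i)]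
    simp
  have hdeg : g.natDegree = G.natDegree := by
    conv_rhs => rw [hGg]
    rw [natDegree_map_eq_of_injective C_injective]
  have hd : g.degree ≠ 0 := by
    intro h
    have := natDegree_eq_zero_iff_degree_le_zero.mpr h.le
    omega
  obtain ⟨y₀, hy₀⟩ := IsAlgClosed.exists_root g hd
  have hdvd : (X - C (C y₀) : ℂ[X][X]) ∣ G := by
    rw [hGg]
    have := Polynomial.map_dvd (C : ℂ →+* ℂ[X]) (dvd_iff_isRoot.mpr hy₀)
    simpa using this
  obtain ⟨Q, hQ⟩ := hdvd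
  have hu : IsUnit Q := by
    rcases hG.isUnit_or_isUnit hQ with h | h
    · exact absurd h (not_isUnit_X_sub_C _)
    · exact h
  refine ⟨y₀, fun x y => ?_⟩
  have hQ0 : Q.evalEval x y ≠ 0 := (hu.map (evalEvalRingHom x y)).ne_zero
  rw [hQ, evalEval_mul, mul_eq_zero, or_iff_left hQ0]

theorem diff_evalEval (P : ℂ[X][X]) {U : Set ℂ} {b : ℂ → ℂ} (hb : DifferentiableOn ℂ b U) :
    DifferentiableOn ℂ (fun x => P.evalEval x (b x)) U := by
  have : (fun x => P.evalEval x (b x)) =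
      fun x => ∑ i ∈ Finset.range (P.natDegree + 1), (P.coeff i).eval x * b x ^ i := by
    funext x
    rw [evalEval, eval_eq_sum_range (p := P), eval_finsetSum]
    simp
  rw [this]
  refine DifferentiableOn.fun_sum fun i _ => ?_
  exact (Polynomial.differentiable _).differentiableOn.mul (hb.pow i)

theorem exists_vanish {ι : Type*} (T : Finset ι) (φ : ι → ℂ → ℂ) {x₀ : ℂ} {r : ℝ} (hr : 0 < r)
    (hφ : ∀ i ∈ T, DifferentiableOn ℂ (φ i) (Metric.ball x₀ r)) (S : Finset ℂ)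
    (h : ∀ x ∈ Metric.ball x₀ r, x ∉ S → ∃ i ∈ T, φ i x = 0) :
    ∃ i ∈ T, ∀ x ∈ Metric.ball x₀ r, φ i x = 0 := by
  by_contra hcon
  push Not at hcon
  have h1 : ∀ i ∈ T, ∀ᶠ x in 𝓝[≠] x₀, φ i x ≠ 0 := by
    intro i hi
    have han : AnalyticOnNhd ℂ (φ i) (Metric.ball x₀ r) :=
      (hφ i hi).analyticOnNhd Metric.isOpen_ball
    rcases (han x₀ (Metric.mem_ball_self hr)).eventually_eq_zero_or_eventually_ne_zero with h0 | h0
    · obtain ⟨x, hx, hne⟩ := hcon i hi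
      exact absurd (han.eqOn_zero_of_preconnected_of_eventuallyEq_zero
        (convex_ball x₀ r).isPreconnected (Metric.mem_ball_self hr) h0 hx) hne
    · exact h0
  have h2 : ∀ᶠ x in 𝓝[≠] x₀, ∀ i ∈ T, φ i x ≠ 0 := (Filter.eventually_all_finset T).mpr h1
  have h3 : ∀ᶠ x in 𝓝[≠] x₀, x ∈ Metric.ball x₀ r :=
    mem_nhdsWithin_of_mem_nhds (Metric.ball_mem_nhds x₀ hr)
  have h4 : ∀ᶠ x in 𝓝[≠] x₀, x ∉ S := by
    have hc : IsClosed ((S : Set ℂ) \ {x₀}) := (S.finite_toSet.subset Set.sdiff_subset).isClosed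
    have : ((S : Set ℂ) \ {x₀})ᶜ ∈ 𝓝 x₀ := hc.isOpen_compl.mem_nhds (by simp)
    filter_upwards [mem_nhdsWithin_of_mem_nhds this, self_mem_nhdsWithin] with x hx hx' hxS
    exact hx ⟨hxS, hx'⟩
  obtain ⟨x, hx2, hx3, hx4⟩ := (h2.and (h3.and h4)).exists
  obtain ⟨i, hi, h0⟩ := h x hx3 hx4
  exact hx2 i hi h0

/-- Holomorphic sections over `U`. -/
def IsSec (E : Set (ℍ × ℍ)) (U : Set ℂ) (s : ℂ → ℍ × ℍ) : Prop :=
  DifferentiableOn ℂ (fun x => ((s x).1 : ℂ)) U ∧ DifferentiableOn ℂ (fun x => ((s x).2 : ℂ)) U ∧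
    ∀ x ∈ U, s x ∈ E ∧ J (s x).1 = x

theorem IsSec.cont {E : Set (ℍ × ℍ)} {U : Set ℂ} {s : ℂ → ℍ × ℍ} (h : IsSec E U s) :
    ContinuousOn s U := continuousOn_of_coe h.1 h.2.1

theorem hol_smul (γ : SL(2, ℤ)) : Hol fun τ => ((γ • τ : ℍ) : ℂ) := by
  have h := (UpperHalfPlane.mdifferentiable_coe.comp
    (UpperHalfPlane.mdifferentiable_smul (g := (γ : GL (Fin 2) ℝ)) (by simp)))
  exact UpperHalfPlane.mdifferentiable_iff.mp h

theorem IsSec.smul {G : ℂ[X][X]} {B : Finset ℂ} {U : Set ℂ} {s : ℂ → ℍ × ℍ}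
    (h : IsSec (EB G B) U s) (γ γ' : SL(2, ℤ)) :
    IsSec (EB G B) U fun x => (γ • (s x).1, γ' • (s x).2) :=
  ⟨(hol_smul γ).comp h.1, (hol_smul γ').comp h.2.1, fun x hx =>
    ⟨(smul_mem_EB γ γ').mpr (h.2.2 x hx).1, by rw [J_smul]; exact (h.2.2 x hx).2⟩⟩

variable (p : ℕ) [NeZero p] (l μ : ℕ) (P : ℂ[X][X])

/-- The resolvent of `g` is a root of `P` near `ξ`. -/
def Van (E : Set (ℍ × ℍ)) (g : Matrix (Fin 2) (Fin 2) (ZMod p)) (ξ : ℍ × ℍ) : Prop :=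
  ∀ᶠ ξ' in 𝓝[E] ξ, P.evalEval (J ξ'.1) (wf p l μ g ξ'.1 ξ'.2) = 0

theorem van_imp {E : Set (ℍ × ℍ)} {x₁ : ℂ} {r : ℝ} {s : ℂ → ℍ × ℍ}
    (hs : IsSec E (Metric.ball x₁ r) s) {x₂ : ℂ} (hx₂ : x₂ ∈ Metric.ball x₁ r)
    {g : Matrix (Fin 2) (Fin 2) (ZMod p)} (h : Van p l μ P E g (s x₂)) :
    ∀ x ∈ Metric.ball x₁ r, P.evalEval x (wf p l μ g (s x).1 (s x).2) = 0 := by
  have hb : Metric.ball x₁ r ∈ 𝓝 x₂ := Metric.isOpen_ball.mem_nhds hx₂
  have ht : Filter.Tendsto s (𝓝 x₂) (𝓝[E] (s x₂)) := by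
    refine tendsto_nhdsWithin_iff.mpr ⟨hs.cont.continuousAt hb, ?_⟩
    filter_upwards [hb] with x hx using (hs.2.2 x hx).1
  have han : AnalyticOnNhd ℂ (fun x => P.evalEval x (wf p l μ g (s x).1 (s x).2))
      (Metric.ball x₁ r) :=
    (diff_evalEval P (wf_comp p l μ g hs.1 hs.2.1)).analyticOnNhd Metric.isOpen_ball
  have h0 : (fun x => P.evalEval x (wf p l μ g (s x).1 (s x).2)) =ᶠ[𝓝 x₂] 0 := by
    filter_upwards [ht.eventually h, hb] with x hx hx'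
    rw [(hs.2.2 x hx').2] at hx
    exact hx
  exact fun x hx => han.eqOn_zero_of_preconnected_of_eventuallyEq_zero
    (convex_ball x₁ r).isPreconnected hx₂ h0 hx

theorem van_of {E : Set (ℍ × ℍ)} {x₁ : ℂ} {r : ℝ} {s : ℂ → ℍ × ℍ} {ξ : ℍ × ℍ}
    (hξ : J ξ.1 ∈ Metric.ball x₁ r) (hev : ∀ᶠ ξ' in 𝓝[E] ξ, s (J ξ'.1) = ξ')
    {g : Matrix (Fin 2) (Fin 2) (ZMod p)}
    (h : ∀ x ∈ Metric.ball x₁ r, P.evalEval x (wf p l μ g (s x).1 (s x).2) = 0) :
    Van p l μ P E g ξ := by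
  have hc : Continuous fun ξ : ℍ × ℍ => J ξ.1 := J_continuous.comp continuous_fst
  have hb : ∀ᶠ ξ' in 𝓝[E] ξ, J ξ'.1 ∈ Metric.ball x₁ r :=
    mem_nhdsWithin_of_mem_nhds (hc.continuousAt.preimage_mem_nhds
      (Metric.isOpen_ball.mem_nhds hξ))
  filter_upwards [hev, hb] with ξ' h1 h2
  have := h _ h2
  rwa [h1] at this

theorem van_locally_const {E : Set (ℍ × ℍ)} {B : Finset ℂ} (hS : Sec E B)
    (hE : ∀ ξ ∈ E, J ξ.1 ∉ B) (g : Matrix (Fin 2) (Fin 2) (ZMod p)) :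
    ∀ ξ ∈ E, ∀ᶠ ξ' in 𝓝[E] ξ, (Van p l μ P E g ξ' ↔ Van p l μ P E g ξ) := by
  intro ξ hξ
  obtain ⟨r, hr, hB, hsec⟩ := hS _ (hE ξ hξ)
  obtain ⟨s, d1, d2, hs, hsξ, hev⟩ := hsec ξ hξ (Metric.mem_ball_self hr)
  have hs' : IsSec E _ s := ⟨d1, d2, hs⟩
  have hc : Continuous fun ξ : ℍ × ℍ => J ξ.1 := J_continuous.comp continuous_fst
  have hb : ∀ᶠ ξ' in 𝓝[E] ξ, J ξ'.1 ∈ Metric.ball (J ξ.1) r :=
    mem_nhdsWithin_of_mem_nhds (hc.continuousAt.preimage_mem_nhds (Metric.ball_mem_nhds _ hr))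
  filter_upwards [hev, hb, self_mem_nhdsWithin] with ξ' h1 h2 h3
  constructor
  · intro h
    exact van_of p l μ P (Metric.mem_ball_self hr) hev (van_imp p l μ P hs' h2 (h1.symm ▸ h))
  · intro h
    obtain ⟨s', d1', d2', hs2, hsξ', hev'⟩ := hsec ξ' h3 h2
    have heq := hS.unique (convex_ball _ r).isPreconnected hB
      (continuousOn_of_coe d1' d2') hs'.cont hs2 hs h2 (hsξ'.trans h1.symm)
    refine van_of p l μ P h2 hev' fun x hx => ?_
    rw [heq x hx]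
    exact van_imp p l μ P hs' (Metric.mem_ball_self hr) (hsξ.symm ▸ h) x hx

/-- Few matrices have a resolvent which is a root of `P` along a section through a separating
point. -/
theorem card_van {E : Set (ℍ × ℍ)} {x₀ : ℂ} {r : ℝ} (hr : 0 < r) {s : ℂ → ℍ × ℍ}
    (hs : IsSec E (Metric.ball x₀ r) s) (hP : P ≠ 0)
    (hsep : ∀ c : ℂ, (Finset.univ.filter fun g : Matrix (Fin 2) (Fin 2) (ZMod p) =>
        wf p l μ g (s x₀).1 (s x₀).2 = c).card ≤ 2401) :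
    (Finset.univ.filter fun g : Matrix (Fin 2) (Fin 2) (ZMod p) =>
      ∀ x ∈ Metric.ball x₀ r, P.evalEval x (wf p l μ g (s x).1 (s x).2) = 0).card ≤
      2401 * P.natDegree := by
  have hb : Metric.ball x₀ r ∈ 𝓝 x₀ := Metric.ball_mem_nhds _ hr
  have hcs : ContinuousAt s x₀ := hs.cont.continuousAt hb
  have h1 : ∀ᶠ x in 𝓝 x₀, ∀ g g' : Matrix (Fin 2) (Fin 2) (ZMod p),
      wf p l μ g (s x).1 (s x).2 = wf p l μ g' (s x).1 (s x).2 →
      wf p l μ g (s x₀).1 (s x₀).2 = wf p l μ g' (s x₀).1 (s x₀).2 := by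
    refine Filter.eventually_all.mpr fun g => Filter.eventually_all.mpr fun g' => ?_
    by_cases h : wf p l μ g (s x₀).1 (s x₀).2 = wf p l μ g' (s x₀).1 (s x₀).2
    · exact Filter.Eventually.of_forall fun _ _ => h
    · have c1 := ((wf_continuous p l μ g).continuousAt).comp hcs
      have c2 := ((wf_continuous p l μ g').continuousAt).comp hcs
      filter_upwards [(c1.sub c2).eventually_ne (sub_ne_zero.mpr h)] with x hx hx'
      exact absurd (sub_eq_zero.mpr hx') hx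
  have hlc : P.leadingCoeff ≠ 0 := leadingCoeff_ne_zero.mpr hP
  have h4 : ∀ᶠ x in 𝓝[≠] x₀, x ∉ P.leadingCoeff.roots.toFinset := by
    set S := P.leadingCoeff.roots.toFinset
    have hc : IsClosed ((S : Set ℂ) \ {x₀}) := (S.finite_toSet.subset Set.sdiff_subset).isClosed
    have : ((S : Set ℂ) \ {x₀})ᶜ ∈ 𝓝 x₀ := hc.isOpen_compl.mem_nhds (by simp)
    filter_upwards [mem_nhdsWithin_of_mem_nhds this, self_mem_nhdsWithin] with x hx hx' hxS
    exact hx ⟨hxS, hx'⟩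
  have hb' : ∀ᶠ x in 𝓝 x₀, x ∈ Metric.ball x₀ r := hb
  obtain ⟨x, hx1, hx2, hx3⟩ := ((h1.filter_mono (nhdsWithin_le_nhds (s := {x₀}ᶜ))).and
    ((hb'.filter_mono (nhdsWithin_le_nhds (s := {x₀}ᶜ))).and h4)).exists
  have hne : P.map (evalRingHom x) ≠ 0 := by
    intro h0
    apply hx3
    have := congrArg (fun Q => Q.coeff P.natDegree) h0
    simp only [coeff_map, coe_evalRingHom, coeff_zero] at this
    rw [Multiset.mem_toFinset, mem_roots hlc]
    exact this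
  have hcard : (P.map (evalRingHom x)).roots.toFinset.card ≤ P.natDegree :=
    (Multiset.toFinset_card_le _).trans ((card_roots' _).trans natDegree_map_le)
  refine le_trans (Finset.card_le_mul_card_image_of_maps_to
    (f := fun g => wf p l μ g (s x).1 (s x).2)
    (t := (P.map (evalRingHom x)).roots.toFinset) ?_ 2401 ?_) (Nat.mul_le_mul_left _ hcard)
  · intro g hg
    rw [Finset.mem_filter] at hg
    rw [Multiset.mem_toFinset, mem_roots hne, IsRoot, map_evalRingHom_eval]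
    exact hg.2 x hx2
  · intro c _
    rcases Finset.eq_empty_or_nonempty (Finset.filter (fun g => wf p l μ g (s x).1 (s x).2 = c)
      (Finset.univ.filter fun g : Matrix (Fin 2) (Fin 2) (ZMod p) =>
      ∀ x ∈ Metric.ball x₀ r, P.evalEval x (wf p l μ g (s x).1 (s x).2) = 0)) with h | ⟨g₀, hg₀⟩
    · rw [h]; simp
    · refine le_trans (Finset.card_le_card ?_) (hsep (wf p l μ g₀ (s x₀).1 (s x₀).2))
      intro g hg
      rw [Finset.mem_filter] at hg hg₀ ⊢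
      exact ⟨Finset.mem_univ _, hx1 g g₀ (hg.2.trans hg₀.2.symm)⟩

omit [NeZero p] in
theorem red_inv_mul (γ : SL(2, ℤ)) : red p γ⁻¹ * red p γ = 1 := by
  rw [← red_mul, inv_mul_cancel, red_one]

omit [NeZero p] in
theorem red_mul_inv (γ : SL(2, ℤ)) : red p γ * red p γ⁻¹ = 1 := by
  rw [← red_mul, mul_inv_cancel, red_one]

/-- The stabiliser of a component together with a matrix modulo `p`. -/
def stab (G : ℂ[X][X]) (B : Finset ℂ) (ζ : ℍ × ℍ) (hζ : ζ ∈ EB G B)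
    (g : Matrix (Fin 2) (Fin 2) (ZMod p)) : Subgroup (SL(2, ℤ) × SL(2, ℤ)) where
  carrier := {γ | JoinedIn (EB G B) ζ (γ.1 • ζ.1, γ.2 • ζ.2) ∧ red p γ.1 * g = g * red p γ.2}
  one_mem' := by
    refine ⟨?_, ?_⟩
    · simpa using JoinedIn.refl hζ
    · simp [red_one]
  mul_mem' := by
    rintro a b ⟨ha, ha'⟩ ⟨hb, hb'⟩
    refine ⟨?_, ?_⟩
    · have := joinedIn_smul a.1 a.2 hb
      simp only [Prod.fst_mul, Prod.snd_mul, mul_smul]
      exact ha.trans this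
    · simp only [Prod.fst_mul, Prod.snd_mul, red_mul]
      rw [mul_assoc, hb', ← mul_assoc, ha', mul_assoc]
  inv_mem' := by
    rintro a ⟨ha, ha'⟩
    refine ⟨?_, ?_⟩
    · have := joinedIn_smul a.1⁻¹ a.2⁻¹ ha
      simp only [inv_smul_smul] at this
      exact this.symm
    · simp only [Prod.fst_inv, Prod.snd_inv]
      calc red p a.1⁻¹ * g = red p a.1⁻¹ * g * (red p a.2 * red p a.2⁻¹) := by
            rw [red_mul_inv, mul_one]
        _ = red p a.1⁻¹ * (g * red p a.2) * red p a.2⁻¹ := by simp only [mul_assoc]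
        _ = g * red p a.2⁻¹ := by rw [← ha', ← mul_assoc, red_inv_mul, one_mul]

/-- Pairs intertwined by an integral matrix. -/
def intw (Y : Matrix (Fin 2) (Fin 2) ℤ) : Subgroup (SL(2, ℤ) × SL(2, ℤ)) where
  carrier := {γ | (γ.1 : Matrix (Fin 2) (Fin 2) ℤ) * Y = Y * (γ.2 : Matrix (Fin 2) (Fin 2) ℤ)}
  one_mem' := by simp
  mul_mem' := by
    intro a b ha hb
    simp only [Set.mem_ofPred_eq, Prod.fst_mul, Prod.snd_mul,
      Matrix.SpecialLinearGroup.coe_mul] at ha hb ⊢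
    rw [mul_assoc, hb, ← mul_assoc, ha, mul_assoc]
  inv_mem' := by
    intro a ha
    simp only [Set.mem_ofPred_eq, Prod.fst_inv, Prod.snd_inv] at ha ⊢
    have e1 : ((a.1⁻¹ : SL(2, ℤ)) : Matrix (Fin 2) (Fin 2) ℤ) * a.1 = 1 := by
      rw [← Matrix.SpecialLinearGroup.coe_mul, inv_mul_cancel, Matrix.SpecialLinearGroup.coe_one]
    have e2 : (a.2 : Matrix (Fin 2) (Fin 2) ℤ) * ((a.2⁻¹ : SL(2, ℤ)) : Matrix (Fin 2) (Fin 2) ℤ)
        = 1 := by
      rw [← Matrix.SpecialLinearGroup.coe_mul, mul_inv_cancel, Matrix.SpecialLinearGroup.coe_one]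
    calc ((a.1⁻¹ : SL(2, ℤ)) : Matrix (Fin 2) (Fin 2) ℤ) * Y
        = ((a.1⁻¹ : SL(2, ℤ)) : Matrix (Fin 2) (Fin 2) ℤ) * Y *
          ((a.2 : Matrix (Fin 2) (Fin 2) ℤ) *
            ((a.2⁻¹ : SL(2, ℤ)) : Matrix (Fin 2) (Fin 2) ℤ)) := by rw [e2, mul_one]
      _ = ((a.1⁻¹ : SL(2, ℤ)) : Matrix (Fin 2) (Fin 2) ℤ) * (Y * (a.2 : Matrix (Fin 2) (Fin 2) ℤ)) *
            ((a.2⁻¹ : SL(2, ℤ)) : Matrix (Fin 2) (Fin 2) ℤ) := by simp only [mul_assoc]
      _ = _ := by rw [← ha, ← mul_assoc, e1, one_mul]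

theorem exists_reps : ∃ c : ℂ → ℍ, ∀ y, c y ∈ 𝒟 ∧ J (c y) = y := by
  have : ∀ y : ℂ, ∃ τ : ℍ, τ ∈ 𝒟 ∧ J τ = y := by
    intro y
    obtain ⟨τ, rfl⟩ := J_surj y
    obtain ⟨γ, hγ⟩ := ModularGroup.exists_smul_mem_fd τ
    exact ⟨γ • τ, hγ, J_smul γ τ⟩
  choose c hc using this
  exact ⟨c, hc⟩

theorem exists_nonreal (B : Finset ℂ) : ∃ x, x ∉ B ∧ x.im ≠ 0 := by
  have hinj : Function.Injective fun n : ℕ => (n : ℂ) + Complex.I := by
    intro a b h
    simpa using h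
  obtain ⟨x, ⟨n, rfl⟩, hx⟩ := (Set.infinite_range_of_injective hinj).exists_notMem_finset B
  exact ⟨_, hx, by simp⟩

theorem exists_root_of {P : ℂ[X][X]} (h1 : 1 ≤ P.natDegree) {x : ℂ}
    (hx : P.leadingCoeff.eval x ≠ 0) : ∃ ω, P.evalEval x ω = 0 := by
  have hd : (P.map (evalRingHom x)).natDegree = P.natDegree :=
    natDegree_map_of_leadingCoeff_ne_zero _ hx
  obtain ⟨ω, hω⟩ := IsAlgClosed.exists_root (P.map (evalRingHom x)) (by
    intro h
    have := natDegree_eq_zero_iff_degree_le_zero.mpr h.le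
    omega)
  exact ⟨ω, by rwa [IsRoot, map_evalRingHom_eval] at hω⟩

end GFM

open GFM in
/-- A curve of bounded degree either consists of related invariants, or all components of its
preimage in the cover have large degree. -/
theorem gfm (m : ℕ) : ∃ p₀ : ℕ, ∀ (p : ℕ) [Fact p.Prime], p₀ < p → ∃ Λ : ℕ, ∀ G : ℂ[X][X],
    Irreducible G → 1 ≤ G.natDegree → BDeg m G →
    (∀ x y, G.evalEval x y = 0 → Hecke x y) ∨ ∃ l ≤ Λ, ∃ μ ≤ Λ, NoSmall m (WG p l μ G) := by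
  obtain ⟨K, hK⟩ := gen m
  obtain ⟨K', hK'⟩ := bdd_words K (2 * (m * (2401 * m)) + 1)
  obtain ⟨p₁, hp₁⟩ := rat_lift K'
  obtain ⟨p₂, hp₂⟩ := line m
  refine ⟨max p₁ p₂, fun p _ hp => ?_⟩
  obtain ⟨Λ₁, hΛ₁⟩ := sep p m
  obtain ⟨Λ₂, hΛ₂⟩ := hp₂ p (lt_of_le_of_lt (le_max_right _ _) hp)
  refine ⟨max Λ₁ Λ₂, fun G hG h1 hm => ?_⟩
  by_cases h2 : ∃ i, 1 ≤ (G.coeff i).natDegree
  swap
  · obtain ⟨y₀, hy₀⟩ := horizontal hG h1 (fun i => by
      by_contra h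
      exact h2 ⟨i, Nat.one_le_iff_ne_zero.mpr h⟩)
    obtain ⟨l, hl, μ, hμ, h⟩ := hΛ₂ y₀
    refine Or.inr ⟨l, hl.trans (le_max_right _ _), μ, hμ.trans (le_max_right _ _), ?_⟩
    rwa [WG_congr p l μ hy₀]
  obtain ⟨B, hS, hlc⟩ := exists_sec G hG h1 h2
  obtain ⟨c, hc⟩ := exists_reps
  obtain ⟨x₀, hx₀, hx₀'⟩ := exists_nonreal B
  have hG0 : G.map (evalRingHom x₀) ≠ 0 := map_eval_ne_zero hG h1 x₀
  set Y₀ : Finset ℂ := (G.map (evalRingHom x₀)).roots.toFinset with hY₀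
  have hmem : ∀ y, y ∈ Y₀ ↔ G.evalEval x₀ y = 0 := by
    intro y
    rw [hY₀, Multiset.mem_toFinset, mem_roots hG0, IsRoot, map_evalRingHom_eval]
  have hcard : Y₀.card ≤ m :=
    (Multiset.toFinset_card_le _).trans ((card_roots' _).trans (natDegree_map_le.trans hm.1))
  obtain ⟨l, hl, μ, hμ, hsep⟩ := hΛ₁ (Y₀.image fun y => (c x₀, c y))
    (Finset.card_image_le.trans hcard)
  by_cases hN : NoSmall m (WG p l μ G)
  · exact Or.inr ⟨l, hl.trans (le_max_left _ _), μ, hμ.trans (le_max_left _ _), hN⟩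
  left
  obtain ⟨P, hP1, hPm, S, hPS⟩ : ∃ P : ℂ[X][X], 1 ≤ P.natDegree ∧ P.natDegree < m ∧
      ∃ S : Finset ℂ, ∀ x, x ∉ S → ∀ ω, P.evalEval x ω = 0 → (x, ω) ∈ WG p l μ G := by
    by_contra h
    exact hN fun P a b hh => h ⟨P, a, b, hh⟩
  have hP0 : P ≠ 0 := by
    rintro rfl
    simp at hP1
  obtain ⟨r, hr, hB, hsec⟩ := hS x₀ hx₀
  have hE : ∀ ξ ∈ EB G B, J ξ.1 ∉ B := fun ξ h => h.1
  have hin : ∀ y ∈ Y₀, (c x₀, c y) ∈ EB G B := by
    intro y hy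
    refine ⟨?_, ?_⟩
    · rw [(hc x₀).2]; exact hx₀
    · rw [(hc x₀).2, (hc y).2]; exact (hmem y).mp hy
  have hs : ∀ y : ℂ, ∃ s : ℂ → ℍ × ℍ, y ∈ Y₀ → IsSec (EB G B) (Metric.ball x₀ r) s ∧
      s x₀ = (c x₀, c y) ∧ ∀ᶠ ξ' in 𝓝[EB G B] (c x₀, c y), s (J ξ'.1) = ξ' := by
    intro y
    by_cases hy : y ∈ Y₀
    · obtain ⟨s, d1, d2, h3, h4, h5⟩ := hsec _ (hin y hy)
        (by rw [(hc x₀).2]; exact Metric.mem_ball_self hr)
      rw [(hc x₀).2] at h4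
      exact ⟨s, fun _ => ⟨⟨d1, d2, h3⟩, h4, h5⟩⟩
    · exact ⟨fun _ => (c x₀, c y), fun h => absurd h hy⟩
  choose s hs using hs
  -- one resolvent is a root along one section
  obtain ⟨⟨y₀, g⟩, hyg, hvan⟩ := exists_vanish (Y₀ ×ˢ Finset.univ.filter
      fun g : Matrix (Fin 2) (Fin 2) (ZMod p) => IsUnit g.det)
      (fun i x => P.evalEval x (wf p l μ i.2 (s i.1 x).1 (s i.1 x).2)) hr
      (fun i hi => diff_evalEval P (wf_comp p l μ i.2 (hs _ (Finset.mem_product.mp hi).1).1.1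
        (hs _ (Finset.mem_product.mp hi).1).1.2.1))
      (S ∪ P.leadingCoeff.roots.toFinset) (by
    intro x hx hxS
    rw [Finset.mem_union, not_or, Multiset.mem_toFinset,
      mem_roots (leadingCoeff_ne_zero.mpr hP0)] at hxS
    obtain ⟨ω, hω⟩ := exists_root_of hP1 hxS.2
    obtain ⟨τ, τ', g, hg, hτ, hτ', hωg⟩ := hPS x hxS.1 ω hω
    simp only at hτ hτ' hωg
    have hξ : (τ, τ') ∈ EB G B := ⟨by rw [hτ]; exact hB x hx, by rw [hτ]; exact hτ'⟩
    obtain ⟨s', d1, d2, h3, h4, -⟩ := hsec _ hξ (by rw [hτ]; exact hx)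
    rw [hτ] at h4
    have h0 := h3 x₀ (Metric.mem_ball_self hr)
    have hy : J (s' x₀).2 ∈ Y₀ := by
      have := h0.1.2
      rw [h0.2] at this
      exact (hmem _).mpr this
    obtain ⟨γ, hγ⟩ := J_inj (((hc x₀).2).trans h0.2.symm)
    obtain ⟨γ', hγ'⟩ := J_inj ((hc (J (s' x₀).2)).2)
    have hsm := (hs _ hy).1.smul γ γ'
    have heq := hS.unique (convex_ball x₀ r).isPreconnected hB (continuousOn_of_coe d1 d2)
      hsm.cont h3 hsm.2.2 (Metric.mem_ball_self hr) (by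
        rw [(hs _ hy).2.1]
        exact Prod.ext hγ hγ') x hx
    rw [h4] at heq
    obtain ⟨e1, e2⟩ := Prod.ext_iff.mp heq
    simp only at e1 e2
    refine ⟨(J (s' x₀).2, red p γ⁻¹ * g * red p γ'), ?_, ?_⟩
    · rw [Finset.mem_product, Finset.mem_filter]
      refine ⟨hy, Finset.mem_univ _, ?_⟩
      simpa [Matrix.det_mul, red_det] using hg
    · simp only
      rw [← wf_smul, ← e1, ← e2, ← hωg]
      exact hω)
  rw [Finset.mem_product, Finset.mem_filter] at hyg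
  obtain ⟨hy₀, -, hg⟩ := hyg
  simp only at hy₀ hg hvan
  have hζ := hin y₀ hy₀
  have hv0 : Van p l μ P (EB G B) g (c x₀, c y₀) :=
    van_of p l μ P (by rw [(hc x₀).2]; exact Metric.mem_ball_self hr) (hs _ hy₀).2.2 hvan
  have hvj : ∀ ξ, JoinedIn (EB G B) (c x₀, c y₀) ξ → Van p l μ P (EB G B) g ξ :=
    fun ξ h => joinedIn_induction (van_locally_const p l μ P hS hE g) h hv0
  set T : Finset (ℂ × Matrix (Fin 2) (Fin 2) (ZMod p)) := Y₀.biUnion fun y =>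
    (Finset.univ.filter fun g : Matrix (Fin 2) (Fin 2) (ZMod p) =>
      ∀ x ∈ Metric.ball x₀ r, P.evalEval x (wf p l μ g (s y x).1 (s y x).2) = 0).image
      (Prod.mk y) with hT
  have hTcard : T.card ≤ m * (2401 * m) := by
    refine (Finset.card_biUnion_le_card_mul _ _ (2401 * m) fun y hy => ?_).trans
      (Nat.mul_le_mul_right _ hcard)
    refine Finset.card_image_le.trans ((card_van p l μ P hr (hs y hy).1 hP0 ?_).trans
      (Nat.mul_le_mul_left _ hPm.le))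
    rw [(hs y hy).2.1]
    exact hsep _ (Finset.mem_image_of_mem _ hy)
  have hsch := schreier {γ | Bdd K γ}
    {a : (SL(2, ℤ) × SL(2, ℤ)) × ℂ |
      JoinedIn (EB G B) (c x₀, c y₀) (a.1.1 • c x₀, a.1.2 • c a.2)} y₀
    (stab p G B _ hζ g) (fun a => (a.2, red p a.1.1⁻¹ * g * red p a.1.2)) T
    (by
      intro a ha
      have hy : a.2 ∈ Y₀ := by
        have := ha.target_mem.2
        simp only [J_smul, (hc _).2] at this
        exact (hmem _).mpr this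
      rw [hT, Finset.mem_biUnion]
      refine ⟨a.2, hy, Finset.mem_image_of_mem _ ?_⟩
      rw [Finset.mem_filter]
      refine ⟨Finset.mem_univ _, fun x hx => ?_⟩
      have hsm := (hs _ hy).1.smul a.1.1 a.1.2
      have := van_imp p l μ P hsm (Metric.mem_ball_self hr) (g := g) (by
        simp only [(hs _ hy).2.1]
        exact hvj _ ha) x hx
      rwa [wf_smul] at this)
    (by simpa using JoinedIn.refl hζ)
    (fun a ha => hK G hG h1 h2 hm B hS (c x₀) (hc x₀).1 (by rw [(hc x₀).2]; exact hx₀)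
      (by rw [(hc x₀).2]; exact hx₀') c hc y₀ a ha)
    (by
      intro h hh a ha
      have := joinedIn_smul h.1 h.2 ha
      simp only [Set.mem_ofPred_eq, Prod.fst_mul, Prod.snd_mul, mul_smul]
      exact hh.1.trans this)
    (by
      intro a ha b hb hab
      obtain ⟨e1, e2⟩ := Prod.ext_iff.mp hab
      simp only at e1 e2
      refine ⟨e1, ?_, ?_⟩
      · have := joinedIn_smul (b.1 * a.1⁻¹).1 (b.1 * a.1⁻¹).2 ha
        simp only [Prod.fst_mul, Prod.snd_mul, Prod.fst_inv, Prod.snd_inv, mul_smul,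
          inv_smul_smul] at this ⊢
        rw [e1] at this
        exact JoinedIn.trans hb this.symm
      · simp only [Prod.fst_mul, Prod.snd_mul, Prod.fst_inv, Prod.snd_inv, red_mul]
        calc red p b.1.1 * red p a.1.1⁻¹ * g
            = red p b.1.1 * red p a.1.1⁻¹ * g * (red p a.1.2 * red p a.1.2⁻¹) := by
              rw [red_mul_inv, mul_one]
          _ = red p b.1.1 * (red p a.1.1⁻¹ * g * red p a.1.2) * red p a.1.2⁻¹ := by
              simp only [mul_assoc]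
          _ = (red p b.1.1 * red p b.1.1⁻¹) * g * (red p b.1.2 * red p a.1.2⁻¹) := by
              rw [e2]; simp only [mul_assoc]
          _ = _ := by rw [red_mul_inv, one_mul])
  have hg0 : g ≠ 0 := by
    rintro rfl
    simp at hg
  obtain ⟨Y, hY, hYi⟩ := hp₁ p (lt_of_le_of_lt (le_max_left _ _) hp) g hg0
  have hle : stab p G B _ hζ g ≤ intw Y := by
    refine hsch.trans ((Subgroup.closure_le _).mpr ?_)
    rintro x ⟨hx, w, hw, hw', rfl⟩
    exact hYi _ (hK' w (by omega) hw') hx.2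
  obtain ⟨a, b, c', d, hdet, hgr⟩ := graph G h1 B hS hlc _ hζ p g Y hY
    (fun γ γ' h h' => hle (x := (γ, γ')) ⟨h, h'⟩)
  exact hecke_of_graph G hG B a b c' d hdet hgr

end

end Pool.Agent.P.MP_a60a76_nt.SP
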