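import Pool.Agent.P.MP_a60a76_nt.SP.Unif
import Pool.Agent.P.MP_a60a76_nt.SP.Scale
import Pool.Agent.P.MP_a60a76_nt.SP.Fix

namespace Pool.Agent.P.MP_a60a76_nt.SP

open Polynomial UpperHalfPlane PeriodPair
open scoped MatrixGroups UpperHalfPlane Matrix Modular Topology Classical

noncomputable section

open WeierstrassCurve

theorem gal_int {W : WeierstrassCurve ℂ} {τ : ℍ} (U : Unif W τ) (p : ℕ) [NeZero p]
    (v : Fin 2 → ZMod p) (a b : ℤ) (ha : (a : ZMod p) = v 0) (hb : (b : ZMod p) = v 1) :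
    U.Φ (((a : ℂ) * τ + b) / p) = U.Φ (zv p v τ) := by
  have hp : (p : ℂ) ≠ 0 := Nat.cast_ne_zero.2 (NeZero.ne p)
  obtain ⟨m, hm⟩ : (p : ℤ) ∣ a - ((v 0).val : ℤ) := by
    rw [← ZMod.intCast_zmod_eq_zero_iff_dvd]
    simp [ha]
  obtain ⟨n, hn⟩ : (p : ℤ) ∣ b - ((v 1).val : ℤ) := by
    rw [← ZMod.intCast_zmod_eq_zero_iff_dvd]
    simp [hb]
  have hm' : (a : ℂ) - ((v 0).val : ℂ) = p * m := by exact_mod_cast hm
  have hn' : (b : ℂ) - ((v 1).val : ℂ) = p * n := by exact_mod_cast hn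
  rw [← sub_eq_zero, ← map_sub, U.ker, mem_lat]
  refine ⟨m, n, ?_⟩
  rw [zv, ← sub_div, div_eq_iff hp]
  linear_combination (τ : ℂ) * hm' + hn'

theorem zv_add {W : WeierstrassCurve ℂ} {τ : ℍ} (U : Unif W τ) (p : ℕ) [NeZero p]
    (v w : Fin 2 → ZMod p) : U.Φ (zv p (v + w) τ) = U.Φ (zv p v τ) + U.Φ (zv p w τ) := by
  rw [← map_add, ← gal_int U p (v + w) (((v 0).val : ℤ) + ((w 0).val : ℤ))
    (((v 1).val : ℤ) + ((w 1).val : ℤ)) (by simp) (by simp)]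
  congr 1
  simp only [zv]
  push_cast
  ring

theorem zv_injective {W : WeierstrassCurve ℂ} {τ : ℍ} (U : Unif W τ) (p : ℕ) [NeZero p] :
    Function.Injective fun v : Fin 2 → ZMod p => U.Φ (zv p v τ) := by
  intro v w h
  have hp : (p : ℂ) ≠ 0 := Nat.cast_ne_zero.2 (NeZero.ne p)
  have h1 : U.Φ (zv p v τ - zv p w τ) = 0 := by rw [map_sub]; exact sub_eq_zero.2 h
  obtain ⟨m, n, h2⟩ := (mem_lat τ _).1 ((U.ker _).1 h1)
  rw [zv, zv, ← sub_div, div_eq_iff hp] at h2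
  have h3 : ((((v 0).val : ℤ) - ((w 0).val : ℤ) - p * m : ℤ) : ℂ) * τ +
      ((((v 1).val : ℤ) - ((w 1).val : ℤ) - p * n : ℤ) : ℂ) = 0 := by
    push_cast
    linear_combination h2
  generalize hA : ((v 0).val : ℤ) - ((w 0).val : ℤ) - p * m = A at h3
  generalize hB : ((v 1).val : ℤ) - ((w 1).val : ℤ) - p * n = B at h3
  have h4 : A = 0 := by
    have h5 := congrArg Complex.im h3
    simp at h5
    exact h5.resolve_right τ.im_pos.ne'
  have h5 : B = 0 := by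
    rw [h4] at h3
    simpa using h3
  have h6 : ((((v 0).val : ℤ) - ((w 0).val : ℤ) - p * m : ℤ) : ZMod p) = 0 := by
    rw [hA, h4, Int.cast_zero]
  have h7 : ((((v 1).val : ℤ) - ((w 1).val : ℤ) - p * n : ℤ) : ZMod p) = 0 := by
    rw [hB, h5, Int.cast_zero]
  simp at h6 h7
  funext i
  fin_cases i
  · exact sub_eq_zero.1 h6
  · exact sub_eq_zero.1 h7

theorem zv_torsion {W : WeierstrassCurve ℂ} {τ : ℍ} (U : Unif W τ) (p : ℕ) [NeZero p]
    (P : W.toAffine.Point) : p • P = 0 ↔ ∃ v : Fin 2 → ZMod p, P = U.Φ (zv p v τ) := by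
  have hp : (p : ℂ) ≠ 0 := Nat.cast_ne_zero.2 (NeZero.ne p)
  constructor
  · intro h
    obtain ⟨z, rfl⟩ := U.surj P
    rw [← map_nsmul, U.ker, mem_lat] at h
    obtain ⟨m, n, h⟩ := h
    refine ⟨![(m : ZMod p), (n : ZMod p)], ?_⟩
    rw [← gal_int U p _ m n rfl rfl, ← h, nsmul_eq_mul, mul_div_cancel_left₀ _ hp]
  · rintro ⟨v, rfl⟩
    rw [← map_nsmul, U.ker, mem_lat]
    refine ⟨(v 0).val, (v 1).val, ?_⟩
    rw [zv, nsmul_eq_mul, mul_div_cancel₀ _ hp]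
    simp

theorem gal_matrix {p : ℕ} (f : (Fin 2 → ZMod p) → Fin 2 → ZMod p)
    (hf : ∀ v w, f (v + w) = f v + f w) :
    ∃ β : Matrix (Fin 2) (Fin 2) (ZMod p), ∀ v, v ᵥ* β = f v := by
  let F := (AddMonoidHom.mk' f hf).toZModLinearMap p
  refine ⟨LinearMap.toMatrixRight' F, fun v => ?_⟩
  exact LinearMap.congr_fun (LinearMap.toMatrixRight'.symm_apply_apply F) v

theorem gal_unit {p : ℕ} [Fact p.Prime] {a : Matrix (Fin 2) (Fin 2) (ZMod p)}
    (h : Function.Injective fun v : Fin 2 → ZMod p => v ᵥ* a) : IsUnit a.det :=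
  (Matrix.isUnit_iff_isUnit_det a).1 (Matrix.vecMul_injective_iff_isUnit.1 h)

/-- The matrix of a homomorphism on the `p`-torsion. -/
theorem exists_matrix {W W' : WeierstrassCurve ℂ} {τ τ' : ℍ} (U : Unif W τ) (U' : Unif W' τ')
    (p : ℕ) [NeZero p] (ψ : W.toAffine.Point →+ W'.toAffine.Point) :
    ∃ β : Matrix (Fin 2) (Fin 2) (ZMod p), ∀ v, ψ (U.Φ (zv p v τ)) = U'.Φ (zv p (v ᵥ* β) τ') := by
  have h1 : ∀ v, ∃ w, ψ (U.Φ (zv p v τ)) = U'.Φ (zv p w τ') := fun v =>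
    (zv_torsion U' p _).1 (by rw [← map_nsmul, (zv_torsion U p _).2 ⟨v, rfl⟩, map_zero])
  choose f hf using h1
  obtain ⟨β, hβ⟩ := gal_matrix f fun v w => zv_injective U' p (by
    show U'.Φ _ = U'.Φ _
    rw [zv_add, ← hf, ← hf, ← hf, zv_add, map_add])
  exact ⟨β, fun v => by rw [hβ, hf]⟩

/-- The function `hf` in terms of the point. -/
def galH (W : WeierstrassCurve ℂ) : W.toAffine.Point → ℂ
  | .zero => 0
  | .some x _ _ => (x + W.b₂ / 12) ^ 2 * (W.c₄ ^ 2 + W.c₆ * (x + W.b₂ / 12)) / W.Δ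

theorem gal_hf {W : WeierstrassCurve ℂ} {τ : ℍ} (U : Unif W τ) (z : ℂ) :
    hf τ z = galH W (U.Φ z) := by
  by_cases hz : z ∈ (lat τ).lattice
  · have h1 : (lat τ).weierstrassP z = 0 := (lat τ).weierstrassP_coe ⟨z, hz⟩
    rw [(U.ker z).2 hz, hf, h1]
    simp [galH]
  · obtain ⟨h, h1⟩ := U.eq_some z hz
    have h2 : W.Δ = U.u ^ 12 * disc τ := by
      have h3 := W.c_relation
      rw [U.c4, U.c6] at h3
      rw [disc]
      linear_combination h3 / 1728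
    have hu := U.u_ne
    have hd := disc_ne_zero τ
    rw [h1, hf, galH, h2, U.c4, U.c6]
    field_simp
    ring

theorem gal_H_map (E : WeierstrassCurve ℚ) (σ : ℂ ≃ₐ[ℚ] ℂ)
    (P : (E.baseChange ℂ).toAffine.Point) :
    σ (galH (E.baseChange ℂ) P) =
      galH (E.baseChange ℂ) (Affine.Point.map (W' := E) σ.toAlgHom P) := by
  cases P with
  | zero => exact map_zero σ
  | some x y h =>
    rw [Affine.Point.map_some]
    simp only [galH, baseChange, map_b₂, map_c₄, map_c₆, map_Δ, map_div₀, map_mul, map_add,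
      map_pow, AlgEquiv.commutes, map_ofNat]
    rfl

/-- Automorphisms of `ℂ` act on the level `p` functions through invertible matrices. -/
theorem gal (E : WeierstrassCurve ℚ) [E.IsElliptic] {τ : ℍ} (U : Unif (E.baseChange ℂ) τ)
    (p : ℕ) [Fact p.Prime] (σ : ℂ ≃ₐ[ℚ] ℂ) :
    ∃ a : Matrix (Fin 2) (Fin 2) (ZMod p), IsUnit a.det ∧ ∀ v,
      Affine.Point.map (W' := E) σ.toAlgHom (U.Φ (zv p v τ)) = U.Φ (zv p (v ᵥ* a) τ) ∧
      σ (hv p v τ) = hv p (v ᵥ* a) τ := by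
  obtain ⟨a, ha⟩ := exists_matrix U U p (Affine.Point.map (W' := E) σ.toAlgHom)
  refine ⟨a, gal_unit fun v w h => zv_injective U p
    (Affine.Point.map_injective (W' := E) σ.toAlgHom ?_), fun v => ⟨ha v, ?_⟩⟩
  · show Affine.Point.map (W' := E) σ.toAlgHom (U.Φ _) = Affine.Point.map σ.toAlgHom (U.Φ _)
    rw [ha, ha]
    exact congrArg (fun u => U.Φ (zv p u τ)) h
  · rw [hv, hv, gal_hf U, gal_hf U, gal_H_map, ha]

theorem gal_iota : ∃ ι : AlgebraicClosure ℚ →ₐ[ℚ] ℂ, (∀ z, IsAlgebraic ℚ z → ∃ x, ι x = z) ∧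
    ∀ σ : ℂ ≃ₐ[ℚ] ℂ, ∃ σ₀ : AlgebraicClosure ℚ ≃ₐ[ℚ] AlgebraicClosure ℚ,
      ι.comp σ₀.toAlgHom = σ.toAlgHom.comp ι := by
  have : IsAlgClosure ℚ (algebraicClosure ℚ ℂ) := algebraicClosure.isAlgClosure ℚ ℂ
  have : IsAlgClosure ℚ (AlgebraicClosure ℚ) := AlgebraicClosure.instIsAlgClosure ℚ
  let e : AlgebraicClosure ℚ ≃ₐ[ℚ] algebraicClosure ℚ ℂ := IsAlgClosure.equiv ℚ _ _
  refine ⟨(algebraicClosure ℚ ℂ).val.comp e.toAlgHom, fun z hz =>
    ⟨e.symm ⟨z, mem_algebraicClosure_iff.2 hz⟩, ?_⟩, fun σ =>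
    ⟨(e.trans σ.algebraicClosure).trans e.symm, ?_⟩⟩
  · show ((e (e.symm ⟨z, _⟩) : algebraicClosure ℚ ℂ) : ℂ) = z
    rw [e.apply_symm_apply]
  · ext x
    show ((e (e.symm (σ.algebraicClosure (e x))) : algebraicClosure ℚ ℂ) : ℂ) = σ (e x)
    rw [e.apply_symm_apply]
    rfl

theorem gal_descend (E : WeierstrassCurve ℚ) {τ : ℍ} (U : Unif (E.baseChange ℂ) τ)
    (p : ℕ) [NeZero p] (ι : AlgebraicClosure ℚ →ₐ[ℚ] ℂ)
    (hι : ∀ z, IsAlgebraic ℚ z → ∃ x, ι x = z) (v : Fin 2 → ZMod p) :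
    ∃ P : AddSubgroup.torsionBy (E.baseChange (AlgebraicClosure ℚ)).toAffine.Point p,
      Affine.Point.map (W' := E) ι P = U.Φ (zv p v τ) := by
  have h0 : p • U.Φ (zv p v τ) = 0 := (zv_torsion U p _).2 ⟨v, rfl⟩
  have h1 : ∃ P : (E.baseChange (AlgebraicClosure ℚ)).toAffine.Point,
      Affine.Point.map (W' := E) ι P = U.Φ (zv p v τ) := by
    generalize U.Φ (zv p v τ) = Q at h0
    cases Q with
    | zero => exact ⟨0, rfl⟩
    | some x y h =>
      have key : ∀ c : (E.baseChange ℂ).toAffine.Point → ℂ, ∀ z : ℂ,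
          (∀ σ : ℂ ≃ₐ[ℚ] ℂ,
            c (Affine.Point.map (W' := E) σ.toAlgHom (.some x y h)) = σ z) →
          ∃ z₀, ι z₀ = z := by
        intro c z hc
        refine hι z (isAlgebraic_of_finite_orbit z
          (Finset.univ.image fun w : Fin 2 → ZMod p => c (U.Φ (zv p w τ))) fun σ => ?_)
        obtain ⟨w, hw⟩ := (zv_torsion U p
          (Affine.Point.map (W' := E) σ.toAlgHom (.some x y h))).1
          (by rw [← map_nsmul, h0, map_zero])
        exact Finset.mem_image.2 ⟨w, Finset.mem_univ _, by rw [← hw, hc]⟩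
      obtain ⟨x₀, rfl⟩ := key (fun P => match P with
        | .zero => 0
        | .some x _ _ => x) x fun σ => rfl
      obtain ⟨y₀, rfl⟩ := key (fun P => match P with
        | .zero => 0
        | .some _ y _ => y) y fun σ => rfl
      exact ⟨.some x₀ y₀ ((Affine.baseChange_nonsingular E.toAffine ι.injective x₀ y₀).1 h), rfl⟩
  obtain ⟨P, hP⟩ := h1
  refine ⟨⟨P, AddSubgroup.torsionBy.nsmul_iff.2
    (Affine.Point.map_injective (W' := E) ι ?_)⟩, hP⟩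
  rw [map_nsmul, hP, h0, map_zero]

/-- The matrix of a `p`-congruence. -/
theorem cong_matrix (E E' : WeierstrassCurve ℚ) [E.IsElliptic] [E'.IsElliptic] {τ τ' : ℍ}
    (U : Unif (E.baseChange ℂ) τ) (U' : Unif (E'.baseChange ℂ) τ') (p : ℕ) [Fact p.Prime]
    (h : Congruent p E E') :
    ∃ g : Matrix (Fin 2) (Fin 2) (ZMod p), IsUnit g.det ∧ ∀ (σ : ℂ ≃ₐ[ℚ] ℂ) v w,
      Affine.Point.map (W' := E) σ.toAlgHom (U.Φ (zv p v τ)) = U.Φ (zv p w τ) →
      Affine.Point.map (W' := E') σ.toAlgHom (U'.Φ (zv p (v ᵥ* g) τ')) =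
        U'.Φ (zv p (w ᵥ* g) τ') := by
  obtain ⟨φ, hφ⟩ := h
  obtain ⟨ι, hι, hσ⟩ := gal_iota
  choose P hP using gal_descend E U p ι hι
  have h1 : ∀ v, ∃ w, Affine.Point.map (W' := E') ι (φ (P v)) = U'.Φ (zv p w τ') := fun v =>
    (zv_torsion U' p _).1 (by
      rw [← map_nsmul, AddSubgroup.torsionBy.nsmul_iff.1 (φ (P v)).2, map_zero])
  choose f hf using h1
  have hadd : ∀ v w, P (v + w) = P v + P w := fun v w =>
    Subtype.ext (Affine.Point.map_injective (W' := E) ι (by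
      rw [AddSubgroup.coe_add, map_add, hP, hP, hP, zv_add]))
  obtain ⟨g, hg⟩ := gal_matrix f fun v w => zv_injective U' p (by
    show U'.Φ _ = U'.Φ _
    rw [zv_add, ← hf, ← hf, ← hf, hadd, map_add, AddSubgroup.coe_add, map_add])
  refine ⟨g, gal_unit fun v w hvw => zv_injective U p ?_, fun σ v w hvw => ?_⟩
  · have h2 : f v = f w := by rw [← hg, ← hg]; exact hvw
    have h3 : P v = P w := φ.injective (Subtype.ext
      (Affine.Point.map_injective (W' := E') ι (by rw [hf, hf, h2])))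
    show U.Φ _ = U.Φ _
    rw [← hP, ← hP, h3]
  · obtain ⟨σ₀, h2⟩ := hσ σ
    have h3 := hφ σ₀ (P v) (P w) (Affine.Point.map_injective (W' := E) ι (by
      rw [Affine.Point.map_map, h2, ← Affine.Point.map_map, hP, hP, hvw]))
    rw [hg, hg, ← hf, ← hf, h3, Affine.Point.map_map, Affine.Point.map_map, h2]

theorem Congruent.symm {p : ℕ} {E E' : WeierstrassCurve ℚ} (h : Congruent p E E') :
    Congruent p E' E := by
  obtain ⟨φ, hφ⟩ := h
  refine ⟨φ.symm, fun σ P Q hPQ => ?_⟩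
  have h1 : Affine.Point.map (W' := E) σ.toAlgHom (φ.symm P) ∈
      AddSubgroup.torsionBy (E.baseChange (AlgebraicClosure ℚ)).toAffine.Point p :=
    AddSubgroup.torsionBy.nsmul_iff.2 (by
      rw [← map_nsmul, AddSubgroup.torsionBy.nsmul_iff.1 (φ.symm P).2, map_zero])
  have h2 := hφ σ (φ.symm P) ⟨_, h1⟩ rfl
  rw [φ.apply_symm_apply, ← hPQ] at h2
  rw [← Subtype.ext h2, φ.symm_apply_apply]

/-- A congruence gives a rational resolvent. -/
theorem cong_rat (E E' : WeierstrassCurve ℚ) [E.IsElliptic] [E'.IsElliptic] (p : ℕ)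
    [Fact p.Prime] (h : Congruent p E E') (τ τ' : ℍ) (hτ : J τ = (E.j : ℂ))
    (hτ' : J τ' = (E'.j : ℂ)) :
    ∃ g : Matrix (Fin 2) (Fin 2) (ZMod p), IsUnit g.det ∧
      ∀ l μ : ℕ, ∃ q : ℚ, (q : ℂ) = wf p l μ g τ τ' := by
  have : (E.baseChange ℂ).IsElliptic := inferInstanceAs (E.map (algebraMap ℚ ℂ)).IsElliptic
  have : (E'.baseChange ℂ).IsElliptic := inferInstanceAs (E'.map (algebraMap ℚ ℂ)).IsElliptic
  obtain ⟨U⟩ := unif (E.baseChange ℂ) τ (hτ.trans (E.map_j (algebraMap ℚ ℂ)).symm)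
  obtain ⟨U'⟩ := unif (E'.baseChange ℂ) τ' (hτ'.trans (E'.map_j (algebraMap ℚ ℂ)).symm)
  obtain ⟨g, hg, hc⟩ := cong_matrix E E' U U' p h
  refine ⟨g, hg, fun l μ => fix_rat _ fun σ => ?_⟩
  obtain ⟨a, ha, h1⟩ := gal E U p σ
  obtain ⟨a', -, h2⟩ := gal E' U' p σ
  have h3 : ∀ v, (v ᵥ* g) ᵥ* a' = (v ᵥ* a) ᵥ* g := fun v => zv_injective U' p
    ((h2 (v ᵥ* g)).1.symm.trans (hc σ v _ (h1 v).1))
  have h4 : Function.Bijective fun v : Fin 2 → ZMod p => v ᵥ* a :=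
    Finite.injective_iff_bijective.1
      (Matrix.vecMul_injective_of_isUnit ((Matrix.isUnit_iff_isUnit_det a).2 ha))
  rw [wf, map_prod]
  refine Fintype.prod_bijective _ h4 _ _ fun v => ?_
  rw [map_sub, map_sub, map_mul, map_natCast, map_natCast, (h1 v).2, (h2 _).2, h3]

end

end Pool.Agent.P.MP_a60a76_nt.SP
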