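import Pool.Agent.P.MP_a60a76_nt.SP.Defs

namespace Pool.Agent.P.MP_a60a76_nt.SP

open Polynomial UpperHalfPlane PeriodPair
open scoped MatrixGroups UpperHalfPlane Matrix Modular Topology Classical

noncomputable section

namespace JB

lemma G_prod (k : ℕ) (τ : ℍ) :
    (lat τ).G k = ∑' x : ℤ × ℤ, (((x.1 : ℂ) * τ + x.2) ^ k)⁻¹ := by
  rw [PeriodPair.G, ← (lat τ).latticeEquivProd.symm.toEquiv.tsum_eq]
  refine tsum_congr fun x => ?_
  have h := (lat τ).latticeEquiv_symm_apply x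
  simp only [LinearEquiv.coe_toEquiv] at h ⊢
  rw [h]
  simp [lat]

lemma G_eq {k : ℕ} (hk : 3 ≤ k) (τ : ℍ) :
    (lat τ).G k = 2 * riemannZeta k * ModularForm.E hk τ := by
  have h := tsum_eisSummand_eq_riemannZeta_mul_eisensteinSeries hk τ
  have hE : ModularForm.E hk τ = (1 / 2 : ℂ) * eisensteinSeries (N := 1) 0 k τ := rfl
  rw [G_prod, hE, ← (finTwoArrowEquiv ℤ).tsum_eq]
  have : ∑' v : Fin 2 → ℤ, (((((finTwoArrowEquiv ℤ) v).1 : ℂ) * τ +
      ((finTwoArrowEquiv ℤ) v).2) ^ k)⁻¹ = ∑' v : Fin 2 → ℤ, EisensteinSeries.eisSummand k v τ :=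
    tsum_congr fun v => by simp [EisensteinSeries.eisSummand]
  rw [this, h]
  ring

lemma zeta_six : riemannZeta 6 = (Real.pi : ℂ) ^ 6 / 945 := by
  have h := riemannZeta_two_mul_nat (k := 3) (by norm_num)
  have hb : _root_.bernoulli (2 * 3) = 1 / 42 := by decide +kernel
  rw [hb] at h
  have h6 : (2 * ((3 : ℕ) : ℂ)) = 6 := by norm_num
  rw [h6] at h
  rw [h]
  norm_num [Nat.factorial]
  ring

lemma g₂_eq (τ : ℍ) : (lat τ).g₂ = 4 * (Real.pi : ℂ) ^ 4 / 3 * ModularForm.E₄ τ := by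
  rw [PeriodPair.g₂, G_eq (by norm_num : 3 ≤ 4), Nat.cast_ofNat, riemannZeta_four]
  ring

lemma g₃_eq (τ : ℍ) : (lat τ).g₃ = 8 * (Real.pi : ℂ) ^ 6 / 27 * ModularForm.E₆ τ := by
  rw [PeriodPair.g₃, G_eq (by norm_num : 3 ≤ 6), Nat.cast_ofNat, zeta_six]
  ring

lemma disc_eq (τ : ℍ) : disc τ = 4096 * (Real.pi : ℂ) ^ 12 * ModularForm.discriminant τ := by
  rw [disc, g₂_eq, g₃_eq, ModularForm.discriminant_eq_E₄_cube_sub_E₆_sq]
  ring

lemma pi_ne : (Real.pi : ℂ) ≠ 0 := Complex.ofReal_ne_zero.2 Real.pi_ne_zero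

lemma bound_fd {f : ℍ → ℂ} (hf : Continuous f) {g : ℍ → ℝ} (hg : ∀ τ, 1 ≤ g τ)
    (h : f =O[atImInfty] g) : ∃ C : ℝ, 0 ≤ C ∧ ∀ τ ∈ 𝒟, ‖f τ‖ ≤ C * g τ := by
  obtain ⟨D, hD, h⟩ := h.exists_pos
  obtain ⟨y, hy⟩ := (atImInfty_mem _).1 h.bound
  obtain ⟨E, hE⟩ := (ModularGroup.isCompact_truncatedFundamentalDomain y).exists_bound_of_continuousOn
    hf.continuousOn
  refine ⟨max D E, hD.le.trans (le_max_left _ _), fun τ hτ => ?_⟩
  have h1 := hg τ
  rcases le_total y τ.im with hτ' | hτ'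
  · have := hy τ hτ'
    simp only [Set.mem_ofPred_eq, Real.norm_of_nonneg (zero_le_one.trans h1)] at this
    exact this.trans (mul_le_mul_of_nonneg_right (le_max_left _ _) (zero_le_one.trans h1))
  · refine (hE τ ⟨hτ, hτ'⟩).trans ((le_max_right D E).trans ?_)
    exact le_mul_of_one_le_right (hD.le.trans (le_max_left _ _)) h1

lemma tendsto_E₄ : Filter.Tendsto ModularForm.E₄ atImInfty (𝓝 1) := by
  have ha := ModularFormClass.analyticAt_cuspFunction_zero ModularForm.E₄ one_pos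
    one_mem_strictPeriods_SL
  have hp := SlashInvariantFormClass.periodic_comp_ofComplex ModularForm.E₄
    one_mem_strictPeriods_SL
  have h0 : cuspFunction 1 ModularForm.E₄ 0 = 1 := by
    rw [cuspFunction_apply_zero one_pos ha hp, ← qExpansion_coeff_zero one_pos ha hp]
    exact EisensteinSeries.E_qExpansion_coeff_zero _ ⟨2, rfl⟩
  have h := ha.continuousAt.tendsto.comp (qParam_tendsto_atImInfty one_pos)
  rw [h0] at h
  refine h.congr fun τ => ?_
  exact eq_cuspFunction τ one_ne_zero hp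

lemma inv_disc_isBigO : (fun τ => (ModularForm.discriminant τ)⁻¹) =O[atImInfty]
    fun τ : ℍ => Real.exp (2 * Real.pi * τ.im) := by
  have h := ModularForm.exp_isBigO_discriminant.inv_rev
    (Filter.Eventually.of_forall fun τ h => absurd h (Real.exp_pos _).ne')
  refine h.congr_right fun τ => ?_
  rw [← Real.exp_neg]
  congr 1
  ring

lemma one_le_exp (τ : ℍ) : 1 ≤ Real.exp (2 * Real.pi * τ.im) :=
  Real.one_le_exp (by have := τ.im_pos; positivity)

lemma disc_cont : Continuous ModularForm.discriminant :=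
  ModularFormClass.continuous CuspForm.discriminant

lemma im_smul_le (g : SL(2, ℤ)) (τ : ℍ) : (g • τ).im ≤ max τ.im τ.im⁻¹ := by
  have hτ := τ.im_pos
  rw [ModularGroup.im_smul_eq_div_normSq, ModularGroup.denom_apply]
  by_cases hg : g 1 0 = 0
  · have h1 : g 1 1 ≠ 0 := fun hg' => zero_ne_one <| by
      simpa only [Matrix.det_fin_two, hg, hg', mul_zero, mul_zero, sub_zero] using g.det_coe
    have h2 : (1 : ℝ) ≤ g 1 1 ^ 2 := mod_cast (one_le_sq_iff_one_le_abs _).mpr (Int.one_le_abs h1)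
    refine le_trans ?_ <| le_max_left _ _
    rw [show Complex.normSq ((g 1 0) * τ + (g 1 1)) = (g 1 1) ^ 2 by simp [hg, sq]]
    exact div_le_self hτ.le h2
  · refine le_trans ?_ <| le_max_right _ _
    rw [show τ.im⁻¹ = τ.im / τ.im ^ 2 by field_simp]
    gcongr
    rw [show Complex.normSq ((g 1 0) * τ + (g 1 1)) =
      ((g 1 0) * τ.re + (g 1 1)) ^ 2 + (g 1 0) ^ 2 * τ.im ^ 2 by simp [Complex.normSq_apply]; ring]
    have : (1 : ℝ) ≤ g 1 0 ^ 2 := mod_cast (one_le_sq_iff_one_le_abs _).mpr (Int.one_le_abs hg)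
    nlinarith [sq_nonneg ((g 1 0) * τ.re + (g 1 1) : ℝ), sq_nonneg τ.im]

/-- Reflection in the imaginary axis. -/
def negConj (τ : ℍ) : ℍ := ⟨-(starRingEnd ℂ) τ, by simpa using τ.im_pos⟩

lemma G_negConj (k : ℕ) (τ : ℍ) : (lat (negConj τ)).G k = (starRingEnd ℂ) ((lat τ).G k) := by
  rw [G_prod, G_prod, Complex.conj_tsum,
    ← (Equiv.prodCongr (Equiv.neg ℤ) (Equiv.refl ℤ)).tsum_eq]
  refine tsum_congr fun x => ?_
  simp [negConj]

lemma J_negConj (τ : ℍ) : J (negConj τ) = (starRingEnd ℂ) (J τ) := by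
  simp only [J, disc, PeriodPair.g₂, PeriodPair.g₃, G_negConj, map_div₀, map_mul, map_sub, map_pow,
    map_ofNat]

end JB

open JB

theorem disc_ne_zero (τ : ℍ) : disc τ ≠ 0 := by
  rw [disc_eq]
  exact mul_ne_zero (mul_ne_zero (by norm_num) (pow_ne_zero _ pi_ne))
    (ModularForm.discriminant_ne_zero τ)

theorem J_eq (τ : ℍ) : J τ = ModularForm.E₄ τ ^ 3 / ModularForm.discriminant τ := by
  have h1 := ModularForm.discriminant_ne_zero τ
  have h2 := pi_ne
  rw [J, disc_eq, g₂_eq]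
  field_simp
  ring

theorem g₂_hol : Hol fun τ => (lat τ).g₂ := by
  have h := (UpperHalfPlane.mdifferentiable_iff.1 (ModularFormClass.holo ModularForm.E₄)).const_mul
    (4 * (Real.pi : ℂ) ^ 4 / 3)
  exact h.congr fun z _ => g₂_eq _

theorem g₃_hol : Hol fun τ => (lat τ).g₃ := by
  have h := (UpperHalfPlane.mdifferentiable_iff.1 (ModularFormClass.holo ModularForm.E₆)).const_mul
    (8 * (Real.pi : ℂ) ^ 6 / 27)
  exact h.congr fun z _ => g₃_eq _

theorem g_bound : ∃ C : ℝ, ∀ τ ∈ 𝒟, ‖(lat τ).g₂‖ ≤ C ∧ ‖(lat τ).g₃‖ ≤ C ∧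
    ‖(disc τ)⁻¹‖ ≤ C * Real.exp (2 * Real.pi * τ.im) := by
  obtain ⟨A, -, hA⟩ := bound_fd (ModularFormClass.continuous ModularForm.E₄)
    (g := fun _ => 1) (fun _ => le_rfl) (ModularFormClass.bdd_at_infty ModularForm.E₄)
  obtain ⟨B, -, hB⟩ := bound_fd (ModularFormClass.continuous ModularForm.E₆)
    (g := fun _ => 1) (fun _ => le_rfl) (ModularFormClass.bdd_at_infty ModularForm.E₆)
  obtain ⟨D, -, hD⟩ := bound_fd (disc_cont.inv₀ ModularForm.discriminant_ne_zero) one_le_exp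
    inv_disc_isBigO
  refine ⟨max (max (‖4 * (Real.pi : ℂ) ^ 4 / 3‖ * A) (‖8 * (Real.pi : ℂ) ^ 6 / 27‖ * B))
    (‖(4096 * (Real.pi : ℂ) ^ 12)⁻¹‖ * D), fun τ hτ => ⟨?_, ?_, ?_⟩⟩
  · refine le_trans ?_ ((le_max_left _ _).trans (le_max_left _ _))
    rw [g₂_eq, norm_mul]
    exact mul_le_mul_of_nonneg_left (by simpa using hA τ hτ) (norm_nonneg _)
  · refine le_trans ?_ ((le_max_right _ _).trans (le_max_left _ _))
    rw [g₃_eq, norm_mul]
    exact mul_le_mul_of_nonneg_left (by simpa using hB τ hτ) (norm_nonneg _)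
  · refine le_trans ?_ (mul_le_mul_of_nonneg_right (le_max_right _ _) (Real.exp_pos _).le)
    rw [disc_eq, mul_inv, norm_mul, mul_assoc]
    exact mul_le_mul_of_nonneg_left (hD τ hτ) (norm_nonneg _)

theorem J_smul (γ : SL(2, ℤ)) (τ : ℍ) : J (γ • τ) = J τ := by
  have hγ : (γ : GL (Fin 2) ℝ) ∈ 𝒮ℒ := ⟨γ, rfl⟩
  have h1 : ModularForm.E₄ (γ • τ) = denom γ τ ^ ((4 : ℕ) : ℤ) * ModularForm.E₄ τ :=
    SlashInvariantForm.slash_action_eqn'' ModularForm.E₄ hγ τ
  have h2 : ModularForm.discriminant (γ • τ) =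
      denom γ τ ^ (12 : ℤ) * ModularForm.discriminant τ :=
    SlashInvariantForm.slash_action_eqn'' CuspForm.discriminant hγ τ
  have h3 := denom_ne_zero (γ : GL (Fin 2) ℝ) τ
  have h4 := ModularForm.discriminant_ne_zero τ
  rw [J_eq, J_eq, h1, h2, zpow_natCast, zpow_ofNat]
  field_simp

theorem J_hol : Hol J := by
  have h1 := UpperHalfPlane.mdifferentiable_iff.1 (ModularFormClass.holo ModularForm.E₄)
  have h2 := UpperHalfPlane.mdifferentiable_iff.1 (ModularFormClass.holo CuspForm.discriminant)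
  exact ((h1.pow 3).div h2 fun z _ => ModularForm.discriminant_ne_zero _).congr fun z _ => J_eq _

theorem J_continuous : Continuous J :=
  (UpperHalfPlane.mdifferentiable_iff.2 J_hol).continuous

private lemma J_fd : ∃ C : ℝ, 0 ≤ C ∧ ∀ τ ∈ 𝒟, ‖J τ‖ ≤ C * Real.exp (2 * Real.pi * τ.im) := by
  refine bound_fd J_continuous one_le_exp ?_
  have h := ((tendsto_E₄.pow 3).isBigO_one ℝ).mul inv_disc_isBigO
  refine h.congr (fun τ => ?_) fun τ => one_mul _
  rw [J_eq, div_eq_mul_inv]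

theorem J_mod : Mod 1 J := by
  obtain ⟨C, -, hC⟩ := J_fd
  refine ⟨J_hol, C, fun γ τ hτ => ?_⟩
  rw [J_smul, Nat.cast_one, mul_one]
  exact hC τ hτ

/-- `J` tends to infinity at the cusp. -/
theorem J_large (R : ℝ) : ∃ T : ℝ, ∀ τ : ℍ, T ≤ τ.im → R ≤ ‖J τ‖ := by
  have h1 : Filter.Tendsto (fun τ => ‖ModularForm.discriminant τ‖) atImInfty (𝓝[>] 0) :=
    tendsto_nhdsWithin_iff.2 ⟨tendsto_zero_iff_norm_tendsto_zero.1
      ModularForm.discriminant_isZeroAtImInfty, Filter.Eventually.of_forall fun τ =>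
        norm_pos_iff.2 (ModularForm.discriminant_ne_zero τ)⟩
  have h2 : Filter.Tendsto (fun τ => ‖ModularForm.E₄ τ ^ 3‖) atImInfty (𝓝 1) := by
    simpa using (tendsto_E₄.pow 3).norm
  have h3 := h2.pos_mul_atTop one_pos (tendsto_inv_nhdsGT_zero.comp h1)
  obtain ⟨T, hT⟩ := (atImInfty_mem _).1 (h3.eventually_ge_atTop R)
  refine ⟨T, fun τ hτ => ?_⟩
  rw [J_eq, norm_div, div_eq_mul_inv]
  exact hT τ hτ

theorem J_surj : Function.Surjective J := by
  intro c
  by_contra hc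
  have hne : ∀ τ, J τ - c ≠ 0 := fun τ h => hc ⟨τ, sub_eq_zero.1 h⟩
  have hs : ∀ γ : SL(2, ℤ), SlashAction.map (0 : ℤ) γ (fun τ => (J τ - c)⁻¹) =
      fun τ => (J τ - c)⁻¹ := fun γ => by
    ext τ
    rw [ModularForm.SL_slash_apply, J_smul]
    simp
  let f : ModularForm 𝒮ℒ 0 :=
    { toFun := fun τ => (J τ - c)⁻¹
      slash_action_eq' := fun _ ⟨γ, hγ⟩ => hγ ▸ hs γ
      holo' := UpperHalfPlane.mdifferentiable_iff.2 ((J_hol.sub_const c).inv fun z _ => hne _)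
      bdd_at_cusps' := fun {x} hx => by
        rw [Subgroup.IsArithmetic.isCusp_iff_isCusp_SL2Z] at hx
        rw [OnePoint.isBoundedAt_iff_forall_SL2Z hx]
        intro γ _
        rw [hs γ, isBoundedAtImInfty_iff]
        obtain ⟨T, hT⟩ := J_large (‖c‖ + 1)
        refine ⟨1, T, fun τ hτ => ?_⟩
        rw [norm_inv]
        refine inv_le_one_of_one_le₀ ?_
        have := hT τ hτ
        have := norm_sub_norm_le (J τ) c
        linarith }
  obtain ⟨d, hd⟩ := ModularFormClass.levelOne_weight_zero_const f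
  obtain ⟨T, hT⟩ := J_large (‖J I‖ + 1)
  let τ : ℍ := ⟨(max T 1 : ℝ) * Complex.I, by simp⟩
  have h1 : (J τ - c)⁻¹ = (J I - c)⁻¹ := (congrFun hd τ).trans (congrFun hd I).symm
  have h2 : J τ = J I := sub_left_injective (inv_injective h1)
  have h3 := hT τ (by simp [τ, UpperHalfPlane.im])
  rw [h2] at h3
  linarith

/-- `J` is real on the boundary of the fundamental domain. -/
theorem J_real {τ : ℍ} (h : τ ∈ 𝒟) (h' : τ ∉ 𝒟ᵒ) : (J τ).im = 0 := by
  have key : ∃ γ : SL(2, ℤ), negConj τ = γ • τ := by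
    by_cases h1 : Complex.normSq τ = 1
    · refine ⟨ModularGroup.S, UpperHalfPlane.ext ?_⟩
      rw [modular_S_smul]
      simp [negConj, Complex.inv_def, h1]
    · have h2 : |τ.re| = 1 / 2 := by
        by_contra h2
        exact h' ⟨lt_of_le_of_ne h.1 (Ne.symm h1), lt_of_le_of_ne h.2 h2⟩
      rcases (abs_eq (by norm_num)).1 h2 with h3 | h3
      · refine ⟨ModularGroup.T ^ (-1 : ℤ), UpperHalfPlane.ext ?_⟩
        rw [ModularGroup.coe_T_zpow_smul_eq]
        apply Complex.ext <;> simp [negConj, h3]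
        norm_num
      · refine ⟨ModularGroup.T ^ (1 : ℤ), UpperHalfPlane.ext ?_⟩
        rw [ModularGroup.coe_T_zpow_smul_eq]
        apply Complex.ext <;> simp [negConj, h3]
        norm_num
  obtain ⟨γ, hγ⟩ := key
  have h1 := J_negConj τ
  rw [hγ, J_smul] at h1
  exact Complex.conj_eq_iff_im.1 h1.symm

theorem J_bound : ∃ C : ℝ, ∀ σ : ℍ,
    ‖J σ‖ ≤ C * Real.exp (2 * Real.pi * max σ.im σ.im⁻¹) := by
  obtain ⟨C, hC0, hC⟩ := J_fd
  refine ⟨C, fun σ => ?_⟩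
  obtain ⟨g, hg⟩ := ModularGroup.exists_smul_mem_fd σ
  rw [← J_smul g σ]
  refine (hC _ hg).trans (mul_le_mul_of_nonneg_left (Real.exp_le_exp.2 ?_) hC0)
  exact mul_le_mul_of_nonneg_left (im_smul_le g σ) (by positivity)

end

end Pool.Agent.P.MP_a60a76_nt.SP
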