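import Pool.Agent.P.MP_a60a76_nt.SP.Unif
import Pool.Agent.P.MP_a60a76_nt.SP.Scale

namespace Pool.Agent.P.MP_a60a76_nt.SP

open Polynomial UpperHalfPlane PeriodPair
open scoped MatrixGroups UpperHalfPlane Matrix Modular Topology Classical

noncomputable section

open Filter WeierstrassCurve in
/-- A homomorphism with a differentiable local lift is multiplication by the derivative. -/
theorem lift_aux {A : Type} [AddCommGroup A] (Ψ Φ : ℂ →+ A) (hs : Function.Surjective Φ)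
    (hk : IsClosed {z | Φ z = 0}) {g : ℂ → ℂ} {c z₀ : ℂ} (hg : HasDerivAt g c z₀)
    (h : ∀ᶠ z in 𝓝 z₀, Φ (g z) = Ψ z) (z : ℂ) : Ψ z = Φ (c * z) := by
  obtain ⟨w, hw⟩ := hs (Ψ z)
  have h1 : Tendsto (fun n : ℕ => ‖(n : ℂ)‖) atTop atTop := by
    simpa using tendsto_natCast_atTop_atTop (R := ℝ)
  have h2 := (hg.hasFDerivAt.lim z h1).sub_const w
  have h3 : Tendsto (fun n : ℕ => z₀ + (n : ℂ)⁻¹ • z) atTop (𝓝 z₀) := by
    simpa using ((tendsto_inv_atTop_nhds_zero_nat (𝕜 := ℂ)).smul_const z).const_add z₀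
  have h4 := hk.mem_of_tendsto h2 (by
    filter_upwards [h3.eventually h, eventually_ne_atTop 0] with n h5 h6
    have h7 : n • ((n : ℂ)⁻¹ • z) = z := by
      rw [← Nat.cast_smul_eq_nsmul ℂ, smul_inv_smul₀ (Nat.cast_ne_zero.2 h6)]
    change Φ _ = 0
    rw [map_sub, Nat.cast_smul_eq_nsmul, map_nsmul, map_sub, h5, h.self_of_nhds, map_add,
      add_sub_cancel_left, ← map_nsmul, h7, hw, sub_self])
  have h5 : Φ (z * c - w) = 0 := by simpa using h4
  rw [map_sub, sub_eq_zero, hw, mul_comm] at h5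
  exact h5.symm

/-- First coordinate of the parametrisation. -/
def Unif.x {W : WeierstrassCurve ℂ} {τ : ℍ} (U : Unif W τ) (z : ℂ) : ℂ :=
  U.u ^ 2 * (lat τ).weierstrassP z - W.b₂ / 12

/-- Second coordinate of the parametrisation. -/
def Unif.y {W : WeierstrassCurve ℂ} {τ : ℍ} (U : Unif W τ) (z : ℂ) : ℂ :=
  U.u ^ 3 * (lat τ).derivWeierstrassP z / 2 - (W.a₁ * U.x z + W.a₃) / 2

theorem lift_coord {W : WeierstrassCurve ℂ} {τ : ℍ} (U : Unif W τ) {z a b : ℂ}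
    {h : W.toAffine.Nonsingular a b} (e : U.Φ z = WeierstrassCurve.Affine.Point.some a b h) :
    z ∉ (lat τ).lattice ∧ U.x z = a ∧ U.y z = b := by
  have h1 : z ∉ (lat τ).lattice := fun h2 => by
    rw [(U.ker z).2 h2] at e
    cases e
  obtain ⟨h', e'⟩ := U.eq_some z h1
  exact ⟨h1, WeierstrassCurve.Affine.Point.some.inj (e'.symm.trans e)⟩

theorem lift_diff {W : WeierstrassCurve ℂ} {τ : ℍ} (U : Unif W τ) {z : ℂ}
    (h : z ∉ (lat τ).lattice) : DifferentiableAt ℂ U.x z ∧ DifferentiableAt ℂ U.y z := by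
  have h1 := ((lat τ).analyticOnNhd_weierstrassP z h).differentiableAt
  have h2 := ((lat τ).analyticOnNhd_derivWeierstrassP z h).differentiableAt
  have h3 : DifferentiableAt ℂ U.x z := (h1.const_mul _).sub_const _
  exact ⟨h3, ((h2.const_mul _).div_const _).sub (((h3.const_mul _).add_const _).div_const _)⟩

theorem lift_closed {W : WeierstrassCurve ℂ} {τ : ℍ} (U : Unif W τ) :
    IsClosed {z | U.Φ z = 0} := by
  simp only [U.ker]
  exact (lat τ).isClosed_lattice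

theorem lift_point {W : WeierstrassCurve ℂ} [W.IsElliptic] {τ : ℍ} (U : Unif W τ) {c : ℂ[X]}
    (hc : c ≠ 0) : ∃ z, z ∉ (lat τ).lattice ∧ c.eval (U.x z) ≠ 0 := by
  obtain ⟨a, ha⟩ := (c.finite_setOfPred_isRoot hc).infinite_compl.nonempty
  obtain ⟨s, hs⟩ := IsAlgClosed.exists_eq_mul_self
    ((W.a₁ * a + W.a₃) ^ 2 + 4 * (a ^ 3 + W.a₂ * a ^ 2 + W.a₄ * a + W.a₆))
  have h1 : W.toAffine.Nonsingular a ((s - (W.a₁ * a + W.a₃)) / 2) := by
    rw [← WeierstrassCurve.Affine.equation_iff_nonsingular, WeierstrassCurve.Affine.equation_iff]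
    linear_combination (-1 / 4 : ℂ) * hs
  obtain ⟨z, hz⟩ := U.surj (WeierstrassCurve.Affine.Point.some _ _ h1)
  obtain ⟨h2, h3, -⟩ := lift_coord U hz
  exact ⟨z, h2, h3 ▸ ha⟩

open Filter in
/-- A homomorphism given by rational functions is multiplication by a complex number. -/
theorem lift_ratHom {W W' : WeierstrassCurve ℂ} [W.IsElliptic] [W'.IsElliptic] {τ τ' : ℍ}
    (U : Unif W τ) (U' : Unif W' τ') (ψ : W.toAffine.Point →+ W'.toAffine.Point)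
    (h : RatHom ψ) : ∃ c : ℂ, c ≠ 0 ∧ ∀ z, ψ (U.Φ z) = U'.Φ (c * z) := by
  obtain ⟨a₁, b₁, a₂, b₂, c, hc, h⟩ := h
  set f₁ : ℂ → ℂ := fun z => (a₁.eval (U.x z) + b₁.eval (U.x z) * U.y z) / c.eval (U.x z) with hf₁
  set f₂ : ℂ → ℂ := fun z => (a₂.eval (U.x z) + b₂.eval (U.x z) * U.y z) / c.eval (U.x z) with hf₂
  have hO : ∀ z, z ∉ (lat τ).lattice ∧ c.eval (U.x z) ≠ 0 →
      ∃ h', ψ (U.Φ z) = WeierstrassCurve.Affine.Point.some (f₁ z) (f₂ z) h' := fun z hz => by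
    obtain ⟨h1, e⟩ := U.eq_some z hz.1
    rw [e]
    exact h _ _ h1 hz.2
  have hp : ∀ (p : ℂ[X]) z, z ∉ (lat τ).lattice →
      DifferentiableAt ℂ (fun z => p.eval (U.x z)) z := fun p z hz =>
    p.differentiableAt.comp z (lift_diff U hz).1
  have hop : ∀ z, z ∉ (lat τ).lattice ∧ c.eval (U.x z) ≠ 0 →
      ∀ᶠ z in 𝓝 z, z ∉ (lat τ).lattice ∧ c.eval (U.x z) ≠ 0 := fun z hz =>
    Eventually.and ((lat τ).isClosed_lattice.isOpen_compl.mem_nhds hz.1)
      ((hp c z hz.1).continuousAt.eventually_ne hz.2)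
  obtain ⟨z₀, h0, h2⟩ : ∃ z₀, (z₀ ∉ (lat τ).lattice ∧ c.eval (U.x z₀) ≠ 0) ∧
      ψ (U.Φ z₀) + ψ (U.Φ z₀) ≠ 0 := by
    by_contra hn
    obtain ⟨z₁, h1⟩ := lift_point U hc
    have h3 := lift_aux (ψ.comp U.Φ + ψ.comp U.Φ) U'.Φ U'.surj (lift_closed U')
      (hasDerivAt_const z₁ (0 : ℂ)) ((hop z₁ h1).mono fun z hz => by
        rw [map_zero]
        by_contra h4
        exact hn ⟨z, hz, fun h5 => h4 h5.symm⟩) (z₁ / 2)
    obtain ⟨h', e⟩ := hO z₁ h1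
    rw [zero_mul, map_zero, AddMonoidHom.add_apply, ← map_add, add_halves] at h3
    cases e.symm.trans h3
  obtain ⟨w₀, hw₀⟩ := U'.surj (ψ (U.Φ z₀))
  obtain ⟨h', e₀⟩ := hO z₀ h0
  obtain ⟨hw1, hw2, hw3⟩ := lift_coord U' (hw₀.trans e₀)
  have hw4 : -w₀ ∉ (lat τ').lattice := fun h3 => hw1 (neg_mem_iff.1 h3)
  have hxn : U'.x (-w₀) = U'.x w₀ := by simp only [Unif.x, weierstrassP_neg]
  have hyn : U'.y (-w₀) ≠ U'.y w₀ := fun h3 => h2 (by
    obtain ⟨h4, e⟩ := U'.eq_some _ hw4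
    have h5 : U'.Φ (-w₀) = ψ (U.Φ z₀) := by
      rw [e, e₀]
      congr 1
      · exact hxn.trans hw2
      · exact h3.trans hw3
    nth_rewrite 1 [← h5]
    rw [← hw₀, ← map_add, neg_add_cancel, map_zero])
  have hd : U'.u ^ 2 * (lat τ').derivWeierstrassP w₀ ≠ 0 :=
    mul_ne_zero (pow_ne_zero _ U'.u_ne) fun h3 => hyn (by
      simp only [Unif.y, hxn, derivWeierstrassP_neg, h3, neg_zero])
  have hx : HasStrictDerivAt U'.x (U'.u ^ 2 * (lat τ').derivWeierstrassP w₀) w₀ := by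
    have h3 := ((lat τ').analyticOnNhd_weierstrassP w₀ hw1).hasStrictDerivAt
    rw [deriv_weierstrassP] at h3
    exact (h3.const_mul _).sub_const _
  set θ := hx.localInverse _ _ _ hd with hθ
  have hθ1 : θ (U'.x w₀) = w₀ := (hx.hasStrictFDerivAt_equiv hd).localInverse_apply_image
  have hθ2 : ∀ᶠ t in 𝓝 (U'.x w₀), U'.x (θ t) = t :=
    (hx.hasStrictFDerivAt_equiv hd).eventually_right_inverse
  have hθ3 : DifferentiableAt ℂ θ (U'.x w₀) := (hx.to_localInverse hd).hasDerivAt.differentiableAt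
  rw [hw2] at hθ1 hθ2 hθ3
  have d₁ : DifferentiableAt ℂ f₁ z₀ := ((hp a₁ _ h0.1).add
    ((hp b₁ _ h0.1).mul (lift_diff U h0.1).2)).div (hp c _ h0.1) h0.2
  have d₂ : DifferentiableAt ℂ f₂ z₀ := ((hp a₂ _ h0.1).add
    ((hp b₂ _ h0.1).mul (lift_diff U h0.1).2)).div (hp c _ h0.1) h0.2
  have dg : DifferentiableAt ℂ (fun z => θ (f₁ z)) z₀ := hθ3.comp z₀ d₁
  have t1 : Tendsto (fun z => θ (f₁ z)) (𝓝 z₀) (𝓝 w₀) := hθ1 ▸ dg.continuousAt
  have t2 : Tendsto (fun z => U'.y (-θ (f₁ z)) - f₂ z) (𝓝 z₀) (𝓝 (U'.y (-w₀) - f₂ z₀)) :=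
    ((lift_diff U' hw4).2.continuousAt.tendsto.comp t1.neg).sub d₂.continuousAt
  have key := lift_aux (ψ.comp U.Φ) U'.Φ U'.surj (lift_closed U') dg.hasDerivAt (by
    filter_upwards [hop z₀ h0, d₁.continuousAt.eventually hθ2,
      t1.eventually ((lat τ').isClosed_lattice.isOpen_compl.mem_nhds hw1),
      t2.eventually_ne (sub_ne_zero.2 (hw3 ▸ hyn))] with z h3 h4 h5 h6
    obtain ⟨w, hw⟩ := U'.surj (ψ (U.Φ z))
    obtain ⟨h7, e⟩ := hO z h3
    obtain ⟨h8, h9, -⟩ := lift_coord U' (hw.trans e)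
    have h10 : (lat τ').weierstrassP (θ (f₁ z)) = (lat τ').weierstrassP w :=
      mul_left_cancel₀ (pow_ne_zero 2 U'.u_ne) (sub_left_injective (h4.trans h9.symm))
    rcases wp_eq_iff τ' h5 h8 h10 with h11 | h11
    · rw [← U'.ker, map_sub, sub_eq_zero] at h11
      exact h11.trans hw
    · rw [← U'.ker, map_add, add_eq_zero_iff_neg_eq, ← map_neg, hw, e] at h11
      exact absurd (sub_eq_zero.2 (lift_coord U' h11).2.2) h6)
  refine ⟨_, fun h3 => h2 ?_, key⟩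
  have h4 := key z₀
  rw [h3, zero_mul, map_zero] at h4
  exact (congrArg₂ (· + ·) h4 h4).trans (add_zero 0)

end

end Pool.Agent.P.MP_a60a76_nt.SP
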