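import Pool.Agent.P.MP_a60a76_nt.SP.Unif
import Pool.Agent.P.MP_a60a76_nt.SP.Scale

namespace Pool.Agent.P.MP_a60a76_nt.SP

open Polynomial UpperHalfPlane PeriodPair
open scoped MatrixGroups UpperHalfPlane Matrix Modular Topology Classical

noncomputable section

namespace Velu

/-- The Weierstrass functions of a larger lattice are finite sums of translates. -/
lemma sum_translates (L M : PeriodPair) (h : L.lattice ≤ M.lattice) :
    ∃ (Q : Type) (_ : Fintype Q) (a : Q → ℂ),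
      (∀ z ∈ M.lattice, ∃ q, z - a q ∈ L.lattice) ∧
      (∀ z, M.weierstrassP z = ∑ q, (L.weierstrassP (z - a q) - L.weierstrassP (-a q))) ∧
      ∀ z, M.derivWeierstrassP z = ∑ q, L.derivWeierstrassP (z - a q) := by
  let H : Submodule ℤ M.lattice := L.lattice.submoduleOf M.lattice
  have : Module.Free ℤ M.lattice := Module.Free.of_basis M.latticeBasis
  have : Module.Finite ℤ M.lattice := Module.Finite.of_basis M.latticeBasis
  have : Finite (M.lattice ⧸ H) := Submodule.finiteQuotientOfFreeOfRankEq H (by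
    rw [(Submodule.submoduleOfEquivOfLe h).finrank_eq, Module.finrank_eq_card_basis L.latticeBasis,
      Module.finrank_eq_card_basis M.latticeBasis])
  let _ : Fintype (M.lattice ⧸ H) := Fintype.ofFinite _
  obtain ⟨rep, hrep⟩ := (Submodule.mkQ_surjective H).hasRightInverse
  let f : (M.lattice ⧸ H) × L.lattice → M.lattice := fun p => rep p.1 + ⟨p.2.1, h p.2.2⟩
  have h0 : ∀ l : L.lattice, H.mkQ ⟨l.1, h l.2⟩ = 0 := fun l =>
    (Submodule.Quotient.mk_eq_zero H).2 l.2
  have h1 : ∀ z : M.lattice, z.1 - (rep (H.mkQ z)).1 ∈ L.lattice := fun z => by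
    have : H.mkQ (z - rep (H.mkQ z)) = 0 := by rw [map_sub, hrep, sub_self]
    exact (Submodule.Quotient.mk_eq_zero H).1 this
  have hf : Function.Bijective f := by
    constructor
    · rintro ⟨q, l⟩ ⟨q', l'⟩ e
      have e1 := congrArg H.mkQ e
      simp only [f, map_add, h0, add_zero] at e1
      rw [hrep, hrep] at e1
      subst e1
      have e2 := congrArg Subtype.val (add_left_cancel e)
      exact Prod.ext rfl (Subtype.ext e2)
    · intro z
      exact ⟨(H.mkQ z, ⟨_, h1 z⟩), Subtype.ext (by simp [f])⟩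
  let e := Equiv.ofBijective f hf
  have he : ∀ p, (e p).1 = (rep p.1).1 + p.2.1 := fun _ => rfl
  refine ⟨M.lattice ⧸ H, inferInstance, fun q => (rep q).1, fun z hz => ⟨_, h1 ⟨z, hz⟩⟩,
    fun z => ?_, fun z => ?_⟩
  · refine ((e.hasSum_iff.2 (M.hasSum_weierstrassP z)).prod_fiberwise fun q => ?_).unique
      (hasSum_fintype _)
    refine ((L.hasSum_weierstrassP (z - (rep q).1)).sub
      (L.hasSum_weierstrassP (-(rep q).1))).congr_fun ?_
    intro l
    simp only [Function.comp_apply, he]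
    rw [show (-((rep q).1 : ℂ) - l) ^ 2 = ((rep q).1 + l) ^ 2 by ring, sub_sub z]
    ring
  · refine ((e.hasSum_iff.2 (M.hasSum_derivWeierstrassP z)).prod_fiberwise fun q => ?_).unique
      (hasSum_fintype _)
    refine (L.hasSum_derivWeierstrassP (z - (rep q).1)).congr_fun ?_
    intro l
    simp only [Function.comp_apply, he]
    rw [sub_sub z]

variable {W : WeierstrassCurve ℂ} {τ : ℍ}

/-- The first coordinate. -/
def xc (U : Unif W τ) (z : ℂ) : ℂ := U.u ^ 2 * (lat τ).weierstrassP z - W.b₂ / 12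

/-- The second coordinate. -/
def yc (U : Unif W τ) (z : ℂ) : ℂ :=
  U.u ^ 3 * (lat τ).derivWeierstrassP z / 2 - (W.a₁ * xc U z + W.a₃) / 2

lemma phi_eq (U : Unif W τ) {z : ℂ} (hz : z ∉ (lat τ).lattice) :
    ∃ h, U.Φ z = WeierstrassCurve.Affine.Point.some (xc U z) (yc U z) h := U.eq_some z hz

/-- Functions which are rational in the coordinates. -/
def Good (U : Unif W τ) (f : ℂ → ℂ) : Prop :=
  ∃ a b c : ℂ[X], c ≠ 0 ∧ ∀ z, z ∉ (lat τ).lattice → c.eval (xc U z) ≠ 0 →
    c.eval (xc U z) * f z = a.eval (xc U z) + b.eval (xc U z) * yc U z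

variable {U : Unif W τ}

lemma good_const (k : ℂ) : Good U fun _ => k :=
  ⟨C k, 0, 1, one_ne_zero, fun _ _ _ => by simp⟩

lemma good_x : Good U (xc U) := ⟨X, 0, 1, one_ne_zero, fun _ _ _ => by simp⟩

lemma good_y : Good U (yc U) := ⟨0, 1, 1, one_ne_zero, fun _ _ _ => by simp⟩

lemma good_inv (k : ℂ) : Good U fun z => (xc U z - k)⁻¹ :=
  ⟨1, 0, X - C k, X_sub_C_ne_zero k, fun z _ h => by
    simp only [eval_sub, eval_X, eval_C] at h ⊢
    simp [mul_inv_cancel₀ h]⟩

lemma Good.add {f g : ℂ → ℂ} (hf : Good U f) (hg : Good U g) : Good U fun z => f z + g z := by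
  obtain ⟨a, b, c, h0, h⟩ := hf
  obtain ⟨a', b', c', h0', h'⟩ := hg
  refine ⟨a * c' + a' * c, b * c' + b' * c, c * c', mul_ne_zero h0 h0', fun z hz hc => ?_⟩
  simp only [eval_mul, eval_add, mul_ne_zero_iff] at hc ⊢
  linear_combination c'.eval (xc U z) * h z hz hc.1 + c.eval (xc U z) * h' z hz hc.2

lemma Good.mul {f g : ℂ → ℂ} (hf : Good U f) (hg : Good U g) : Good U fun z => f z * g z := by
  obtain ⟨a, b, c, h0, h⟩ := hf
  obtain ⟨a', b', c', h0', h'⟩ := hg
  refine ⟨a * a' + b * b' * (X ^ 3 + C W.a₂ * X ^ 2 + C W.a₄ * X + C W.a₆),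
    a * b' + a' * b - b * b' * (C W.a₁ * X + C W.a₃), c * c', mul_ne_zero h0 h0',
    fun z hz hc => ?_⟩
  obtain ⟨hn, -⟩ := phi_eq U hz
  have h1 := (WeierstrassCurve.Affine.equation_iff _ _).1 hn.1
  simp only [eval_mul, eval_add, eval_sub, eval_pow, eval_X, eval_C, mul_ne_zero_iff] at hc ⊢
  linear_combination (c'.eval (xc U z) * g z) * h z hz hc.1 +
    (a.eval (xc U z) + b.eval (xc U z) * yc U z) * h' z hz hc.2 +
    b.eval (xc U z) * b'.eval (xc U z) * h1

lemma Good.congr {f g : ℂ → ℂ} (hg : Good U g) (k : ℂ)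
    (h : ∀ z, z ∉ (lat τ).lattice → xc U z ≠ k → f z = g z) : Good U f := by
  obtain ⟨a, b, c, h0, h1⟩ := hg
  refine ⟨a * (X - C k), b * (X - C k), c * (X - C k), mul_ne_zero h0 (X_sub_C_ne_zero k),
    fun z hz hc => ?_⟩
  simp only [eval_mul, eval_sub, eval_X, eval_C, mul_ne_zero_iff] at hc ⊢
  rw [h z hz (sub_ne_zero.1 hc.2)]
  linear_combination (xc U z - k) * h1 z hz hc.1

lemma Good.lin {f : ℂ → ℂ} (hf : Good U f) (k l : ℂ) : Good U fun z => k * f z + l :=
  ((good_const k).mul hf).add (good_const l)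

lemma good_sum {Q : Type} (s : Finset Q) (f : Q → ℂ → ℂ) (h : ∀ q, Good U (f q)) :
    Good U fun z => ∑ q ∈ s, f q z := by
  induction s using Finset.induction_on with
  | empty => simpa using good_const 0
  | insert q s hq ih =>
    simp only [Finset.sum_insert hq]
    exact (h q).add ih

lemma good_shift (a : ℂ) : (Good U fun z => xc U (z + a)) ∧ Good U fun z => yc U (z + a) := by
  by_cases ha : a ∈ (lat τ).lattice
  · have h1 : ∀ z, xc U (z + a) = xc U z := fun z => by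
      rw [xc, xc, (lat τ).weierstrassP_add_coe z ⟨a, ha⟩]
    have h2 : ∀ z, yc U (z + a) = yc U z := fun z => by
      rw [yc, yc, (lat τ).derivWeierstrassP_add_coe z ⟨a, ha⟩, h1]
    simp only [h1, h2]
    exact ⟨good_x, good_y⟩
  · have key : ∀ z, z ∉ (lat τ).lattice → xc U z ≠ xc U a →
        xc U (z + a) = W.toAffine.addX (xc U z) (xc U a) ((yc U z - yc U a) * (xc U z - xc U a)⁻¹) ∧
        yc U (z + a) = W.toAffine.addY (xc U z) (xc U a) (yc U z)
          ((yc U z - yc U a) * (xc U z - xc U a)⁻¹) := by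
      intro z hz hx
      obtain ⟨n1, e1⟩ := phi_eq U hz
      obtain ⟨n2, e2⟩ := phi_eq U ha
      have e3 := U.Φ.map_add z a
      rw [e1, e2, WeierstrassCurve.Affine.Point.add_of_X_ne hx] at e3
      have h3 : z + a ∉ (lat τ).lattice := fun h => by
        rw [(U.ker _).2 h] at e3
        exact WeierstrassCurve.Affine.Point.some_ne_zero _ e3.symm
      obtain ⟨n3, e4⟩ := phi_eq U h3
      rw [e4] at e3
      have e5 := WeierstrassCurve.Affine.Point.some.inj e3
      rwa [WeierstrassCurve.Affine.slope_of_X_ne hx, div_eq_mul_inv] at e5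
    have gl : Good U fun z => (yc U z - yc U a) * (xc U z - xc U a)⁻¹ :=
      (good_y.add (good_const (-yc U a))).mul (good_inv _)
    have gx : Good U fun z =>
        W.toAffine.addX (xc U z) (xc U a) ((yc U z - yc U a) * (xc U z - xc U a)⁻¹) :=
      (((gl.mul gl).add (gl.lin W.a₁ (-W.a₂ - xc U a))).add (good_x.lin (-1) 0)).congr 0
        fun z _ _ => by
          simp only [WeierstrassCurve.Affine.addX]
          ring
    refine ⟨gx.congr _ fun z h1 h2 => (key z h1 h2).1, Good.congr ?_ _ fun z h1 h2 => (key z h1 h2).2⟩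
    refine ((((gl.mul (gx.add (good_x.lin (-1) 0))).add good_y).lin (-1) 0).add
      (gx.lin (-W.a₁) (-W.a₃))).congr 0 fun z _ _ => ?_
    simp only [WeierstrassCurve.Affine.addY, WeierstrassCurve.Affine.negY,
      WeierstrassCurve.Affine.negAddY]
    ring

lemma good_wp (a : ℂ) : (Good U fun z => (lat τ).weierstrassP (z - a)) ∧
    Good U fun z => (lat τ).derivWeierstrassP (z - a) := by
  obtain ⟨h1, h2⟩ := good_shift (U := U) (-a)
  have hu := U.u_ne
  constructor
  · refine (h1.lin (U.u ^ 2)⁻¹ ((U.u ^ 2)⁻¹ * (W.b₂ / 12))).congr 0 fun z _ _ => ?_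
    rw [xc, sub_eq_add_neg z]
    field_simp
    ring
  · refine ((h2.lin (2 * (U.u ^ 3)⁻¹) 0).add
      (h1.lin ((U.u ^ 3)⁻¹ * W.a₁) ((U.u ^ 3)⁻¹ * W.a₃))).congr 0 fun z _ _ => ?_
    rw [yc, sub_eq_add_neg z]
    field_simp
    ring

/-- The lattice divided by `c`. -/
def divLat (L : PeriodPair) (c : ℂ) (hc : c ≠ 0) : PeriodPair where
  ω₁ := L.ω₁ / c
  ω₂ := L.ω₂ / c
  indep := by
    have h := L.indep
    rw [LinearIndependent.pair_iff] at h ⊢
    intro s t e
    refine h s t ?_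
    have e1 := congrArg (fun w => w * c) e
    simp only [Complex.real_smul, zero_mul] at e1 ⊢
    rw [← e1]
    field_simp

lemma mem_divLat (L : PeriodPair) (c : ℂ) (hc : c ≠ 0) (z : ℂ) :
    c * z ∈ L.lattice ↔ z ∈ (divLat L c hc).lattice := by
  simp only [mem_lattice, divLat]
  constructor
  · rintro ⟨m, n, e⟩
    refine ⟨m, n, mul_left_cancel₀ hc ?_⟩
    rw [← e]
    field_simp
  · rintro ⟨m, n, e⟩
    refine ⟨m, n, ?_⟩
    rw [← e]
    field_simp

end Velu

open Velu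

/-- Multiplication by a complex number mapping one lattice into the other is given by rational
functions. -/
theorem velu {W W' : WeierstrassCurve ℂ} [W.IsElliptic] [W'.IsElliptic] {τ τ' : ℍ}
    (U : Unif W τ) (U' : Unif W' τ') (c : ℂ) (hc : c ≠ 0)
    (h : ∀ z ∈ (lat τ).lattice, c * z ∈ (lat τ').lattice) :
    ∃ ψ : W.toAffine.Point →+ W'.toAffine.Point, RatHom ψ ∧ ∀ z, ψ (U.Φ z) = U'.Φ (c * z) := by
  have hk : U.Φ.ker ≤ (U'.Φ.comp (AddMonoidHom.mulLeft c)).ker := fun z hz =>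
    (U'.ker _).2 (h z ((U.ker z).1 hz))
  let ψ := U.Φ.liftOfSurjective U.surj ⟨_, hk⟩
  have hψ : ∀ z, ψ (U.Φ z) = U'.Φ (c * z) := fun z =>
    U.Φ.liftOfRightInverse_comp_apply _ _ ⟨_, hk⟩ z
  refine ⟨ψ, ?_, hψ⟩
  obtain ⟨Q, _, a, h1, h2, h3⟩ := sum_translates (lat τ) (divLat (lat τ') c hc)
    fun z hz => (mem_divLat _ c hc z).1 (h z hz)
  obtain ⟨s1, s2, -, -⟩ := wp_scale _ _ c hc (mem_divLat (lat τ') c hc)
  have g1 : Good U fun z => (lat τ').weierstrassP (c * z) := by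
    simp only [s1, h2]
    exact (good_const _).mul (good_sum _ _ fun q => (good_wp (a q)).1.add
      (good_const (-(lat τ).weierstrassP (-a q))))
  have g2 : Good U fun z => (lat τ').derivWeierstrassP (c * z) := by
    simp only [s2, h3]
    exact (good_const _).mul (good_sum _ _ fun q => (good_wp (a q)).2)
  have g3 : Good U fun z => xc U' (c * z) := g1.lin _ (-(W'.b₂ / 12))
  have g4 : Good U fun z => yc U' (c * z) :=
    ((g2.lin (U'.u ^ 3 / 2) 0).add (g3.lin (-W'.a₁ / 2) (-W'.a₃ / 2))).congr 0 fun z _ _ => by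
      rw [yc]
      ring
  obtain ⟨a₁, b₁, c₁, n1, e1⟩ := g3
  obtain ⟨a₂, b₂, c₂, n2, e2⟩ := g4
  let c₀ : ℂ[X] := ∏ q, (X - C (xc U (a q)))
  have n0 : c₀ ≠ 0 := Finset.prod_ne_zero_iff.2 fun q _ => X_sub_C_ne_zero _
  refine ⟨a₁ * c₂ * c₀, b₁ * c₂ * c₀, a₂ * c₁ * c₀, b₂ * c₁ * c₀, c₁ * c₂ * c₀,
    mul_ne_zero (mul_ne_zero n1 n2) n0, fun x y hxy hne => ?_⟩
  obtain ⟨z, hz⟩ := U.surj (WeierstrassCurve.Affine.Point.some x y hxy)
  have z1 : z ∉ (lat τ).lattice := fun h => by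
    rw [(U.ker _).2 h] at hz
    exact WeierstrassCurve.Affine.Point.some_ne_zero _ hz.symm
  obtain ⟨k1, k2⟩ := phi_eq U z1
  obtain ⟨rfl, rfl⟩ := WeierstrassCurve.Affine.Point.some.inj (k2.symm.trans hz)
  simp only [eval_mul, mul_ne_zero_iff] at hne
  obtain ⟨⟨m1, m2⟩, m0⟩ := hne
  have z2 : c * z ∉ (lat τ').lattice := fun h => by
    obtain ⟨q, hq⟩ := h1 z ((mem_divLat _ c hc z).1 h)
    refine m0 ?_
    rw [eval_prod]
    refine Finset.prod_eq_zero (Finset.mem_univ q) ?_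
    have := (lat τ).weierstrassP_add_coe (a q) ⟨_, hq⟩
    simp only [add_sub_cancel] at this
    simp [xc, this]
  obtain ⟨k3, k4⟩ := phi_eq U' z2
  have f1 : xc U' (c * z) = ((a₁ * c₂ * c₀).eval (xc U z) + (b₁ * c₂ * c₀).eval (xc U z) * yc U z) /
      (c₁ * c₂ * c₀).eval (xc U z) := by
    simp only [eval_mul]
    rw [eq_div_iff (mul_ne_zero (mul_ne_zero m1 m2) m0)]
    linear_combination c₂.eval (xc U z) * c₀.eval (xc U z) * e1 z z1 m1
  have f2 : yc U' (c * z) = ((a₂ * c₁ * c₀).eval (xc U z) + (b₂ * c₁ * c₀).eval (xc U z) * yc U z) /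
      (c₁ * c₂ * c₀).eval (xc U z) := by
    simp only [eval_mul]
    rw [eq_div_iff (mul_ne_zero (mul_ne_zero m1 m2) m0)]
    linear_combination c₁.eval (xc U z) * c₀.eval (xc U z) * e2 z z1 m2
  rw [← hz, hψ, k4, ← f1, ← f2]
  exact ⟨k3, rfl⟩

end

end Pool.Agent.P.MP_a60a76_nt.SP
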