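import Pool.Agent.P.MP_a60a76_nt.SP.Gal
import Pool.Agent.P.MP_a60a76_nt.SP.Velu
import Pool.Agent.P.MP_a60a76_nt.SP.Lift
import Pool.Agent.P.MP_a60a76_nt.SP.Descent

namespace Pool.Agent.P.MP_a60a76_nt.SP

open Polynomial UpperHalfPlane PeriodPair
open scoped MatrixGroups UpperHalfPlane Matrix Modular Topology Classical

noncomputable section

open WeierstrassCurve

namespace Tw

lemma ell (E : WeierstrassCurve ℚ) [E.IsElliptic] : (E.baseChange ℂ).IsElliptic :=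
  inferInstanceAs (E.map (algebraMap ℚ ℂ)).IsElliptic

/-- Multipliers from one lattice to another. -/
def Hm (τ τ' : ℍ) (e : ℂ) : Prop := ∀ z ∈ (lat τ).lattice, e * z ∈ (lat τ').lattice

lemma tau_mem (τ : ℍ) : (τ : ℂ) ∈ (lat τ).lattice := (mem_lat τ _).2 ⟨1, 0, by simp⟩

lemma one_mem (τ : ℍ) : (1 : ℂ) ∈ (lat τ).lattice := (mem_lat τ _).2 ⟨0, 1, by simp⟩

lemma int_mul_mem {τ : ℍ} {z : ℂ} (n : ℤ) (h : z ∈ (lat τ).lattice) :
    (n : ℂ) * z ∈ (lat τ).lattice := by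
  have := (lat τ).lattice.smul_mem n h
  rwa [zsmul_eq_mul] at this

lemma hm_of_gens {τ τ' : ℍ} {e : ℂ} (h1 : e * τ ∈ (lat τ').lattice) (h2 : e ∈ (lat τ').lattice) :
    Hm τ τ' e := by
  intro z hz
  obtain ⟨m, n, rfl⟩ := (mem_lat τ z).1 hz
  have : e * (m * τ + n) = m * (e * τ) + n * e := by ring
  rw [this]
  exact add_mem (int_mul_mem m h1) (int_mul_mem n h2)

lemma Hm.mul {τ τ' τ'' : ℍ} {e f : ℂ} (hf : Hm τ' τ'' f) (he : Hm τ τ' e) : Hm τ τ'' (f * e) :=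
  fun z hz => by rw [mul_assoc]; exact hf _ (he z hz)

lemma Hm.int_mul {τ τ' : ℍ} {e : ℂ} (he : Hm τ τ' e) (n : ℤ) : Hm τ τ' (n * e) :=
  fun z hz => by rw [mul_assoc]; exact int_mul_mem n (he z hz)

lemma Hm.add {τ τ' : ℍ} {e f : ℂ} (he : Hm τ τ' e) (hf : Hm τ τ' f) : Hm τ τ' (e + f) :=
  fun z hz => by rw [add_mul]; exact add_mem (he z hz) (hf z hz)

lemma hm_int (τ : ℍ) (n : ℤ) : Hm τ τ n := fun _ hz => int_mul_mem n hz

lemma int_of_real {τ : ℍ} {e : ℂ} (he : Hm τ τ e) (h : e.im = 0) : ∃ n : ℤ, e = n := by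
  obtain ⟨m, n, hmn⟩ := (mem_lat τ _).1 (he 1 (one_mem τ))
  rw [mul_one] at hmn
  have h1 := congrArg Complex.im hmn
  simp only [h, Complex.add_im, Complex.mul_im, Complex.intCast_re, Complex.intCast_im, zero_mul,
    add_zero, coe_im] at h1
  have h2 : (m : ℝ) = 0 := (mul_eq_zero.1 h1.symm).resolve_right τ.im_pos.ne'
  have h3 : m = 0 := by exact_mod_cast h2
  exact ⟨n, by simpa [h3] using hmn⟩

lemma trace_int {τ : ℍ} {e : ℂ} (he : Hm τ τ e) (h : e.im ≠ 0) : ∃ t : ℤ, 2 * e.re = t := by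
  obtain ⟨m, n, hmn⟩ := (mem_lat τ _).1 (he 1 (one_mem τ))
  obtain ⟨k, l, hkl⟩ := (mem_lat τ _).1 (he τ (tau_mem τ))
  rw [mul_one] at hmn
  have h1 : e * e = ((k + n : ℤ) : ℂ) * e - ((k * n - l * m : ℤ) : ℂ) := by
    push_cast
    linear_combination (e - k) * hmn + (m : ℂ) * hkl
  have h2 := congrArg Complex.im h1
  simp only [Complex.mul_im, Complex.sub_im, Complex.intCast_re, Complex.intCast_im, zero_mul,
    add_zero, sub_zero] at h2
  refine ⟨k + n, mul_right_cancel₀ h ?_⟩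
  linear_combination h2

lemma half_notMem (τ : ℍ) : (1 / 2 : ℂ) ∉ (lat τ).lattice := by
  intro h
  obtain ⟨m, n, hmn⟩ := (mem_lat τ _).1 h
  have h1 := congrArg Complex.im hmn
  have h0 : (1 / 2 : ℂ).im = 0 := by norm_num
  simp only [h0, Complex.add_im, Complex.mul_im, Complex.intCast_re, Complex.intCast_im, zero_mul,
    add_zero, coe_im] at h1
  have h2 : (m : ℝ) = 0 := (mul_eq_zero.1 h1.symm).resolve_right τ.im_pos.ne'
  have h3 : m = 0 := by exact_mod_cast h2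
  rw [h3] at hmn
  have h4 : ((2 * n : ℤ) : ℂ) = (1 : ℤ) := by
    push_cast at hmn ⊢
    linear_combination (-2 : ℂ) * hmn
  have h5 : 2 * n = 1 := by exact_mod_cast h4
  omega

lemma hm_div {τ τ' : ℍ} {p : ℕ} [Fact p.Prime] {e : ℂ}
    (h : ∀ v, e * zv p v τ ∈ (lat τ').lattice) : Hm τ τ' (e / p) := by
  have : Fact (1 < p) := ⟨(Fact.out : p.Prime).one_lt⟩
  refine hm_of_gens ?_ ?_
  · have := h ![1, 0]
    simp only [zv, Matrix.cons_val_zero, Matrix.cons_val_one, ZMod.val_one, ZMod.val_zero] at this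
    convert this using 1
    push_cast
    ring
  · have := h ![0, 1]
    simp only [zv, Matrix.cons_val_zero, Matrix.cons_val_one, ZMod.val_one, ZMod.val_zero] at this
    convert this using 1
    push_cast
    ring

/-- The `p`-torsion points as an additive map. -/
def Zh {W : WeierstrassCurve ℂ} {τ : ℍ} (U : Unif W τ) (p : ℕ) [NeZero p] :
    (Fin 2 → ZMod p) →+ W.toAffine.Point :=
  AddMonoidHom.mk' (fun v => U.Φ (zv p v τ)) (zv_add U p)

lemma zv_neg {W : WeierstrassCurve ℂ} {τ : ℍ} (U : Unif W τ) (p : ℕ) [NeZero p]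
    (v : Fin 2 → ZMod p) : U.Φ (zv p (-v) τ) = -U.Φ (zv p v τ) := map_neg (Zh U p) v

lemma zv_zsmul {W : WeierstrassCurve ℂ} {τ : ℍ} (U : Unif W τ) (p : ℕ) [NeZero p] (n : ℤ)
    (v : Fin 2 → ZMod p) : U.Φ (zv p (n • v) τ) = U.Φ (n * zv p v τ) := by
  rw [← zsmul_eq_mul, map_zsmul]
  exact map_zsmul (Zh U p) n v

section conj

variable {E E' : WeierstrassCurve ℚ} {τ τ' : ℍ} (U : Unif (E.baseChange ℂ) τ)
  (U' : Unif (E'.baseChange ℂ) τ')

/-- Conjugation by `σ` turns multiplication by `e` into multiplication by `e'`. -/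
def Conj (σ : ℂ ≃ₐ[ℚ] ℂ) (e e' : ℂ) : Prop :=
  ∀ z w, Affine.Point.map (W' := E) σ.toAlgHom (U.Φ z) = U.Φ w →
    Affine.Point.map (W' := E') σ.toAlgHom (U'.Φ (e * z)) = U'.Φ (e' * w)

lemma map_symm_map (σ : ℂ ≃ₐ[ℚ] ℂ) (P : (E.baseChange ℂ).toAffine.Point) :
    Affine.Point.map (W' := E) σ.symm.toAlgHom (Affine.Point.map (W' := E) σ.toAlgHom P) = P := by
  rcases P with _ | ⟨x, y, h⟩
  · rfl
  · simp [Affine.Point.map_some]

lemma map_map_symm (σ : ℂ ≃ₐ[ℚ] ℂ) (P : (E.baseChange ℂ).toAffine.Point) :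
    Affine.Point.map (W' := E) σ.toAlgHom (Affine.Point.map (W' := E) σ.symm.toAlgHom P) = P :=
  map_symm_map σ.symm P

variable {U U'}

lemma Conj.symm {σ : ℂ ≃ₐ[ℚ] ℂ} {e e' : ℂ} (h : Conj U U' σ e e') : Conj U U' σ.symm e' e := by
  intro w z hw
  rw [← h z w (by rw [← hw, map_map_symm]), map_symm_map]

lemma Conj.int_mul {σ : ℂ ≃ₐ[ℚ] ℂ} {e e' : ℂ} (h : Conj U U' σ e e') (n : ℤ) :
    Conj U U' σ (n * e) (n * e') := by
  intro z w hw
  rw [mul_assoc, mul_assoc, ← zsmul_eq_mul, ← zsmul_eq_mul, map_zsmul, map_zsmul, map_zsmul,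
    h z w hw]

lemma Conj.unique {σ : ℂ ≃ₐ[ℚ] ℂ} {e e₁ e₂ : ℂ} (h₁ : Conj U U' σ e e₁) (h₂ : Conj U U' σ e e₂) :
    e₁ = e₂ := by
  by_contra hne
  have hd : e₁ - e₂ ≠ 0 := sub_ne_zero.2 hne
  set w : ℂ := 1 / 2 / (e₁ - e₂) with hw
  obtain ⟨z, hz⟩ := U.surj (Affine.Point.map (W' := E) σ.symm.toAlgHom (U.Φ w))
  have h3 : Affine.Point.map (W' := E) σ.toAlgHom (U.Φ z) = U.Φ w := by rw [hz, map_map_symm]
  have h4 : U'.Φ (e₁ * w - e₂ * w) = 0 := by rw [map_sub, ← h₁ z w h3, ← h₂ z w h3, sub_self]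
  have h5 : e₁ * w - e₂ * w = 1 / 2 := by
    rw [hw]
    field_simp
  rw [h5, U'.ker] at h4
  exact half_notMem τ' h4

lemma conj_sq {σ : ℂ ≃ₐ[ℚ] ℂ} {e e' : ℂ} (h : Conj U U σ e e') : Conj U U σ (e * e) (e' * e') := by
  intro z w hw
  rw [mul_assoc, mul_assoc]
  exact h _ _ (h z w hw)

lemma conj_int (σ : ℂ ≃ₐ[ℚ] ℂ) (n : ℤ) : Conj U U σ n n := by
  have h : Conj U U σ 1 1 := fun z w hw => by rwa [one_mul, one_mul]
  simpa using h.int_mul n

variable (U U')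

lemma exists_conj [E.IsElliptic] [E'.IsElliptic] {e : ℂ} (he : e ≠ 0) (h : Hm τ τ' e)
    (σ : ℂ ≃ₐ[ℚ] ℂ) : ∃ e', Hm τ τ' e' ∧ Conj U U' σ e e' := by
  have := ell E
  have := ell E'
  obtain ⟨ψ, hψ, hz⟩ := velu U U' e he h
  obtain ⟨e', -, he'⟩ := lift_ratHom U U' _ (ratHom_conj E E' ψ hψ σ)
  refine ⟨e', fun w hw => ?_, fun z w hw => ?_⟩
  · rw [← U'.ker, ← he', (U.ker w).2 hw, map_zero]
  · rw [← he', ← hw, ← hz]
    simp only [AddMonoidHom.comp_apply, map_symm_map]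

include U in
lemma exists_beta [E.IsElliptic] [E'.IsElliptic] (p : ℕ) [NeZero p] {e : ℂ} (he : e ≠ 0)
    (h : Hm τ τ' e) : ∃ β : Matrix (Fin 2) (Fin 2) (ZMod p),
      ∀ v, U'.Φ (e * zv p v τ) = U'.Φ (zv p (v ᵥ* β) τ') := by
  have := ell E
  have := ell E'
  obtain ⟨ψ, -, hz⟩ := velu U U' e he h
  obtain ⟨β, hβ⟩ := exists_matrix U U' p ψ
  exact ⟨β, fun v => by rw [← hz, hβ]⟩

lemma isogenous_of_conj [E.IsElliptic] [E'.IsElliptic] {e : ℂ} (he : e ≠ 0) (h : Hm τ τ' e)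
    (hc : ∀ σ, Conj U U' σ e e) : Isogenous E E' := by
  have := ell E
  have := ell E'
  obtain ⟨ψ, hψ, hz⟩ := velu U U' e he h
  refine descent E E' ψ hψ fun σ P => ?_
  obtain ⟨z, rfl⟩ := U.surj P
  obtain ⟨w, hw⟩ := U.surj (Affine.Point.map (W' := E) σ.toAlgHom (U.Φ z))
  rw [← hw, hz, hz]
  exact hc σ z w hw.symm

end conj

/-- A matrix commuting with the Galois action up to sign has rational resolvents. -/
lemma rat_of_sign (E : WeierstrassCurve ℚ) [E.IsElliptic] {τ : ℍ} (U : Unif (E.baseChange ℂ) τ)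
    (p : ℕ) [Fact p.Prime] (α : Matrix (Fin 2) (Fin 2) (ZMod p))
    (h : ∀ (σ : ℂ ≃ₐ[ℚ] ℂ) v w,
      Affine.Point.map (W' := E) σ.toAlgHom (U.Φ (zv p v τ)) = U.Φ (zv p w τ) →
      Affine.Point.map (W' := E) σ.toAlgHom (U.Φ (zv p (v ᵥ* α) τ)) = U.Φ (zv p (w ᵥ* α) τ) ∨
      Affine.Point.map (W' := E) σ.toAlgHom (U.Φ (zv p (v ᵥ* α) τ)) = U.Φ (zv p (-(w ᵥ* α)) τ))
    (l μ : ℕ) : ∃ q : ℚ, (q : ℂ) = wf p l μ α τ τ := by
  refine fix_rat _ fun σ => ?_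
  obtain ⟨a, ha, hσ⟩ := gal E U p σ
  have h1 : ∀ v, hv p ((v ᵥ* α) ᵥ* a) τ = hv p ((v ᵥ* a) ᵥ* α) τ := fun v => by
    rcases h σ v _ (hσ v).1 with h2 | h2
    · rw [(hσ _).1] at h2
      rw [zv_injective U p h2]
    · rw [(hσ _).1] at h2
      rw [zv_injective U p h2, hv_neg]
  have hb : Function.Bijective fun v : Fin 2 → ZMod p => v ᵥ* a :=
    Finite.injective_iff_bijective.1
      (Matrix.vecMul_injective_of_isUnit ((Matrix.isUnit_iff_isUnit_det a).2 ha))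
  rw [wf, map_prod]
  refine Fintype.prod_bijective _ hb _ _ fun v => ?_
  rw [map_sub, map_sub, map_mul, map_natCast, map_natCast, (hσ _).2, (hσ _).2, h1]

lemma vecMul_scalar {p : ℕ} {α : Matrix (Fin 2) (Fin 2) (ZMod p)} (h : ¬ NonScalar α)
    (v : Fin 2 → ZMod p) : v ᵥ* α = α 0 0 • v := by
  simp only [NonScalar, not_or, not_not] at h
  obtain ⟨h1, h2, h3⟩ := h
  ext i
  fin_cases i
  · simp [Matrix.vecMul, dotProduct, Fin.sum_univ_two, h2, mul_comm (α 0 0)]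
  · simp [Matrix.vecMul, dotProduct, Fin.sum_univ_two, h1, h3, mul_comm (α 1 1)]

/-- The case of complex multiplication. -/
lemma twist_cm (E : WeierstrassCurve ℚ) [E.IsElliptic] {τ : ℍ} (U : Unif (E.baseChange ℂ) τ)
    (p : ℕ) [Fact p.Prime] (hp : p ≠ 2) {e : ℂ} (he : Hm τ τ e) (him : e.im ≠ 0) :
    ∃ α : Matrix (Fin 2) (Fin 2) (ZMod p), NonScalar α ∧
      ∀ l μ : ℕ, ∃ q : ℚ, (q : ℂ) = wf p l μ α τ τ := by
  have hpp : p.Prime := Fact.out
  have hp0 : (p : ℂ) ≠ 0 := Nat.cast_ne_zero.2 hpp.ne_zero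
  have hpR : (p : ℝ) ≠ 0 := Nat.cast_ne_zero.2 hpp.ne_zero
  have hsq : ∀ δ : ℂ, Hm τ τ δ → δ.re = 0 → ∃ N : ℕ, δ.im ^ 2 = N := fun δ hδ hre => by
    obtain ⟨n, hn⟩ := int_of_real (hδ.mul hδ) (by simp [hre])
    have h1 := congrArg Complex.re hn
    simp only [Complex.mul_re, hre, Complex.intCast_re] at h1
    have h2 : δ.im ^ 2 = ((-n : ℤ) : ℝ) := by push_cast; linarith
    have h3 : 0 ≤ -n := by
      have : (0 : ℝ) ≤ ((-n : ℤ) : ℝ) := h2 ▸ sq_nonneg _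
      exact_mod_cast this
    obtain ⟨N, hN⟩ := Int.eq_ofNat_of_zero_le h3
    exact ⟨N, by rw [h2, hN]; simp⟩
  have hex : ∃ N : ℕ, ∃ δ : ℂ, Hm τ τ δ ∧ δ.re = 0 ∧ δ.im ≠ 0 ∧ δ.im ^ 2 = N := by
    obtain ⟨t, ht⟩ := trace_int he him
    have h1 : Hm τ τ ((2 : ℤ) * e + (-t : ℤ)) := (he.int_mul 2).add (hm_int τ _)
    have h2 : (((2 : ℤ) : ℂ) * e + ((-t : ℤ) : ℂ)).re = 0 := by
      simp [← ht]
    obtain ⟨N, hN⟩ := hsq _ h1 h2
    exact ⟨N, _, h1, h2, by simpa using him, hN⟩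
  obtain ⟨δ, hδ, hre, hδim, hN⟩ := Nat.find_spec hex
  have hδ0 : δ ≠ 0 := fun h => hδim (by simp [h])
  obtain ⟨β, hβ⟩ := exists_beta U U p hδ0 hδ
  refine ⟨β, ?_, rat_of_sign E U p β fun σ v w hw => ?_⟩
  · by_contra hs
    set k : ℤ := ((β 0 0).val : ℤ) with hk
    have h1 : Hm τ τ ((δ - k) / p) := hm_div fun v => by
      rw [← U.ker, sub_mul, map_sub, hβ, vecMul_scalar hs, ← zv_zsmul, sub_eq_zero]
      congr 2
      ext i
      simp [hk]
    have hre1 : ((δ - k) / p).re = -k / p := by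
      rw [Complex.div_natCast_re]
      simp [hre]
    have him1 : ((δ - k) / p).im = δ.im / p := by
      rw [Complex.div_natCast_im]
      simp
    obtain ⟨t, ht⟩ := trace_int h1 (by rw [him1]; exact div_ne_zero hδim hpR)
    rw [hre1] at ht
    have h2 : (2 * k : ℤ) = p * (-t) := by
      have : ((2 * k : ℤ) : ℝ) = ((p * (-t) : ℤ) : ℝ) := by
        push_cast
        field_simp at ht
        linarith
      exact_mod_cast this
    have h3 : (p : ℤ) ∣ k := by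
      rcases (Nat.prime_iff_prime_int.1 hpp).dvd_or_dvd (Dvd.intro _ h2.symm) with h4 | h4
      · exact absurd ((Nat.prime_dvd_prime_iff_eq hpp Nat.prime_two).1 (by exact_mod_cast h4)) hp
      · exact h4
    obtain ⟨k', hk'⟩ := h3
    have h4 : Hm τ τ (δ / p) := by
      have h5 := h1.add (hm_int τ k')
      convert h5 using 1
      rw [hk']
      push_cast
      field_simp
      ring
    have hre2 : (δ / p).re = 0 := by
      rw [Complex.div_natCast_re, hre, zero_div]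
    have him2 : (δ / p).im = δ.im / p := Complex.div_natCast_im _ _
    obtain ⟨N', hN'⟩ := hsq _ h4 hre2
    have h5 := Nat.find_min' hex ⟨_, h4, hre2, by rw [him2]; exact div_ne_zero hδim hpR, hN'⟩
    have h6 : (Nat.find hex : ℝ) ≤ N' := by exact_mod_cast h5
    rw [← hN, ← hN', him2, div_pow, le_div_iff₀ (by positivity)] at h6
    have h7 : (1 : ℝ) < p := by exact_mod_cast hpp.one_lt
    have h8 : 0 < δ.im ^ 2 := by positivity
    have h9 : (1 : ℝ) < (p : ℝ) ^ 2 := by nlinarith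
    nlinarith
  · obtain ⟨δ', -, hc⟩ := exists_conj U U hδ0 hδ σ
    obtain ⟨n, hn⟩ := int_of_real (hδ.mul hδ) (by simp [hre])
    have h1 := conj_sq hc
    rw [hn] at h1
    have h2 : δ' * δ' = δ * δ := by rw [hn]; exact h1.unique (conj_int σ n)
    have h3 := hc _ _ hw
    rw [hβ] at h3
    rcases mul_self_eq_mul_self_iff.1 h2 with h4 | h4
    · left
      rw [h3, h4, hβ]
    · right
      rw [h3, h4, neg_mul, map_neg, hβ, zv_neg]

/-- The case without complex multiplication. -/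
lemma twist_gen (E E' : WeierstrassCurve ℚ) [E.IsElliptic] [E'.IsElliptic] {τ τ' : ℍ}
    (U : Unif (E.baseChange ℂ) τ) (U' : Unif (E'.baseChange ℂ) τ') (p : ℕ) [Fact p.Prime]
    (hp : p ≠ 2) (h : Congruent p E E') (hI : ¬ Isogenous E E') {j : ℂ} (hj0 : j ≠ 0)
    (hj : Hm τ' τ j) {n : ℕ} (hn : 0 < n) (hnj : Hm τ τ' (n / j))
    (hO : ∀ e, Hm τ τ e → e.im = 0) :
    ∃ α : Matrix (Fin 2) (Fin 2) (ZMod p), NonScalar α ∧
      ∀ l μ : ℕ, ∃ q : ℚ, (q : ℂ) = wf p l μ α τ τ := by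
  have hpp : p.Prime := Fact.out
  have hp0 : (p : ℂ) ≠ 0 := Nat.cast_ne_zero.2 hpp.ne_zero
  have hex : ∃ n : ℕ, 0 < n ∧ Hm τ τ' (n / j) := ⟨n, hn, hnj⟩
  obtain ⟨hn0, he⟩ := Nat.find_spec hex
  set n0 := Nat.find hex with hn0def
  set e : ℂ := n0 / j with hedef
  have he0 : e ≠ 0 := div_ne_zero (Nat.cast_ne_zero.2 hn0.ne') hj0
  have hgen : ∀ f, Hm τ τ' f → ∃ m : ℤ, f = m * e := fun f hf => by
    obtain ⟨k, hk⟩ := int_of_real (hj.mul hf) (hO _ (hj.mul hf))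
    have hn0' : (0 : ℤ) < n0 := by exact_mod_cast hn0
    obtain ⟨r, hr⟩ := Int.eq_ofNat_of_zero_le (Int.emod_nonneg k hn0'.ne')
    have h1 : (k : ℂ) = n0 * (k / n0 : ℤ) + r := by
      have h2 := Int.mul_ediv_add_emod k n0
      rw [hr] at h2
      exact_mod_cast h2.symm
    have h2 : f = (k / n0 : ℤ) * e + r / j := by
      rw [hedef]
      field_simp
      linear_combination hk + h1
    have h3 : r = 0 := by
      by_contra hr0
      have h4 : r < n0 := by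
        have := Int.emod_lt_of_pos k hn0'
        omega
      refine Nat.find_min hex h4 ⟨Nat.pos_of_ne_zero hr0, ?_⟩
      have h5 := hf.add (he.int_mul (-(k / n0)))
      convert h5 using 1
      rw [h2]
      push_cast
      ring
    exact ⟨k / n0, by rw [h2, h3]; simp⟩
  have hpm : ∀ σ, Conj U U' σ e e ∨ Conj U U' σ e (-e) := fun σ => by
    obtain ⟨e₁, h1, hc1⟩ := exists_conj U U' he0 he σ
    obtain ⟨e₂, h2, hc2⟩ := exists_conj U U' he0 he σ.symm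
    obtain ⟨m, rfl⟩ := hgen _ h1
    obtain ⟨k, rfl⟩ := hgen _ h2
    have h3 := hc1.symm.unique (hc2.int_mul m)
    have h4 : ((m * k : ℤ) : ℂ) = (1 : ℤ) := by
      push_cast
      exact mul_right_cancel₀ he0 (by linear_combination -h3)
    rcases Int.eq_one_or_neg_one_of_mul_eq_one (by exact_mod_cast h4 : m * k = 1) with rfl | rfl
    · left
      simpa using hc1
    · right
      simpa using hc1
  obtain ⟨β, hβ⟩ := exists_beta U U' p he0 he
  obtain ⟨g, hg, hcong⟩ := cong_matrix E E' U U' p h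
  have hαg : ∀ v : Fin 2 → ZMod p, (v ᵥ* (β * g⁻¹)) ᵥ* g = v ᵥ* β := fun v => by
    rw [Matrix.vecMul_vecMul, Matrix.nonsing_inv_mul_cancel_right _ _ hg]
  have hginj : Function.Injective fun v : Fin 2 → ZMod p => v ᵥ* g :=
    Matrix.vecMul_injective_of_isUnit ((Matrix.isUnit_iff_isUnit_det g).2 hg)
  have hpos : ∀ σ, Conj U U' σ e e → ∀ v w,
      Affine.Point.map (W' := E) σ.toAlgHom (U.Φ (zv p v τ)) = U.Φ (zv p w τ) →
      Affine.Point.map (W' := E) σ.toAlgHom (U.Φ (zv p (v ᵥ* (β * g⁻¹)) τ)) =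
        U.Φ (zv p (w ᵥ* (β * g⁻¹)) τ) := fun σ hc v w hw => by
    obtain ⟨a, -, hσ⟩ := gal E U p σ
    have h1 := hcong σ _ _ (hσ (v ᵥ* (β * g⁻¹))).1
    rw [hαg, ← hβ, hc _ _ hw, hβ, ← hαg] at h1
    rw [(hσ _).1, hginj (zv_injective U' p h1)]
  have hneg : ∀ σ, Conj U U' σ e (-e) → ∀ v w,
      Affine.Point.map (W' := E) σ.toAlgHom (U.Φ (zv p v τ)) = U.Φ (zv p w τ) →
      Affine.Point.map (W' := E) σ.toAlgHom (U.Φ (zv p (v ᵥ* (β * g⁻¹)) τ)) =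
        U.Φ (zv p (-(w ᵥ* (β * g⁻¹))) τ) := fun σ hc v w hw => by
    obtain ⟨a, -, hσ⟩ := gal E U p σ
    have h1 := hcong σ _ _ (hσ (v ᵥ* (β * g⁻¹))).1
    rw [hαg, ← hβ, hc _ _ hw, neg_mul, map_neg, hβ, ← zv_neg, ← hαg, ← Matrix.neg_vecMul] at h1
    rw [(hσ _).1, hginj (zv_injective U' p h1)]
  refine ⟨β * g⁻¹, ?_, rat_of_sign E U p _ fun σ v w hw =>
    (hpm σ).imp (fun hc => hpos σ hc v w hw) fun hc => hneg σ hc v w hw⟩
  by_contra hs
  obtain ⟨σ, hσ⟩ : ∃ σ, Conj U U' σ e (-e) := by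
    by_contra hno
    exact hI (isogenous_of_conj U U' he0 he fun σ => (hpm σ).resolve_right fun hc => hno ⟨σ, hc⟩)
  obtain ⟨a, ha, hgal⟩ := gal E U p σ
  have h2 : (2 : ZMod p) ≠ 0 := fun h0 => hp ((Nat.prime_dvd_prime_iff_eq hpp Nat.prime_two).1
    ((ZMod.natCast_eq_zero_iff 2 p).1 (by exact_mod_cast h0)))
  have hainj : Function.Injective fun v : Fin 2 → ZMod p => v ᵥ* a :=
    Matrix.vecMul_injective_of_isUnit ((Matrix.isUnit_iff_isUnit_det a).2 ha)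
  have hzero : ∀ v : Fin 2 → ZMod p, v ᵥ* (β * g⁻¹) = 0 := fun v => by
    have h3 := hneg σ hσ v _ (hgal v).1
    rw [(hgal _).1] at h3
    have h4 := zv_injective U p h3
    rw [vecMul_scalar hs (v ᵥ* a), ← Matrix.smul_vecMul, ← vecMul_scalar hs] at h4
    have h5 : (2 : ZMod p) • ((v ᵥ* (β * g⁻¹)) ᵥ* a) = 0 := by
      rw [two_smul]
      exact add_eq_zero_iff_eq_neg.2 h4
    refine hainj ?_
    simp only [Matrix.zero_vecMul]
    exact (smul_eq_zero.1 h5).resolve_left h2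
  have h3 : Hm τ τ' (e / p) := hm_div fun v => by
    rw [← U'.ker, hβ, ← hαg, hzero, Matrix.zero_vecMul]
    exact map_zero (Zh U' p)
  obtain ⟨m, hm⟩ := hgen _ h3
  have h4 : ((p * m : ℤ) : ℂ) = (1 : ℤ) := by
    push_cast
    refine mul_right_cancel₀ he0 ?_
    rw [mul_assoc, ← hm]
    field_simp
  have h5 : (p : ℤ) * m = 1 := by exact_mod_cast h4
  have h6 := hpp.two_le
  rcases Int.eq_one_or_neg_one_of_mul_eq_one h5 with h7 | h7 <;> omega

end Tw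

/-- Congruent curves which are isogenous over `ℂ` but not over `ℚ` carry a non-scalar
endomorphism of the `p`-torsion which is Galois stable up to sign. -/
theorem twist (E E' : WeierstrassCurve ℚ) [E.IsElliptic] [E'.IsElliptic] (p : ℕ) [Fact p.Prime]
    (hp : p ≠ 2) (h : Congruent p E E') (hH : Hecke (E.j : ℂ) (E'.j : ℂ))
    (hI : ¬ Isogenous E E') :
    ∃ (τ : ℍ) (α : Matrix (Fin 2) (Fin 2) (ZMod p)), J τ = (E.j : ℂ) ∧ NonScalar α ∧
      ∀ l μ : ℕ, ∃ q : ℚ, (q : ℂ) = wf p l μ α τ τ := by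
  obtain ⟨a, b, c, d, τ, τ', hdet, hτ, hJ, hJ'⟩ := hH
  have := Tw.ell E
  have := Tw.ell E'
  obtain ⟨U⟩ := unif (E.baseChange ℂ) τ (hJ.trans (E.map_j (algebraMap ℚ ℂ)).symm)
  obtain ⟨U'⟩ := unif (E'.baseChange ℂ) τ' (hJ'.trans (E'.map_j (algebraMap ℚ ℂ)).symm)
  suffices hs : ∃ α : Matrix (Fin 2) (Fin 2) (ZMod p), NonScalar α ∧
      ∀ l μ : ℕ, ∃ q : ℚ, (q : ℂ) = wf p l μ α τ τ by
    obtain ⟨α, h1, h2⟩ := hs
    exact ⟨τ, α, hJ, h1, h2⟩
  by_cases hO : ∀ e, Tw.Hm τ τ e → e.im = 0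
  · obtain ⟨n, hn⟩ := Int.eq_ofNat_of_zero_le hdet.le
    have hnC : (n : ℂ) = a * d - b * c := by exact_mod_cast hn.symm
    have h1 : (n : ℂ) = (c * τ + d) * ((-c : ℤ) * τ' + a) := by
      push_cast
      linear_combination hnC + (c : ℂ) * hτ
    have h2 : (n : ℂ) * τ = (c * τ + d) * (d * τ' + (-b : ℤ)) := by
      push_cast
      linear_combination (τ : ℂ) * hnC - (d : ℂ) * hτ
    have hn0 : 0 < n := by omega
    have hj0 : (c * τ + d : ℂ) ≠ 0 := fun h0 => by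
      rw [h0, zero_mul] at h1
      exact hn0.ne' (by exact_mod_cast h1)
    refine Tw.twist_gen E E' U U' p hp h hI hj0 (Tw.hm_of_gens ?_ ?_) hn0
      (Tw.hm_of_gens ?_ ?_) hO
    · exact (mem_lat τ _).2 ⟨a, b, by rw [mul_comm, hτ]⟩
    · exact (mem_lat τ _).2 ⟨c, d, rfl⟩
    · exact (mem_lat τ' _).2 ⟨d, -b, by rw [div_mul_eq_mul_div, h2, mul_div_cancel_left₀ _ hj0]⟩
    · exact (mem_lat τ' _).2 ⟨-c, a, by rw [h1, mul_div_cancel_left₀ _ hj0]⟩
  · push Not at hO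
    obtain ⟨e, he, him⟩ := hO
    exact Tw.twist_cm E U p hp he him

end

end Pool.Agent.P.MP_a60a76_nt.SP
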