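import Pool.Agent.P.MP_a60a76_nt.SP.GFM
import Pool.Agent.P.MP_a60a76_nt.SP.FPoly
import Pool.Agent.P.MP_a60a76_nt.SP.Twist
import Pool.Agent.P.MP_a60a76_nt.SP.BP
import Pool.Agent.P.MP_a60a76_nt.SP.DM2

namespace Pool.Agent.P.MP_a60a76_nt.SP

open Polynomial UpperHalfPlane PeriodPair
open scoped MatrixGroups UpperHalfPlane Matrix Modular Topology Classical

noncomputable section

/-- Rational points of the plane lying under a rational point of the cover. -/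
def Pt (p : ℕ) [NeZero p] (x y : ℚ) : Prop :=
  ∃ (τ τ' : ℍ) (g : Matrix (Fin 2) (Fin 2) (ZMod p)), IsUnit g.det ∧ J τ = x ∧ J τ' = y ∧
    ∀ l μ : ℕ, ∃ q : ℚ, (q : ℂ) = wf p l μ g τ τ'

/-- The same on the diagonal. -/
def PtD (p : ℕ) [NeZero p] (x : ℚ) : Prop :=
  ∃ (τ : ℍ) (α : Matrix (Fin 2) (Fin 2) (ZMod p)), J τ = x ∧ NonScalar α ∧
    ∀ l μ : ℕ, ∃ q : ℚ, (q : ℂ) = wf p l μ α τ τ

namespace Main

theorem cover {α ι : Type*} {Z : Set α} (s : Finset ι) (Q : ι → α → Prop)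
    (h : ∀ a ∈ Z, ∃ i ∈ s, Q i a) (c : ι → ℝ)
    (hc : ∀ i ∈ s, ({a | a ∈ Z ∧ Q i a}.ncard : ℝ) ≤ c i) : (Z.ncard : ℝ) ≤ ∑ i ∈ s, c i := by
  have : Z = ⋃ i ∈ s, {a | a ∈ Z ∧ Q i a} := by
    ext a
    simp only [Set.mem_iUnion, Set.mem_ofPred_eq]
    constructor
    · intro ha
      obtain ⟨i, hi, hQ⟩ := h a ha
      exact ⟨i, hi, ha, hQ⟩
    · rintro ⟨i, -, ha, -⟩
      exact ha
  have h1 := s.set_ncard_biUnion_le fun i => {a | a ∈ Z ∧ Q i a}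
  rw [← this] at h1
  calc (Z.ncard : ℝ) ≤ ((∑ i ∈ s, {a | a ∈ Z ∧ Q i a}.ncard : ℕ) : ℝ) := by exact_mod_cast h1
    _ ≤ _ := by
      push_cast
      exact Finset.sum_le_sum hc

/-- Counting by fibres of the first projection. -/
theorem fibres {α β : Type*} {Z : Set (α × β)} {A : Set α} (hA : A.Finite)
    (h : ∀ a ∈ Z, a.1 ∈ A) (c : ℝ)
    (hc : ∀ x ∈ A, ∃ T : Set β, T.Finite ∧ (T.ncard : ℝ) ≤ c ∧ ∀ y, (x, y) ∈ Z → y ∈ T) :
    (Z.ncard : ℝ) ≤ A.ncard * c := by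
  have := cover (Z := Z) hA.toFinset (fun x a => a.1 = x)
    (fun a ha => ⟨a.1, hA.mem_toFinset.mpr (h a ha), rfl⟩) (fun _ => c) (by
      intro x hx
      obtain ⟨T, hT, hTc, hTZ⟩ := hc x (hA.mem_toFinset.mp hx)
      refine le_trans ?_ hTc
      have := Set.ncard_le_ncard_of_injOn (s := {a | a ∈ Z ∧ a.1 = x}) (t := T) Prod.snd
        (by
          rintro ⟨a, b⟩ ⟨h1, rfl⟩
          exact hTZ b h1)
        (by
          rintro ⟨a, b⟩ ⟨-, h1⟩ ⟨a', b'⟩ ⟨-, h2⟩ h3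
          exact Prod.ext (h1.trans h2.symm) h3) hT
      exact_mod_cast this)
  rwa [Finset.sum_const, nsmul_eq_mul, ← Set.ncard_eq_toFinset_card _ hA] at this

theorem aeval2_eq (x y : ℂ) : (aevalAeval x y : ℚ[X][X] →ₐ[ℚ] ℂ).toRingHom =
    (evalEvalRingHom x y).comp (mapRingHom (mapRingHom (algebraMap ℚ ℂ))) := by
  refine Polynomial.ringHom_ext' (Polynomial.ringHom_ext' (Subsingleton.elim _ _) ?_) ?_
  · simp [evalEval]
  · simp [evalEval]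

theorem aeval2_apply (x y : ℂ) (G : ℚ[X][X]) :
    aevalAeval x y G = (G.map (mapRingHom (algebraMap ℚ ℂ))).evalEval x y :=
  DFunLike.congr_fun (aeval2_eq x y) G

theorem aeval2_rat (x y : ℚ) : (aevalAeval (x : ℂ) (y : ℂ) : ℚ[X][X] →ₐ[ℚ] ℂ).toRingHom =
    (algebraMap ℚ ℂ).comp (evalEvalRingHom x y) := by
  refine Polynomial.ringHom_ext' (Polynomial.ringHom_ext' (Subsingleton.elim _ _) ?_) ?_
  · simp [evalEval]
  · simp [evalEval]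

theorem evalEval_rat (G : ℚ[X][X]) (x y : ℚ) :
    (G.map (mapRingHom (algebraMap ℚ ℂ))).evalEval (x : ℂ) (y : ℂ) = (G.evalEval x y : ℚ) :=
  map_mapRingHom_evalEval (algebraMap ℚ ℂ) G x y

theorem natDegree_map2 (G : ℚ[X][X]) :
    (G.map (mapRingHom (algebraMap ℚ ℂ))).natDegree = G.natDegree :=
  natDegree_map_eq_of_injective (map_injective _ (algebraMap ℚ ℂ).injective) G

theorem root_rat {A : Type*} [CommRing A] (f : A →+* ℚ) (F : A[X]) (q : ℚ)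
    (h : (F.map ((algebraMap ℚ ℂ).comp f)).eval (q : ℂ) = 0) : (F.map f).eval q = 0 := by
  rw [← Polynomial.map_map] at h
  have h2 := eval_map_algebraMap (F.map f) (q : ℂ)
  rw [h] at h2
  have h3 := aeval_algebraMap_apply_eq_algebraMap_eval (A := ℂ) q (F.map f)
  exact (algebraMap ℚ ℂ).injective (by rw [map_zero, ← h3]; exact h2.symm)

theorem eval_prod_eq_zero {ι : Type*} (s : Finset ι) (f : ι → ℂ) (ω : ℂ) :
    (∏ i ∈ s, (X - C (f i))).eval ω = 0 ↔ ∃ i ∈ s, ω = f i := by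
  simp [eval_prod, Finset.prod_eq_zero_iff, sub_eq_zero]

/-- Points on a curve whose preimage has only components of large degree. -/
theorem curve (p : ℕ) [Fact p.Prime] (m D Λ : ℕ) (hm : 1 ≤ m) : ∃ C : ℝ, 0 ≤ C ∧
    ∀ G : ℚ[X][X], 1 ≤ G.natDegree → BDeg D G → ∀ l ≤ Λ, ∀ μ ≤ Λ,
      NoSmall m (WG p l μ (G.map (mapRingHom (algebraMap ℚ ℂ)))) → ∀ N : ℕ, 2 ≤ N →
      ({x : ℚ | ht x ≤ N ∧ ∃ y : ℚ, ht y ≤ N ∧ G.evalEval x y = 0 ∧ Pt p x y}.ncard : ℝ) ≤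
        C * (N : ℝ) ^ ((3 : ℝ) / m) := by
  have key : ∀ i : ℕ × ℕ, ∃ C : ℝ, ∀ G : ℚ[X][X], 1 ≤ G.natDegree → BDeg D G →
      NoSmall m (WG p i.1 i.2 (G.map (mapRingHom (algebraMap ℚ ℂ)))) → ∀ N : ℕ, 2 ≤ N →
      ({x : ℚ | ht x ≤ N ∧ ∃ y : ℚ, ht y ≤ N ∧ G.evalEval x y = 0 ∧ Pt p x y}.ncard : ℝ) ≤
        C * (N : ℝ) ^ ((3 : ℝ) / m) := by
    rintro ⟨l, μ⟩
    obtain ⟨F, hF, hF'⟩ := exists_F p l μ
    obtain ⟨D', hD'⟩ := elim F hF D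
    obtain ⟨A, hA⟩ := ht_root F hF
    obtain ⟨C, hC⟩ := bp2 m D' A hm
    refine ⟨C, fun G h1 hG hN N hN2 => ?_⟩
    obtain ⟨R, hR0, hRD, hR1, S, hS⟩ := hD' G h1 hG
    refine le_trans ?_ (hC R hR0 hRD ?_ N hN2)
    · refine Nat.cast_le.mpr (Set.ncard_le_ncard ?_ ((finite_ht N).subset fun x hx => hx.1))
      rintro x ⟨hx, y, hy, hxy, τ, τ', g, hg, hτ, hτ', hq⟩
      obtain ⟨q, hq⟩ := hq l μ
      have hroot : (F.map (evalEvalRingHom x y)).eval q = 0 := by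
        refine root_rat _ _ _ ?_
        rw [← aeval2_rat, ← hτ, ← hτ', hF', eval_prod_eq_zero]
        exact ⟨g, by simpa using hg, hq⟩
      exact ⟨hx, q, hA N hN2 x y q hx hy hroot, hR1 x y q hxy hroot⟩
    · intro P hP hP1
      by_contra hlt
      refine hN (P.map (mapRingHom (algebraMap ℚ ℂ))) (by rwa [natDegree_map2])
        (by rw [natDegree_map2]; omega) ⟨S, fun x hx ω hω => ?_⟩
      obtain ⟨Q, rfl⟩ := hP
      obtain ⟨y, hy, hFy⟩ := hS x hx ω (by rw [map_mul, aeval2_apply, hω, zero_mul])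
      obtain ⟨τ, rfl⟩ := J_surj x
      obtain ⟨τ', rfl⟩ := J_surj y
      rw [hF', eval_prod_eq_zero] at hFy
      obtain ⟨g, hg, rfl⟩ := hFy
      exact ⟨τ, τ', g, by simpa using hg, rfl, by rwa [aeval2_apply] at hy, rfl⟩
  choose C hC using key
  refine ⟨∑ i ∈ Finset.range (Λ + 1) ×ˢ Finset.range (Λ + 1), |C i|,
    Finset.sum_nonneg fun _ _ => abs_nonneg _, fun G h1 hG l hl μ hμ hN N hN2 => ?_⟩
  refine (hC (l, μ) G h1 hG hN N hN2).trans (mul_le_mul_of_nonneg_right ?_ (by positivity))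
  refine (le_abs_self _).trans (Finset.single_le_sum (f := fun i => |C i|)
    (fun _ _ => abs_nonneg _) ?_)
  simp only [Finset.mem_product, Finset.mem_range]
  omega

/-- The unrelated pairs. -/
def Z (p : ℕ) [NeZero p] (N : ℕ) : Set (ℚ × ℚ) :=
  {a | ht a.1 ≤ N ∧ ht a.2 ≤ N ∧ Pt p a.1 a.2 ∧ Pt p a.2 a.1 ∧ ¬ Hecke a.1 a.2}

theorem finite_box (N : ℕ) : {a : ℚ × ℚ | ht a.1 ≤ N ∧ ht a.2 ≤ N}.Finite :=
  ((finite_ht N).prod (finite_ht N)).subset fun _ h => h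

theorem Z_swap {p : ℕ} [NeZero p] {N : ℕ} {a : ℚ × ℚ} (h : a ∈ Z p N) : a.swap ∈ Z p N :=
  ⟨h.2.1, h.1, h.2.2.2.1, h.2.2.1, fun hh => h.2.2.2.2 hh.symm⟩

theorem fibre_roots {P : ℚ[X][X]} (hP : Irreducible P) (h1 : 1 ≤ P.natDegree) {D : ℕ}
    (hD : BDeg D P) (x : ℚ) :
    {y | P.evalEval x y = 0}.Finite ∧ ({y | P.evalEval x y = 0}.ncard : ℝ) ≤ D := by
  have h0 := map_eval_ne_zero hP h1 x
  have : {y | P.evalEval x y = 0} = ((P.map (evalRingHom x)).roots.toFinset : Set ℚ) := by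
    ext y
    rw [Finset.mem_coe, Multiset.mem_toFinset, mem_roots h0, IsRoot, map_evalRingHom_eval]
    rfl
  rw [this, Set.ncard_coe_finset]
  refine ⟨Finset.finite_toSet _, ?_⟩
  exact_mod_cast (Multiset.toFinset_card_le _).trans
    ((card_roots' _).trans (natDegree_map_le.trans hD.1))

theorem swap_map (G : ℚ[X][X]) : (Bivariate.swap G).map (mapRingHom (algebraMap ℚ ℂ)) =
    Bivariate.swap (G.map (mapRingHom (algebraMap ℚ ℂ))) := by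
  have : (mapRingHom (mapRingHom (algebraMap ℚ ℂ))).comp
      (Bivariate.swap (R := ℚ)).toRingEquiv.toRingHom =
      (Bivariate.swap (R := ℂ)).toRingEquiv.toRingHom.comp
        (mapRingHom (mapRingHom (algebraMap ℚ ℂ))) := by
    refine Polynomial.ringHom_ext' (Polynomial.ringHom_ext' (Subsingleton.elim _ _) ?_) ?_
    · simp [Bivariate.swap_X]
    · simp [Bivariate.swap_Y]
  exact DFunLike.congr_fun this G

theorem per_curve (m : ℕ) (hm : 1 ≤ m) : ∃ p₀ : ℕ, ∀ (p : ℕ) [Fact p.Prime], p₀ < p → ∀ D : ℕ,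
    ∃ C : ℝ, 0 ≤ C ∧ ∀ P : ℚ[X][X], Irreducible P →
      Irreducible (P.map (mapRingHom (algebraMap ℚ ℂ))) → BDeg D P → ∀ N : ℕ, 2 ≤ N →
      ({a | a ∈ Z p N ∧ P.evalEval a.1 a.2 = 0}.ncard : ℝ) ≤ C * (N : ℝ) ^ ((3 : ℝ) / m) := by
  obtain ⟨p₀, hp₀⟩ := gfm m
  refine ⟨p₀, fun p _ hp D => ?_⟩
  obtain ⟨Λ, hΛ⟩ := hp₀ p hp
  obtain ⟨C₁, hC₁, h₁⟩ := curve p m m Λ hm
  obtain ⟨C₂, h₂⟩ := bp m D 1 hm
  have key : ∀ P : ℚ[X][X], Irreducible P →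
      Irreducible (P.map (mapRingHom (algebraMap ℚ ℂ))) → BDeg D P → 1 ≤ P.natDegree →
      (m ≤ P.natDegree ∨ BDeg m P) → ∀ N : ℕ, 2 ≤ N →
      ({a | a ∈ Z p N ∧ P.evalEval a.1 a.2 = 0}.ncard : ℝ) ≤
        (C₁ + |C₂|) * D * (N : ℝ) ^ ((3 : ℝ) / m) := by
    intro P hP hP' hD h1 hc N hN
    have hpos : (0 : ℝ) ≤ (N : ℝ) ^ ((3 : ℝ) / m) := by positivity
    have hA : ({x : ℚ | ht x ≤ N ∧ ∃ y, (x, y) ∈ Z p N ∧ P.evalEval x y = 0}.ncard : ℝ) ≤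
        (C₁ + |C₂|) * (N : ℝ) ^ ((3 : ℝ) / m) := by
      rcases hc with hc | hc
      · refine le_trans ?_ ((h₂ P hP hc hD N hN).trans (mul_le_mul_of_nonneg_right
          (by linarith [le_abs_self C₂]) hpos))
        refine Nat.cast_le.mpr (Set.ncard_le_ncard ?_ ((finite_ht N).subset fun x hx => hx.1))
        rintro x ⟨hx, y, hy, hxy⟩
        exact ⟨hx, y, by simpa using hy.2.1, hxy⟩
      · rcases hΛ _ hP' (by rwa [natDegree_map2]) (hc.map _) with hH | ⟨l, hl, μ, hμ, hN'⟩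
        · have : {x : ℚ | ht x ≤ N ∧ ∃ y, (x, y) ∈ Z p N ∧ P.evalEval x y = 0} = ∅ := by
            refine Set.eq_empty_of_forall_notMem ?_
            rintro x ⟨-, y, hy, hxy⟩
            exact hy.2.2.2.2 (hH _ _ (by rw [evalEval_rat, hxy]; simp))
          rw [this, Set.ncard_empty, Nat.cast_zero]
          positivity
        · refine le_trans ?_ ((h₁ P h1 hc l hl μ hμ hN' N hN).trans (mul_le_mul_of_nonneg_right
            (by linarith [abs_nonneg C₂]) hpos))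
          refine Nat.cast_le.mpr (Set.ncard_le_ncard ?_ ((finite_ht N).subset fun x hx => hx.1))
          rintro x ⟨hx, y, hy, hxy⟩
          exact ⟨hx, y, hy.2.1, hxy, hy.2.2.1⟩
    have := fibres (Z := {a | a ∈ Z p N ∧ P.evalEval a.1 a.2 = 0})
      (A := {x : ℚ | ht x ≤ N ∧ ∃ y, (x, y) ∈ Z p N ∧ P.evalEval x y = 0})
      ((finite_ht N).subset fun x hx => hx.1) (fun a ha => ⟨ha.1.1, a.2, ha.1, ha.2⟩) D
      (fun x _ => ⟨_, (fibre_roots hP h1 hD x).1, (fibre_roots hP h1 hD x).2, fun y hy => hy.2⟩)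
    calc _ ≤ _ := this
      _ ≤ (C₁ + |C₂|) * (N : ℝ) ^ ((3 : ℝ) / m) * D :=
        mul_le_mul_of_nonneg_right hA (Nat.cast_nonneg _)
      _ = _ := by ring
  refine ⟨(C₁ + |C₂|) * D, by positivity, fun P hP hP' hD N hN => ?_⟩
  by_cases hc : 1 ≤ P.natDegree ∧ (m ≤ P.natDegree ∨ BDeg m P)
  · exact key P hP hP' hD hc.1 hc.2 N hN
  have hs : 1 ≤ (Bivariate.swap P).natDegree ∧
      (m ≤ (Bivariate.swap P).natDegree ∨ BDeg m (Bivariate.swap P)) := by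
    by_cases h1 : m ≤ (Bivariate.swap P).natDegree
    · exact ⟨hm.trans h1, Or.inl h1⟩
    have h2 : ¬ m ≤ P.natDegree := fun h => hc ⟨hm.trans h, Or.inl h⟩
    have h3 : BDeg m P := ⟨by omega, fun i => (natDegree_coeff_le_swap P i).trans (by omega)⟩
    refine ⟨?_, Or.inr h3.swap⟩
    by_contra h4
    have h5 : P.natDegree = 0 := by
      by_contra h
      exact hc ⟨by omega, Or.inr h3⟩
    have h6 : (P.coeff 0).natDegree = 0 := by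
      have := natDegree_coeff_le_swap P 0
      omega
    have h7 : P = C (C ((P.coeff 0).coeff 0)) := by
      rw [← eq_C_of_natDegree_eq_zero h6, ← eq_C_of_natDegree_eq_zero h5]
    have h8 : (P.coeff 0).coeff 0 ≠ 0 := by
      intro h
      rw [h] at h7
      exact hP.ne_zero (by simpa using h7)
    exact hP.not_isUnit (h7 ▸ ((h8.isUnit.map C).map C))
  refine le_trans ?_ (key (Bivariate.swap P) (hP.map (Bivariate.swap (R := ℚ)).toMulEquiv)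
    (by rw [swap_map]; exact hP'.map (Bivariate.swap (R := ℂ)).toMulEquiv) hD.swap hs.1 hs.2 N hN)
  refine Nat.cast_le.mpr (Set.ncard_le_ncard_of_injOn Prod.swap ?_
    Prod.swap_injective.injOn ((finite_box N).subset fun a ha => ⟨ha.1.1, ha.1.2.1⟩))
  intro a ha
  exact ⟨Z_swap ha.1, by rw [evalEval_swap]; exact ha.2⟩

theorem one_le_rpow {N : ℕ} (hN : 2 ≤ N) {e : ℝ} (he : 0 ≤ e) : (1 : ℝ) ≤ (N : ℝ) ^ e :=
  Real.one_le_rpow (by exact_mod_cast (by omega : 1 ≤ N)) he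

theorem exists_irr {A : Type*} [CommRing A] [IsDomain A] [UniqueFactorizationMonoid A] (F : A)
    (hF : F ≠ 0) : ∃ s : Finset A, (∀ Q ∈ s, Irreducible Q ∧ Q ∣ F) ∧
      ∀ ψ : A →+* ℚ, ψ F = 0 → ∃ Q ∈ s, ψ Q = 0 := by
  refine ⟨(UniqueFactorizationMonoid.factors F).toFinset, fun Q hQ =>
    ⟨UniqueFactorizationMonoid.irreducible_of_factor Q (Multiset.mem_toFinset.mp hQ),
      UniqueFactorizationMonoid.dvd_of_mem_factors (Multiset.mem_toFinset.mp hQ)⟩,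
    fun ψ h2 => ?_⟩
  obtain ⟨u, hu⟩ := UniqueFactorizationMonoid.factors_prod hF
  have h1 : ψ (UniqueFactorizationMonoid.factors F).prod = 0 := by
    rw [← hu, map_mul, mul_eq_zero] at h2
    exact h2.resolve_right (u.isUnit.map ψ).ne_zero
  rw [map_multiset_prod, Multiset.prod_eq_zero_iff, Multiset.mem_map] at h1
  obtain ⟨Q, hQ, hQ'⟩ := h1
  exact ⟨Q, Multiset.mem_toFinset.mpr hQ, hQ'⟩

theorem count1 (m : ℕ) (hm : 1 ≤ m) : ∃ p₀ : ℕ, ∀ (p : ℕ) [Fact p.Prime], p₀ < p →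
    ∃ C : ℝ, ∀ N : ℕ, 2 ≤ N → ((Z p N).ncard : ℝ) ≤ C * (N : ℝ) ^ ((13 : ℝ) / m) := by
  obtain ⟨p₁, hp₁⟩ := per_curve m hm
  obtain ⟨p₂, hp₂⟩ := line (2 * m ^ 2)
  refine ⟨max p₁ p₂, fun p _ hp => ?_⟩
  have h₁ := hp₁ p (lt_of_le_of_lt (le_max_left _ _) hp)
  obtain ⟨Λ, h₂⟩ := hp₂ p (lt_of_le_of_lt (le_max_right _ _) hp)
  obtain ⟨l, -, μ, -, hN0⟩ := h₂ 0
  -- points on an arbitrary curve
  have on_curve : ∀ D : ℕ, ∃ C : ℝ, 0 ≤ C ∧ ∀ G : ℚ[X][X], G ≠ 0 → BDeg D G → ∀ N : ℕ, 2 ≤ N →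
      ({a | a ∈ Z p N ∧ G.evalEval a.1 a.2 = 0}.ncard : ℝ) ≤ C * (N : ℝ) ^ ((3 : ℝ) / m) := by
    intro D
    obtain ⟨C₁, hC₁, h₁⟩ := h₁ D
    obtain ⟨C₂, h₂⟩ := abs_irred D
    refine ⟨C₂ + C₂ * C₁, by positivity, fun G hG hD N hN => ?_⟩
    obtain ⟨s, S, hs, hS, hs', hcov⟩ := h₂ G hG hD
    have hone := one_le_rpow hN (e := (3 : ℝ) / m) (by positivity)
    have e1 : ({a | (a ∈ Z p N ∧ G.evalEval a.1 a.2 = 0) ∧ a ∉ S}.ncard : ℝ) ≤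
        C₂ * (C₁ * (N : ℝ) ^ ((3 : ℝ) / m)) := by
      refine (cover s (fun P a => P.evalEval a.1 a.2 = 0)
        (fun a ha => (hcov a.1 a.2 ha.1.2).resolve_left ha.2)
        (fun _ => C₁ * (N : ℝ) ^ ((3 : ℝ) / m)) fun P hP => ?_).trans ?_
      · refine le_trans ?_ (h₁ P (hs' P hP).1 (hs' P hP).2.1 (hs' P hP).2.2 N hN)
        refine Nat.cast_le.mpr (Set.ncard_le_ncard (fun a ha => ⟨ha.1.1.1, ha.2⟩)
          ((finite_box N).subset fun a ha => ⟨ha.1.1, ha.1.2.1⟩))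
      · rw [Finset.sum_const, nsmul_eq_mul]
        exact mul_le_mul_of_nonneg_right (by exact_mod_cast hs) (by positivity)
    have e2 : {a | a ∈ Z p N ∧ G.evalEval a.1 a.2 = 0}.ncard ≤
        S.card + {a | (a ∈ Z p N ∧ G.evalEval a.1 a.2 = 0) ∧ a ∉ S}.ncard := by
      rw [← Set.ncard_coe_finset]
      refine le_trans (Set.ncard_le_ncard ?_ (S.finite_toSet.union ((finite_box N).subset
        fun a ha => ⟨ha.1.1.1, ha.1.1.2.1⟩))) (Set.ncard_union_le _ _)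
      intro a ha
      by_cases h : a ∈ S
      · exact Or.inl h
      · exact Or.inr ⟨ha, h⟩
    have e3 : (S.card : ℝ) ≤ C₂ := by exact_mod_cast hS
    have e4 : ({a | a ∈ Z p N ∧ G.evalEval a.1 a.2 = 0}.ncard : ℝ) ≤
        S.card + {a | (a ∈ Z p N ∧ G.evalEval a.1 a.2 = 0) ∧ a ∉ S}.ncard := by exact_mod_cast e2
    have e5 : (C₂ : ℝ) ≤ C₂ * (N : ℝ) ^ ((3 : ℝ) / m) :=
      le_mul_of_one_le_right (Nat.cast_nonneg _) hone
    nlinarith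
  obtain ⟨F, hF, hF'⟩ := exists_F p l μ
  obtain ⟨A, hA⟩ := ht_root F hF
  have on_surface : ∀ Q : ℚ[X][X][X], ∃ C : ℝ, Irreducible Q → Q ∣ F → ∀ N : ℕ, 2 ≤ N →
      ({a | a ∈ Z p N ∧ ∃ w : ℚ, ht w ≤ N ^ A ∧
        (Q.map (evalEvalRingHom a.1 a.2)).eval w = 0}.ncard : ℝ) ≤
        C * (N : ℝ) ^ ((13 : ℝ) / m) := by
    intro Q
    by_cases hQ : Irreducible Q ∧ Q ∣ F
    swap
    · exact ⟨0, fun h h' => absurd ⟨h, h'⟩ hQ⟩
    obtain ⟨hQ, R, hR⟩ := hQ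
    have hu : IsUnit Q.leadingCoeff := by
      have := congrArg leadingCoeff hR
      rw [hF.leadingCoeff, leadingCoeff_mul] at this
      exact IsUnit.of_mul_eq_one _ this.symm
    have hQ1 : 1 ≤ Q.natDegree := by
      by_contra h
      have h0 : Q.natDegree = 0 := by omega
      refine hQ.not_isUnit ?_
      rw [eq_C_of_natDegree_eq_zero h0]
      rw [leadingCoeff, h0] at hu
      exact hu.map C
    have hd : 2 * m ^ 2 ≤ Q.natDegree := by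
      by_contra hlt
      set φ : ℚ[X][X] →+* ℂ[X] := (mapRingHom (algebraMap ℚ ℂ)).comp (evalRingHom 0) with hφ
      have hdeg : (Q.map φ).natDegree = Q.natDegree :=
        natDegree_map_of_leadingCoeff_ne_zero _ (hu.map φ).ne_zero
      refine hN0 (Q.map φ) (by omega) (by omega) ⟨∅, fun x _ ω hω => ?_⟩
      have hcomp : (evalRingHom x).comp φ =
          (aevalAeval x (0 : ℂ) : ℚ[X][X] →ₐ[ℚ] ℂ).toRingHom := by
        refine Polynomial.ringHom_ext' (Polynomial.ringHom_ext' (Subsingleton.elim _ _) ?_) ?_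
        · simp [hφ]
        · simp [hφ]
      rw [← map_evalRingHom_eval, Polynomial.map_map, hcomp] at hω
      obtain ⟨τ, rfl⟩ := J_surj x
      obtain ⟨τ', hτ'⟩ := J_surj 0
      have h1 := hF' τ τ'
      rw [hτ'] at h1
      have h2 : (F.map (aevalAeval (J τ) (0 : ℂ) : ℚ[X][X] →ₐ[ℚ] ℂ).toRingHom).eval ω = 0 := by
        rw [hR, Polynomial.map_mul, eval_mul, hω, zero_mul]
      rw [h1, eval_prod_eq_zero] at h2
      obtain ⟨g, hg, rfl⟩ := h2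
      exact ⟨τ, τ', g, by simpa using hg, rfl, by simp [hτ', evalEval], rfl⟩
    obtain ⟨D, C₁, h₁⟩ := dm2 m A hm Q hQ hd
    obtain ⟨C₂, hC₂, h₂⟩ := on_curve D
    refine ⟨C₁ * C₂, fun _ _ N hN => ?_⟩
    obtain ⟨s, hs, hs', hcov⟩ := h₁ N hN
    refine (cover s (fun G a => G.evalEval a.1 a.2 = 0) (by
      rintro a ⟨ha, w, hw, hw'⟩
      exact hcov a.1 a.2 w ha.1 ha.2.1 hw hw') (fun _ => C₂ * (N : ℝ) ^ ((3 : ℝ) / m))
      fun G hG => ?_).trans ?_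
    · refine le_trans ?_ (h₂ G (hs' G hG).1 (hs' G hG).2 N hN)
      refine Nat.cast_le.mpr (Set.ncard_le_ncard (fun a ha => ⟨ha.1.1, ha.2⟩)
        ((finite_box N).subset fun a ha => ⟨ha.1.1, ha.1.2.1⟩))
    · rw [Finset.sum_const, nsmul_eq_mul]
      have hN0 : (0 : ℝ) < N := by exact_mod_cast (by omega : 0 < N)
      calc _ ≤ C₁ * (N : ℝ) ^ ((10 : ℝ) / m) * (C₂ * (N : ℝ) ^ ((3 : ℝ) / m)) :=
            mul_le_mul_of_nonneg_right hs (by positivity)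
        _ = C₁ * C₂ * ((N : ℝ) ^ ((10 : ℝ) / m) * (N : ℝ) ^ ((3 : ℝ) / m)) := by ring
        _ = _ := by
          rw [← Real.rpow_add hN0]
          congr 2
          ring
  choose C hC using on_surface
  obtain ⟨s, hs, hs'⟩ := exists_irr (A := ℚ[X][X][X]) F hF.ne_zero
  refine ⟨∑ Q ∈ s, C Q, fun N hN => ?_⟩
  rw [Finset.sum_mul]
  refine cover s (fun (Q : ℚ[X][X][X]) (a : ℚ × ℚ) => ∃ w : ℚ, ht w ≤ N ^ A ∧
    (Q.map (evalEvalRingHom a.1 a.2)).eval w = 0) ?_ _ fun Q hQ => ?_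
  swap
  · exact hC Q (hs Q hQ).1 (hs Q hQ).2 N hN
  rintro ⟨x, y⟩ ⟨hx, hy, ⟨τ, τ', g, hg, hτ, hτ', hq⟩, -⟩
  obtain ⟨q, hq⟩ := hq l μ
  have hroot : (F.map (evalEvalRingHom x y)).eval q = 0 := by
    refine root_rat _ _ _ ?_
    rw [← aeval2_rat, ← hτ, ← hτ', hF', eval_prod_eq_zero]
    exact ⟨g, by simpa using hg, hq⟩
  obtain ⟨Q, hQ, hQ'⟩ := hs' ((evalRingHom q).comp (mapRingHom (evalEvalRingHom x y))) hroot
  exact ⟨Q, hQ, q, hA N hN x y q hx hy hroot, hQ'⟩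

theorem count2 (m : ℕ) (hm : 1 ≤ m) : ∃ p₀ : ℕ, ∀ (p : ℕ) [Fact p.Prime], p₀ < p →
    ∃ C : ℝ, ∀ N : ℕ, 2 ≤ N →
      ({x : ℚ | ht x ≤ N ∧ PtD p x}.ncard : ℝ) ≤ C * (N : ℝ) ^ ((3 : ℝ) / m) := by
  obtain ⟨p₀, hp₀⟩ := diag m
  refine ⟨p₀, fun p _ hp => ?_⟩
  obtain ⟨l, μ, hN0⟩ := hp₀ p hp
  obtain ⟨F, hF, hF'⟩ := exists_FD p l μ
  obtain ⟨D, hD⟩ := exists_bdeg F
  obtain ⟨A, hA⟩ := ht_root (F.map C) (hF.map C)
  obtain ⟨C₁, h₁⟩ := bp2 m D A hm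
  refine ⟨C₁, fun N hN => le_trans ?_ (h₁ F hF.ne_zero hD ?_ N hN)⟩
  · refine Nat.cast_le.mpr (Set.ncard_le_ncard ?_ ((finite_ht N).subset fun x hx => hx.1))
    rintro x ⟨hx, τ, α, hτ, hα, hq⟩
    obtain ⟨q, hq⟩ := hq l μ
    have hc : (aeval (x : ℂ) : ℚ[X] →ₐ[ℚ] ℂ).toRingHom =
        (algebraMap ℚ ℂ).comp (evalRingHom x) := by
      refine Polynomial.ringHom_ext' (Subsingleton.elim _ _) ?_
      simp
    have hroot : (F.map (evalRingHom x)).eval q = 0 := by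
      refine root_rat _ _ _ ?_
      rw [← hc, ← hτ, hF', eval_prod_eq_zero]
      exact ⟨α, by simpa using hα, hq⟩
    have hc2 : (evalEvalRingHom x x).comp (C : ℚ[X] →+* ℚ[X][X]) = evalRingHom x := by
      refine Polynomial.ringHom_ext' (Subsingleton.elim _ _) ?_
      simp [evalEval]
    refine ⟨hx, q, hA N hN x x q hx hx ?_, by rwa [map_evalRingHom_eval] at hroot⟩
    rwa [Polynomial.map_map, hc2]
  · intro P hP hP1
    by_contra hlt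
    refine hN0 (P.map (mapRingHom (algebraMap ℚ ℂ))) (by rwa [natDegree_map2])
      (by rw [natDegree_map2]; omega) ⟨∅, fun x _ ω hω => ?_⟩
    obtain ⟨Q, rfl⟩ := hP
    obtain ⟨τ, rfl⟩ := J_surj x
    have hc : (aeval (J τ) : ℚ[X] →ₐ[ℚ] ℂ).toRingHom =
        (evalRingHom (J τ)).comp (mapRingHom (algebraMap ℚ ℂ)) := by
      refine Polynomial.ringHom_ext' (Subsingleton.elim _ _) ?_
      simp
    have h2 : ((P * Q).map (aeval (J τ) : ℚ[X] →ₐ[ℚ] ℂ).toRingHom).eval ω = 0 := by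
      rw [hc, ← Polynomial.map_map, map_evalRingHom_eval, Polynomial.map_mul, evalEval_mul, hω,
        zero_mul]
    rw [hF', eval_prod_eq_zero] at h2
    obtain ⟨α, hα, rfl⟩ := h2
    exact ⟨τ, α, by simpa using hα, rfl, rfl⟩

theorem count3 (m : ℕ) (hm : 1 ≤ m) : ∃ p₀ : ℕ, ∀ (p : ℕ) [Fact p.Prime], p₀ < p →
    ∃ C : ℝ, 0 ≤ C ∧ ∀ N : ℕ, 2 ≤ N → ∀ x₀ : ℚ, ht x₀ ≤ N →
      ({y : ℚ | ht y ≤ N ∧ Pt p y x₀}.ncard : ℝ) ≤ C * (N : ℝ) ^ ((3 : ℝ) / m) := by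
  obtain ⟨p₀, hp₀⟩ := line m
  refine ⟨p₀, fun p _ hp => ?_⟩
  obtain ⟨Λ, hΛ⟩ := hp₀ p hp
  obtain ⟨C₁, hC₁, h₁⟩ := curve p m 1 Λ hm
  refine ⟨C₁, hC₁, fun N hN x₀ hx₀ => ?_⟩
  obtain ⟨l, hl, μ, hμ, hN0⟩ := hΛ x₀
  have hb : BDeg 1 (X - C (C x₀) : ℚ[X][X]) := by
    refine ⟨(natDegree_X_sub_C _).le, fun i => ?_⟩
    rw [coeff_sub, coeff_X, coeff_C]
    split_ifs <;> simp
  refine le_trans ?_ (h₁ (X - C (C x₀)) (natDegree_X_sub_C _).ge hb l hl μ hμ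
    (by simpa using hN0) N hN)
  refine Nat.cast_le.mpr (Set.ncard_le_ncard ?_ ((finite_ht N).subset fun x hx => hx.1))
  rintro y ⟨hy, hP⟩
  exact ⟨hy, x₀, hx₀, by simp [evalEval], hP⟩

end Main

/-- Pairs of invariants of bounded height of congruent curves which are not isogenous. -/
def Bad (p N : ℕ) : Set (ℚ × ℚ) :=
  {j | ht j.1 ≤ N ∧ ht j.2 ≤ N ∧ ∃ (E₁ E₂ : WeierstrassCurve ℚ) (_ : E₁.IsElliptic)
    (_ : E₂.IsElliptic), E₁.j = j.1 ∧ E₂.j = j.2 ∧ Congruent p E₁ E₂ ∧ ¬ Isogenous E₁ E₂}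

open Main in
theorem sparse_aux (m : ℕ) (hm : 1 ≤ m) : ∃ p₀ : ℕ, ∀ p : ℕ, p.Prime → p₀ < p →
    ∃ C : ℝ, 0 ≤ C ∧ ∀ N : ℕ, 2 ≤ N → ((Bad p N).ncard : ℝ) ≤ C * (N : ℝ) ^ ((13 : ℝ) / m) := by
  obtain ⟨p₁, hp₁⟩ := count1 m hm
  obtain ⟨p₂, hp₂⟩ := count2 m hm
  obtain ⟨p₃, hp₃⟩ := count3 m hm
  refine ⟨p₁ + p₂ + p₃ + 2, fun p hpp hp => ?_⟩
  haveI := Fact.mk hpp
  obtain ⟨C₁, h₁⟩ := hp₁ p (by omega)
  obtain ⟨C₂, h₂⟩ := hp₂ p (by omega)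
  obtain ⟨C₃, hC₃, h₃⟩ := hp₃ p (by omega)
  refine ⟨|C₁| + |C₂| * C₃, by positivity, fun N hN => ?_⟩
  have hpt : ∀ (E E' : WeierstrassCurve ℚ) [E.IsElliptic] [E'.IsElliptic], Congruent p E E' →
      Pt p E.j E'.j := by
    intro E E' _ _ h
    obtain ⟨τ, hτ⟩ := J_surj (E.j : ℂ)
    obtain ⟨τ', hτ'⟩ := J_surj (E'.j : ℂ)
    obtain ⟨g, hg, hq⟩ := cong_rat E E' p h τ τ' hτ hτ'
    exact ⟨τ, τ', g, hg, hτ, hτ', hq⟩
  set Z' : Set (ℚ × ℚ) := {a | (ht a.1 ≤ N ∧ PtD p a.1) ∧ ht a.2 ≤ N ∧ Pt p a.2 a.1} with hZ'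
  have hsub : Bad p N ⊆ Z p N ∪ Z' := by
    rintro ⟨x, y⟩ ⟨hx, hy, E₁, E₂, _, _, rfl, rfl, hc, hi⟩
    by_cases hH : Hecke (E₁.j : ℂ) (E₂.j : ℂ)
    · exact Or.inr ⟨⟨hx, twist E₁ E₂ p (by omega) hc hH hi⟩, hy, hpt _ _ hc.symm⟩
    · exact Or.inl ⟨hx, hy, hpt _ _ hc, hpt _ _ hc.symm, hH⟩
  have e1 : (Bad p N).ncard ≤ (Z p N).ncard + Z'.ncard :=
    le_trans (Set.ncard_le_ncard hsub (((finite_box N).subset fun a ha => ⟨ha.1, ha.2.1⟩).union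
      ((finite_box N).subset fun a ha => ⟨ha.1.1, ha.2.1⟩))) (Set.ncard_union_le _ _)
  have e2 := fibres (Z := Z') (A := {x : ℚ | ht x ≤ N ∧ PtD p x})
    ((finite_ht N).subset fun x hx => hx.1) (fun a ha => ha.1) (C₃ * (N : ℝ) ^ ((3 : ℝ) / m))
    (fun x hx => ⟨_, (finite_ht N).subset fun x hx => hx.1, h₃ N hN x hx.1, fun y hy => hy.2⟩)
  have hN1 : (1 : ℝ) ≤ N := by exact_mod_cast (by omega : 1 ≤ N)
  have e3 : (N : ℝ) ^ ((3 : ℝ) / m) * (N : ℝ) ^ ((3 : ℝ) / m) ≤ (N : ℝ) ^ ((13 : ℝ) / m) := by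
    rw [← Real.rpow_add (by linarith)]
    refine Real.rpow_le_rpow_of_exponent_le hN1 ?_
    rw [← add_div]
    exact div_le_div_of_nonneg_right (by norm_num) (Nat.cast_nonneg _)
  have e4 : (Z'.ncard : ℝ) ≤ |C₂| * C₃ * (N : ℝ) ^ ((13 : ℝ) / m) := by
    calc _ ≤ _ := e2
      _ ≤ |C₂| * (N : ℝ) ^ ((3 : ℝ) / m) * (C₃ * (N : ℝ) ^ ((3 : ℝ) / m)) :=
        mul_le_mul_of_nonneg_right ((h₂ N hN).trans
          (mul_le_mul_of_nonneg_right (le_abs_self _) (by positivity))) (by positivity)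
      _ = |C₂| * C₃ * ((N : ℝ) ^ ((3 : ℝ) / m) * (N : ℝ) ^ ((3 : ℝ) / m)) := by ring
      _ ≤ _ := mul_le_mul_of_nonneg_left e3 (by positivity)
  have e5 : ((Z p N).ncard : ℝ) ≤ |C₁| * (N : ℝ) ^ ((13 : ℝ) / m) :=
    (h₁ N hN).trans (mul_le_mul_of_nonneg_right (le_abs_self _) (by positivity))
  have e6 : ((Bad p N).ncard : ℝ) ≤ (Z p N).ncard + Z'.ncard := by exact_mod_cast e1
  linarith [add_mul |C₁| (|C₂| * C₃) ((N : ℝ) ^ ((13 : ℝ) / m))]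

theorem sparse (ε : ℝ) (hε : 0 < ε) : ∃ p₀ : ℕ, ∀ p : ℕ, p.Prime → p₀ < p →
    ∃ C : ℝ, ∀ N : ℕ, 1 ≤ N → ((Bad p N).ncard : ℝ) ≤ C * (N : ℝ) ^ ε := by
  obtain ⟨m, hm⟩ := exists_nat_gt (13 / ε)
  have hm0 : (0 : ℝ) < m := lt_trans (by positivity) hm
  have hm1 : 1 ≤ m := by exact_mod_cast hm0
  obtain ⟨p₀, hp₀⟩ := sparse_aux m hm1
  refine ⟨p₀, fun p hpp hp => ?_⟩
  obtain ⟨C, hC, h⟩ := hp₀ p hpp hp
  refine ⟨C * 2 ^ ε, fun N hN => ?_⟩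
  have hsub : Bad p N ⊆ Bad p (2 * N) := fun a ha =>
    ⟨ha.1.trans (by omega), ha.2.1.trans (by omega), ha.2.2⟩
  have e1 : ((Bad p N).ncard : ℝ) ≤ (Bad p (2 * N)).ncard :=
    Nat.cast_le.mpr (Set.ncard_le_ncard hsub
      ((Main.finite_box _).subset fun a ha => ⟨ha.1, ha.2.1⟩))
  have e2 : ((2 * N : ℕ) : ℝ) ^ ((13 : ℝ) / m) ≤ ((2 * N : ℕ) : ℝ) ^ ε := by
    refine Real.rpow_le_rpow_of_exponent_le (by exact_mod_cast (by omega : 1 ≤ 2 * N)) ?_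
    rw [div_le_iff₀ hm0]
    rw [div_lt_iff₀ hε] at hm
    linarith
  calc _ ≤ _ := e1
    _ ≤ _ := h (2 * N) (by omega)
    _ ≤ C * ((2 * N : ℕ) : ℝ) ^ ε := mul_le_mul_of_nonneg_left e2 hC
    _ = _ := by
      push_cast
      rw [Real.mul_rpow (by norm_num) (Nat.cast_nonneg _), mul_assoc]

end

end Pool.Agent.P.MP_a60a76_nt.SP
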