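import Pool.Agent.P.MP_a60a76_nt.SP.JBasic

namespace Pool.Agent.P.MP_a60a76_nt.SP

open Polynomial UpperHalfPlane PeriodPair
open scoped MatrixGroups UpperHalfPlane Matrix Modular Topology Classical

noncomputable section

/-- Maximum principle on a half plane for functions of at most quadratic growth. -/
private lemma pl_upper (f : ℍ → ℂ) (hf : Hol f) (η : ℝ) (hη : 0 < η) (A C : ℝ)
    (hA : ∀ τ : ℍ, η ≤ τ.im → ‖f τ‖ ≤ A * (1 + ‖(τ : ℂ)‖ ^ 2))
    (hC : ∀ τ : ℍ, τ.im = η → ‖f τ‖ ≤ C) (τ : ℍ) (hτ : η ≤ τ.im) : ‖f τ‖ ≤ C := by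
  have hA0 : 0 ≤ A := by
    have h := (norm_nonneg _).trans (hA τ hτ)
    have h2 : (0 : ℝ) < 1 + ‖(τ : ℂ)‖ ^ 2 := by positivity
    exact nonneg_of_mul_nonneg_left h h2
  set φ : ℂ → ℂ := fun w => Complex.I * w + η * Complex.I with hφ
  have hφim : ∀ w, (φ w).im = w.re + η := by
    intro w; simp [hφ]
  set w₀ : ℂ := -Complex.I * τ - η with hw₀
  have hw₀re : 0 ≤ w₀.re := by
    simp [hw₀]; linarith
  have hφw₀ : φ w₀ = τ := by
    simp only [hφ, hw₀]
    linear_combination (-(τ : ℂ)) * Complex.I_mul_I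
  have key : ∀ ε : ℝ, 0 < ε → ‖f τ‖ ≤ C * ‖1 + (ε : ℂ) * w₀‖ ^ 2 := by
    intro ε hε
    have hden : ∀ w : ℂ, 0 ≤ w.re → 1 + ε ^ 2 * ‖w‖ ^ 2 ≤ ‖1 + (ε : ℂ) * w‖ ^ 2 := by
      intro w hw
      rw [Complex.sq_norm, Complex.sq_norm, Complex.normSq_apply, Complex.normSq_apply]
      simp
      nlinarith [mul_nonneg hε.le hw]
    have hden0 : ∀ w : ℂ, 0 ≤ w.re → (1 + (ε : ℂ) * w) ≠ 0 := by
      intro w hw h
      have := hden w hw
      rw [h] at this
      simp at this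
      nlinarith [sq_nonneg (ε * ‖w‖)]
    set g : ℂ → ℂ := fun w => f (ofComplex (φ w)) / (1 + (ε : ℂ) * w) ^ 2 with hg
    have hgd : DiffContOnCl ℂ g {z : ℂ | 0 < z.re} := by
      apply DifferentiableOn.diffContOnCl
      rw [Complex.closure_setOfPred_lt_re]
      intro w hw
      have hw' : 0 ≤ w.re := hw
      have h1 : DifferentiableAt ℂ (f ∘ ofComplex) (φ w) :=
        hf.differentiableAt (isOpen_upperHalfPlaneSet.mem_nhds (by
          show 0 < (φ w).im
          rw [hφim]; linarith))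
      have h2 : DifferentiableAt ℂ φ w := by
        simp only [hφ]; fun_prop
      have h3 : DifferentiableAt ℂ (fun w => f (ofComplex (φ w))) w := h1.comp w h2
      have h4 : DifferentiableAt ℂ (fun w : ℂ => (1 + (ε : ℂ) * w) ^ 2) w := by fun_prop
      exact (h3.div h4 (pow_ne_zero 2 (hden0 w hw'))).differentiableWithinAt
    have hgb : ∀ w : ℂ, 0 ≤ w.re → ‖g w‖ ≤ A * (1 + 2 * η ^ 2 + 2 / ε ^ 2) := by
      intro w hw
      have hpos : 0 < (φ w).im := by rw [hφim]; linarith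
      have h1 := hA ⟨φ w, hpos⟩ (by
        show η ≤ (φ w).im
        rw [hφim]; linarith)
      have h2 : ‖φ w‖ ≤ ‖w‖ + η := by
        refine (norm_add_le _ _).trans ?_
        simp [abs_of_pos hη]
      have h3 : ‖φ w‖ ^ 2 ≤ 2 * ‖w‖ ^ 2 + 2 * η ^ 2 := by
        have := pow_le_pow_left₀ (norm_nonneg _) h2 2
        nlinarith [sq_nonneg (‖w‖ - η)]
      have h4 := hden w hw
      have h5 : (0 : ℝ) < ‖1 + (ε : ℂ) * w‖ ^ 2 := lt_of_lt_of_le (by positivity) h4
      simp only [hg, norm_div, norm_pow]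
      rw [div_le_iff₀ h5, ofComplex_apply_of_im_pos hpos]
      refine h1.trans ?_
      rw [mul_assoc]
      refine mul_le_mul_of_nonneg_left ?_ hA0
      have h6 : 2 / ε ^ 2 * (ε ^ 2 * ‖w‖ ^ 2) = 2 * ‖w‖ ^ 2 := by field_simp
      have h7 : (0 : ℝ) ≤ 2 / ε ^ 2 := by positivity
      calc 1 + ‖φ w‖ ^ 2 ≤ 1 + (2 * ‖w‖ ^ 2 + 2 * η ^ 2) := by linarith
        _ ≤ (1 + 2 * η ^ 2 + 2 / ε ^ 2) * (1 + ε ^ 2 * ‖w‖ ^ 2) := by
            have h8 : (0 : ℝ) ≤ (1 + 2 * η ^ 2) * (ε ^ 2 * ‖w‖ ^ 2) := by positivity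
            nlinarith
        _ ≤ _ := mul_le_mul_of_nonneg_left h4 (by positivity)
    have hmain : ‖g w₀‖ ≤ C := by
      refine PhragmenLindelof.right_half_plane_of_bounded_on_real hgd ?_ ?_ ?_ hw₀re
      · refine ⟨0, by norm_num, 0, ?_⟩
        refine Asymptotics.IsBigO.of_bound (A * (1 + 2 * η ^ 2 + 2 / ε ^ 2)) ?_
        refine Filter.mem_inf_of_right ?_
        intro w hw
        have hw' : 0 < w.re := hw
        simpa using hgb w hw'.le
      · refine ⟨A * (1 + 2 * η ^ 2 + 2 / ε ^ 2), ?_⟩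
        rw [Filter.eventually_map]
        filter_upwards [Filter.eventually_ge_atTop (0 : ℝ)] with x hx
        exact hgb x (by simpa using hx)
      · intro x
        have hre : (0 : ℝ) ≤ ((x : ℂ) * Complex.I).re := by simp
        have hpos : 0 < (φ (x * Complex.I)).im := by rw [hφim]; linarith
        have h1 := hC ⟨φ (x * Complex.I), hpos⟩ (by
          show (φ (x * Complex.I)).im = η
          rw [hφim]; simp)
        have h4 := hden _ hre
        have h5 : (1 : ℝ) ≤ ‖1 + (ε : ℂ) * (x * Complex.I)‖ ^ 2 :=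
          le_trans (le_add_of_nonneg_right (by positivity)) h4
        simp only [hg, norm_div, norm_pow]
        rw [ofComplex_apply_of_im_pos hpos]
        exact (div_le_self (norm_nonneg _) h5).trans h1
    have h5 : (0 : ℝ) < ‖1 + (ε : ℂ) * w₀‖ ^ 2 :=
      lt_of_lt_of_le (by positivity) (hden w₀ hw₀re)
    simp only [hg, norm_div, norm_pow] at hmain
    rw [div_le_iff₀ h5, hφw₀, ofComplex_apply] at hmain
    exact hmain
  have hlim : Filter.Tendsto (fun ε : ℝ => C * ‖1 + (ε : ℂ) * w₀‖ ^ 2) (𝓝[>] 0) (𝓝 C) := by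
    have hc : Continuous (fun ε : ℝ => C * ‖1 + (ε : ℂ) * w₀‖ ^ 2) := by fun_prop
    have := hc.tendsto 0
    simp only [Complex.ofReal_zero, zero_mul, add_zero, norm_one, one_pow, mul_one] at this
    exact this.mono_left nhdsWithin_le_nhds
  refine ge_of_tendsto hlim ?_
  filter_upwards [self_mem_nhdsWithin] with ε hε
  exact key ε hε

/-- The preimage of a finite set under `J` is discrete. -/
private lemma J_isolated (B : Finset ℂ) (z : ℂ) (hz : 0 < z.im) :
    ∀ᶠ w in 𝓝[≠] z, 0 < w.im ∧ J (ofComplex w) ∉ B := by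
  have h1 : ∀ᶠ w in 𝓝[≠] z, 0 < w.im :=
    nhdsWithin_le_nhds (isOpen_upperHalfPlaneSet.mem_nhds hz)
  have h2 : ∀ b ∈ B, ∀ᶠ w in 𝓝[≠] z, J (ofComplex w) ≠ b := by
    intro b _
    by_contra hcon
    have han : AnalyticOnNhd ℂ (fun w => J (ofComplex w) - b) {z : ℂ | 0 < z.im} := by
      have hJ : DifferentiableOn ℂ (J ∘ ofComplex) {z : ℂ | 0 < z.im} := J_hol
      exact (hJ.sub_const b).analyticOnNhd isOpen_upperHalfPlaneSet
    have hfr : ∃ᶠ w in 𝓝[≠] z, J (ofComplex w) - b = 0 := by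
      rw [Filter.not_eventually] at hcon
      refine hcon.mono ?_
      intro w hw
      rw [not_not] at hw
      rw [hw, sub_self]
    have h0 := han.eqOn_zero_of_preconnected_of_frequently_eq_zero
      (convex_halfSpace_im_gt 0).isPreconnected hz hfr
    obtain ⟨τ, hτ⟩ := J_surj (b + 1)
    have := h0 τ.im_pos
    simp only [ofComplex_apply, hτ, Pi.zero_apply] at this
    simp at this
  have h3 : ∀ᶠ w in 𝓝[≠] z, ∀ b ∈ B, J (ofComplex w) ≠ b :=
    (Filter.eventually_all_finset B).2 h2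
  filter_upwards [h1, h3] with w hw hw'
  exact ⟨hw, fun h => hw' _ h rfl⟩

/-- Removable singularities. -/
private lemma exists_ext (B : Finset ℂ) (k : ℍ → ℂ)
    (hk : DifferentiableOn ℂ (k ∘ ofComplex) {z : ℂ | 0 < z.im ∧ J (ofComplex z) ∉ B})
    (C₀ : ℝ) (hb : ∀ τ, J τ ∉ B → ‖k τ‖ ≤ C₀) :
    ∃ K : ℍ → ℂ, Hol K ∧ (∀ τ, J τ ∉ B → K τ = k τ) ∧ ∀ τ, ‖K τ‖ ≤ C₀ := by
  set F : ℂ → ℂ := fun z => if J (ofComplex z) ∉ B then k (ofComplex z)
    else Filter.limUnder (𝓝[≠] z) (k ∘ ofComplex) with hF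
  have hFd : ∀ z : ℂ, 0 < z.im → DifferentiableAt ℂ F z := by
    intro z hz
    have hiso := J_isolated B z hz
    set s : Set ℂ := insert z {w : ℂ | 0 < w.im ∧ J (ofComplex w) ∉ B} with hs
    have hsn : s ∈ 𝓝 z := by
      rw [eventually_nhdsWithin_iff] at hiso
      filter_upwards [hiso] with w hw
      by_cases h : w = z
      · exact Or.inl h
      · exact Or.inr (hw h)
    by_cases hB : J (ofComplex z) ∉ B
    · have hs' : s = {w : ℂ | 0 < w.im ∧ J (ofComplex w) ∉ B} :=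
        Set.insert_eq_of_mem ⟨hz, hB⟩
      rw [hs'] at hsn
      refine (hk.differentiableAt hsn).congr_of_eventuallyEq ?_
      filter_upwards [hsn] with w hw
      simp only [hF, Function.comp_apply]
      rw [if_pos hw.2]
    · have hsub : s \ {z} ⊆ {w : ℂ | 0 < w.im ∧ J (ofComplex w) ∉ B} := by
        rintro w ⟨hw | hw, hw'⟩
        · exact absurd hw hw'
        · exact hw
      have h1 := Complex.differentiableOn_update_limUnder_of_bddAbove (f := k ∘ ofComplex) hsn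
        (hk.mono hsub) ⟨C₀, by
          rintro _ ⟨w, hw, rfl⟩
          exact hb _ (hsub hw).2⟩
      refine (h1.differentiableAt hsn).congr_of_eventuallyEq ?_
      filter_upwards [hsn] with w hw
      by_cases h : w = z
      · subst h
        simp only [hF, Function.update_self]
        rw [if_neg hB]
      · rw [Function.update_of_ne h]
        simp only [hF, Function.comp_apply]
        rw [if_pos (hsub ⟨hw, h⟩).2]
  refine ⟨fun τ => F τ, ?_, ?_, ?_⟩
  · intro z hz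
    refine ((hFd z hz).congr_of_eventuallyEq ?_).differentiableWithinAt
    filter_upwards [isOpen_upperHalfPlaneSet.mem_nhds hz] with w hw
    simp only [Function.comp_apply]
    rw [ofComplex_apply_of_im_pos hw]
  · intro τ hτ
    simp only [hF, ofComplex_apply]
    rw [if_pos hτ]
  · intro τ
    have h1 : Filter.Tendsto (fun w => ‖F w‖) (𝓝[≠] (τ : ℂ)) (𝓝 ‖F τ‖) :=
      ((hFd τ τ.im_pos).continuousAt.norm.tendsto).mono_left nhdsWithin_le_nhds
    refine le_of_tendsto h1 ?_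
    filter_upwards [J_isolated B τ τ.im_pos] with w hw
    simp only [hF]
    rw [if_pos hw.2]
    exact hb _ hw.2

/-- The weight `-2` transform. -/
private def tw (K : ℍ → ℂ) (δ : SL(2, ℤ)) (σ : ℍ) : ℂ := K (δ • σ) * denom δ σ ^ 2

private lemma tw_hol {K : ℍ → ℂ} (hK : Hol K) (δ : SL(2, ℤ)) : Hol (tw K δ) := by
  have h1 := (UpperHalfPlane.mdifferentiable_iff.2 hK).slash (-2) (δ : GL (Fin 2) ℝ)
  have h2 : tw K δ = SlashAction.map (-2 : ℤ) δ K := by
    funext σ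
    rw [ModularForm.SL_slash_apply]
    simp only [tw, neg_neg]
    rfl
  rw [h2]
  exact UpperHalfPlane.mdifferentiable_iff.1 h1

private lemma tw_le_iff (K : ℍ → ℂ) (δ : SL(2, ℤ)) (σ : ℍ) (M : ℝ) :
    ‖tw K δ σ‖ ≤ M * σ.im ↔ ‖K (δ • σ)‖ ≤ M * (δ • σ).im := by
  have hpos : 0 < Complex.normSq (denom δ σ) := Complex.normSq_pos.2 (denom_ne_zero _ _)
  rw [ModularGroup.im_smul_eq_div_normSq, ← mul_div_assoc, le_div_iff₀ hpos, tw, norm_mul,
    norm_pow, Complex.sq_norm]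

/-- A bounded holomorphic function off a discrete set which is `O(Im)` uniformly on
the translates of every compact set vanishes. -/
theorem pl_vanish (B : Finset ℂ) (k : ℍ → ℂ)
    (hk : DifferentiableOn ℂ (k ∘ ofComplex) {z : ℂ | 0 < z.im ∧ J (ofComplex z) ∉ B})
    (C₀ : ℝ) (hb : ∀ τ, J τ ∉ B → ‖k τ‖ ≤ C₀)
    (hK : ∀ K : Set ℍ, IsCompact K → (∀ σ ∈ K, J σ ∉ B) →
      ∃ C : ℝ, ∀ δ : SL(2, ℤ), ∀ σ ∈ K, ‖k (δ • σ)‖ ≤ C * (δ • σ).im) :
    ∀ τ, J τ ∉ B → k τ = 0 := by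
  obtain ⟨K, hKh, hKk, hKb⟩ := exists_ext B k hk C₀ hb
  -- local uniform bound
  have hloc : ∀ σ₀ : ℍ, ∃ S ∈ 𝓝 σ₀, ∃ M : ℝ, 0 ≤ M ∧
      ∀ δ : SL(2, ℤ), ∀ σ ∈ S, ‖K (δ • σ)‖ ≤ M * (δ • σ).im := by
    intro σ₀
    have hiso := J_isolated B σ₀ σ₀.im_pos
    rw [eventually_nhdsWithin_iff] at hiso
    have him : ∀ᶠ w : ℂ in 𝓝 (σ₀ : ℂ), σ₀.im / 2 < w.im ∧ w.im < 2 * σ₀.im := by
      have h1 : ∀ᶠ w : ℂ in 𝓝 (σ₀ : ℂ), σ₀.im / 2 < w.im :=
        (isOpen_lt continuous_const Complex.continuous_im).mem_nhds (by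
          show σ₀.im / 2 < σ₀.im
          linarith [σ₀.im_pos])
      have h2 : ∀ᶠ w : ℂ in 𝓝 (σ₀ : ℂ), w.im < 2 * σ₀.im :=
        (isOpen_lt Complex.continuous_im continuous_const).mem_nhds (by
          show σ₀.im < 2 * σ₀.im
          linarith [σ₀.im_pos])
      exact h1.and h2
    obtain ⟨r, hr, hball⟩ := Metric.nhds_basis_closedBall.eventually_iff.1 (hiso.and him)
    have hsph : ∀ w ∈ Metric.sphere (σ₀ : ℂ) r, 0 < w.im ∧ J (ofComplex w) ∉ B := by
      intro w hw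
      refine (hball (Metric.sphere_subset_closedBall hw)).1 ?_
      intro h
      rw [Set.mem_singleton_iff] at h
      rw [h] at hw
      simp at hw
      exact hr.ne hw
    have hcomp : IsCompact ((fun τ : ℍ => (τ : ℂ)) ⁻¹' Metric.sphere (σ₀ : ℂ) r) := by
      refine isEmbedding_coe.isInducing.isCompact_preimage' (isCompact_sphere _ _) ?_
      intro w hw
      exact ⟨⟨w, (hsph w hw).1⟩, rfl⟩
    obtain ⟨C, hC⟩ := hK _ hcomp (by
      intro σ hσ
      have := (hsph σ hσ).2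
      rwa [ofComplex_apply] at this)
    refine ⟨(fun τ : ℍ => (τ : ℂ)) ⁻¹' Metric.closedBall (σ₀ : ℂ) r, ?_, 4 * |C|, by positivity, ?_⟩
    · exact continuous_coe.continuousAt.preimage_mem_nhds (Metric.closedBall_mem_nhds _ hr)
    · intro δ σ hσ
      rw [← tw_le_iff]
      have hd : DiffContOnCl ℂ (tw K δ ∘ ofComplex) (Metric.ball (σ₀ : ℂ) r) := by
        apply DifferentiableOn.diffContOnCl
        rw [closure_ball _ hr.ne']
        refine (tw_hol hKh δ).mono ?_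
        intro w hw
        have := (hball hw).2.1
        show 0 < w.im
        linarith [σ₀.im_pos]
      have hmax := Complex.norm_le_of_forall_mem_frontier_norm_le (C := |C| * (2 * σ₀.im))
        Metric.isBounded_ball hd (z := (σ : ℂ)) ?_ (by rw [closure_ball _ hr.ne']; exact hσ)
      · simp only [Function.comp_apply, ofComplex_apply] at hmax
        refine hmax.trans ?_
        have h1 : σ₀.im / 2 < σ.im := (hball hσ).2.1
        nlinarith [abs_nonneg C]
      · intro w hw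
        rw [frontier_ball _ hr.ne'] at hw
        have hw' := hsph w hw
        have h1 := hC δ ⟨w, hw'.1⟩ hw
        have hJ : J (δ • (⟨w, hw'.1⟩ : ℍ)) ∉ B := by
          rw [J_smul, ← ofComplex_apply_of_im_pos hw'.1]
          exact hw'.2
        rw [← hKk _ hJ, ← tw_le_iff] at h1
        simp only [Function.comp_apply]
        rw [ofComplex_apply_of_im_pos hw'.1]
        refine h1.trans ?_
        have h2 : w.im < 2 * σ₀.im := (hball (Metric.sphere_subset_closedBall hw)).2.2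
        show C * w.im ≤ _
        exact mul_le_mul (le_abs_self C) h2.le hw'.1.le (abs_nonneg C)
  -- bound on compact sets
  have hcpt : ∀ S : Set ℍ, IsCompact S → ∃ M : ℝ, 0 ≤ M ∧
      ∀ δ : SL(2, ℤ), ∀ σ ∈ S, ‖K (δ • σ)‖ ≤ M * (δ • σ).im := by
    intro S hS
    refine hS.induction_on (p := fun S => ∃ M : ℝ, 0 ≤ M ∧
      ∀ δ : SL(2, ℤ), ∀ σ ∈ S, ‖K (δ • σ)‖ ≤ M * (δ • σ).im) ?_ ?_ ?_ ?_
    · exact ⟨0, le_rfl, fun _ _ h => h.elim⟩
    · rintro s t hst ⟨M, hM, h⟩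
      exact ⟨M, hM, fun δ σ hσ => h δ σ (hst hσ)⟩
    · rintro s t ⟨M, hM, h⟩ ⟨M', -, h'⟩
      refine ⟨max M M', le_max_of_le_left hM, ?_⟩
      rintro δ σ (hσ | hσ)
      · exact (h δ σ hσ).trans
          (mul_le_mul_of_nonneg_right (le_max_left _ _) (δ • σ).im_pos.le)
      · exact (h' δ σ hσ).trans
          (mul_le_mul_of_nonneg_right (le_max_right _ _) (δ • σ).im_pos.le)
    · intro σ₀ _
      obtain ⟨S, hS, h⟩ := hloc σ₀
      exact ⟨S, nhdsWithin_le_nhds hS, h⟩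
  obtain ⟨M, hM0, hM⟩ := hcpt _ (ModularGroup.isCompact_truncatedFundamentalDomain 1)
  -- the line of height one
  have hline : ∀ δ : SL(2, ℤ), ∀ σ : ℍ, σ.im = 1 → ‖K (δ • σ)‖ ≤ M * (δ • σ).im := by
    intro δ σ hσ
    set n : ℤ := round σ.re with hn
    set σ' : ℍ := ModularGroup.T ^ (-n) • σ with hσ'
    have hre : σ'.re = σ.re - n := by
      rw [hσ', modular_T_zpow_smul]
      simp
      ring
    have him : σ'.im = 1 := by
      rw [hσ', modular_T_zpow_smul]
      simpa using hσ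
    have hmem : σ' ∈ ModularGroup.truncatedFundamentalDomain 1 := by
      refine ⟨⟨?_, ?_⟩, him.le⟩
      · rw [Complex.normSq_apply]
        simp only [coe_re, coe_im, him]
        nlinarith [mul_self_nonneg σ'.re]
      · rw [hre]
        exact abs_sub_round σ.re
    have h1 := hM (δ * ModularGroup.T ^ n) σ' hmem
    have h2 : (δ * ModularGroup.T ^ n) • σ' = δ • σ := by
      rw [hσ', ← mul_smul, mul_assoc, ← zpow_add]
      simp
    rwa [h2] at h1
  -- above the line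
  have habove : ∀ δ : SL(2, ℤ), ∀ σ : ℍ, 1 ≤ σ.im → ‖K (δ • σ)‖ ≤ M * (δ • σ).im := by
    intro δ σ hσ
    rw [← tw_le_iff]
    have h1 := pl_upper (tw K δ) (tw_hol hKh δ) 1 one_pos
      (C₀ * (2 * (‖((δ 1 0 : ℤ) : ℂ)‖ ^ 2 + ‖((δ 1 1 : ℤ) : ℂ)‖ ^ 2))) M ?_ ?_ σ hσ
    · exact h1.trans (le_mul_of_one_le_right hM0 hσ)
    · intro τ _
      rw [tw, norm_mul, norm_pow, mul_assoc]
      refine mul_le_mul (hKb _) ?_ (by positivity) ((norm_nonneg _).trans (hKb τ))
      have h2 : ‖denom δ τ‖ ≤ ‖((δ 1 0 : ℤ) : ℂ)‖ * ‖(τ : ℂ)‖ + ‖((δ 1 1 : ℤ) : ℂ)‖ := by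
        rw [ModularGroup.denom_apply]
        refine (norm_add_le _ _).trans ?_
        rw [norm_mul]
      have h3 := pow_le_pow_left₀ (norm_nonneg _) h2 2
      refine h3.trans ?_
      generalize ‖((δ 1 0 : ℤ) : ℂ)‖ = c
      generalize ‖((δ 1 1 : ℤ) : ℂ)‖ = d
      generalize ‖(τ : ℂ)‖ = t
      nlinarith [sq_nonneg (c * t - d), sq_nonneg c, sq_nonneg (d * t)]
    · intro τ hτ
      have := (tw_le_iff K δ τ M).2 (hline δ τ hτ)
      rwa [hτ, mul_one] at this
  have hall : ∀ τ : ℍ, ‖K τ‖ ≤ M * τ.im := by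
    intro τ
    obtain ⟨g, hg⟩ := ModularGroup.exists_smul_mem_fd τ
    have h1 : ‖K (g⁻¹ • g • τ)‖ ≤ M * (g⁻¹ • g • τ).im := by
      rcases le_total 1 (g • τ).im with h | h
      · exact habove _ _ h
      · exact hM _ _ ⟨hg, h⟩
    rwa [inv_smul_smul] at h1
  intro τ hτ
  rw [← hKk τ hτ, ← norm_le_zero_iff]
  have hlim : Filter.Tendsto (fun η : ℝ => M * η) (𝓝[>] 0) (𝓝 0) := by
    have hc : Continuous (fun η : ℝ => M * η) := by fun_prop
    have := hc.tendsto 0
    simp only [mul_zero] at this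
    exact this.mono_left nhdsWithin_le_nhds
  refine ge_of_tendsto hlim ?_
  filter_upwards [Ioo_mem_nhdsGT τ.im_pos] with η hη
  refine pl_upper K hKh η hη.1 C₀ (M * η) ?_ ?_ τ hη.2.le
  · intro σ _
    exact (hKb σ).trans (le_mul_of_one_le_right ((norm_nonneg _).trans (hKb σ))
      (le_add_of_nonneg_right (by positivity)))
  · intro σ hσ
    rw [← hσ]
    exact hall σ

end

end Pool.Agent.P.MP_a60a76_nt.SP
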