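import Pool.Agent.P.MP_a60a76_nt.SP.JBasic

namespace Pool.Agent.P.MP_a60a76_nt.SP

open Polynomial UpperHalfPlane PeriodPair
open scoped MatrixGroups UpperHalfPlane Matrix Modular Topology Classical

noncomputable section

theorem poly_nonneg {k : ℕ} {f : ℍ → ℂ} (h : Mod k f) :
    ∃ C : ℝ, 0 ≤ C ∧ ∀ γ : SL(2, ℤ), ∀ τ ∈ 𝒟,
      ‖f (γ • τ)‖ ≤ C * Real.exp (2 * Real.pi * k * τ.im) := by
  obtain ⟨C, hC⟩ := h.2
  refine ⟨max C 0, le_max_right _ _, fun γ τ hτ => (hC γ τ hτ).trans ?_⟩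
  exact mul_le_mul_of_nonneg_right (le_max_left _ _) (Real.exp_pos _).le

theorem Mod.mono {k k' : ℕ} {f : ℍ → ℂ} (h : Mod k f) (hk : k ≤ k') : Mod k' f := by
  obtain ⟨C, hC0, hC⟩ := poly_nonneg h
  refine ⟨h.1, C, fun γ τ hτ => (hC γ τ hτ).trans ?_⟩
  apply mul_le_mul_of_nonneg_left _ hC0
  apply Real.exp_le_exp.2
  have h1 : (k : ℝ) ≤ k' := by exact_mod_cast hk
  have h2 := τ.im_pos
  have h3 := Real.pi_pos
  apply mul_le_mul_of_nonneg_right _ h2.le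
  exact mul_le_mul_of_nonneg_left h1 (by positivity)

theorem Mod.const (c : ℂ) : Mod 0 fun _ => c := by
  refine ⟨differentiableOn_const c, ‖c‖, fun γ τ _ => ?_⟩
  simp

theorem Mod.add {k : ℕ} {f g : ℍ → ℂ} (hf : Mod k f) (hg : Mod k g) :
    Mod k fun τ => f τ + g τ := by
  obtain ⟨C, hC⟩ := hf.2
  obtain ⟨D, hD⟩ := hg.2
  refine ⟨hf.1.add hg.1, C + D, fun γ τ hτ => ?_⟩
  rw [add_mul]
  exact (norm_add_le _ _).trans (add_le_add (hC γ τ hτ) (hD γ τ hτ))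

theorem Mod.mul {k k' : ℕ} {f g : ℍ → ℂ} (hf : Mod k f) (hg : Mod k' g) :
    Mod (k + k') fun τ => f τ * g τ := by
  obtain ⟨C, hC0, hC⟩ := poly_nonneg hf
  obtain ⟨D, hD0, hD⟩ := poly_nonneg hg
  refine ⟨hf.1.mul hg.1, C * D, fun γ τ hτ => ?_⟩
  have e : 2 * Real.pi * ((k + k' : ℕ) : ℝ) * τ.im =
      2 * Real.pi * k * τ.im + 2 * Real.pi * k' * τ.im := by
    push_cast
    ring
  rw [norm_mul, e, Real.exp_add]
  calc ‖f (γ • τ)‖ * ‖g (γ • τ)‖ ≤ (C * Real.exp (2 * Real.pi * k * τ.im)) *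
        (D * Real.exp (2 * Real.pi * k' * τ.im)) :=
        mul_le_mul (hC γ τ hτ) (hD γ τ hτ) (norm_nonneg _) (by positivity)
    _ = _ := by ring

theorem poly_hol_smul {f : ℍ → ℂ} (hf : Hol f) (γ : SL(2, ℤ)) : Hol fun τ => f (γ • τ) := by
  have h1 := mdifferentiable_iff.2 hf
  have h2 := mdifferentiable_smul (g := (γ : GL (Fin 2) ℝ)) (by simp)
  exact mdifferentiable_iff.1 (h1.comp h2)

theorem Mod.smul {k : ℕ} {f : ℍ → ℂ} (hf : Mod k f) (γ : SL(2, ℤ)) :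
    Mod k fun τ => f (γ • τ) := by
  obtain ⟨C, hC⟩ := hf.2
  refine ⟨poly_hol_smul hf.1 γ, C, fun γ' τ hτ => ?_⟩
  have h := hC (γ * γ') τ hτ
  rwa [mul_smul] at h

theorem poly_mod_cmul {k : ℕ} {f : ℍ → ℂ} (c : ℂ) (hf : Mod k f) : Mod k fun τ => c * f τ := by
  have h := (Mod.const c).mul hf
  rwa [zero_add] at h

theorem poly_mod_sub {k : ℕ} {f g : ℍ → ℂ} (hf : Mod k f) (hg : Mod k g) :
    Mod k fun τ => f τ - g τ := by
  have h := hf.add (poly_mod_cmul (-1) hg)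
  simpa only [neg_one_mul, ← sub_eq_add_neg] using h

theorem poly_mod_pow (k : ℕ) : Mod k fun τ => J τ ^ k := by
  induction k with
  | zero => simpa only [pow_zero] using Mod.const 1
  | succ k ih => simpa only [pow_succ] using ih.mul J_mod

theorem poly_fd (τ : ℍ) (h : 1 ≤ τ.im) : ∃ n : ℤ, (ModularGroup.T ^ n) • τ ∈ 𝒟 := by
  refine ⟨-round τ.re, ?_, ?_⟩
  · rw [Complex.normSq_apply, coe_im, ModularGroup.im_T_zpow_smul]
    nlinarith [mul_self_nonneg (((ModularGroup.T ^ (-round τ.re)) • τ : ℍ) : ℂ).re]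
  · rw [ModularGroup.re_T_zpow_smul]
    push_cast
    exact abs_sub_round τ.re

theorem poly_bd {k : ℕ} {f : ℍ → ℂ} (hf : Mod k f)
    (hinv : ∀ (γ : SL(2, ℤ)) τ, f (γ • τ) = f τ) :
    ∃ C : ℝ, ∀ τ : ℍ, 1 ≤ τ.im → ‖f τ‖ ≤ C * Real.exp (2 * Real.pi * k * τ.im) := by
  obtain ⟨C, hC⟩ := hf.2
  refine ⟨C, fun τ hτ => ?_⟩
  obtain ⟨n, hn⟩ := poly_fd τ hτ
  have h := hC 1 _ hn
  rwa [hinv, hinv, ModularGroup.im_T_zpow_smul] at h

theorem poly_norm_q (τ : ℍ) :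
    ‖Function.Periodic.qParam 1 (τ : ℂ)‖ = Real.exp (-(2 * Real.pi * τ.im)) := by
  rw [Function.Periodic.norm_qParam, coe_im]
  congr 1
  ring

theorem poly_norm_qpow (τ : ℍ) (k : ℕ) :
    ‖Function.Periodic.qParam 1 (τ : ℂ) ^ k‖ = Real.exp (-(2 * Real.pi * k * τ.im)) := by
  rw [norm_pow, poly_norm_q, ← Real.exp_nat_mul]
  congr 1
  ring

theorem poly_per {f : ℍ → ℂ} (hinv : ∀ (γ : SL(2, ℤ)) τ, f (γ • τ) = f τ) (k : ℕ) :
    Function.Periodic ((fun τ : ℍ => f τ * Function.Periodic.qParam 1 (τ : ℂ) ^ k) ∘ ofComplex)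
      ((1 : ℝ) : ℂ) := by
  intro w
  by_cases hw : 0 < w.im
  · have hw' : 0 < (w + ((1 : ℝ) : ℂ)).im := by simpa using hw
    have e : (⟨w + ((1 : ℝ) : ℂ), hw'⟩ : ℍ) = (ModularGroup.T ^ (1 : ℤ)) • (⟨w, hw⟩ : ℍ) := by
      apply UpperHalfPlane.ext
      rw [ModularGroup.coe_T_zpow_smul_eq]
      simp
    have e2 : Function.Periodic.qParam 1 (w + ((1 : ℝ) : ℂ)) = Function.Periodic.qParam 1 w := by
      unfold Function.Periodic.qParam
      rw [show 2 * (Real.pi : ℂ) * Complex.I * (w + ((1 : ℝ) : ℂ)) / ((1 : ℝ) : ℂ) =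
        2 * (Real.pi : ℂ) * Complex.I * w / ((1 : ℝ) : ℂ) + 2 * (Real.pi : ℂ) * Complex.I by
          push_cast; ring, Complex.exp_add, Complex.exp_two_pi_mul_I, mul_one]
    simp only [Function.comp_apply, ofComplex_apply_of_im_pos hw, ofComplex_apply_of_im_pos hw']
    rw [e2, e, hinv]
  · have hw0 : w.im ≤ 0 := not_lt.1 hw
    have hw' : (w + ((1 : ℝ) : ℂ)).im ≤ 0 := by simpa using hw0
    simp only [Function.comp_apply]
    rw [ofComplex_apply_eq_of_im_nonpos hw' hw0]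

theorem poly_holq {f : ℍ → ℂ} (hf : Hol f) (k : ℕ) :
    Hol fun τ : ℍ => f τ * Function.Periodic.qParam 1 (τ : ℂ) ^ k := by
  have h1 : DifferentiableOn ℂ (fun z => (f ∘ ofComplex) z * Function.Periodic.qParam 1 z ^ k)
      {z : ℂ | 0 < z.im} :=
    DifferentiableOn.mul hf ((Function.Periodic.differentiable_qParam.pow k).differentiableOn)
  refine h1.congr fun z hz => ?_
  simp only [Function.comp_apply, ofComplex_apply_of_im_pos hz]

theorem poly_bdq {k : ℕ} {f : ℍ → ℂ} (hf : Mod k f)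
    (hinv : ∀ (γ : SL(2, ℤ)) τ, f (γ • τ) = f τ) :
    IsBoundedAtImInfty fun τ : ℍ => f τ * Function.Periodic.qParam 1 (τ : ℂ) ^ k := by
  obtain ⟨C, hC⟩ := poly_bd hf hinv
  refine isBoundedAtImInfty_iff.2 ⟨C, 1, fun τ hτ => ?_⟩
  rw [norm_mul, poly_norm_qpow, Real.exp_neg, ← div_eq_mul_inv, div_le_iff₀ (Real.exp_pos _)]
  exact hC τ hτ

theorem poly_decay {k : ℕ} {f : ℍ → ℂ} (hf : Mod k f)
    (hinv : ∀ (γ : SL(2, ℤ)) τ, f (γ • τ) = f τ) :
    ∃ c : ℂ, Filter.Tendsto (fun τ : ℍ => f τ * Function.Periodic.qParam 1 (τ : ℂ) ^ k)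
        atImInfty (𝓝 c) ∧
      ∃ C A : ℝ, ∀ τ : ℍ, A ≤ τ.im → ‖f τ * Function.Periodic.qParam 1 (τ : ℂ) ^ k - c‖ ≤
        C * Real.exp (-(2 * Real.pi * τ.im)) := by
  have h := exp_decay_sub_atImInfty one_pos (poly_per hinv k)
    (mdifferentiable_iff.2 (poly_holq hf.1 k)) (poly_bdq hf hinv)
  have e : (fun τ : ℍ => Real.exp (-2 * Real.pi * τ.im / 1)) =
      fun τ : ℍ => ‖Function.Periodic.qParam 1 (τ : ℂ)‖ := by
    funext τ
    rw [poly_norm_q]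
    congr 1
    ring
  rw [e] at h
  refine ⟨valueAtInfty fun τ : ℍ => f τ * Function.Periodic.qParam 1 (τ : ℂ) ^ k, ?_, ?_⟩
  · have h2 := (tendsto_zero_iff_norm_tendsto_zero.1 (qParam_tendsto_atImInfty one_pos))
    exact tendsto_sub_nhds_zero_iff.1 (h.trans_tendsto h2)
  · obtain ⟨C, hC⟩ := h.bound
    obtain ⟨A, hA⟩ := (atImInfty_mem _).1 hC
    refine ⟨C, A, fun τ hτ => ?_⟩
    have h3 := hA τ hτ
    simp only [Set.mem_ofPred_eq, norm_norm] at h3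
    rwa [poly_norm_q] at h3

theorem poly_exists_im (A : ℝ) : ∃ τ : ℍ, A ≤ τ.im := by
  refine ⟨⟨Complex.I * ((max A 1 : ℝ) : ℂ), ?_⟩, ?_⟩
  · simp
  · simp [UpperHalfPlane.im]

theorem poly_Jlim : ∃ g : ℂ, g ≠ 0 ∧
    Filter.Tendsto (fun τ : ℍ => J τ * Function.Periodic.qParam 1 (τ : ℂ) ^ 1)
      atImInfty (𝓝 g) := by
  obtain ⟨g, hg, C, A, hC⟩ := poly_decay J_mod J_smul
  refine ⟨g, ?_, hg⟩
  rintro rfl
  obtain ⟨T, hT⟩ := J_large (C + 1)
  obtain ⟨τ, hτ⟩ := poly_exists_im (max A T)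
  have h1 := hC τ ((le_max_left _ _).trans hτ)
  have h2 := hT τ ((le_max_right _ _).trans hτ)
  rw [sub_zero, pow_one, norm_mul, poly_norm_q] at h1
  have h3 := le_of_mul_le_mul_right h1 (Real.exp_pos _)
  linarith

theorem poly_step {k : ℕ} {f : ℍ → ℂ} (hf : Mod (k + 1) f)
    (hinv : ∀ (γ : SL(2, ℤ)) τ, f (γ • τ) = f τ) :
    ∃ c : ℂ, Mod k fun τ => f τ - c * J τ ^ (k + 1) := by
  obtain ⟨g, hg0, hg⟩ := poly_Jlim
  obtain ⟨a, ha, -⟩ := poly_decay hf hinv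
  refine ⟨a / g ^ (k + 1), ?_⟩
  have hm : Mod (k + 1) fun τ => f τ - a / g ^ (k + 1) * J τ ^ (k + 1) :=
    poly_mod_sub hf (poly_mod_cmul _ (poly_mod_pow (k + 1)))
  have hinv' : ∀ (γ : SL(2, ℤ)) τ, (fun τ => f τ - a / g ^ (k + 1) * J τ ^ (k + 1)) (γ • τ) =
      (fun τ => f τ - a / g ^ (k + 1) * J τ ^ (k + 1)) τ := by
    intro γ τ
    simp only [hinv, J_smul]
  obtain ⟨c, hc, C, A, hC⟩ := poly_decay hm hinv'
  have hc0 : c = 0 := by
    have h1 := ha.sub ((hg.pow (k + 1)).const_mul (a / g ^ (k + 1)))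
    have h2 : a - a / g ^ (k + 1) * g ^ (k + 1) = 0 := by
      rw [div_mul_cancel₀ _ (pow_ne_zero _ hg0), sub_self]
    rw [h2] at h1
    refine tendsto_nhds_unique hc (h1.congr fun τ => ?_)
    ring
  obtain ⟨D, hD0, hD⟩ := poly_nonneg hm
  refine ⟨hm.1, max C (D * Real.exp (2 * Real.pi * A)), fun γ τ hτ => ?_⟩
  have hpi := Real.pi_pos
  have e : 2 * Real.pi * ((k + 1 : ℕ) : ℝ) * τ.im =
      2 * Real.pi * τ.im + 2 * Real.pi * k * τ.im := by
    push_cast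
    ring
  by_cases hA : A ≤ τ.im
  · have h1 := hC τ hA
    rw [hc0, sub_zero, norm_mul, poly_norm_qpow, e, neg_add, Real.exp_add, mul_left_comm,
      mul_comm C] at h1
    have h2 := le_of_mul_le_mul_left h1 (Real.exp_pos _)
    rw [Real.exp_neg, ← div_eq_mul_inv, div_le_iff₀ (Real.exp_pos _)] at h2
    rw [hinv' γ τ]
    exact h2.trans (mul_le_mul_of_nonneg_right (le_max_left _ _) (Real.exp_pos _).le)
  · have h1 := hD γ τ hτ
    rw [e, Real.exp_add, ← mul_assoc] at h1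
    refine h1.trans (mul_le_mul_of_nonneg_right ?_ (Real.exp_pos _).le)
    refine le_trans ?_ (le_max_right _ _)
    apply mul_le_mul_of_nonneg_left _ hD0
    apply Real.exp_le_exp.2
    exact mul_le_mul_of_nonneg_left (not_le.1 hA).le (by positivity)

theorem poly_zero {f : ℍ → ℂ} (hf : Mod 0 f)
    (hinv : ∀ (γ : SL(2, ℤ)) τ, f (γ • τ) = f τ) : ∃ c : ℂ, ∀ τ, f τ = c := by
  have hs : ∀ γ : SL(2, ℤ), SlashAction.map (0 : ℤ) γ f = f := by
    intro γ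
    funext τ
    rw [ModularForm.SL_slash_apply, hinv]
    simp
  have hb : IsBoundedAtImInfty f := by
    simpa only [pow_zero, mul_one] using poly_bdq hf hinv
  let F : ModularForm 𝒮ℒ 0 :=
    { toFun := f
      slash_action_eq' := fun _ ⟨γ, hγ⟩ => hγ ▸ hs γ
      holo' := mdifferentiable_iff.2 hf.1
      bdd_at_cusps' := fun {c} hc => by
        rw [Subgroup.IsArithmetic.isCusp_iff_isCusp_SL2Z] at hc
        rw [OnePoint.isBoundedAt_iff_forall_SL2Z hc]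
        intro γ _
        rw [hs γ]
        exact hb }
  obtain ⟨c, hc⟩ := ModularFormClass.levelOne_weight_zero_const F
  exact ⟨c, fun τ => congrFun hc τ⟩

/-- Invariant holomorphic functions of moderate growth are polynomials in `J`. -/
theorem poly1 (k : ℕ) (f : ℍ → ℂ) (hf : Mod k f) (hinv : ∀ (γ : SL(2, ℤ)) τ, f (γ • τ) = f τ) :
    ∃ Q : ℂ[X], Q.natDegree ≤ k ∧ ∀ τ, f τ = Q.eval (J τ) := by
  induction k generalizing f with
  | zero =>
    obtain ⟨c, hc⟩ := poly_zero hf hinv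
    exact ⟨C c, by simp, fun τ => by rw [hc, eval_C]⟩
  | succ k ih =>
    obtain ⟨c, hc⟩ := poly_step hf hinv
    obtain ⟨Q, hQ, hQ'⟩ := ih _ hc (fun γ τ => by simp only [hinv, J_smul])
    refine ⟨Q + C c * X ^ (k + 1), ?_, fun τ => ?_⟩
    · refine (natDegree_add_le _ _).trans (max_le (by omega) ?_)
      exact natDegree_C_mul_X_pow_le c (k + 1)
    · rw [eval_add, eval_mul, eval_C, eval_pow, eval_X, ← hQ' τ]
      ring

/-- The two variable version. -/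
theorem poly2 (k : ℕ) (c : ℍ → ℍ → ℂ) (h1 : ∀ τ', Mod k fun τ => c τ τ')
    (h2 : ∀ τ, ∃ k', Mod k' (c τ))
    (hinv : ∀ (γ γ' : SL(2, ℤ)) τ τ', c (γ • τ) (γ' • τ') = c τ τ') :
    ∃ Q : ℂ[X][X], ∀ τ τ', c τ τ' = Q.evalEval (J τ) (J τ') := by
  have hs : ∀ i : ℕ, ∃ σ : ℍ, J σ = (i : ℂ) := fun i => J_surj _
  choose σ hσ using hs
  have hR : ∀ i : ℕ, ∃ R : ℂ[X], ∀ τ', c (σ i) τ' = R.eval (J τ') := by
    intro i
    obtain ⟨k', hk'⟩ := h2 (σ i)
    obtain ⟨R, -, hR⟩ := poly1 k' _ hk' (fun γ τ' => by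
      have h := hinv 1 γ (σ i) τ'
      rwa [one_smul] at h)
    exact ⟨R, hR⟩
  choose R hR using hR
  refine ⟨∑ i ∈ Finset.range (k + 1), (R i).map C *
    C (Lagrange.basis (Finset.range (k + 1)) (fun j : ℕ => (j : ℂ)) i), fun τ τ' => ?_⟩
  obtain ⟨Q, hQ, hQ'⟩ := poly1 k _ (h1 τ') (fun γ τ => by
    have h := hinv γ 1 τ τ'
    rwa [one_smul] at h)
  have hdeg : Q.degree < (Finset.range (k + 1)).card := by
    rw [Finset.card_range]
    refine degree_le_natDegree.trans_lt ?_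
    exact_mod_cast Nat.lt_succ_of_le hQ
  have hI := Lagrange.eq_interpolate (s := Finset.range (k + 1)) (v := fun j : ℕ => (j : ℂ))
    (f := Q) (fun a _ b _ h => Nat.cast_injective h) hdeg
  rw [hQ' τ, hI, Lagrange.interpolate_apply, eval_finsetSum, evalEval_finsetSum]
  refine Finset.sum_congr rfl fun i _ => ?_
  rw [evalEval_mul, evalEval_map_C, evalEval_C, eval_mul, eval_C, ← hR, ← hσ, ← hQ']

theorem poly_coeff {ι : Type*} (s : Finset ι) (k : ℕ) (f : ι → ℍ → ℂ)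
    (hf : ∀ i ∈ s, Mod k (f i)) (n : ℕ) :
    Mod (k * s.card) fun τ => (∏ i ∈ s, (X - C (f i τ))).coeff n := by
  induction s using Finset.induction_on generalizing n with
  | empty =>
    simp only [Finset.prod_empty, Finset.card_empty, mul_zero]
    exact Mod.const _
  | insert a s ha ih =>
    have ih' := ih fun i hi => hf i (Finset.mem_insert_of_mem hi)
    have hfa := hf a (Finset.mem_insert_self a s)
    have e : k * (s.card + 1) = k + k * s.card := by ring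
    simp only [Finset.prod_insert ha, Finset.card_insert_of_notMem ha, e]
    cases n with
    | zero =>
      have h := poly_mod_cmul (-1) (hfa.mul (ih' 0))
      simpa only [mul_coeff_zero, coeff_sub, coeff_X_zero, coeff_C_zero, zero_sub, neg_mul,
        one_mul] using h
    | succ n =>
      have h := poly_mod_sub ((ih' n).mono (Nat.le_add_left _ k)) (hfa.mul (ih' (n + 1)))
      simpa only [coeff_X_sub_C_mul] using h

theorem poly_lift {R T : Type*} [CommRing R] (φ : T → R →+* ℂ) (P : T → ℂ[X]) (N : ℕ)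
    (hm : ∀ t, (P t).Monic) (hd : ∀ t, (P t).natDegree = N)
    (h : ∀ n, ∃ Q : R, ∀ t, φ t Q = (P t).coeff n) :
    ∃ F : R[X], F.Monic ∧ ∀ t, F.map (φ t) = P t := by
  choose Q hQ using h
  refine ⟨X ^ N + ∑ i ∈ Finset.range N, C (Q i) * X ^ i, ?_, fun t => ?_⟩
  · apply monic_X_pow_add
    rw [← Fin.sum_univ_eq_sum_range (fun i => C (Q i) * X ^ i)]
    exact degree_sum_fin_lt fun i : Fin N => Q i
  · rw [(hm t).as_sum, hd t, Polynomial.map_add, Polynomial.map_pow, map_X, Polynomial.map_sum]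
    congr 1
    refine Finset.sum_congr rfl fun i _ => ?_
    rw [Polynomial.map_mul, Polynomial.map_pow, map_X, map_C, hQ]

/-- A monic polynomial whose roots are functions of moderate growth permuted by the modular
group has coefficients which are polynomials in `J`. -/
theorem poly1_prod {ι : Type*} (s : Finset ι) (k : ℕ) (f : ι → ℍ → ℂ) (hf : ∀ i ∈ s, Mod k (f i))
    (hinv : ∀ (γ : SL(2, ℤ)) τ,
      ∏ i ∈ s, (X - C (f i (γ • τ))) = ∏ i ∈ s, (X - C (f i τ))) :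
    ∃ F : ℂ[X][X], F.Monic ∧
      ∀ τ, F.map (evalRingHom (J τ)) = ∏ i ∈ s, (X - C (f i τ)) := by
  refine poly_lift (fun τ => evalRingHom (J τ)) (fun τ => ∏ i ∈ s, (X - C (f i τ))) s.card
    (fun τ => monic_prod_X_sub_C _ _) (fun τ => natDegree_finsetProd_X_sub_C_eq_card _ _) ?_
  intro n
  obtain ⟨Q, -, hQ⟩ := poly1 _ _ (poly_coeff s k f hf n) (fun γ τ => by rw [hinv])
  exact ⟨Q, fun τ => (hQ τ).symm⟩

theorem poly2_prod {ι : Type*} (s : Finset ι) (k : ℕ) (f : ι → ℍ → ℍ → ℂ)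
    (h1 : ∀ i ∈ s, ∀ τ', Mod k fun τ => f i τ τ') (h2 : ∀ i ∈ s, ∀ τ, Mod k (f i τ))
    (hinv : ∀ (γ γ' : SL(2, ℤ)) τ τ',
      ∏ i ∈ s, (X - C (f i (γ • τ) (γ' • τ'))) = ∏ i ∈ s, (X - C (f i τ τ'))) :
    ∃ F : ℂ[X][X][X], F.Monic ∧
      ∀ τ τ', F.map (evalEvalRingHom (J τ) (J τ')) = ∏ i ∈ s, (X - C (f i τ τ')) := by
  have h := poly_lift (T := ℍ × ℍ) (fun t => evalEvalRingHom (J t.1) (J t.2))
    (fun t => ∏ i ∈ s, (X - C (f i t.1 t.2))) s.card
    (fun t => monic_prod_X_sub_C _ _) (fun t => natDegree_finsetProd_X_sub_C_eq_card _ _) (by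
      intro n
      obtain ⟨Q, hQ⟩ := poly2 (k * s.card) (fun τ τ' => (∏ i ∈ s, (X - C (f i τ τ'))).coeff n)
        (fun τ' => poly_coeff s k (fun i τ => f i τ τ') (fun i hi => h1 i hi τ') n)
        (fun τ => ⟨_, poly_coeff s k (fun i τ' => f i τ τ') (fun i hi => h2 i hi τ) n⟩)
        (fun γ γ' τ τ' => by rw [hinv])
      exact ⟨Q, fun t => (hQ t.1 t.2).symm⟩)
  obtain ⟨F, hF, hF'⟩ := h
  exact ⟨F, hF, fun τ τ' => hF' (τ, τ')⟩

theorem poly_crit_smul (γ : SL(2, ℤ)) (σ : ℍ)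
    (h : deriv (J ∘ ofComplex) ((γ • σ : ℍ) : ℂ) = 0) : deriv (J ∘ ofComplex) σ = 0 := by
  have hc : Hol fun τ : ℍ => (τ : ℂ) := mdifferentiable_iff.1 mdifferentiable_coe
  have hm : DifferentiableAt ℂ ((fun τ : ℍ => ((γ • τ : ℍ) : ℂ)) ∘ ofComplex) σ :=
    (poly_hol_smul hc γ σ σ.im_pos).differentiableAt
      (isOpen_upperHalfPlaneSet.mem_nhds σ.im_pos)
  have e0 : ((fun τ : ℍ => ((γ • τ : ℍ) : ℂ)) ∘ ofComplex) σ = ((γ • σ : ℍ) : ℂ) := by
    simp only [Function.comp_apply, ofComplex_apply]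
  have hJ : DifferentiableAt ℂ (J ∘ ofComplex)
      (((fun τ : ℍ => ((γ • τ : ℍ) : ℂ)) ∘ ofComplex) σ) := by
    rw [e0]
    exact (J_hol _ (γ • σ).im_pos).differentiableAt
      (isOpen_upperHalfPlaneSet.mem_nhds (γ • σ).im_pos)
  have e : J ∘ ofComplex =
      (J ∘ ofComplex) ∘ ((fun τ : ℍ => ((γ • τ : ℍ) : ℂ)) ∘ ofComplex) := by
    funext z
    simp only [Function.comp_apply, ofComplex_apply, J_smul]
  rw [e, deriv_comp _ hJ hm, e0, h, zero_mul]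

theorem poly_crit_cusp : ∃ A : ℝ, ∀ τ : ℍ, A ≤ τ.im → deriv (J ∘ ofComplex) τ ≠ 0 := by
  obtain ⟨g, hg0, hg⟩ := poly_Jlim
  have hper := poly_per J_smul 1
  have hhol := mdifferentiable_iff.2 (poly_holq J_hol 1)
  have hbd := poly_bdq J_mod J_smul
  obtain ⟨G, hG⟩ : ∃ G : ℂ → ℂ, G = cuspFunction 1
      (fun τ : ℍ => J τ * Function.Periodic.qParam 1 (τ : ℂ) ^ 1) := ⟨_, rfl⟩
  have hA : AnalyticAt ℂ G 0 := hG ▸ analyticAt_cuspFunction_zero one_pos hper hhol hbd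
  have hGq : ∀ τ : ℍ, G (Function.Periodic.qParam 1 (τ : ℂ)) =
      J τ * Function.Periodic.qParam 1 (τ : ℂ) ^ 1 := fun τ =>
    hG ▸ eq_cuspFunction τ one_ne_zero hper
  have hq := qParam_tendsto_atImInfty (h := 1) one_pos
  have hG0 : G 0 = g :=
    tendsto_nhds_unique (hA.continuousAt.tendsto.comp hq) (hg.congr fun τ => (hGq τ).symm)
  have hc : ContinuousAt (fun q => deriv G q * q - G q) 0 :=
    (hA.deriv.continuousAt.mul continuousAt_id).sub hA.continuousAt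
  have hne : ∀ᶠ q in 𝓝 (0 : ℂ), deriv G q * q - G q ≠ 0 := by
    apply hc.eventually_ne
    simpa [hG0] using hg0
  have hev := hq.eventually (hne.and hA.eventually_analyticAt)
  obtain ⟨A, hA'⟩ := (atImInfty_mem _).1 hev
  refine ⟨A, fun τ hτ => ?_⟩
  obtain ⟨h1, h2⟩ := hA' τ hτ
  have hq0 : ∀ z : ℂ, Function.Periodic.qParam 1 z ≠ 0 := fun z =>
    Function.Periodic.qParam_ne_zero z
  have hd : HasDerivAt (Function.Periodic.qParam 1)
      (Function.Periodic.qParam 1 (τ : ℂ) * (2 * Real.pi * Complex.I)) (τ : ℂ) := by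
    have h3 : HasDerivAt (fun z : ℂ => 2 * (Real.pi : ℂ) * Complex.I * z / ((1 : ℝ) : ℂ))
        (2 * Real.pi * Complex.I) (τ : ℂ) := by
      simpa using (hasDerivAt_id (τ : ℂ)).const_mul (2 * (Real.pi : ℂ) * Complex.I)
    exact h3.cexp
  have h4 := (h2.differentiableAt.hasDerivAt.comp (τ : ℂ) hd).div hd (hq0 _)
  have e : J ∘ ofComplex =ᶠ[𝓝 (τ : ℂ)]
      (G ∘ Function.Periodic.qParam 1) / Function.Periodic.qParam 1 := by
    filter_upwards [isOpen_upperHalfPlaneSet.mem_nhds τ.im_pos] with z hz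
    have h5 := hGq ⟨z, hz⟩
    simp only [Function.comp_apply, Pi.div_apply, ofComplex_apply_of_im_pos hz]
    rw [eq_div_iff (hq0 z), h5, pow_one]
  rw [e.deriv_eq, h4.deriv]
  apply div_ne_zero _ (pow_ne_zero _ (hq0 _))
  intro h6
  have h7 : (deriv G (Function.Periodic.qParam 1 (τ : ℂ)) * Function.Periodic.qParam 1 (τ : ℂ) -
      G (Function.Periodic.qParam 1 (τ : ℂ))) *
      (Function.Periodic.qParam 1 (τ : ℂ) * (2 * Real.pi * Complex.I)) = 0 := by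
    rw [← h6, Function.comp_apply]
    ring
  exact mul_ne_zero h1 (mul_ne_zero (hq0 _) Complex.two_pi_I_ne_zero) h7

/-- `J` has finitely many critical values. -/
theorem J_crit : ∃ B₀ : Finset ℂ, ∀ τ : ℍ, J τ ∉ B₀ → deriv (J ∘ ofComplex) τ ≠ 0 := by
  obtain ⟨A, hA⟩ := poly_crit_cusp
  have hK : IsCompact (UpperHalfPlane.coe '' ModularGroup.truncatedFundamentalDomain A) :=
    (ModularGroup.isCompact_truncatedFundamentalDomain A).image continuous_coe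
  have han : AnalyticOnNhd ℂ (deriv (J ∘ ofComplex)) {z : ℂ | 0 < z.im} :=
    (DifferentiableOn.analyticOnNhd J_hol isOpen_upperHalfPlaneSet).deriv
  have hfin : {z ∈ UpperHalfPlane.coe '' ModularGroup.truncatedFundamentalDomain A |
      deriv (J ∘ ofComplex) z = 0}.Finite := by
    by_contra hinf
    obtain ⟨x, hx, hacc⟩ := Set.Infinite.exists_accPt_of_subset_isCompact hinf hK
      (Set.sep_subset _ _)
    obtain ⟨ξ, -, rfl⟩ := hx
    rw [accPt_iff_frequently_nhdsNE] at hacc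
    have hz := han.eqOn_zero_of_preconnected_of_frequently_eq_zero
      (convex_halfSpace_im_gt 0).isPreconnected ξ.im_pos (hacc.mono fun y hy => hy.2)
    obtain ⟨τ, hτ⟩ := poly_exists_im A
    exact hA τ hτ (hz τ.im_pos)
  refine ⟨hfin.toFinset.image (J ∘ ofComplex), fun τ hτ h0 => hτ ?_⟩
  obtain ⟨γ, hγ⟩ := ModularGroup.exists_smul_mem_fd τ
  have h1 : deriv (J ∘ ofComplex) ((γ • τ : ℍ) : ℂ) = 0 := by
    apply poly_crit_smul γ⁻¹
    rwa [inv_smul_smul]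
  have h2 : (γ • τ).im ≤ A := by
    by_contra h3
    exact hA _ (not_le.1 h3).le h1
  refine Finset.mem_image.2 ⟨((γ • τ : ℍ) : ℂ), ?_, ?_⟩
  · rw [Set.Finite.mem_toFinset]
    exact ⟨⟨γ • τ, ⟨hγ, h2⟩, rfl⟩, h1⟩
  · rw [Function.comp_apply, ofComplex_apply, J_smul]

end

end Pool.Agent.P.MP_a60a76_nt.SP
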