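import Pool.Agent.P.MP_a60a76_nt.SP.Poly
import Pool.Agent.P.MP_a60a76_nt.SP.JInj
import Pool.Agent.P.MP_a60a76_nt.SP.Res

namespace Pool.Agent.P.MP_a60a76_nt.SP

open Polynomial UpperHalfPlane PeriodPair
open scoped MatrixGroups UpperHalfPlane Matrix Modular Topology Classical

noncomputable section

namespace SecAux

open Filter

theorem impl (f : ℂ × ℂ → ℂ) (u : ℂ × ℂ) (cdf : ContDiffAt ℂ 1 f u) {c : ℂ}
    (hd : HasDerivAt (fun y => f (u.1, y)) c u.2) (hc : c ≠ 0) :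
    ∃ φ : ℂ → ℂ, φ u.1 = u.2 ∧ (∀ᶠ x in 𝓝 u.1, DifferentiableAt ℂ φ x ∧ f (x, φ x) = f u) ∧
      ∀ᶠ v in 𝓝 u, f v = f u → φ v.1 = v.2 := by
  have h1 : HasFDerivAt f (fderiv ℂ f u) (u.1, u.2) :=
    (cdf.differentiableAt one_ne_zero).hasFDerivAt
  have h2 : HasFDerivAt (fun y => f (u.1, y))
      (fderiv ℂ f u ∘L ContinuousLinearMap.inr ℂ ℂ ℂ) u.2 :=
    h1.comp u.2 (hasFDerivAt_prodMk_right u.1 u.2)
  have h3 := h2.unique hd.hasFDerivAt
  have hinv : (fderiv ℂ f u ∘L ContinuousLinearMap.inr ℂ ℂ ℂ).IsInvertible := by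
    rw [h3]
    exact ⟨ContinuousLinearEquiv.unitsEquivAut ℂ (Units.mk0 c hc), by ext; simp⟩
  refine ⟨cdf.implicitFunction one_ne_zero hinv, cdf.implicitFunction_apply_self _ _, ?_, ?_⟩
  · have h4 := (cdf.contDiffAt_implicitFunction one_ne_zero hinv).eventually (by simp)
    filter_upwards [h4, cdf.eventually_apply_implicitFunction one_ne_zero hinv] with x a b
    exact ⟨a.differentiableAt one_ne_zero, b⟩
  · filter_upwards [cdf.eventually_apply_eq_iff_implicitFunction one_ne_zero hinv] with v h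
    exact h.1

theorem contDiff_evalEval (G : ℂ[X][X]) : ContDiff ℂ 1 fun v : ℂ × ℂ => G.evalEval v.1 v.2 := by
  induction G using Polynomial.induction_on' with
  | add p q hp hq => simpa only [evalEval_add] using hp.add hq
  | monomial n a =>
    have h : (fun v : ℂ × ℂ => (monomial n a : ℂ[X][X]).evalEval v.1 v.2) =
        fun v => aeval v.1 a * v.2 ^ n := by
      funext v
      simp [evalEval, eval_monomial]
    rw [h]
    exact ((a.contDiff_aeval 1).comp contDiff_fst).mul (contDiff_snd.pow n)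

theorem local_root (G : ℂ[X][X]) (x y : ℂ) (h0 : G.evalEval x y = 0)
    (h1 : (derivative G).evalEval x y ≠ 0) :
    ∃ φ : ℂ → ℂ, φ x = y ∧ ∀ᶠ z in 𝓝 x, DifferentiableAt ℂ φ z ∧ G.evalEval z (φ z) = 0 := by
  have hd : HasDerivAt (fun w => G.evalEval x w) ((derivative G).evalEval x y) y := by
    have := (G.map (evalRingHom x)).hasDerivAt y
    simpa only [derivative_map, map_evalRingHom_eval] using this
  obtain ⟨φ, a, b, -⟩ := impl (fun v : ℂ × ℂ => G.evalEval v.1 v.2) (x, y)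
    (contDiff_evalEval G).contDiffAt hd h1
  refine ⟨φ, a, b.mono fun z hz => ⟨hz.1, hz.2.trans h0⟩⟩

theorem local_inv (τ : ℍ) (h : deriv (J ∘ ofComplex) τ ≠ 0) :
    (∃ t : ℂ → ℍ, ∀ᶠ x in 𝓝 (J τ), DifferentiableAt ℂ (fun x => (t x : ℂ)) x ∧ J (t x) = x) ∧
      ∃ ψ : ℂ → ℂ, ∀ᶠ σ in 𝓝 τ, ψ (J σ) = σ := by
  have ho : IsOpen {z : ℂ | 0 < z.im} := isOpen_lt continuous_const Complex.continuous_im
  have hA : AnalyticAt ℂ (J ∘ ofComplex) τ :=
    DifferentiableOn.analyticAt J_hol (ho.mem_nhds τ.im_pos)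
  have hc : ContDiffAt ℂ 1 (fun v : ℂ × ℂ => (J ∘ ofComplex) v.2 - v.1) (J τ, (τ : ℂ)) :=
    (ContDiffAt.comp (J τ, (τ : ℂ)) (g := J ∘ ofComplex) (f := Prod.snd) hA.contDiffAt
      contDiffAt_snd).sub contDiffAt_fst
  obtain ⟨φ, a, b, c⟩ := impl _ _ hc (hA.differentiableAt.hasDerivAt.sub_const (J τ)) h
  simp only [Function.comp_apply, ofComplex_apply, sub_self] at a b c
  constructor
  · have hcont : ContinuousAt φ (J τ) := b.self_of_nhds.1.continuousAt
    have hpos : ∀ᶠ x in 𝓝 (J τ), 0 < (φ x).im :=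
      hcont.eventually_mem (ho.mem_nhds (by rw [a]; exact τ.im_pos))
    refine ⟨fun x => ofComplex (φ x), ?_⟩
    filter_upwards [b, hpos.eventually_nhds] with x hx hp
    refine ⟨hx.1.congr_of_eventuallyEq (hp.mono fun z hz => ?_), sub_eq_zero.1 hx.2⟩
    simp only [ofComplex_apply_of_im_pos hz]
  · refine ⟨φ, ?_⟩
    have ht : Tendsto (fun σ : ℍ => (J σ, (σ : ℂ))) (𝓝 τ) (𝓝 (J τ, (τ : ℂ))) :=
      (J_continuous.prodMk continuous_coe).tendsto τ
    filter_upwards [ht.eventually c] with σ hσ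
    exact hσ (by simp)

theorem diff_smul (γ : SL(2, ℤ)) {t : ℂ → ℍ} {x : ℂ}
    (h : DifferentiableAt ℂ (fun x => (t x : ℂ)) x) :
    DifferentiableAt ℂ (fun x => ((γ • t x : ℍ) : ℂ)) x := by
  simp only [coe_specialLinearGroup_apply]
  refine ((h.const_mul _).add_const _).div ((h.const_mul _).add_const _) ?_
  intro h0
  have h1 := coe_specialLinearGroup_apply γ (t x)
  rw [h0, div_zero] at h1
  exact (γ • t x).ne_zero h1

theorem cont_of_diff {t : ℂ → ℍ} {x : ℂ} (h : DifferentiableAt ℂ (fun x => (t x : ℂ)) x) :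
    ContinuousAt t x :=
  isEmbedding_coe.isInducing.continuousAt_iff.2 h.continuousAt

theorem eval_C_ne_zero {G : ℂ[X][X]} (hG : Irreducible G) (h2 : ∃ i, 1 ≤ (G.coeff i).natDegree)
    (b : ℂ) : G.eval (C b) ≠ 0 := by
  intro h
  obtain ⟨q, hq⟩ := dvd_iff_isRoot.2 h
  obtain ⟨i, hi⟩ := h2
  have hu : IsUnit q := (hG.isUnit_or_isUnit hq).resolve_left (not_isUnit_X_sub_C _)
  obtain ⟨r, hr, rfl⟩ := Polynomial.isUnit_iff.1 hu
  obtain ⟨c, -, rfl⟩ := Polynomial.isUnit_iff.1 hr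
  have : G = (X * C c - C (b * c) : ℂ[X]).map C := by
    rw [hq]
    simp only [Polynomial.map_sub, Polynomial.map_mul, map_X, map_C, map_mul]
    ring
  rw [this, coeff_map, natDegree_C] at hi
  omega

theorem all_roots {p : ℂ[X]} (hp : p ≠ 0) {R : Finset ℂ} (hR : p.natDegree ≤ R.card) (f : ℂ → ℂ)
    (hf : ∀ y ∈ R, p.eval (f y) = 0) (hinj : ∀ y ∈ R, ∀ y' ∈ R, y ≠ y' → f y ≠ f y') {w : ℂ}
    (hw : p.eval w = 0) : ∃ y ∈ R, w = f y := by
  have h1 : R.image f ⊆ p.roots.toFinset := by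
    intro z hz
    obtain ⟨y, hy, rfl⟩ := Finset.mem_image.1 hz
    exact Multiset.mem_toFinset.2 ((mem_roots hp).2 (hf y hy))
  have h2 : (R.image f).card = R.card :=
    Finset.card_image_of_injOn fun y hy y' hy' h => by_contra fun hne => hinj y hy y' hy' hne h
  have h3 : p.roots.toFinset.card ≤ (R.image f).card :=
    (Multiset.toFinset_card_le _).trans ((card_roots' p).trans (h2 ▸ hR))
  have h4 := Finset.eq_of_subset_of_card_le h1 h3
  have h5 : w ∈ R.image f := h4 ▸ Multiset.mem_toFinset.2 ((mem_roots hp).2 hw)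
  obtain ⟨y, hy, rfl⟩ := Finset.mem_image.1 h5
  exact ⟨y, hy, rfl⟩

theorem sec_of (G : ℂ[X][X]) (B B₀ : Finset ℂ)
    (hB₀ : ∀ τ : ℍ, J τ ∉ B₀ → deriv (J ∘ ofComplex) τ ≠ 0)
    (hlc : ∀ x, x ∉ B → G.leadingCoeff.eval x ≠ 0)
    (hsep : ∀ x, x ∉ B → ∀ y, G.evalEval x y = 0 → (derivative G).evalEval x y ≠ 0)
    (hx : ∀ x, x ∉ B → x ∉ B₀) (hy : ∀ x, x ∉ B → ∀ y, G.evalEval x y = 0 → y ∉ B₀) :
    Sec (EB G B) B := by
  intro x₁ hx₁
  have hne : ∀ x, x ∉ B → G.map (evalRingHom x) ≠ 0 := by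
    intro x h h0
    have := congrArg (fun p => p.coeff G.natDegree) h0
    simp only [coeff_map, coeff_zero, coe_evalRingHom] at this
    exact hlc x h this
  obtain ⟨R, hR⟩ : ∃ R, R = (G.map (evalRingHom x₁)).roots.toFinset := ⟨_, rfl⟩
  have hRm : ∀ y ∈ R, G.evalEval x₁ y = 0 := by
    intro y h
    rw [hR, Multiset.mem_toFinset, mem_roots (hne x₁ hx₁)] at h
    simpa only [IsRoot.def, map_evalRingHom_eval] using h
  have hRc : R.card = G.natDegree := by
    have hnd : (G.map (evalRingHom x₁)).roots.Nodup := by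
      rw [Multiset.nodup_iff_count_le_one]
      intro y
      rw [count_roots]
      by_contra hlt
      have := (one_lt_rootMultiplicity_iff_isRoot (hne x₁ hx₁)).1 (not_le.1 hlt)
      simp only [IsRoot.def, derivative_map, map_evalRingHom_eval] at this
      exact hsep x₁ hx₁ y this.1 this.2
    rw [hR, Multiset.toFinset_card_of_nodup hnd,
      ← (IsAlgClosed.splits (G.map (evalRingHom x₁))).natDegree_eq_card_roots]
    exact natDegree_map_of_leadingCoeff_ne_zero _ (hlc x₁ hx₁)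
  have hT : ∀ y ∈ R, ∃ T : ℂ → ℍ, J (T x₁) = y ∧
      ∀ᶠ x in 𝓝 x₁, DifferentiableAt ℂ (fun x => (T x : ℂ)) x ∧ G.evalEval x (J (T x)) = 0 := by
    intro y h
    obtain ⟨φ, a, b⟩ := local_root G x₁ y (hRm y h) (hsep x₁ hx₁ y (hRm y h))
    obtain ⟨τ, rfl⟩ := J_surj y
    obtain ⟨⟨t, ht⟩, -⟩ := local_inv τ (hB₀ τ (hy x₁ hx₁ _ (hRm _ h)))
    have hc : Tendsto φ (𝓝 x₁) (𝓝 (J τ)) := a ▸ b.self_of_nhds.1.continuousAt
    refine ⟨fun x => t (φ x), by simp only [a]; exact ht.self_of_nhds.2, ?_⟩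
    filter_upwards [b, hc.eventually ht] with x h1 h2
    exact ⟨h2.1.comp x h1.1, by rw [h2.2]; exact h1.2⟩
  choose! T hT1 hT2 using hT
  obtain ⟨τ₁, hτ₁⟩ := J_surj x₁
  obtain ⟨⟨t, ht⟩, -⟩ := local_inv τ₁ (hB₀ τ₁ (by rw [hτ₁]; exact hx x₁ hx₁))
  rw [hτ₁] at ht
  have e1 : ∀ᶠ x in 𝓝 x₁, x ∉ B :=
    B.finite_toSet.isClosed.isOpen_compl.mem_nhds (show x₁ ∈ (B : Set ℂ)ᶜ from hx₁)
  have e2 := (Filter.eventually_all_finset R).2 hT2
  have e3 : ∀ᶠ x in 𝓝 x₁, ∀ y ∈ R, ∀ y' ∈ R, y ≠ y' → J (T y x) ≠ J (T y' x) := by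
    refine (Filter.eventually_all_finset R).2 fun y h => (Filter.eventually_all_finset R).2
      fun y' h' => ?_
    by_cases hyy : y = y'
    · exact Eventually.of_forall fun _ h => absurd hyy h
    · have c1 := J_continuous.continuousAt.comp (cont_of_diff (hT2 y h).self_of_nhds.1)
      have c2 := J_continuous.continuousAt.comp (cont_of_diff (hT2 y' h').self_of_nhds.1)
      have := (c1.sub c2).eventually_ne (y := 0)
        (by simp only [Pi.sub_apply, Function.comp_apply, hT1 y h, hT1 y' h']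
            exact sub_ne_zero.2 hyy)
      exact this.mono fun x hx _ => sub_ne_zero.1 hx
  obtain ⟨r, hr, hball⟩ := Metric.eventually_nhds_iff_ball.1 (e1.and (ht.and (e2.and e3)))
  have hall : ∀ x ∈ Metric.ball x₁ r, ∀ w, G.evalEval x w = 0 → ∃ y ∈ R, w = J (T y x) := by
    intro x h w hw
    refine all_roots (hne x (hball x h).1) (hRc ▸ natDegree_map_le) (fun y => J (T y x))
      (fun y hy => ?_) (hball x h).2.2.2 (by rw [map_evalRingHom_eval]; exact hw)
    rw [map_evalRingHom_eval]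
    exact ((hball x h).2.2.1 y hy).2
  refine ⟨r, hr, fun x h => (hball x h).1, fun ξ hξ h₀ => ?_⟩
  obtain ⟨y, hyR, hyξ⟩ := hall _ h₀ _ hξ.2
  obtain ⟨γ, hγ⟩ := J_inj (hball _ h₀).2.1.2
  obtain ⟨γ', hγ'⟩ := J_inj hyξ.symm
  have d1 : ∀ x ∈ Metric.ball x₁ r, DifferentiableAt ℂ (fun x => ((γ • t x : ℍ) : ℂ)) x :=
    fun x h => diff_smul γ (hball x h).2.1.1
  have d2 : ∀ x ∈ Metric.ball x₁ r, DifferentiableAt ℂ (fun x => ((γ' • T y x : ℍ) : ℂ)) x :=
    fun x h => diff_smul γ' ((hball x h).2.2.1 y hyR).1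
  refine ⟨fun x => (γ • t x, γ' • T y x), fun x h => (d1 x h).differentiableWithinAt,
    fun x h => (d2 x h).differentiableWithinAt, fun x h => ?_, Prod.ext hγ.symm hγ'.symm, ?_⟩
  · have h1 : J (γ • t x) = x := by rw [J_smul]; exact (hball x h).2.1.2
    refine ⟨⟨?_, ?_⟩, h1⟩
    · show J (γ • t x) ∉ B
      rw [h1]; exact (hball x h).1
    · show G.evalEval (J (γ • t x)) (J (γ' • T y x)) = 0
      rw [h1, J_smul]; exact ((hball x h).2.2.1 y hyR).2
  · obtain ⟨-, ψ₁, hψ₁⟩ := local_inv ξ.1 (hB₀ _ (hx _ hξ.1))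
    obtain ⟨-, ψ₂, hψ₂⟩ := local_inv ξ.2 (hB₀ _ (hy _ hξ.1 _ hξ.2))
    have cJ : ContinuousAt (fun ξ' : ℍ × ℍ => J ξ'.1) ξ :=
      (J_continuous.comp continuous_fst).continuousAt
    have cJ2 : ContinuousAt (fun ξ' : ℍ × ℍ => J ξ'.2) ξ :=
      (J_continuous.comp continuous_snd).continuousAt
    have t1 : Tendsto (fun ξ' : ℍ × ℍ => γ • t (J ξ'.1)) (𝓝 ξ) (𝓝 ξ.1) := by
      have := ContinuousAt.comp (f := fun ξ' : ℍ × ℍ => J ξ'.1) (cont_of_diff (d1 _ h₀)) cJ
      rw [ContinuousAt, Function.comp_apply, ← hγ] at this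
      exact this
    have t2 : Tendsto (fun ξ' : ℍ × ℍ => γ' • T y (J ξ'.1)) (𝓝 ξ) (𝓝 ξ.2) := by
      have := ContinuousAt.comp (f := fun ξ' : ℍ × ℍ => J ξ'.1) (cont_of_diff (d2 _ h₀)) cJ
      rw [ContinuousAt, Function.comp_apply, ← hγ'] at this
      exact this
    have f1 : ∀ᶠ ξ' : ℍ × ℍ in 𝓝 ξ, J ξ'.1 ∈ Metric.ball x₁ r :=
      cJ.eventually_mem (Metric.isOpen_ball.mem_nhds h₀)
    have f2 : ∀ᶠ ξ' : ℍ × ℍ in 𝓝 ξ, ∀ y' ∈ R, y ≠ y' → J ξ'.2 ≠ J (T y' (J ξ'.1)) := by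
      refine (Filter.eventually_all_finset R).2 fun y' h' => ?_
      by_cases hyy : y = y'
      · exact Eventually.of_forall fun _ h => absurd hyy h
      · have c1 := J_continuous.continuousAt.comp (ContinuousAt.comp
          (f := fun ξ' : ℍ × ℍ => J ξ'.1) (cont_of_diff ((hball _ h₀).2.2.1 y' h').1) cJ)
        have := (cJ2.sub c1).eventually_ne (y := 0) (by
          simp only [Pi.sub_apply, Function.comp_apply, hyξ]
          exact sub_ne_zero.2 ((hball _ h₀).2.2.2 y hyR y' h' hyy))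
        exact this.mono fun x hx _ => sub_ne_zero.1 hx
    have g1 := (continuous_fst.tendsto ξ).eventually hψ₁
    have g2 := (continuous_snd.tendsto ξ).eventually hψ₂
    filter_upwards [self_mem_nhdsWithin, nhdsWithin_le_nhds f1, nhdsWithin_le_nhds f2,
      nhdsWithin_le_nhds g1, nhdsWithin_le_nhds g2, nhdsWithin_le_nhds (t1.eventually hψ₁),
      nhdsWithin_le_nhds (t2.eventually hψ₂)] with ξ' hE a1 a2 a3 a4 a5 a6
    obtain ⟨y', hy'R, hy'⟩ := hall _ a1 _ hE.2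
    obtain rfl : y = y' := by_contra fun h => a2 y' hy'R h hy'
    refine Prod.ext (UpperHalfPlane.ext ?_) (UpperHalfPlane.ext ?_)
    · rw [J_smul, (hball _ a1).2.1.2] at a5
      exact a5.symm.trans a3
    · rw [J_smul, ← hy'] at a6
      exact a6.symm.trans a4

end SecAux

/-- Local sections away from finitely many bad values. -/
theorem exists_sec (G : ℂ[X][X]) (hG : Irreducible G) (h1 : 1 ≤ G.natDegree)
    (h2 : ∃ i, 1 ≤ (G.coeff i).natDegree) :
    ∃ B : Finset ℂ, Sec (EB G B) B ∧ ∀ x, x ∉ B → G.leadingCoeff.eval x ≠ 0 := by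
  obtain ⟨B₀, hB₀⟩ := J_crit
  have hlc : G.leadingCoeff ≠ 0 := leadingCoeff_ne_zero.2 hG.ne_zero
  have hres : resultant G (derivative G) ≠ 0 := by
    refine resultant_ne_zero_of_irreducible hG h1 fun hd => ?_
    have h0 : derivative G ≠ 0 := fun h => by
      have := derivative_eq_zero.1 h
      omega
    have := natDegree_le_of_dvd hd h0
    have := natDegree_derivative_lt (show G.natDegree ≠ 0 by omega)
    omega
  have hl : ∀ x, x ∉ G.leadingCoeff.roots.toFinset ∪ (resultant G (derivative G)).roots.toFinset ∪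
      B₀ ∪ B₀.biUnion (fun b => (G.eval (C b)).roots.toFinset) → G.leadingCoeff.eval x ≠ 0 := by
    intro x hx h
    exact hx (by simp [hlc, h])
  refine ⟨_, SecAux.sec_of G _ B₀ hB₀ hl ?_ ?_ ?_, hl⟩
  · intro x hx y h h'
    have := map_resultant_eq_zero (evalRingHom x) (P := G) (Q := derivative G) h1 (u := y)
      (by rw [map_evalRingHom_eval]; exact h) (by rw [map_evalRingHom_eval]; exact h')
    refine hx (Finset.mem_union_left _ (Finset.mem_union_left _ (Finset.mem_union_right _ ?_)))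
    exact Multiset.mem_toFinset.2 ((mem_roots hres).2 this)
  · intro x hx h
    exact hx (Finset.mem_union_left _ (Finset.mem_union_right _ h))
  · intro x hx y h hy
    refine hx (Finset.mem_union_right _ (Finset.mem_biUnion.2 ⟨y, hy, ?_⟩))
    exact Multiset.mem_toFinset.2 ((mem_roots (SecAux.eval_C_ne_zero hG h2 y)).2 h)

end

end Pool.Agent.P.MP_a60a76_nt.SP
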