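import Pool.Agent.P.MP_a60a76_nt.SP.Unif
import Pool.Agent.P.MP_a60a76_nt.SP.Scale

namespace Pool.Agent.P.MP_a60a76_nt.SP

open Polynomial UpperHalfPlane PeriodPair
open scoped MatrixGroups UpperHalfPlane Matrix Modular Topology Classical

noncomputable section

theorem sep_int (p : ℕ) [NeZero p] (τ : ℍ) (a b : ℤ)
    (h : ((a : ℂ) * τ + b) / p ∈ (lat τ).lattice) : (a : ZMod p) = 0 ∧ (b : ZMod p) = 0 := by
  obtain ⟨m, n, hmn⟩ := (mem_lat τ _).1 h
  have hp : (p : ℂ) ≠ 0 := by exact_mod_cast NeZero.ne p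
  rw [div_eq_iff hp] at hmn
  have h1 := congrArg Complex.im hmn
  have h2 := congrArg Complex.re hmn
  simp at h1 h2
  have him : τ.im ≠ 0 := τ.im_pos.ne'
  have ha : (a : ℝ) = m * p := by
    have : ((a : ℝ) - m * p) * τ.im = 0 := by linarith
    rcases mul_eq_zero.1 this with h | h
    · linarith
    · exact absurd h him
  have hb : (b : ℝ) = n * p := by
    rw [ha] at h2
    linarith
  have ha' : a = m * p := by exact_mod_cast ha
  have hb' : b = n * p := by exact_mod_cast hb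
  subst ha' hb'
  simp

theorem sep_zero (p : ℕ) [NeZero p] (τ : ℍ) (v : Fin 2 → ZMod p)
    (h : zv p v τ ∈ (lat τ).lattice) : v = 0 := by
  have h1 := sep_int p τ ((v 0).val : ℤ) ((v 1).val : ℤ) (by simpa [zv] using h)
  simp only [Int.cast_natCast, ZMod.natCast_zmod_val] at h1
  funext i
  fin_cases i
  · exact h1.1
  · exact h1.2

theorem sep_sub (p : ℕ) [NeZero p] (τ : ℍ) (v w : Fin 2 → ZMod p)
    (h : zv p v τ - zv p w τ ∈ (lat τ).lattice) : v = w := by
  have e : zv p v τ - zv p w τ =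
      ((((((v 0).val : ℤ) - ((w 0).val : ℤ) : ℤ) : ℂ)) * τ +
        ((((v 1).val : ℤ) - ((w 1).val : ℤ) : ℤ) : ℂ)) / p := by
    simp only [zv]
    push_cast
    ring
  rw [e] at h
  have h1 := sep_int p τ _ _ h
  simp only [Int.cast_sub, Int.cast_natCast, ZMod.natCast_zmod_val, sub_eq_zero] at h1
  funext i
  fin_cases i
  · exact h1.1
  · exact h1.2

theorem sep_add (p : ℕ) [NeZero p] (τ : ℍ) (v w : Fin 2 → ZMod p)
    (h : zv p v τ + zv p w τ ∈ (lat τ).lattice) : v = -w := by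
  have e : zv p v τ + zv p w τ =
      ((((((v 0).val : ℤ) + ((w 0).val : ℤ) : ℤ) : ℂ)) * τ +
        ((((v 1).val : ℤ) + ((w 1).val : ℤ) : ℤ) : ℂ)) / p := by
    simp only [zv]
    push_cast
    ring
  rw [e] at h
  have h1 := sep_int p τ _ _ h
  simp only [Int.cast_add, Int.cast_natCast, ZMod.natCast_zmod_val, add_eq_zero_iff_eq_neg] at h1
  funext i
  fin_cases i
  · exact h1.1
  · exact h1.2

theorem sep_wp_fibre (p : ℕ) [NeZero p] (τ : ℍ) (x : ℂ) :
    (Finset.univ.filter fun v : Fin 2 → ZMod p =>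
      v ≠ 0 ∧ (lat τ).weierstrassP (zv p v τ) = x).card ≤ 2 := by
  set F := Finset.univ.filter fun v : Fin 2 → ZMod p =>
      v ≠ 0 ∧ (lat τ).weierstrassP (zv p v τ) = x with hF
  rcases F.eq_empty_or_nonempty with h | ⟨w, hw⟩
  · simp [h]
  · have hsub : F ⊆ {w, -w} := by
      intro v hv
      simp only [hF, Finset.mem_filter, Finset.mem_univ, true_and] at hv hw
      have := wp_eq_iff τ (fun h => hv.1 (sep_zero p τ v h)) (fun h => hw.1 (sep_zero p τ w h))
        (hv.2.trans hw.2.symm)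
      rcases this with h | h
      · simp [sep_sub p τ v w h]
      · simp [sep_add p τ v w h]
    exact (Finset.card_le_card hsub).trans Finset.card_le_two

theorem hv_fibre (p : ℕ) [NeZero p] (τ : ℍ) (c : ℂ) :
    (Finset.univ.filter fun v : Fin 2 → ZMod p => hv p v τ = c).card ≤ 7 := by
  set A : ℂ := (12 * (lat τ).g₂) ^ 2 with hA
  set B : ℂ := 216 * (lat τ).g₃ with hB
  set Q : ℂ[X] := C B * X ^ 3 + C A * X ^ 2 - C (c * disc τ) with hQ
  have hd := disc_ne_zero τ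
  have hQ0 : Q ≠ 0 := by
    intro h0
    have h3 : Q.coeff 3 = B := by simp [hQ, coeff_X_pow]
    have h2 : Q.coeff 2 = A := by simp [hQ, coeff_X_pow]
    rw [h0, coeff_zero] at h2 h3
    have g2 : (lat τ).g₂ = 0 := by
      have := pow_eq_zero_iff (two_ne_zero) |>.1 (hA ▸ h2.symm)
      simpa using this
    have g3 : (lat τ).g₃ = 0 := by
      have := hB ▸ h3.symm
      simpa using this
    exact hd (by simp [disc, g2, g3])
  have hdeg : Q.natDegree ≤ 3 := by
    rw [hQ]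
    compute_degree
  have hsub : (Finset.univ.filter fun v : Fin 2 → ZMod p => hv p v τ = c) ⊆
      insert 0 (Q.roots.toFinset.biUnion fun x => Finset.univ.filter fun v : Fin 2 → ZMod p =>
        v ≠ 0 ∧ (lat τ).weierstrassP (zv p v τ) = x) := by
    intro v hv'
    simp only [Finset.mem_filter, Finset.mem_univ, true_and] at hv'
    by_cases h0 : v = 0
    · simp [h0]
    · refine Finset.mem_insert_of_mem (Finset.mem_biUnion.2
        ⟨(lat τ).weierstrassP (zv p v τ), ?_, by simp [h0]⟩)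
      rw [Multiset.mem_toFinset, mem_roots hQ0, IsRoot.def]
      simp only [hv, hf] at hv'
      rw [div_eq_iff hd] at hv'
      simp only [hQ, eval_sub, eval_add, eval_mul, eval_C, eval_pow, eval_X]
      rw [← hv', hA, hB]
      ring
  refine (Finset.card_le_card hsub).trans ((Finset.card_insert_le _ _).trans ?_)
  have h1 := Finset.card_biUnion_le_card_mul Q.roots.toFinset
    (fun x => Finset.univ.filter fun v : Fin 2 → ZMod p =>
        v ≠ 0 ∧ (lat τ).weierstrassP (zv p v τ) = x) 2 (fun x _ => sep_wp_fibre p τ x)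
  have h2 : Q.roots.toFinset.card ≤ 3 :=
    (Multiset.toFinset_card_le _).trans ((card_roots' Q).trans hdeg)
  omega

theorem sep_avoid (B : Finset ℂ) (Λ : ℕ) (h : B.card ≤ Λ) : ∃ l ≤ Λ, (l : ℂ) ∉ B := by
  by_contra hcon
  push Not at hcon
  have := Finset.card_le_card_of_injOn (s := Finset.range (Λ + 1)) (t := B)
    (fun l : ℕ => (l : ℂ)) (fun l hl => hcon l (by simpa [Nat.lt_succ_iff] using hl))
    (fun a _ b _ hab => Nat.cast_injective (R := ℂ) hab)
  simp at this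
  omega

/-- The polynomial whose value at `l` is the resolvent. -/
def sepP (p : ℕ) [NeZero p] (μ : ℕ) (g : Matrix (Fin 2) (Fin 2) (ZMod p)) (τ τ' : ℍ) : ℂ[X] :=
  ∏ v : Fin 2 → ZMod p, (X - C (hv p v τ + μ * hv p (v ᵥ* g) τ'))

theorem sepP_eval (p : ℕ) [NeZero p] (l μ : ℕ) (g : Matrix (Fin 2) (Fin 2) (ZMod p))
    (τ τ' : ℍ) : (sepP p μ g τ τ').eval (l : ℂ) = wf p l μ g τ τ' := by
  simp only [sepP, wf, eval_prod, eval_sub, eval_X, eval_C]
  exact Finset.prod_congr rfl fun v _ => by ring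

theorem sepP_deg (p : ℕ) [NeZero p] (μ : ℕ) (g : Matrix (Fin 2) (Fin 2) (ZMod p))
    (τ τ' : ℍ) : (sepP p μ g τ τ').natDegree ≤ Fintype.card (Fin 2 → ZMod p) := by
  rw [sepP, natDegree_finsetProd_X_sub_C_eq_card, Finset.card_univ]

theorem sepP_eq (p : ℕ) [NeZero p] (μ : ℕ) (g g' : Matrix (Fin 2) (Fin 2) (ZMod p))
    (τ τ' : ℍ) (h : sepP p μ g τ τ' = sepP p μ g' τ τ') (v : Fin 2 → ZMod p) :
    ∃ v', hv p v τ + μ * hv p (v ᵥ* g) τ' = hv p v' τ + μ * hv p (v' ᵥ* g') τ' := by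
  have h1 : (sepP p μ g τ τ').eval (hv p v τ + μ * hv p (v ᵥ* g) τ') = 0 := by
    simp only [sepP, eval_prod, eval_sub, eval_X, eval_C]
    exact Finset.prod_eq_zero (Finset.mem_univ v) (sub_self _)
  rw [h] at h1
  simp only [sepP, eval_prod, eval_sub, eval_X, eval_C] at h1
  obtain ⟨v', -, hv'⟩ := Finset.prod_eq_zero_iff.1 h1
  exact ⟨v', sub_eq_zero.1 hv'⟩

/-- Separating parameters for boundedly many points. -/
theorem sep (p : ℕ) [NeZero p] (n : ℕ) : ∃ Λ : ℕ, ∀ s : Finset (ℍ × ℍ), s.card ≤ n →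
    ∃ l ≤ Λ, ∃ μ ≤ Λ, ∀ ξ ∈ s, ∀ c : ℂ,
      (Finset.univ.filter fun g : Matrix (Fin 2) (Fin 2) (ZMod p) =>
        wf p l μ g ξ.1 ξ.2 = c).card ≤ 2401 := by
  set N₁ := Fintype.card (((Fin 2 → ZMod p) × (Fin 2 → ZMod p)) ×
    ((Fin 2 → ZMod p) × (Fin 2 → ZMod p))) with hN₁
  set N₂ := Fintype.card (Matrix (Fin 2) (Fin 2) (ZMod p) × Matrix (Fin 2) (Fin 2) (ZMod p)) *
    Fintype.card (Fin 2 → ZMod p) with hN₂
  refine ⟨n * N₁ + n * N₂, fun s hs => ?_⟩
  obtain ⟨μ, hμ, hμB⟩ := sep_avoid (s.biUnion fun ξ => Finset.univ.image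
    fun q : ((Fin 2 → ZMod p) × (Fin 2 → ZMod p)) × ((Fin 2 → ZMod p) × (Fin 2 → ZMod p)) =>
      (hv p q.1.1 ξ.1 - hv p q.1.2 ξ.1) / (hv p q.2.2 ξ.2 - hv p q.2.1 ξ.2)) (n * N₁ + n * N₂) (by
    refine (Finset.card_biUnion_le_card_mul _ _ N₁ fun ξ _ => ?_).trans ?_
    · exact Finset.card_image_le.trans (by rw [Finset.card_univ])
    · exact (Nat.mul_le_mul_right _ hs).trans (Nat.le_add_right _ _))
  have hμsep : ∀ ξ ∈ s, ∀ v v' u u' : Fin 2 → ZMod p,
      hv p v ξ.1 + μ * hv p u ξ.2 = hv p v' ξ.1 + μ * hv p u' ξ.2 →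
        hv p v ξ.1 = hv p v' ξ.1 ∧ hv p u ξ.2 = hv p u' ξ.2 := by
    intro ξ hξ v v' u u' h
    have hb : hv p u ξ.2 = hv p u' ξ.2 := by
      by_contra hne
      apply hμB
      refine Finset.mem_biUnion.2 ⟨ξ, hξ, Finset.mem_image.2 ⟨((v, v'), (u, u')),
        Finset.mem_univ _, ?_⟩⟩
      have hne' : hv p u' ξ.2 - hv p u ξ.2 ≠ 0 := sub_ne_zero.2 (Ne.symm hne)
      rw [div_eq_iff hne']
      linear_combination h
    refine ⟨?_, hb⟩
    rw [hb] at h
    exact add_right_cancel h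
  obtain ⟨l, hl, hlB⟩ := sep_avoid (s.biUnion fun ξ => Finset.univ.biUnion
    fun q : Matrix (Fin 2) (Fin 2) (ZMod p) × Matrix (Fin 2) (Fin 2) (ZMod p) =>
      (sepP p μ q.1 ξ.1 ξ.2 - sepP p μ q.2 ξ.1 ξ.2).roots.toFinset) (n * N₁ + n * N₂) (by
    refine (Finset.card_biUnion_le_card_mul _ _ N₂ fun ξ _ => ?_).trans ?_
    · refine (Finset.card_biUnion_le_card_mul _ _ (Fintype.card (Fin 2 → ZMod p))
        fun q _ => ?_).trans (by rw [Finset.card_univ])
      refine (Multiset.toFinset_card_le _).trans ((card_roots' _).trans ?_)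
      exact (natDegree_sub_le _ _).trans (max_le (sepP_deg ..) (sepP_deg ..))
    · exact (Nat.mul_le_mul_right _ hs).trans (Nat.le_add_left _ _))
  refine ⟨l, hl, μ, hμ, fun ξ hξ c => ?_⟩
  set F := Finset.univ.filter fun g : Matrix (Fin 2) (Fin 2) (ZMod p) =>
    wf p l μ g ξ.1 ξ.2 = c with hF
  rcases F.eq_empty_or_nonempty with h | ⟨g₀, hg₀⟩
  · simp [h]
  have hP : ∀ g ∈ F, sepP p μ g ξ.1 ξ.2 = sepP p μ g₀ ξ.1 ξ.2 := by
    intro g hg
    by_contra hne
    apply hlB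
    refine Finset.mem_biUnion.2 ⟨ξ, hξ, Finset.mem_biUnion.2 ⟨(g, g₀), Finset.mem_univ _, ?_⟩⟩
    rw [Multiset.mem_toFinset, mem_roots (sub_ne_zero.2 hne), IsRoot.def, eval_sub, sepP_eval,
      sepP_eval]
    simp only [hF, Finset.mem_filter, Finset.mem_univ, true_and] at hg hg₀
    rw [hg, hg₀, sub_self]
  let R : Fin 2 → Finset (Fin 2 → ZMod p) := fun i =>
    (Finset.univ.filter fun v' : Fin 2 → ZMod p =>
      hv p v' ξ.1 = hv p (Pi.single i 1) ξ.1).biUnion fun v' =>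
        Finset.univ.filter fun w : Fin 2 → ZMod p => hv p w ξ.2 = hv p (v' ᵥ* g₀) ξ.2
  have hR : ∀ i, (R i).card ≤ 49 := fun i => by
    refine (Finset.card_biUnion_le_card_mul _ _ 7 fun v' _ => hv_fibre p ξ.2 _).trans ?_
    have := hv_fibre p ξ.1 (hv p (Pi.single i 1) ξ.1)
    omega
  have hmem : ∀ g ∈ F, ∀ i, g i ∈ R i := by
    intro g hg i
    obtain ⟨v', hv'⟩ := sepP_eq p μ g g₀ ξ.1 ξ.2 (hP g hg) (Pi.single i 1)
    obtain ⟨h1, h2⟩ := hμsep ξ hξ _ _ _ _ hv'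
    refine Finset.mem_biUnion.2 ⟨v', by simp [h1], ?_⟩
    rw [Matrix.single_one_vecMul] at h2
    simp only [Finset.mem_filter, Finset.mem_univ, true_and]
    exact h2
  have hcard := Finset.card_le_card_of_injOn (s := F) (t := R 0 ×ˢ R 1)
    (fun g => (g 0, g 1)) (fun g hg => by
      simp only [Finset.coe_product, Set.mem_prod, Finset.mem_coe]
      exact ⟨hmem g hg 0, hmem g hg 1⟩)
    (fun g _ g' _ h => by
      simp only [Prod.mk.injEq] at h
      funext i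
      fin_cases i
      · exact h.1
      · exact h.2)
  rw [Finset.card_product] at hcard
  calc F.card ≤ (R 0).card * (R 1).card := hcard
    _ ≤ 49 * 49 := Nat.mul_le_mul (hR 0) (hR 1)
    _ = 2401 := by norm_num

end

end Pool.Agent.P.MP_a60a76_nt.SP
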