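import Mathlib

/-! Definitions used in the statement: `p`-congruent and isogenous elliptic curves over `ℚ`. -/

namespace Pool.Agent.P.MP_a60a76_nt.SP

open WeierstrassCurve Polynomial
open scoped Classical

/-- `E₁` and `E₂` are `p`-congruent: there is a group isomorphism between the `p`-torsion
subgroups of the points over an algebraic closure of `ℚ` commuting with the Galois action. -/
def Congruent (p : ℕ) (E₁ E₂ : WeierstrassCurve ℚ) : Prop :=
  ∃ φ : AddSubgroup.torsionBy (E₁.baseChange (AlgebraicClosure ℚ)).toAffine.Point p ≃+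
      AddSubgroup.torsionBy (E₂.baseChange (AlgebraicClosure ℚ)).toAffine.Point p,
    ∀ (σ : AlgebraicClosure ℚ ≃ₐ[ℚ] AlgebraicClosure ℚ)
      (P Q : AddSubgroup.torsionBy (E₁.baseChange (AlgebraicClosure ℚ)).toAffine.Point p),
      (Q : (E₁.baseChange (AlgebraicClosure ℚ)).toAffine.Point) = Affine.Point.map σ.toAlgHom P →
        (φ Q : (E₂.baseChange (AlgebraicClosure ℚ)).toAffine.Point) = Affine.Point.map σ.toAlgHom (φ P)

/-- `E₁` and `E₂` are isogenous over `ℚ`: there is a nonzero group homomorphism between the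
complex points which, at all affine points where one nonzero polynomial `c(x)` does not vanish,
is given by rational functions `(a₁(x) + b₁(x) y) / c(x)`, `(a₂(x) + b₂(x) y) / c(x)` with
rational coefficients. -/
def Isogenous (E₁ E₂ : WeierstrassCurve ℚ) : Prop :=
  ∃ ψ : (E₁.baseChange ℂ).toAffine.Point →+ (E₂.baseChange ℂ).toAffine.Point, ψ ≠ 0 ∧ ∃ a₁ b₁ a₂ b₂ c : ℚ[X], c ≠ 0 ∧
    ∀ (x y : ℂ) (h : (E₁.baseChange ℂ).toAffine.Nonsingular x y), aeval x c ≠ 0 →
      ∃ h', ψ (Affine.Point.some x y h) =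
        Affine.Point.some ((aeval x a₁ + aeval x b₁ * y) / aeval x c)
          ((aeval x a₂ + aeval x b₂ * y) / aeval x c) h'

end Pool.Agent.P.MP_a60a76_nt.SP
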